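import Pool.Agent.Lib.MP_361a6f_ag.PP.WEY

/-!
# Row STA: the star operator of a graded `sl_2`-module
-/

universe w

set_option linter.unusedSectionVars false

namespace Pool.Agent.Lib.MP_361a6f_ag.PP

namespace StaB

theorem sgn_even (a : ℕ) : sgn (2 * a) = (-1) ^ a := by
  have h : 2 * a * (2 * a + 1) / 2 = a * (2 * a + 1) := by
    rw [mul_assoc]; exact Nat.mul_div_cancel_left _ (by norm_num)
  rw [sgn, h, mul_comm, pow_mul, Odd.neg_one_pow ⟨a, rfl⟩]

theorem sgn_odd (a : ℕ) : sgn (2 * a + 1) = (-1) ^ (a + 1) := by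
  have h : (2 * a + 1) * (2 * a + 1 + 1) / 2 = (2 * a + 1) * (a + 1) := by
    rw [show (2 * a + 1) * (2 * a + 1 + 1) = 2 * ((2 * a + 1) * (a + 1)) by ring]
    exact Nat.mul_div_cancel_left _ (by norm_num)
  rw [sgn, h, pow_mul, Odd.neg_one_pow ⟨a, rfl⟩]

theorem sgn_add_two (i : ℕ) : sgn (i + 2) = -sgn i := by
  obtain ⟨a, rfl | rfl⟩ := Nat.even_or_odd' i
  · rw [show 2 * a + 2 = 2 * (a + 1) by ring, sgn_even, sgn_even, pow_succ]; ring
  · rw [show 2 * a + 1 + 2 = 2 * (a + 1) + 1 by ring, sgn_odd, sgn_odd, pow_succ]; ring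

theorem sgn_mul {n i : ℕ} (hi : i ≤ 2 * n) :
    sgn i * sgn (2 * n - i) * (-1 : ℂ) ^ (n + i) = 1 := by
  obtain ⟨a, rfl | rfl⟩ := Nat.even_or_odd' i
  · obtain ⟨b, rfl⟩ : ∃ b, n = a + b := ⟨n - a, by omega⟩
    rw [show 2 * (a + b) - 2 * a = 2 * b by omega, sgn_even, sgn_even, ← pow_add, ← pow_add]
    exact Even.neg_one_pow ⟨2 * a + b, by ring⟩
  · obtain ⟨b, rfl⟩ : ∃ b, n = a + b + 1 := ⟨n - a - 1, by omega⟩
    rw [show 2 * (a + b + 1) - (2 * a + 1) = 2 * b + 1 by omega, sgn_odd, sgn_odd, ← pow_add,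
      ← pow_add]
    exact Even.neg_one_pow ⟨2 * a + b + 2, by ring⟩

section

variable {M : Type w} [AddCommGroup M] [Module ℂ M] {gr : ℕ → Submodule ℂ M} {n : ℕ}
  {L Λ : Module.End ℂ M}

theorem pow_adj {B : M →ₗ[ℂ] M →ₗ[ℂ] ℂ} {a : Module.End ℂ M} (h : ∀ x y, B (a x) y = B x (a y))
    (i : ℕ) : ∀ x y, B ((a ^ i) x) y = B x ((a ^ i) y) := by
  induction i with
  | zero => intro x y; simp
  | succ i ih =>
    intro x y
    rw [pow_succ', Module.End.mul_apply, h, ih, ← Module.End.mul_apply, ← pow_succ, pow_succ']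

theorem ex_adj {B : M →ₗ[ℂ] M →ₗ[ℂ] ℂ} {a : Module.End ℂ M} (h : ∀ x y, B (a x) y = B x (a y))
    (x y : M) : B (ex a x) y = B x (ex a y) := by
  rw [ex, LinearMap.sum_apply, LinearMap.sum_apply, map_sum, LinearMap.sum_apply, map_sum]
  refine Finset.sum_congr rfl fun i _ => ?_
  rw [LinearMap.smul_apply, LinearMap.smul_apply, map_smul, LinearMap.smul_apply, map_smul,
    pow_adj h]

theorem wop_adj {B : M →ₗ[ℂ] M →ₗ[ℂ] ℂ} (hL : ∀ x y, B (L x) y = B x (L y))
    (hΛ : ∀ x y, B (Λ x) y = B x (Λ y)) (x y : M) : B (wop L Λ x) y = B x (wop L Λ y) := by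
  have hΛ' : ∀ x y, B ((-Λ) x) y = B x ((-Λ) y) := by
    intro x y
    rw [LinearMap.neg_apply, LinearMap.neg_apply, map_neg, map_neg, LinearMap.neg_apply, hΛ]
  simp only [wop, Module.End.mul_apply]
  rw [ex_adj hL, ex_adj hΛ', ex_adj hL]

variable (S : Slm gr n L Λ)

theorem star_apply {i : ℕ} {x : M} (hx : x ∈ gr i) :
    star S.internal L Λ x = sgn i • wop L Λ x := by
  rw [star, Module.End.mul_apply, gop_apply _ _ hx, map_smul]

include S in
theorem scale {c : ℂ} (hc : c ≠ 0) : Slm gr n (c • L) (c⁻¹ • Λ) where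
  internal := S.internal
  top := S.top
  L_gr i x hx := (gr (i + 2)).smul_mem c (S.L_gr i x hx)
  Λ_gr i x hx := (gr i).smul_mem c⁻¹ (S.Λ_gr i x hx)
  Λ_low i x hi hx := by rw [LinearMap.smul_apply, S.Λ_low i x hi hx, smul_zero]
  comm i x hx := by
    simp only [LinearMap.smul_apply, map_smul, smul_smul]
    rw [mul_inv_cancel₀ hc, inv_mul_cancel₀ hc, one_smul, one_smul, S.comm i x hx]

theorem wop_scale {t : ℂ} (ht : t ≠ 0) :
    wop ((t ^ 2) • L) ((t ^ 2)⁻¹ • Λ) * gop S.internal (fun i => t ^ i) =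
      gop S.internal (fun i => t ^ i) * wop L Λ := by
  have hc : t ^ 2 ≠ 0 := pow_ne_zero 2 ht
  have S' := scale S hc
  have hL : IsNilpotent L := ⟨n + 1, S.wey_L_pow_eq_zero⟩
  have hΛ : IsNilpotent (-Λ) := (IsNilpotent.neg ⟨n + 1, S.wey_Λ_pow_eq_zero⟩)
  have hL' : IsNilpotent ((t ^ 2) • L) := ⟨n + 1, S'.wey_L_pow_eq_zero⟩
  have hΛ' : IsNilpotent (-((t ^ 2)⁻¹ • Λ)) := (IsNilpotent.neg ⟨n + 1, S'.wey_Λ_pow_eq_zero⟩)
  have e1 : ((t ^ 2) • L) * gop S.internal (fun i => t ^ i) =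
      gop S.internal (fun i => t ^ i) * L := by
    refine Slm.wey_hom_ext S.internal fun i x hx => ?_
    rw [Module.End.mul_apply, Module.End.mul_apply, gop_apply _ _ hx,
      gop_apply _ _ (S.L_gr i x hx), map_smul, LinearMap.smul_apply, smul_smul, ← pow_add]
  have e2 : (-((t ^ 2)⁻¹ • Λ)) * gop S.internal (fun i => t ^ i) =
      gop S.internal (fun i => t ^ i) * (-Λ) := by
    refine Slm.wey_hom_ext S.internal fun i x hx => ?_
    rw [Module.End.mul_apply, Module.End.mul_apply, gop_apply _ _ hx, map_smul,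
      LinearMap.neg_apply, LinearMap.neg_apply, LinearMap.smul_apply, map_neg, smul_neg]
    congr 1
    by_cases hi : i < 2
    · rw [S.Λ_low i x hi hx, smul_zero, smul_zero, map_zero]
    · obtain ⟨j, rfl⟩ : ∃ j, i = j + 2 := ⟨i - 2, by omega⟩
      rw [gop_apply _ _ (S.Λ_gr j x hx), smul_smul, pow_add, mul_assoc, mul_inv_cancel₀ hc,
        mul_one]
  have k1 := kexp_semiconj ℂ hL' hL e1
  have k2 := kexp_semiconj ℂ hΛ' hΛ e2
  rw [wey_wop_eq, wey_wop_eq, weyl, weyl, mul_assoc, k1, ← mul_assoc, mul_assoc (kexp ℂ _), k2,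
    ← mul_assoc, k1, mul_assoc, mul_assoc, mul_assoc]

theorem star_scale {c : ℂ} (hc : c ≠ 0) {i : ℕ} {x : M} (hi : i ≤ 2 * n) (hx : x ∈ gr i) :
    star S.internal (c • L) (c⁻¹ • Λ) x = (c ^ ((n : ℤ) - i)) • star S.internal L Λ x := by
  obtain ⟨t, rfl⟩ := IsAlgClosed.exists_pow_nat_eq c (n := 2) (by norm_num)
  have ht : t ≠ 0 := by rintro rfl; exact hc (by norm_num)
  have h1 := LinearMap.congr_fun (wop_scale S ht) x
  rw [Module.End.mul_apply, Module.End.mul_apply, gop_apply _ _ hx, map_smul] at h1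
  have h2 : wop L Λ x ∈ gr (2 * n - i) := by
    rw [wey_wop_eq]; exact S.wey_w_gr hi hx
  rw [gop_apply _ _ h2] at h1
  have h3 : wop ((t ^ 2) • L) ((t ^ 2)⁻¹ • Λ) x = ((t ^ 2) ^ ((n : ℤ) - i)) • wop L Λ x := by
    have h4 : wop ((t ^ 2) • L) ((t ^ 2)⁻¹ • Λ) x =
        (t ^ i)⁻¹ • (t ^ i • wop ((t ^ 2) • L) ((t ^ 2)⁻¹ • Λ) x) := by
      rw [smul_smul, inv_mul_cancel₀ (pow_ne_zero i ht), one_smul]
    rw [h4, h1, smul_smul]
    congr 1
    rw [← zpow_natCast t i, ← zpow_natCast t (2 * n - i), ← zpow_natCast t 2, ← zpow_neg,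
      ← zpow_add₀ ht, ← zpow_mul]
    congr 1
    push_cast [Nat.cast_sub hi]
    ring
  have S' := scale S hc
  rw [star_apply S hx, star, Module.End.mul_apply, gop_apply _ _ hx, map_smul, h3, smul_comm]

end

end StaB

open StaB

theorem staB : StaStatement.{w} := by
  intro M _ _ gr n L Λ S
  obtain ⟨w1, w2, w3, w4, w5⟩ := wey S
  have hgr : ∀ i x, i ≤ 2 * n → x ∈ gr i → star S.internal L Λ x ∈ gr (2 * n - i) := by
    intro i x hi hx
    rw [star_apply S hx]
    exact (gr _).smul_mem _ (w3 i x hi hx)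
  refine ⟨hgr, ?_, ?_, ?_, ?_, ?_, ?_⟩
  · have h : star S.internal L Λ * star S.internal L Λ = 1 := by
      refine Slm.wey_hom_ext S.internal fun i x hx => ?_
      rw [Module.End.mul_apply, Module.End.one_apply]
      by_cases hi : 2 * n < i
      · rw [S.top i x hx hi, map_zero, map_zero]
      · rw [not_lt] at hi
        rw [star_apply S hx, map_smul, star_apply S (w3 i x hi hx), w4 i x hx, smul_smul,
          smul_smul, sgn_mul hi, one_smul]
    intro x
    exact LinearMap.congr_fun h x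
  · have h : star S.internal L Λ * L = Λ * star S.internal L Λ := by
      refine Slm.wey_hom_ext S.internal fun i x hx => ?_
      rw [Module.End.mul_apply, Module.End.mul_apply, star_apply S hx,
        star_apply S (S.L_gr i x hx), sgn_add_two, map_smul]
      have h1 := LinearMap.congr_fun w1 x
      rw [Module.End.mul_apply, LinearMap.neg_apply, Module.End.mul_apply] at h1
      rw [h1, smul_neg, neg_smul, neg_neg]
    intro x
    exact LinearMap.congr_fun h x
  · have h : star S.internal L Λ * Λ = L * star S.internal L Λ := by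
      refine Slm.wey_hom_ext S.internal fun i x hx => ?_
      rw [Module.End.mul_apply, Module.End.mul_apply]
      by_cases hi : i < 2
      · rw [S.Λ_low i x hi hx, map_zero]
        by_cases hn : 2 * n < i
        · rw [S.top i x hx hn, map_zero, map_zero]
        · exact (S.top _ _ (S.L_gr _ _ (hgr i x (by omega) hx)) (by omega)).symm
      · obtain ⟨j, rfl⟩ : ∃ j, i = j + 2 := ⟨i - 2, by omega⟩
        rw [star_apply S hx, star_apply S (S.Λ_gr j x hx), sgn_add_two, map_smul]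
        have h1 := LinearMap.congr_fun w2 x
        rw [Module.End.mul_apply, LinearMap.neg_apply, Module.End.mul_apply] at h1
        rw [h1, smul_neg, neg_smul]
    intro x
    exact LinearMap.congr_fun h x
  · intro i v hi hv h0
    rw [star_apply S hv, w5 (2 * i) v hi hv h0, sgn_even, smul_smul]
  · intro c hc
    exact ⟨scale S hc, fun i x hi hx => star_scale S hc hi hx⟩
  · intro B hL hΛ hB x y
    have h : B ∘ₗ star S.internal L Λ = B.compl₂ (star S.internal L Λ) := by
      refine Slm.wey_hom_ext S.internal fun i x hx => ?_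
      refine Slm.wey_hom_ext S.internal fun j y hy => ?_
      rw [LinearMap.comp_apply, LinearMap.compl₂_apply]
      by_cases hi : 2 * n < i
      · rw [S.top i x hx hi, map_zero, map_zero, LinearMap.zero_apply, LinearMap.zero_apply]
      by_cases hj : 2 * n < j
      · rw [S.top j y hy hj, map_zero, map_zero, map_zero]
      by_cases hij : i = j
      · subst hij
        rw [star_apply S hx, star_apply S hy, map_smul, LinearMap.smul_apply, map_smul,
          wop_adj hL hΛ]
      · rw [hB (2 * n - i) j _ _ (hgr i x (by omega) hx) hy (by omega),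
          hB i (2 * n - j) _ _ hx (hgr j y (by omega) hy) (by omega)]
    have := LinearMap.congr_fun₂ h x y
    rwa [LinearMap.comp_apply, LinearMap.compl₂_apply] at this

end Pool.Agent.Lib.MP_361a6f_ag.PP
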