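import Pool.Agent.Lib.MP_361a6f_ag.PP.KExp

/-!
# The Weyl element of a nilpotent `sl_2`-action

`L`, `Λ`, `H` are operators with `L Λ - Λ L = H`, `H L - L H = 2 L`, `H Λ - Λ H = -2 Λ`, and
`w = exp L * exp (-Λ) * exp L`.
-/

open Finset
open scoped Nat

set_option linter.unusedSectionVars false

namespace Pool.Agent.Lib.MP_361a6f_ag.PP

variable {K : Type*} [Field K] [CharZero K]

/-- A nilpotent `sl_2`-triple in a `K`-algebra. -/
structure Sl2 (K : Type*) [Field K] {A : Type*} [Ring A] [Algebra K A] (L Λ H : A) : Prop where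
  comm : L * Λ - Λ * L = H
  HL : H * L - L * H = (2 : K) • L
  HΛ : H * Λ - Λ * H = -((2 : K) • Λ)
  nilL : IsNilpotent L
  nilΛ : IsNilpotent Λ

/-- The Weyl element. -/
noncomputable def weyl (K : Type*) [Field K] [CharZero K] {A : Type*} [Ring A] [Algebra K A]
    (L Λ : A) : A := kexp K L * kexp K (-Λ) * kexp K L

section algebra

variable {A : Type*} [Ring A] [Algebra K A] {L Λ H : A} (S : Sl2 K L Λ H)

/-- the inverse of the Weyl element -/
noncomputable def weylInv (K : Type*) [Field K] [CharZero K] {A : Type*} [Ring A] [Algebra K A]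
    (L Λ : A) : A := kexp K (-L) * kexp K Λ * kexp K (-L)

include S

theorem Sl2.weyl_mul_inv : weyl K L Λ * weylInv K L Λ = 1 := by
  have h1 := kexp_mul_neg K S.nilL
  have h2 := kexp_neg_mul K S.nilΛ
  rw [weyl, weylInv]
  calc kexp K L * kexp K (-Λ) * kexp K L * (kexp K (-L) * kexp K Λ * kexp K (-L))
      = kexp K L * (kexp K (-Λ) * (kexp K L * kexp K (-L)) * kexp K Λ) * kexp K (-L) := by
        simp only [mul_assoc]
    _ = 1 := by rw [h1, mul_one, h2, mul_one, h1]

theorem Sl2.weylInv_mul : weylInv K L Λ * weyl K L Λ = 1 := by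
  have h1 := kexp_neg_mul K S.nilL
  have h2 := kexp_mul_neg K S.nilΛ
  rw [weyl, weylInv]
  calc kexp K (-L) * kexp K Λ * kexp K (-L) * (kexp K L * kexp K (-Λ) * kexp K L)
      = kexp K (-L) * (kexp K Λ * (kexp K (-L) * kexp K L) * kexp K (-Λ)) * kexp K L := by
        simp only [mul_assoc]
    _ = 1 := by rw [h1, mul_one, h2, mul_one, h1]

theorem Sl2.conjL_Λ : kexp K L * Λ * kexp K (-L) = Λ + H - L := by
  have h2 : L * H - H * L = -((2 : K) • L) := by rw [← S.HL]; abel
  rw [kexp_conj K S.nilL S.comm h2 (by rw [mul_neg, neg_mul, mul_smul_comm, smul_mul_assoc]),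
    smul_neg, smul_smul, inv_mul_cancel₀ two_ne_zero, one_smul]
  abel

theorem Sl2.conjL_H : kexp K L * H * kexp K (-L) = H - (2 : K) • L := by
  have h1 : L * H - H * L = -((2 : K) • L) := by rw [← S.HL]; abel
  have h2 : L * (-((2 : K) • L)) - (-((2 : K) • L)) * L = 0 := by
    rw [mul_neg, neg_mul, mul_smul_comm, smul_mul_assoc, sub_self]
  rw [kexp_conj K S.nilL h1 h2 (by rw [mul_zero, zero_mul]), smul_zero, add_zero]
  abel

theorem Sl2.conjL_L : kexp K L * L * kexp K (-L) = L := by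
  rw [kexp_conj K S.nilL (sub_self (L * L)) (d := 0) (by simp) (by simp), smul_zero]
  simp

theorem Sl2.conjΛ_L : kexp K (-Λ) * L * kexp K Λ = L + H - Λ := by
  have h1 : -Λ * L - L * -Λ = H := by rw [← S.comm]; simp [sub_eq_add_neg, add_comm]
  have h2 : -Λ * H - H * -Λ = -((2 : K) • Λ) := by
    rw [← S.HΛ]; simp [sub_eq_add_neg, add_comm]
  have h := kexp_conj K S.nilΛ.neg h1 h2
    (by simp)
  rw [neg_neg] at h
  rw [h, smul_neg, smul_smul, inv_mul_cancel₀ two_ne_zero, one_smul]
  abel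

theorem Sl2.conjΛ_H : kexp K (-Λ) * H * kexp K Λ = H - (2 : K) • Λ := by
  have h1 : -Λ * H - H * -Λ = -((2 : K) • Λ) := by
    rw [← S.HΛ]; simp [sub_eq_add_neg, add_comm]
  have h2 : -Λ * (-((2 : K) • Λ)) - (-((2 : K) • Λ)) * -Λ = 0 := by
    simp
  have h := kexp_conj K S.nilΛ.neg h1 h2 (by rw [mul_zero, zero_mul])
  rw [neg_neg] at h
  rw [h, smul_zero, add_zero]
  abel

theorem Sl2.conjΛ_Λ : kexp K (-Λ) * Λ * kexp K Λ = Λ := by
  have h1 : -Λ * Λ - Λ * -Λ = 0 := by simp
  have h := kexp_conj K S.nilΛ.neg h1 (d := 0) (by simp) (by simp)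
  rw [neg_neg] at h
  rw [h]
  simp

/-- conjugation by the Weyl element -/
theorem Sl2.conj_w (x : A) : weyl K L Λ * x * weylInv K L Λ
    = kexp K L * (kexp K (-Λ) * (kexp K L * x * kexp K (-L)) * kexp K Λ) * kexp K (-L) := by
  rw [weyl, weylInv]
  simp only [mul_assoc]

theorem Sl2.w_conj_L : weyl K L Λ * L * weylInv K L Λ = -Λ := by
  rw [S.conj_w, S.conjL_L, S.conjΛ_L, mul_sub, sub_mul, mul_add, add_mul, S.conjL_L, S.conjL_H,
    S.conjL_Λ, two_smul]
  abel

theorem Sl2.w_conj_H : weyl K L Λ * H * weylInv K L Λ = -H := by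
  have h1 : kexp K (-Λ) * (H - (2 : K) • L) * kexp K Λ = -H - (2 : K) • L := by
    rw [mul_sub, sub_mul, mul_smul_comm, smul_mul_assoc, S.conjΛ_H, S.conjΛ_L]
    simp only [two_smul]
    abel
  rw [S.conj_w, S.conjL_H, h1, mul_sub, sub_mul, mul_neg, neg_mul, mul_smul_comm, smul_mul_assoc,
    S.conjL_L, S.conjL_H]
  abel

theorem Sl2.w_conj_Λ : weyl K L Λ * Λ * weylInv K L Λ = -L := by
  have h1 : kexp K (-Λ) * (Λ + H - L) * kexp K Λ = -L := by
    rw [mul_sub, sub_mul, mul_add, add_mul, S.conjΛ_H, S.conjΛ_L, S.conjΛ_Λ]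
    simp only [two_smul]
    abel
  rw [S.conj_w, S.conjL_Λ, h1, mul_neg, neg_mul, S.conjL_L]

theorem Sl2.of_conj {x y : A} (h : weyl K L Λ * x * weylInv K L Λ = y) :
    weyl K L Λ * x = y * weyl K L Λ := by
  rw [← h, mul_assoc, S.weylInv_mul, mul_one]

theorem Sl2.w_L : weyl K L Λ * L = -Λ * weyl K L Λ := S.of_conj S.w_conj_L

theorem Sl2.w_H : weyl K L Λ * H = -H * weyl K L Λ := S.of_conj S.w_conj_H

theorem Sl2.w_Λ : weyl K L Λ * Λ = -L * weyl K L Λ := S.of_conj S.w_conj_Λ

/-- the second expression of the Weyl element -/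
theorem Sl2.weyl_eq : weyl K L Λ = kexp K (-Λ) * kexp K L * kexp K (-Λ) := by
  have h1 := kexp_semiconj K S.nilΛ.neg S.nilL S.w_L.symm
  have h2 := kexp_mul_neg K S.nilL
  calc weyl K L Λ = weyl K L Λ * kexp K L * kexp K (-L) := by rw [mul_assoc, h2, mul_one]
    _ = kexp K (-Λ) * weyl K L Λ * kexp K (-L) := by rw [h1]
    _ = kexp K (-Λ) * kexp K L * kexp K (-Λ) * (kexp K L * kexp K (-L)) := by
        rw [weyl]; simp only [mul_assoc]
    _ = _ := by rw [h2, mul_one]

/-- the Weyl element of the sum of two commuting triples -/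
theorem weyl_add {L' Λ' H' : A} (S' : Sl2 K L' Λ' H') (h1 : Commute L L') (h2 : Commute L Λ')
    (h3 : Commute Λ L') (h4 : Commute Λ Λ') :
    weyl K (L + L') (Λ + Λ') = weyl K L Λ * weyl K L' Λ' := by
  have hLΛ' : Commute (kexp K L) (kexp K (-Λ')) :=
    commute_kexp K S.nilL S'.nilΛ.neg h2.neg_right
  have hLL' : Commute (kexp K L) (kexp K L') := commute_kexp K S.nilL S'.nilL h1
  have hΛL' : Commute (kexp K (-Λ)) (kexp K L') := commute_kexp K S.nilΛ.neg S'.nilL h3.neg_left
  rw [weyl, neg_add, kexp_add K h1 S.nilL S'.nilL,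
    kexp_add K h4.neg_left.neg_right S.nilΛ.neg S'.nilΛ.neg, weyl, weyl]
  calc kexp K L * kexp K L' * (kexp K (-Λ) * kexp K (-Λ')) * (kexp K L * kexp K L')
      = kexp K L * (kexp K L' * kexp K (-Λ)) * (kexp K (-Λ') * kexp K L) * kexp K L' := by
        simp only [mul_assoc]
    _ = kexp K L * (kexp K (-Λ) * kexp K L') * (kexp K L * kexp K (-Λ')) * kexp K L' := by
        rw [hΛL'.eq, hLΛ'.eq]
    _ = kexp K L * kexp K (-Λ) * (kexp K L' * kexp K L) * kexp K (-Λ') * kexp K L' := by
        simp only [mul_assoc]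
    _ = _ := by rw [← hLL'.eq]; simp only [mul_assoc]

/-- the sum of two commuting triples is a triple -/
theorem Sl2.add {L' Λ' H' : A} (S' : Sl2 K L' Λ' H') (h1 : Commute L L') (h2 : Commute L Λ')
    (h3 : Commute Λ L') (h4 : Commute Λ Λ') : Sl2 K (L + L') (Λ + Λ') (H + H') := by
  have e1 := S.comm
  have e2 := S'.comm
  have c1 : Commute H L' := by rw [← e1]; exact (h1.mul_left h3).sub_left (h3.mul_left h1)
  have c2 : Commute H Λ' := by rw [← e1]; exact (h2.mul_left h4).sub_left (h4.mul_left h2)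
  have c3 : Commute H' L := by
    rw [← e2]
    exact (h1.symm.mul_left h2.symm).sub_left (h2.symm.mul_left h1.symm)
  have c4 : Commute H' Λ := by
    rw [← e2]
    exact (h3.symm.mul_left h4.symm).sub_left (h4.symm.mul_left h3.symm)
  refine ⟨?_, ?_, ?_, h1.isNilpotent_add S.nilL S'.nilL, h4.isNilpotent_add S.nilΛ S'.nilΛ⟩
  · rw [← e1, ← e2, add_mul, mul_add, mul_add, add_mul, mul_add, mul_add, h2.eq, h3.eq]
    abel
  · rw [smul_add, ← S.HL, ← S'.HL, add_mul, mul_add, mul_add, add_mul, mul_add, mul_add, c1.eq,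
      c3.eq]
    abel
  · rw [smul_add, neg_add, ← S.HΛ, ← S'.HΛ, add_mul, mul_add, mul_add, add_mul, mul_add, mul_add,
      c2.eq, c4.eq]
    abel

end algebra

section strings

variable {V : Type*} [AddCommGroup V] [Module K V] {L Λ H : Module.End K V} (S : Sl2 K L Λ H)

/-- A primitive vector of weight `-m`. -/
structure Prim (L Λ H : Module.End K V) (m : ℕ) (v : V) : Prop where
  low : Λ v = 0
  wt : H v = -((m : K) • v)
  top : (L ^ (m + 1)) v = 0

include S

theorem Sl2.H_L (v : V) : H (L v) = L (H v) + (2 : K) • L v := by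
  have h := congrArg (fun f : Module.End K V => f v) S.HL
  simp only [LinearMap.sub_apply, Module.End.mul_apply, LinearMap.smul_apply] at h
  rw [← h]; abel

theorem Sl2.H_Λ (v : V) : H (Λ v) = Λ (H v) - (2 : K) • Λ v := by
  have h := congrArg (fun f : Module.End K V => f v) S.HΛ
  simp only [LinearMap.sub_apply, Module.End.mul_apply, LinearMap.smul_apply,
    LinearMap.neg_apply] at h
  rw [sub_eq_add_neg, ← h]; abel

theorem Sl2.Λ_L (v : V) : Λ (L v) = L (Λ v) - H v := by
  have h := congrArg (fun f : Module.End K V => f v) S.comm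
  simp only [LinearMap.sub_apply, Module.End.mul_apply] at h
  rw [← h]; abel

variable {m : ℕ} {v : V}

theorem Sl2.H_pow (hv : Prim L Λ H m v) (r : ℕ) :
    H ((L ^ r) v) = (2 * (r : K) - m) • (L ^ r) v := by
  induction r with
  | zero => simp [hv.wt]
  | succ r ih =>
    rw [pow_succ', Module.End.mul_apply, S.H_L, ih, map_smul, ← add_smul]
    congr 1
    push_cast
    ring

theorem Sl2.Λ_pow (hv : Prim L Λ H m v) (r : ℕ) :
    Λ ((L ^ (r + 1)) v) = (((r : K) + 1) * (m - r)) • (L ^ r) v := by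
  induction r with
  | zero => simp [S.Λ_L, hv.low, hv.wt]
  | succ r ih =>
    rw [pow_succ', Module.End.mul_apply, S.Λ_L, ih, S.H_pow hv, map_smul]
    have e : L ((L ^ r) v) = (L ^ (r + 1)) v := by rw [pow_succ', Module.End.mul_apply]
    rw [e, ← sub_smul]
    congr 1
    push_cast
    ring

/-- `Λ^s L^(r+s) v` -/
theorem Sl2.Λ_pow_pow (hv : Prim L Λ H m v) (r s : ℕ) (hrs : r + s ≤ m) :
    (Λ ^ s) ((L ^ (r + s)) v)
      = (((r + s)! * (m - r)! : K) / (r ! * (m - r - s)!)) • (L ^ r) v := by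
  induction s with
  | zero =>
    have h1 : ((r ! : K)) ≠ 0 := Nat.cast_ne_zero.2 (Nat.factorial_ne_zero _)
    have h2 : (((m - r)! : K)) ≠ 0 := Nat.cast_ne_zero.2 (Nat.factorial_ne_zero _)
    simp only [add_zero, pow_zero, Module.End.one_apply, tsub_zero]
    rw [div_self (mul_ne_zero h1 h2), one_smul]
  | succ s ih =>
    rw [pow_succ, Module.End.mul_apply, ← add_assoc, S.Λ_pow hv, map_smul, ih (by omega), smul_smul]
    congr 1
    have h1 : ((r ! : K)) ≠ 0 := Nat.cast_ne_zero.2 (Nat.factorial_ne_zero _)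
    have h2 : (((m - r - s)! : K)) ≠ 0 := Nat.cast_ne_zero.2 (Nat.factorial_ne_zero _)
    have h3 : (((m - r - (s + 1))! : K)) ≠ 0 := Nat.cast_ne_zero.2 (Nat.factorial_ne_zero _)
    have e1 : (m - r - s)! = (m - r - s) * (m - r - (s + 1))! := by
      obtain ⟨t, ht⟩ : ∃ t, m - r - s = t + 1 := ⟨m - r - s - 1, by omega⟩
      rw [ht, show m - r - (s + 1) = t by omega, Nat.factorial_succ]
    have e2 : ((m - r - s : ℕ) : K) = (m : K) - ((r + s : ℕ) : K) := by
      rw [show m - r - s = m - (r + s) by omega, Nat.cast_sub (by omega)]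
    rw [e1] at h2 ⊢
    rw [Nat.factorial_succ (r + s)]
    push_cast at h2 e2 ⊢
    rw [e2] at h2 ⊢
    have h4 := left_ne_zero_of_mul h2
    field_simp

theorem aeval_eig {T : Module.End K V} {u : V} {μ : K} (h : T u = μ • u) (p : Polynomial K) :
    Polynomial.aeval T p u = p.eval μ • u := by
  have hp : ∀ n : ℕ, (T ^ n) u = μ ^ n • u := by
    intro n
    induction n with
    | zero => simp
    | succ n ih => rw [pow_succ', Module.End.mul_apply, ih, map_smul, h, smul_smul, pow_succ]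
  induction p using Polynomial.induction_on' with
  | add p q hp hq => rw [map_add, LinearMap.add_apply, hp, hq, Polynomial.eval_add, add_smul]
  | monomial n a =>
    rw [Polynomial.aeval_monomial, Module.End.mul_apply, hp, Polynomial.eval_monomial,
      Module.algebraMap_end_apply, smul_smul]

/-- `exp (-Λ)` on the string of a primitive vector -/
theorem Sl2.expΛ_mem (hv : Prim L Λ H m v) (k : ℕ) :
    kexp K (-Λ) ((L ^ k) v) - (L ^ k) v
      ∈ Submodule.span K {u | ∃ i, i < k ∧ u = (L ^ i) v} := by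
  have key : ∀ j i, (Λ ^ (j + 1)) ((L ^ (i + j + 1)) v)
      ∈ Submodule.span K {u | ∃ i', i' < i + j + 1 ∧ u = (L ^ i') v} := by
    intro j
    induction j with
    | zero =>
      intro i
      rw [zero_add, pow_one, S.Λ_pow hv]
      exact Submodule.smul_mem _ _ (Submodule.subset_span ⟨i, by omega, rfl⟩)
    | succ j ih =>
      intro i
      rw [pow_succ, Module.End.mul_apply, S.Λ_pow hv, map_smul]
      refine Submodule.smul_mem _ _ ?_
      refine Submodule.span_mono ?_ (ih i)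
      rintro u ⟨i', hi', rfl⟩
      exact ⟨i', by omega, rfl⟩
  have key0 : ∀ k, ∀ j, k < j → (Λ ^ j) ((L ^ k) v) = 0 := by
    intro k
    induction k with
    | zero =>
      intro j hj
      obtain ⟨t, rfl⟩ : ∃ t, j = t + 1 := ⟨j - 1, by omega⟩
      rw [pow_succ, Module.End.mul_apply, pow_zero, Module.End.one_apply, hv.low, map_zero]
    | succ k ih =>
      intro j hj
      obtain ⟨t, rfl⟩ : ∃ t, j = t + 1 := ⟨j - 1, by omega⟩
      rw [pow_succ, Module.End.mul_apply, S.Λ_pow hv, map_smul, ih t (by omega), smul_zero]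
  have hall : ∀ j, (Λ ^ (j + 1)) ((L ^ k) v)
      ∈ Submodule.span K {u | ∃ i, i < k ∧ u = (L ^ i) v} := by
    intro j
    by_cases h : k < j + 1
    · rw [key0 k _ h]; exact zero_mem _
    · have h1 := key j (k - j - 1)
      have e : k - j - 1 + j + 1 = k := by omega
      rwa [e] at h1
  obtain ⟨N, hN⟩ := S.nilΛ.neg
  have hN' : (-Λ) ^ (N + 1) = 0 := by rw [pow_succ, hN, zero_mul]
  rw [kexp_eq_sum K hN', Finset.sum_range_succ', LinearMap.add_apply, LinearMap.sum_apply]
  simp only [Nat.factorial_zero, Nat.cast_one, inv_one, pow_zero, one_smul, Module.End.one_apply,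
    add_sub_cancel_right]
  refine sum_mem fun j _ => ?_
  rw [LinearMap.smul_apply, neg_pow, Module.End.mul_apply]
  refine Submodule.smul_mem _ _ ?_
  have e : ((-1 : Module.End K V) ^ (j + 1)) ((Λ ^ (j + 1)) ((L ^ k) v))
      = ((-1 : K) ^ (j + 1)) • (Λ ^ (j + 1)) ((L ^ k) v) := by
    rcases Nat.even_or_odd (j + 1) with h | h
    · rw [h.neg_one_pow, h.neg_one_pow, Module.End.one_apply, one_smul]
    · rw [h.neg_one_pow, h.neg_one_pow, LinearMap.neg_apply, Module.End.one_apply, neg_smul,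
        one_smul]
  rw [e]
  exact Submodule.smul_mem _ _ (hall j)

/-- the Weyl element on a primitive vector -/
theorem Sl2.w_prim (hv : Prim L Λ H m v) :
    weyl K L Λ v = ((m ! : K)⁻¹) • (L ^ m) v := by
  -- `exp (-Λ)` and `exp L` on `v`
  have e1 : kexp K (-Λ) v = v := by
    have h := S.expΛ_mem hv 0
    have h0 : {u | ∃ i, i < 0 ∧ u = (L ^ i) v} = ∅ := by
      ext u; simp
    rw [h0, Submodule.span_empty, Submodule.mem_bot, pow_zero, Module.End.one_apply,
      sub_eq_zero] at h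
    exact h
  have e2 : kexp K L v = ∑ k ∈ range (m + 1), ((k ! : K)⁻¹) • (L ^ k) v := by
    obtain ⟨N, hN⟩ := S.nilL
    have hN' : L ^ ((m + 1) + N) = 0 := by rw [pow_add, hN, mul_zero]
    rw [kexp_eq_sum K hN', LinearMap.sum_apply, Finset.sum_range_add]
    have h5 : ∑ x ∈ range N, ((((m + 1 + x) ! : K))⁻¹ • L ^ (m + 1 + x)) v = 0 := by
      refine Finset.sum_eq_zero fun i _ => ?_
      rw [LinearMap.smul_apply, add_comm (m + 1) i, pow_add, Module.End.mul_apply, hv.top,
        map_zero, smul_zero]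
    rw [h5, add_zero]
    rfl
  have e3 : weyl K L Λ v - ((m ! : K)⁻¹) • (L ^ m) v
      ∈ Submodule.span K {u | ∃ i, i < m ∧ u = (L ^ i) v} := by
    rw [S.weyl_eq, Module.End.mul_apply, Module.End.mul_apply, e1, e2, map_sum,
      Finset.sum_range_succ, add_sub_assoc]
    refine add_mem (sum_mem fun k hk => ?_) ?_
    · rw [Finset.mem_range] at hk
      rw [map_smul]
      refine Submodule.smul_mem _ _ ?_
      have h1 := S.expΛ_mem hv k
      have h2 : (L ^ k) v ∈ Submodule.span K {u | ∃ i, i < m ∧ u = (L ^ i) v} :=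
        Submodule.subset_span ⟨k, hk, rfl⟩
      have h3 := add_mem (Submodule.span_mono (t := {u | ∃ i, i < m ∧ u = (L ^ i) v})
        (by rintro u ⟨i, hi, rfl⟩; exact ⟨i, by omega, rfl⟩) h1) h2
      rwa [sub_add_cancel] at h3
    · rw [map_smul, ← smul_sub]
      exact Submodule.smul_mem _ _ (S.expΛ_mem hv m)
  have e4 : H (weyl K L Λ v - ((m ! : K)⁻¹) • (L ^ m) v)
      = (m : K) • (weyl K L Λ v - ((m ! : K)⁻¹) • (L ^ m) v) := by
    have h := congrArg (fun f : Module.End K V => f v) S.w_H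
    simp only [Module.End.mul_apply, LinearMap.neg_apply] at h
    rw [hv.wt, map_neg, map_smul] at h
    rw [map_sub, map_smul, S.H_pow hv, ← neg_inj.1 h, smul_sub, smul_comm]
    congr 3
    ring
  have e5 : ∀ u ∈ Submodule.span K {u | ∃ i, i < m ∧ u = (L ^ i) v},
      Polynomial.aeval H (∏ i ∈ range m, (Polynomial.X - Polynomial.C (2 * (i : K) - m))) u
        = 0 := by
    intro u hu
    induction hu using Submodule.span_induction with
    | mem u hu =>
      obtain ⟨i, hi, rfl⟩ := hu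
      rw [aeval_eig S (S.H_pow hv i), Polynomial.eval_prod,
        Finset.prod_eq_zero (Finset.mem_range.2 hi), zero_smul]
      simp
    | zero => rw [map_zero]
    | add x y _ _ hx hy => rw [map_add, hx, hy, add_zero]
    | smul c x _ hx => rw [map_smul, hx, smul_zero]
  have e6 := e5 _ e3
  rw [aeval_eig S e4, Polynomial.eval_prod] at e6
  rcases smul_eq_zero.1 e6 with h | h
  · exfalso
    rw [Finset.prod_eq_zero_iff] at h
    obtain ⟨i, hi, h⟩ := h
    rw [Finset.mem_range] at hi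
    simp only [Polynomial.eval_sub, Polynomial.eval_X, Polynomial.eval_C] at h
    have h2 : (2 : K) * ((m - i : ℕ) : K) = 0 := by
      rw [Nat.cast_sub hi.le, ← h]; ring
    rcases mul_eq_zero.1 h2 with h3 | h3
    · exact two_ne_zero h3
    · rw [Nat.cast_eq_zero] at h3; omega
  · exact sub_eq_zero.1 h

/-- the Weyl element on a string -/
theorem Sl2.w_pow (hv : Prim L Λ H m v) (r : ℕ) (hr : r ≤ m) :
    weyl K L Λ ((L ^ r) v) = ((-1) ^ r * (r ! : K) / ((m - r)! : K)) • (L ^ (m - r)) v := by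
  have key : ∀ r, weyl K L Λ ((L ^ r) v) = ((-1 : K) ^ r) • (Λ ^ r) (weyl K L Λ v) := by
    intro r
    induction r with
    | zero => simp
    | succ r ih =>
      have h := congrArg (fun f : Module.End K V => f ((L ^ r) v)) S.w_L
      simp only [Module.End.mul_apply, LinearMap.neg_apply] at h
      rw [pow_succ', Module.End.mul_apply, h, ih, map_smul, pow_succ' Λ, Module.End.mul_apply,
        pow_succ, mul_neg_one, neg_smul]
  have h1 := S.Λ_pow_pow hv (m - r) r (by omega)
  rw [show m - r + r = m by omega, show m - (m - r) = r by omega, Nat.sub_self,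
    Nat.factorial_zero] at h1
  rw [key, S.w_prim hv, map_smul, h1, smul_smul, smul_smul]
  congr 1
  have h2 : ((m ! : K)) ≠ 0 := Nat.cast_ne_zero.2 (Nat.factorial_ne_zero _)
  have h3 : (((m - r)! : K)) ≠ 0 := Nat.cast_ne_zero.2 (Nat.factorial_ne_zero _)
  push_cast
  field_simp

/-- the square of the Weyl element on a string -/
theorem Sl2.w_w (hv : Prim L Λ H m v) (r : ℕ) (hr : r ≤ m) :
    weyl K L Λ (weyl K L Λ ((L ^ r) v)) = ((-1 : K) ^ m) • (L ^ r) v := by
  rw [S.w_pow hv r hr, map_smul, S.w_pow hv (m - r) (by omega), smul_smul]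
  have h2 : ((r ! : K)) ≠ 0 := Nat.cast_ne_zero.2 (Nat.factorial_ne_zero _)
  have h3 : (((m - r)! : K)) ≠ 0 := Nat.cast_ne_zero.2 (Nat.factorial_ne_zero _)
  rw [show m - (m - r) = r by omega]
  congr 1
  have e : (-1 : K) ^ m = (-1) ^ r * (-1) ^ (m - r) := by rw [← pow_add]; congr 1; omega
  rw [e]
  field_simp

end strings

end Pool.Agent.Lib.MP_361a6f_ag.PP
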