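import Pool.Agent.Lib.MP_361a6f_ag.PP.Defs
import Pool.Agent.Lib.MP_361a6f_ag.PP.Wey

/-!
# The operator `w = exp(L) exp(-Λ) exp(L)` of a graded `sl_2`-module
-/

open Finset
open scoped Nat

universe w

set_option linter.unusedSectionVars false

namespace Pool.Agent.Lib.MP_361a6f_ag.PP

theorem wey_ex_eq {M : Type w} [AddCommGroup M] [Module ℂ M] (a : Module.End ℂ M) :
    ex a = kexp ℂ a := rfl

theorem wey_wop_eq {M : Type w} [AddCommGroup M] [Module ℂ M] (L Λ : Module.End ℂ M) :
    wop L Λ = weyl ℂ L Λ := rfl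

namespace Slm

variable {M : Type w} [AddCommGroup M] [Module ℂ M] {gr : ℕ → Submodule ℂ M} {n : ℕ}
  {L Λ : Module.End ℂ M}

/-- two linear maps that agree on the homogeneous elements are equal -/
theorem wey_hom_ext {N : Type*} [AddCommGroup N] [Module ℂ N] (h : DirectSum.IsInternal gr)
    {f g : M →ₗ[ℂ] N} (hfg : ∀ i x, x ∈ gr i → f x = g x) : f = g := by
  refine LinearMap.ext fun x => ?_
  have hx : x ∈ ⨆ i, gr i := by
    rw [h.submodule_iSup_eq_top]; trivial
  refine Submodule.iSup_induction gr (motive := fun x => f x = g x) hx hfg ?_ ?_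
  · rw [map_zero, map_zero]
  · intro x y hx hy
    rw [map_add, map_add, hx, hy]

variable (S : Slm gr n L Λ)
include S

theorem wey_L_pow_gr {i : ℕ} {x : M} (hx : x ∈ gr i) (r : ℕ) : (L ^ r) x ∈ gr (i + 2 * r) := by
  induction r with
  | zero => simpa using hx
  | succ r ih =>
    rw [pow_succ', Module.End.mul_apply]
    exact S.L_gr _ _ ih

theorem wey_Λ_pow_gr : ∀ (r i : ℕ) (x : M), x ∈ gr i →
    (2 * r ≤ i → (Λ ^ r) x ∈ gr (i - 2 * r)) ∧ (i < 2 * r → (Λ ^ r) x = 0) := by
  intro r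
  induction r with
  | zero =>
    intro i x hx
    exact ⟨fun _ => by simpa using hx, fun h => absurd h (by omega)⟩
  | succ r ih =>
    intro i x hx
    rw [pow_succ, Module.End.mul_apply]
    by_cases hi : i < 2
    · rw [S.Λ_low i x hi hx, map_zero]
      exact ⟨fun _ => zero_mem _, fun _ => rfl⟩
    · obtain ⟨j, rfl⟩ : ∃ j, i = j + 2 := ⟨i - 2, by omega⟩
      have h := ih j (Λ x) (S.Λ_gr j x hx)
      refine ⟨fun h1 => ?_, fun h1 => h.2 (by omega)⟩
      have h2 := h.1 (by omega)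
      rwa [show j + 2 - 2 * (r + 1) = j - 2 * r by omega]

theorem wey_L_pow_eq_zero : L ^ (n + 1) = 0 := by
  refine wey_hom_ext S.internal fun i x hx => ?_
  rw [LinearMap.zero_apply]
  exact S.top _ _ (S.wey_L_pow_gr hx (n + 1)) (by omega)

theorem wey_Λ_pow_eq_zero : Λ ^ (n + 1) = 0 := by
  refine wey_hom_ext S.internal fun i x hx => ?_
  rw [LinearMap.zero_apply]
  by_cases hi : 2 * n < i
  · rw [S.top i x hx hi, map_zero]
  · exact (S.wey_Λ_pow_gr (n + 1) i x hx).2 (by omega)

/-- the operator `H` -/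
noncomputable def weyH {gr : ℕ → Submodule ℂ M} (h : DirectSum.IsInternal gr) (n : ℕ) :
    Module.End ℂ M := gop h fun i => (i : ℂ) - n

theorem wey_sl2 : Sl2 ℂ L Λ (weyH S.internal n) := by
  have hH : ∀ i x, x ∈ gr i → weyH S.internal n x = ((i : ℂ) - n) • x :=
    fun i x hx => gop_apply S.internal _ hx
  refine ⟨?_, ?_, ?_, ⟨_, S.wey_L_pow_eq_zero⟩, ⟨_, S.wey_Λ_pow_eq_zero⟩⟩
  · refine wey_hom_ext S.internal fun i x hx => ?_
    rw [LinearMap.sub_apply, Module.End.mul_apply, Module.End.mul_apply, S.comm i x hx, hH i x hx]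
  · refine wey_hom_ext S.internal fun i x hx => ?_
    rw [LinearMap.sub_apply, Module.End.mul_apply, Module.End.mul_apply, hH i x hx,
      hH _ _ (S.L_gr i x hx), map_smul, ← sub_smul, LinearMap.smul_apply]
    congr 1
    push_cast
    ring
  · refine wey_hom_ext S.internal fun i x hx => ?_
    rw [LinearMap.sub_apply, Module.End.mul_apply, Module.End.mul_apply, hH i x hx, map_smul,
      LinearMap.neg_apply, LinearMap.smul_apply]
    by_cases hi : i < 2
    · rw [S.Λ_low i x hi hx, map_zero, smul_zero, smul_zero, sub_zero, neg_zero]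
    · obtain ⟨j, rfl⟩ : ∃ j, i = j + 2 := ⟨i - 2, by omega⟩
      rw [hH _ _ (S.Λ_gr j x hx), ← sub_smul, ← neg_smul]
      congr 1
      push_cast
      ring

/-- an eigenvector of `H` is homogeneous -/
theorem wey_mem_gr_of_eig {j : ℕ} {y : M} (h : weyH S.internal n y = ((j : ℂ) - n) • y) :
    y ∈ gr j := by
  classical
  obtain ⟨p, hp⟩ : ∃ p : Module.End ℂ M, p = gop S.internal fun i => if i = j then 1 else 0 :=
    ⟨_, rfl⟩
  obtain ⟨q, hq⟩ : ∃ q : Module.End ℂ M,
      q = gop S.internal fun i => if i = j then 0 else ((i : ℂ) - j)⁻¹ := ⟨_, rfl⟩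
  have key : q * (weyH S.internal n - ((j : ℂ) - n) • 1) = 1 - p := by
    refine wey_hom_ext S.internal fun i x hx => ?_
    have e1 : weyH S.internal n x = ((i : ℂ) - n) • x := gop_apply S.internal _ hx
    rw [Module.End.mul_apply, LinearMap.sub_apply, LinearMap.smul_apply, Module.End.one_apply, e1,
      ← sub_smul, map_smul, hq, gop_apply S.internal _ hx, LinearMap.sub_apply,
      Module.End.one_apply, hp, gop_apply S.internal _ hx, smul_smul]
    by_cases hij : i = j
    · rw [if_pos hij, if_pos hij, mul_zero, zero_smul, one_smul, sub_self]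
    · rw [if_neg hij, if_neg hij, zero_smul, sub_zero]
      have h1 : (i : ℂ) - j ≠ 0 := sub_ne_zero.2 (Nat.cast_injective.ne hij)
      have h2 : ((i : ℂ) - n - (j - n)) * ((i : ℂ) - j)⁻¹ = 1 := by
        rw [sub_sub_sub_cancel_right]
        exact mul_inv_cancel₀ h1
      rw [h2, one_smul]
  have h1 := congrArg (fun f : Module.End ℂ M => f y) key
  simp only [Module.End.mul_apply, LinearMap.sub_apply, LinearMap.smul_apply,
    Module.End.one_apply, h, sub_self, map_zero] at h1
  have h2 : y = p y := (sub_eq_zero.1 h1.symm)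
  have h3 : ∀ z, p z ∈ gr j := by
    intro z
    have hz : z ∈ ⨆ i, gr i := by
      rw [S.internal.submodule_iSup_eq_top]; trivial
    refine Submodule.iSup_induction gr (motive := fun z => p z ∈ gr j) hz ?_ ?_ ?_
    · intro i x hx
      rw [hp, gop_apply S.internal _ hx]
      by_cases hij : i = j
      · rw [if_pos hij, one_smul, ← hij]; exact hx
      · rw [if_neg hij, zero_smul]; exact zero_mem _
    · rw [map_zero]; exact zero_mem _
    · intro a b ha hb
      rw [map_add]; exact add_mem ha hb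
  rw [h2]
  exact h3 y

theorem wey_H_pow {i : ℕ} {v : M} (hv : v ∈ gr i) (r : ℕ) :
    weyH S.internal n ((L ^ r) v) = ((i : ℂ) + 2 * r - n) • (L ^ r) v := by
  have h := S.wey_L_pow_gr hv r
  rw [weyH, gop_apply S.internal _ h]
  congr 1
  push_cast
  ring

theorem wey_Λ_pow {i : ℕ} {v : M} (hv : v ∈ gr i) (h0 : Λ v = 0) (r : ℕ) :
    Λ ((L ^ (r + 1)) v) = (((r : ℂ) + 1) * ((n : ℂ) - i - r)) • (L ^ r) v := by
  induction r with
  | zero =>
    rw [zero_add, pow_one, S.wey_sl2.Λ_L, h0, map_zero, zero_sub, pow_zero, Module.End.one_apply,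
      weyH, gop_apply S.internal _ hv, ← neg_smul]
    congr 1
    push_cast
    ring
  | succ r ih =>
    rw [pow_succ', Module.End.mul_apply, S.wey_sl2.Λ_L, ih, S.wey_H_pow hv, map_smul]
    have e : L ((L ^ r) v) = (L ^ (r + 1)) v := by rw [pow_succ', Module.End.mul_apply]
    rw [e, ← sub_smul]
    congr 1
    push_cast
    ring

/-- the string of a primitive vector in the degree `i ≤ n` has length at most `n - i` -/
theorem wey_low_top {i : ℕ} {v : M} (hi : i ≤ n) (hv : v ∈ gr i) (h0 : Λ v = 0) :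
    (L ^ (n - i + 1)) v = 0 := by
  -- descending induction
  have key : ∀ s r, n - i < r → r + s = n + 1 + (n - i) → (L ^ r) v = 0 := by
    intro s
    induction s with
    | zero =>
      intro r hr hrs
      rw [show r = (n - i) + (n + 1) by omega, pow_add, S.wey_L_pow_eq_zero, mul_zero,
        LinearMap.zero_apply]
    | succ s ih =>
      intro r hr hrs
      have h1 := ih (r + 1) (by omega) (by omega)
      have h2 := S.wey_Λ_pow hv h0 r
      rw [h1, map_zero] at h2
      rcases smul_eq_zero.1 h2.symm with h3 | h3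
      · exfalso
        rcases mul_eq_zero.1 h3 with h4 | h4
        · exact Nat.cast_add_one_ne_zero r h4
        · have h5 : ((n - i : ℕ) : ℂ) = (r : ℂ) := by
            rw [Nat.cast_sub hi]
            exact sub_eq_zero.1 h4
          have h6 := Nat.cast_injective h5
          omega
      · exact h3
  exact key (n) (n - i + 1) (by omega) (by omega)

theorem wey_prim {i : ℕ} {v : M} (hi : i ≤ n) (hv : v ∈ gr i) (h0 : Λ v = 0) :
    Prim L Λ (weyH S.internal n) (n - i) v := by
  refine ⟨h0, ?_, S.wey_low_top hi hv h0⟩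
  rw [weyH, gop_apply S.internal _ hv, ← neg_smul]
  congr 1
  rw [Nat.cast_sub hi]
  ring

/-- the Lefschetz decomposition -/
theorem wey_mem_span_strings : ∀ i, i ≤ n → ∀ x ∈ gr i,
    x ∈ Submodule.span ℂ {u | ∃ (r : ℕ) (v : M), 2 * r ≤ i ∧ v ∈ gr (i - 2 * r) ∧ Λ v = 0 ∧
      u = (L ^ r) v} := by
  intro i
  induction i using Nat.strong_induction_on with
  | _ i ih =>
    intro hi x hx
    have prim_mem : ∀ y ∈ gr i, Λ y = 0 → y ∈ Submodule.span ℂ {u | ∃ (r : ℕ) (v : M),
        2 * r ≤ i ∧ v ∈ gr (i - 2 * r) ∧ Λ v = 0 ∧ u = (L ^ r) v} := by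
      intro y hy h0
      exact Submodule.subset_span ⟨0, y, by omega, by simpa using hy, h0, by simp⟩
    by_cases h2 : i < 2
    · exact prim_mem x hx (S.Λ_low i x h2 hx)
    obtain ⟨j, rfl⟩ : ∃ j, i = j + 2 := ⟨i - 2, by omega⟩
    have h3 := ih j (by omega) (by omega) (Λ x) (S.Λ_gr j x hx)
    have h4 : ∀ z ∈ Submodule.span ℂ {u | ∃ (r : ℕ) (v : M), 2 * r ≤ j ∧ v ∈ gr (j - 2 * r) ∧
        Λ v = 0 ∧ u = (L ^ r) v}, ∃ y ∈ Submodule.span ℂ {u | ∃ (r : ℕ) (v : M),
          2 * r ≤ j + 2 ∧ v ∈ gr (j + 2 - 2 * r) ∧ Λ v = 0 ∧ u = (L ^ r) v},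
          y ∈ gr (j + 2) ∧ Λ y = z := by
      intro z hz
      induction hz using Submodule.span_induction with
      | mem z hz =>
        obtain ⟨r, v, hr, hv, h0, rfl⟩ := hz
        have h5 := S.wey_Λ_pow hv h0 r
        have h6 : ((r : ℂ) + 1) * ((n : ℂ) - (j - 2 * r : ℕ) - r) ≠ 0 := by
          have h7 : ((n : ℂ) - (j - 2 * r : ℕ) - r) = ((n - j + r : ℕ) : ℂ) := by
            rw [Nat.cast_add, Nat.cast_sub hr, Nat.cast_sub (by omega : j ≤ n)]
            push_cast
            ring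
          rw [h7]
          refine mul_ne_zero (Nat.cast_add_one_ne_zero r) (Nat.cast_ne_zero.2 (by omega))
        refine ⟨(((r : ℂ) + 1) * ((n : ℂ) - (j - 2 * r : ℕ) - r))⁻¹ • (L ^ (r + 1)) v,
          Submodule.smul_mem _ _ (Submodule.subset_span ⟨r + 1, v, by omega, ?_, h0, rfl⟩),
          Submodule.smul_mem _ _ ?_, ?_⟩
        · rwa [show j + 2 - 2 * (r + 1) = j - 2 * r by omega]
        · have h8 := S.wey_L_pow_gr hv (r + 1)
          rwa [show j - 2 * r + 2 * (r + 1) = j + 2 by omega] at h8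
        · rw [map_smul, h5, smul_smul, inv_mul_cancel₀ h6, one_smul]
      | zero => exact ⟨0, zero_mem _, zero_mem _, map_zero _⟩
      | add a b _ _ ha hb =>
        obtain ⟨y, hy, hy1, hy2⟩ := ha
        obtain ⟨y', hy', hy1', hy2'⟩ := hb
        exact ⟨y + y', add_mem hy hy', add_mem hy1 hy1', by rw [map_add, hy2, hy2']⟩
      | smul c a _ ha =>
        obtain ⟨y, hy, hy1, hy2⟩ := ha
        exact ⟨c • y, Submodule.smul_mem _ _ hy, Submodule.smul_mem _ _ hy1,
          by rw [map_smul, hy2]⟩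
    obtain ⟨y, hy, hy1, hy2⟩ := h4 _ h3
    have h5 := prim_mem (x - y) (sub_mem hx hy1) (by rw [map_sub, hy2, sub_self])
    have h6 := add_mem h5 hy
    rwa [sub_add_cancel] at h6

/-- the square of `w` in the degrees at most `n` -/
theorem wey_w_w_low {i : ℕ} {x : M} (hi : i ≤ n) (hx : x ∈ gr i) :
    weyl ℂ L Λ (weyl ℂ L Λ x) = ((-1 : ℂ) ^ (n + i)) • x := by
  have h := S.wey_mem_span_strings i hi x hx
  clear hx
  induction h using Submodule.span_induction with
  | mem z hz =>
    obtain ⟨r, v, hr, hv, h0, rfl⟩ := hz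
    rw [S.wey_sl2.w_w (S.wey_prim (by omega) hv h0) r (by omega)]
    congr 1
    have e : n + i = (n - (i - 2 * r)) + 2 * (i - r) := by omega
    rw [e, pow_add, pow_mul]
    norm_num
  | zero => rw [map_zero, map_zero, smul_zero]
  | add a b _ _ ha hb => rw [map_add, map_add, ha, hb, smul_add]
  | smul c a _ ha => rw [map_smul, map_smul, ha, smul_comm]

theorem wey_w_gr {i : ℕ} {x : M} (hi : i ≤ 2 * n) (hx : x ∈ gr i) :
    weyl ℂ L Λ x ∈ gr (2 * n - i) := by
  refine S.wey_mem_gr_of_eig ?_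
  have h := congrArg (fun f : Module.End ℂ M => f x) S.wey_sl2.w_H
  simp only [Module.End.mul_apply, LinearMap.neg_apply] at h
  have h2 : weyH S.internal n x = ((i : ℂ) - n) • x := gop_apply S.internal _ hx
  rw [h2, map_smul] at h
  rw [← neg_inj, ← h, ← neg_smul]
  congr 1
  rw [Nat.cast_sub hi]
  push_cast
  ring

theorem wey_w_inj {x y : M} (h : weyl ℂ L Λ x = weyl ℂ L Λ y) : x = y := by
  have h1 := congrArg (fun z => weylInv ℂ L Λ z) h
  simp only [← Module.End.mul_apply, S.wey_sl2.weylInv_mul, Module.End.one_apply] at h1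
  exact h1

theorem wey_w_w {i : ℕ} {x : M} (hx : x ∈ gr i) :
    weyl ℂ L Λ (weyl ℂ L Λ x) = ((-1 : ℂ) ^ (n + i)) • x := by
  by_cases hi : i ≤ n
  · exact S.wey_w_w_low hi hx
  · by_cases hi2 : 2 * n < i
    · rw [S.top i x hx hi2, map_zero, map_zero, smul_zero]
    · have h1 := S.wey_w_w_low (by omega) (S.wey_w_gr (by omega) hx)
      refine S.wey_w_inj ?_
      rw [h1, map_smul]
      congr 1
      have e : n + i = n + (2 * n - i) + 2 * (i - n) := by omega
      rw [e, pow_add _ _ (2 * (i - n)), pow_mul]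
      norm_num

end Slm

theorem wey : WeyStatement.{w} := by
  intro M _ _ gr n L Λ S
  refine ⟨?_, ?_, ?_, ?_, ?_⟩
  · rw [wey_wop_eq, S.wey_sl2.w_L, neg_mul]
  · rw [wey_wop_eq, S.wey_sl2.w_Λ, neg_mul]
  · intro i x hi hx
    rw [wey_wop_eq]
    exact S.wey_w_gr hi hx
  · intro i x hx
    rw [wey_wop_eq]
    exact S.wey_w_w hx
  · intro i v hi hv h0
    rw [wey_wop_eq]
    exact S.wey_sl2.w_prim (S.wey_prim hi hv h0)

end Pool.Agent.Lib.MP_361a6f_ag.PP
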