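import Pool.Agent.Lib.MP_361a6f_ag.PP.Defs
import Pool.Agent.Lib.MP_361a6f_ag.H3.RealStr

/-!
# The dual Lefschetz operator of a product
-/

open CategoryTheory AlgebraicGeometry MonoidalCategory CartesianMonoidalCategory

universe u v w

set_option linter.unusedSectionVars false

namespace Pool.Agent.Lib.MP_361a6f_ag.PP

open Pool.Agent.Lib.MP_361a6f_ag.H3 Pool.Agent.Lib.MP_361a6f_ag.SQ

namespace LMP

variable {k : Type u} [Field k] {W : CohomologyData.{u, 0, w} k ℂ} {𝒱 : VarietyClass k}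

section gen

variable (hW : IsWeilCohomology W 𝒱) {Y X : Sch k} {d n : ℕ} (hY : 𝒱.mem Y d) (hX : 𝒱.mem X n)
include hW hY hX

/-- induction on homogeneous elements of the cohomology of a product -/
theorem gr_induction {P : W.coh (Y ⊗ X) → Prop} {i : ℕ} {z : W.coh (Y ⊗ X)}
    (hz : z ∈ W.gr (Y ⊗ X) i)
    (hgen : ∀ (p q : ℕ) (y : W.coh Y) (x : W.coh X), p + q = i → y ∈ W.gr Y p → x ∈ W.gr X q →
      P (W.pull (fst Y X) y * W.pull (snd Y X) x))
    (h0 : P 0) (hadd : ∀ a b, P a → P b → P (a + b)) (hsmul : ∀ (c : ℂ) a, P a → P (c • a)) :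
    P z := by
  refine Submodule.span_induction (p := fun z _ => P z) ?_ h0 (fun a b _ _ ha hb => hadd a b ha hb)
    (fun c a _ ha => hsmul c a ha) (gr_prod hW hY hX hz)
  rintro _ ⟨p, q, y, x, h, hy, hx, rfl⟩
  exact hgen p q y x h hy hx

/-- induction on exterior products of homogeneous elements -/
theorem homog_induction {P : W.coh (Y ⊗ X) → Prop} (z : W.coh (Y ⊗ X))
    (hgen : ∀ (p q : ℕ) (y : W.coh Y) (x : W.coh X), y ∈ W.gr Y p → x ∈ W.gr X q →
      P (W.pull (fst Y X) y * W.pull (snd Y X) x))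
    (h0 : P 0) (hadd : ∀ a b, P a → P b → P (a + b)) (hsmul : ∀ (c : ℂ) a, P a → P (c • a)) :
    P z := by
  have hz : z ∈ Submodule.span ℂ {z | ∃ (i j : ℕ) (y : W.coh Y) (x : W.coh X),
      y ∈ W.gr Y i ∧ x ∈ W.gr X j ∧ z = W.pull (fst Y X) y * W.pull (snd Y X) x} := by
    rw [span_homog hW hY hX]; trivial
  refine Submodule.span_induction (p := fun z _ => P z) ?_ h0 (fun a b _ _ ha hb => hadd a b ha hb)
    (fun c a _ ha => hsmul c a ha) hz
  rintro _ ⟨p, q, y, x, hy, hx, rfl⟩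
  exact hgen p q y x hy hx

theorem lamProd_gen (LamY : Module.End ℂ (W.coh Y)) (LamX : Module.End ℂ (W.coh X))
    (y : W.coh Y) (x : W.coh X) :
    lamProd hW hY hX LamY LamX (W.pull (fst Y X) y * W.pull (snd Y X) x)
      = W.pull (fst Y X) (LamY y) * W.pull (snd Y X) x
        + W.pull (fst Y X) y * W.pull (snd Y X) (LamX x) := by
  rw [lamProd, LinearMap.add_apply, ten_gen, ten_gen, LinearMap.id_apply, LinearMap.id_apply]

theorem sumPol_gen {l : W.coh Y} {ξ : W.coh X} (hξ : ξ ∈ W.gr X 2)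
    (y : W.coh Y) (x : W.coh X) :
    sumPol W l ξ * (W.pull (fst Y X) y * W.pull (snd Y X) x)
      = W.pull (fst Y X) (l * y) * W.pull (snd Y X) x
        + W.pull (fst Y X) y * W.pull (snd Y X) (ξ * x) := by
  have hYX := 𝒱.prod hY hX
  have h1 : W.pull (snd Y X) ξ ∈ W.gr (Y ⊗ X) (2 * 1) := hW.pull_gr hYX hX (snd Y X) hξ
  rw [sumPol, add_mul, ← mul_assoc, ← map_mul, ← mul_assoc, hW.even_comm hYX h1, mul_assoc,
    ← map_mul]

theorem Lop_gen {l : W.coh Y} {ξ : W.coh X} (hξ : ξ ∈ W.gr X 2)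
    (y : W.coh Y) (x : W.coh X) :
    Lop W (Y ⊗ X) (sumPol W l ξ) (W.pull (fst Y X) y * W.pull (snd Y X) x)
      = W.pull (fst Y X) (Lop W Y l y) * W.pull (snd Y X) x
        + W.pull (fst Y X) y * W.pull (snd Y X) (Lop W X ξ x) :=
  sumPol_gen hW hY hX hξ y x

/-- the exterior product of homogeneous elements is homogeneous -/
theorem ext_gr {p q : ℕ} {y : W.coh Y} {x : W.coh X} (hy : y ∈ W.gr Y p) (hx : x ∈ W.gr X q) :
    W.pull (fst Y X) y * W.pull (snd Y X) x ∈ W.gr (Y ⊗ X) (p + q) := by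
  have hYX := 𝒱.prod hY hX
  exact hW.mul_gr hYX (hW.pull_gr hYX hY (fst Y X) hy) (hW.pull_gr hYX hX (snd Y X) hx)

theorem slm {l : W.coh Y} {ξ : W.coh X} {LamY : Module.End ℂ (W.coh Y)}
    {LamX : Module.End ℂ (W.coh X)} (hl : l ∈ W.gr Y 2) (hξ : ξ ∈ W.gr X 2)
    (SY : Slm (W.gr Y) d (Lop W Y l) LamY) (SX : Slm (W.gr X) n (Lop W X ξ) LamX) :
    Slm (W.gr (Y ⊗ X)) (d + n) (Lop W (Y ⊗ X) (sumPol W l ξ))
      (lamProd hW hY hX LamY LamX) := by
  have hYX := 𝒱.prod hY hX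
  refine ⟨hW.internal hYX, fun i x hx hi => hW.top_gr hYX hx hi, ?_, ?_, ?_, ?_⟩
  · intro i x hx
    have h1 : sumPol W l ξ ∈ W.gr (Y ⊗ X) 2 :=
      Submodule.add_mem _ (hW.pull_gr hYX hY (fst Y X) hl) (hW.pull_gr hYX hX (snd Y X) hξ)
    have h2 := hW.mul_gr hYX h1 hx
    rw [add_comm] at h2
    exact h2
  · intro i z hz
    refine gr_induction hW hY hX (P := fun z => lamProd hW hY hX LamY LamX z ∈ W.gr (Y ⊗ X) i)
      hz ?_ ?_ ?_ ?_
    · intro p q y x hpq hy hx
      rw [lamProd_gen]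
      refine Submodule.add_mem _ ?_ ?_
      · by_cases hp : p < 2
        · rw [SY.Λ_low p y hp hy, map_zero, zero_mul]
          exact Submodule.zero_mem _
        · obtain ⟨p', rfl⟩ : ∃ p', p = p' + 2 := ⟨p - 2, by omega⟩
          have h1 := ext_gr hW hY hX (SY.Λ_gr p' y hy) hx
          have e : p' + q = i := by omega
          rwa [e] at h1
      · by_cases hq : q < 2
        · rw [SX.Λ_low q x hq hx, map_zero, mul_zero]
          exact Submodule.zero_mem _
        · obtain ⟨q', rfl⟩ : ∃ q', q = q' + 2 := ⟨q - 2, by omega⟩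
          have h1 := ext_gr hW hY hX hy (SX.Λ_gr q' x hx)
          have e : p + q' = i := by omega
          rwa [e] at h1
    · rw [map_zero]; exact Submodule.zero_mem _
    · intro a b ha hb
      rw [map_add]; exact Submodule.add_mem _ ha hb
    · intro c a ha
      rw [map_smul]; exact Submodule.smul_mem _ c ha
  · intro i z hi hz
    refine gr_induction hW hY hX (P := fun z => lamProd hW hY hX LamY LamX z = 0)
      hz ?_ ?_ ?_ ?_
    · intro p q y x hpq hy hx
      rw [lamProd_gen, SY.Λ_low p y (by omega) hy, SX.Λ_low q x (by omega) hx, map_zero,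
        map_zero, zero_mul, mul_zero, add_zero]
    · rw [map_zero]
    · intro a b ha hb
      rw [map_add, ha, hb, add_zero]
    · intro c a ha
      rw [map_smul, ha, smul_zero]
  · intro i z hz
    refine gr_induction hW hY hX (P := fun z =>
      Lop W (Y ⊗ X) (sumPol W l ξ) (lamProd hW hY hX LamY LamX z)
        - lamProd hW hY hX LamY LamX (Lop W (Y ⊗ X) (sumPol W l ξ) z)
        = ((i : ℂ) - ((d + n : ℕ) : ℂ)) • z) hz ?_ ?_ ?_ ?_
    · intro p q y x hpq hy hx
      have cY := SY.comm p y hy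
      have cX := SX.comm q x hx
      rw [lamProd_gen, Lop_gen hW hY hX hξ, map_add, map_add, Lop_gen hW hY hX hξ,
        Lop_gen hW hY hX hξ, lamProd_gen, lamProd_gen]
      have e1 : W.pull (fst Y X) (Lop W Y l (LamY y)) * W.pull (snd Y X) x
          - W.pull (fst Y X) (LamY (Lop W Y l y)) * W.pull (snd Y X) x
          = ((p : ℂ) - (d : ℂ)) • (W.pull (fst Y X) y * W.pull (snd Y X) x) := by
        rw [← sub_mul, ← map_sub, cY, map_smul, smul_mul_assoc]
      have e2 : W.pull (fst Y X) y * W.pull (snd Y X) (Lop W X ξ (LamX x))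
          - W.pull (fst Y X) y * W.pull (snd Y X) (LamX (Lop W X ξ x))
          = ((q : ℂ) - (n : ℂ)) • (W.pull (fst Y X) y * W.pull (snd Y X) x) := by
        rw [← mul_sub, ← map_sub, cX, map_smul, mul_smul_comm]
      have e3 : ((i : ℂ) - ((d + n : ℕ) : ℂ)) = ((p : ℂ) - (d : ℂ)) + ((q : ℂ) - (n : ℂ)) := by
        rw [← hpq]; push_cast; ring
      rw [e3, add_smul, ← e1, ← e2]
      abel
    · simp
    · intro a b ha hb
      rw [map_add, map_add, map_add, map_add, smul_add, ← ha, ← hb]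
      abel
    · intro c a ha
      rw [map_smul, map_smul, map_smul, map_smul, ← smul_sub, ha, smul_comm]

/-- the sign in the product of `y ⊗ Λ x` and `y' ⊗ x'` -/
theorem gen_LamX {ξ : W.coh X} {LamX : Module.End ℂ (W.coh X)}
    (SX : Slm (W.gr X) n (Lop W X ξ) LamX) {i j : ℕ} {x : W.coh X} (hx : x ∈ W.gr X i)
    {y' : W.coh Y} (hy' : y' ∈ W.gr Y j) (y : W.coh Y) (x' : W.coh X) :
    W.pull (fst Y X) y * W.pull (snd Y X) (LamX x)
        * (W.pull (fst Y X) y' * W.pull (snd Y X) x')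
      = (-1 : ℂ) ^ (i * j) • (W.pull (fst Y X) (y * y') * W.pull (snd Y X) (LamX x * x')) := by
  by_cases hi : i < 2
  · rw [SX.Λ_low i x hi hx, map_zero, mul_zero, zero_mul, zero_mul, map_zero, mul_zero, smul_zero]
  · obtain ⟨i', rfl⟩ : ∃ i', i = i' + 2 := ⟨i - 2, by omega⟩
    rw [prod_gen hW hY hX (SX.Λ_gr i' x hx) hy' y x']
    congr 1
    rw [add_mul, pow_add, pow_mul (-1 : ℂ) 2 j]
    simp

/-- the sign in the product of `y ⊗ x` and `Λ y' ⊗ x'` -/
theorem gen_LamY {l : W.coh Y} {LamY : Module.End ℂ (W.coh Y)}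
    (SY : Slm (W.gr Y) d (Lop W Y l) LamY) {i j : ℕ} {x : W.coh X} (hx : x ∈ W.gr X i)
    {y' : W.coh Y} (hy' : y' ∈ W.gr Y j) (y : W.coh Y) (x' : W.coh X) :
    W.pull (fst Y X) y * W.pull (snd Y X) x
        * (W.pull (fst Y X) (LamY y') * W.pull (snd Y X) x')
      = (-1 : ℂ) ^ (i * j) • (W.pull (fst Y X) (y * LamY y') * W.pull (snd Y X) (x * x')) := by
  by_cases hj : j < 2
  · rw [SY.Λ_low j y' hj hy', map_zero, zero_mul, mul_zero, mul_zero, map_zero, zero_mul,
      smul_zero]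
  · obtain ⟨j', rfl⟩ : ∃ j', j = j' + 2 := ⟨j - 2, by omega⟩
    rw [prod_gen hW hY hX hx (SY.Λ_gr j' y' hy') y x']
    congr 1
    rw [mul_add, pow_add, mul_comm i 2, pow_mul (-1 : ℂ) 2 i]
    simp

theorem adj {l : W.coh Y} {ξ : W.coh X} {LamY : Module.End ℂ (W.coh Y)}
    {LamX : Module.End ℂ (W.coh X)}
    (SY : Slm (W.gr Y) d (Lop W Y l) LamY) (SX : Slm (W.gr X) n (Lop W X ξ) LamX)
    (aY : ∀ x y, W.tr Y (LamY x * y) = W.tr Y (x * LamY y))
    (aX : ∀ x y, W.tr X (LamX x * y) = W.tr X (x * LamX y)) (z z' : W.coh (Y ⊗ X)) :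
    W.tr (Y ⊗ X) (lamProd hW hY hX LamY LamX z * z')
      = W.tr (Y ⊗ X) (z * lamProd hW hY hX LamY LamX z') := by
  refine homog_induction hW hY hX (P := fun z =>
    W.tr (Y ⊗ X) (lamProd hW hY hX LamY LamX z * z')
      = W.tr (Y ⊗ X) (z * lamProd hW hY hX LamY LamX z')) z ?_ ?_ ?_ ?_
  · intro p q y x hy hx
    refine homog_induction hW hY hX (P := fun z' =>
      W.tr (Y ⊗ X) (lamProd hW hY hX LamY LamX (W.pull (fst Y X) y * W.pull (snd Y X) x) * z')
        = W.tr (Y ⊗ X) (W.pull (fst Y X) y * W.pull (snd Y X) x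
          * lamProd hW hY hX LamY LamX z')) z' ?_ ?_ ?_ ?_
    · intro p' q' y' x' hy' hx'
      rw [lamProd_gen, lamProd_gen, add_mul, mul_add, map_add, map_add,
        prod_gen hW hY hX hx hy' (LamY y) x', gen_LamX hW hY hX SX hx hy' y x',
        gen_LamY hW hY hX SY hx hy' y x', prod_gen hW hY hX hx hy' y (LamX x'),
        map_smul, map_smul, map_smul, map_smul, hW.kunneth_tr hY hX, hW.kunneth_tr hY hX,
        hW.kunneth_tr hY hX, hW.kunneth_tr hY hX, aY, aX]
    · simp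
    · intro a b ha hb
      rw [mul_add, map_add, map_add, mul_add, map_add, ha, hb]
    · intro c a ha
      rw [mul_smul_comm, map_smul, map_smul, mul_smul_comm, map_smul, ha]
  · simp
  · intro a b ha hb
    rw [map_add, add_mul, map_add, add_mul, map_add, ha, hb]
  · intro c a ha
    rw [map_smul, smul_mul_assoc, map_smul, smul_mul_assoc, map_smul, ha]

end gen

end LMP

theorem lmp : TalStatement.{u, w} → LmpStatement.{u, w} := by
  intro hT k _ W 𝒱 hW Y X d n hY hX l ξ LamY LamX hl hξ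
  refine ⟨LMP.slm hW hY hX hl hξ, fun DY DX => ⟨LMP.slm hW hY hX hl hξ DY.slm DX.slm,
    LMP.adj hW hY hX DY.slm DX.slm DY.adj DX.adj, ?_⟩⟩
  exact AlgOp.add hW (𝒱.prod hY hX) (hT hW hY hX LamY LinearMap.id DY.alg (AlgOp.id hW hX))
    (hT hW hY hX LinearMap.id LamX (AlgOp.id hW hY) DX.alg)

end Pool.Agent.Lib.MP_361a6f_ag.PP
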