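import Pool.Agent.Lib.MP_361a6f_ag.PP.Ops

/-!
# Tensor products of algebraic operators are algebraic
-/

open CategoryTheory AlgebraicGeometry MonoidalCategory CartesianMonoidalCategory

universe u v w

set_option linter.unusedSectionVars false

namespace Pool.Agent.Lib.MP_361a6f_ag.PP

open Pool.Agent.Lib.MP_361a6f_ag.H3 Pool.Agent.Lib.MP_361a6f_ag.SQ
  Pool.Agent.Lib.MP_361a6f_ag.IP2

namespace TAL

variable {k : Type u} [Field k] {K : Type v} [Field K] [CharZero K]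
  {W : CohomologyData.{u, v, w} k K} {𝒱 : VarietyClass k}

/-- the push-forward along a morphism -/
theorem algCor_push (hW : IsWeilCohomology W 𝒱) {X Y : Sch k} {n d : ℕ} (hX : 𝒱.mem X n)
    (hY : 𝒱.mem Y d) (f : X ⟶ Y) : AlgCor W X Y (W.push f) := by
  obtain ⟨u', hu', -, h⟩ := (AlgCor.pull hW hY hX f).transpose hW hY hX
  have : W.push f = u' := by
    refine LinearMap.ext fun t => ?_
    rw [← sub_eq_zero]
    refine hW.duality hY _ (fun s => ?_)
    rw [sub_mul, map_sub, hW.push_adj hX hY, ← h s t, AlgHom.toLinearMap_apply, sub_self]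
  rw [this]
  exact hu'

theorem algOp_mulRight (hW : IsWeilCohomology W 𝒱) {X : Sch k} {n : ℕ} (hX : 𝒱.mem X n)
    {c : W.coh X} (hc : c ∈ tot W X) : AlgCor W X X (LinearMap.mulRight K c) := by
  have : LinearMap.mulRight K c = LinearMap.mulLeft K c := by
    refine LinearMap.ext fun t => ?_
    rw [LinearMap.mulRight_apply, LinearMap.mulLeft_apply, tot_comm hW hX hc]
  rw [this]
  exact AlgOp.mulLeft hW hX hc

/-- the operator on the first factor -/
theorem ten_left (hW : IsWeilCohomology W 𝒱) {Y X : Sch k} {d n : ℕ} (hY : 𝒱.mem Y d)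
    (hX : 𝒱.mem X n) {u : W.coh Y →ₗ[K] W.coh Y} (hu : AlgOp W Y u) :
    AlgOp W (Y ⊗ X) (ten hW hY hX u LinearMap.id) := by
  obtain ⟨γ, hγ, hu⟩ := hu
  have hYX := 𝒱.prod hY hX
  have hYY := 𝒱.prod hY hY
  have hT := 𝒱.prod hY hYX
  have hgγ : W.pull (lift (fst Y (Y ⊗ X)) (snd Y (Y ⊗ X) ≫ fst Y X)) γ ∈ tot W (Y ⊗ (Y ⊗ X)) :=
    tot_pull hW hT hYY _ hγ
  have key : ten hW hY hX u LinearMap.id = (W.push (snd Y (Y ⊗ X))) ∘ₗ
      (LinearMap.mulRight K (W.pull (lift (fst Y (Y ⊗ X)) (snd Y (Y ⊗ X) ≫ fst Y X)) γ)) ∘ₗ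
      (W.pull (lift (fst Y (Y ⊗ X)) (snd Y (Y ⊗ X) ≫ snd Y X))).toLinearMap := by
    refine lin_ext hW hY hX _ _ (fun y x => ?_)
    rw [ten_gen, LinearMap.comp_apply, LinearMap.comp_apply, AlgHom.toLinearMap_apply,
      LinearMap.mulRight_apply, map_mul (W.pull _), ← W.pull_comp, ← W.pull_comp, lift_fst, lift_snd,
      mul_assoc, ← tot_comm hW hT hgγ, ← mul_assoc, LinearMap.id_apply, hu y, act]
    have e1 : W.pull (fst Y (Y ⊗ X)) y
        * W.pull (lift (fst Y (Y ⊗ X)) (snd Y (Y ⊗ X) ≫ fst Y X)) γ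
        = W.pull (lift (fst Y (Y ⊗ X)) (snd Y (Y ⊗ X) ≫ fst Y X)) (W.pull (fst Y Y) y * γ) := by
      rw [map_mul, ← W.pull_comp, lift_fst]
    rw [e1]
    refine prod_induction hW hY hY (P := fun a => W.pull (fst Y X) (W.push (snd Y Y) a) *
      W.pull (snd Y X) x = W.push (snd Y (Y ⊗ X))
        (W.pull (lift (fst Y (Y ⊗ X)) (snd Y (Y ⊗ X) ≫ fst Y X)) a *
          W.pull (snd Y (Y ⊗ X) ≫ snd Y X) x)) (W.pull (fst Y Y) y * γ) ?_ ?_ ?_ ?_
    · intro c e
      rw [push_snd_ext hW hY hY, map_smul, map_mul (W.pull _), ← W.pull_comp, ← W.pull_comp, lift_fst,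
        lift_snd, W.pull_comp, W.pull_comp, mul_assoc, ← map_mul, push_snd_ext hW hY hYX,
        smul_mul_assoc]
    · simp
    · intro a b ha hb
      rw [map_add, map_add, add_mul, ha, hb, map_add, add_mul, map_add]
    · intro c a ha
      rw [map_smul, map_smul, smul_mul_assoc, ha, map_smul, smul_mul_assoc, map_smul]
  rw [key]
  exact AlgCor.comp hW hYX hT hYX (algCor_push hW hT hYX _)
    (AlgCor.comp hW hYX hT hT (algOp_mulRight hW hT hgγ) (AlgCor.pull hW hYX hT _))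

/-- the operator on the second factor -/
theorem ten_right (hW : IsWeilCohomology W 𝒱) {Y X : Sch k} {d n : ℕ} (hY : 𝒱.mem Y d)
    (hX : 𝒱.mem X n) {v : W.coh X →ₗ[K] W.coh X} (hv : AlgOp W X v) :
    AlgOp W (Y ⊗ X) (ten hW hY hX LinearMap.id v) := by
  obtain ⟨γ, hγ, hv⟩ := hv
  have hYX := 𝒱.prod hY hX
  have hXX := 𝒱.prod hX hX
  have hT := 𝒱.prod hX hYX
  have hgγ : W.pull (lift (fst X (Y ⊗ X)) (snd X (Y ⊗ X) ≫ snd Y X)) γ ∈ tot W (X ⊗ (Y ⊗ X)) :=
    tot_pull hW hT hXX _ hγ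
  have key : ten hW hY hX LinearMap.id v = (W.push (snd X (Y ⊗ X))) ∘ₗ
      (LinearMap.mulRight K (W.pull (lift (fst X (Y ⊗ X)) (snd X (Y ⊗ X) ≫ snd Y X)) γ)) ∘ₗ
      (W.pull (lift (snd X (Y ⊗ X) ≫ fst Y X) (fst X (Y ⊗ X)))).toLinearMap := by
    refine lin_ext hW hY hX _ _ (fun y x => ?_)
    rw [ten_gen, LinearMap.comp_apply, LinearMap.comp_apply, AlgHom.toLinearMap_apply,
      LinearMap.mulRight_apply, map_mul (W.pull _), ← W.pull_comp, ← W.pull_comp, lift_fst, lift_snd,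
      mul_assoc, LinearMap.id_apply, hv x, act]
    have e1 : W.pull (fst X (Y ⊗ X)) x
        * W.pull (lift (fst X (Y ⊗ X)) (snd X (Y ⊗ X) ≫ snd Y X)) γ
        = W.pull (lift (fst X (Y ⊗ X)) (snd X (Y ⊗ X) ≫ snd Y X)) (W.pull (fst X X) x * γ) := by
      rw [map_mul, ← W.pull_comp, lift_fst]
    rw [e1]
    refine prod_induction hW hX hX (P := fun a => W.pull (fst Y X) y *
      W.pull (snd Y X) (W.push (snd X X) a) = W.push (snd X (Y ⊗ X))
        (W.pull (snd X (Y ⊗ X) ≫ fst Y X) y *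
          W.pull (lift (fst X (Y ⊗ X)) (snd X (Y ⊗ X) ≫ snd Y X)) a)) (W.pull (fst X X) x * γ)
      ?_ ?_ ?_ ?_
    · intro c e
      rw [push_snd_ext hW hX hX, map_smul, map_mul (W.pull _), ← W.pull_comp, ← W.pull_comp, lift_fst,
        lift_snd, W.pull_comp, W.pull_comp, push_snd_mid hW hX hYX, mul_smul_comm]
    · simp
    · intro a b ha hb
      rw [map_add, map_add, mul_add, ha, hb, map_add, mul_add, map_add]
    · intro c a ha
      rw [map_smul, map_smul, mul_smul_comm, ha, map_smul, mul_smul_comm, map_smul]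
  rw [key]
  exact AlgCor.comp hW hYX hT hYX (algCor_push hW hT hYX _)
    (AlgCor.comp hW hYX hT hT (algOp_mulRight hW hT hgγ) (AlgCor.pull hW hYX hT _))

/-- the exterior product of algebraic operators, any coefficients -/
theorem ten_alg (hW : IsWeilCohomology W 𝒱) {Y X : Sch k} {d n : ℕ} (hY : 𝒱.mem Y d)
    (hX : 𝒱.mem X n) {u : W.coh Y →ₗ[K] W.coh Y} {v : W.coh X →ₗ[K] W.coh X}
    (hu : AlgOp W Y u) (hv : AlgOp W X v) : AlgOp W (Y ⊗ X) (ten hW hY hX u v) := by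
  have key : ten hW hY hX u v
      = (ten hW hY hX LinearMap.id v) ∘ₗ (ten hW hY hX u LinearMap.id) := by
    refine lin_ext hW hY hX _ _ (fun y x => ?_)
    rw [LinearMap.comp_apply, ten_gen, ten_gen, ten_gen, LinearMap.id_apply, LinearMap.id_apply]
  rw [key]
  exact AlgOp.comp hW (𝒱.prod hY hX) (ten_right hW hY hX hv) (ten_left hW hY hX hu)

end TAL

theorem tal : TalStatement.{u, w} :=
  fun hW _ _ _ _ hY hX _ _ ha hb => TAL.ten_alg hW hY hX ha hb

end Pool.Agent.Lib.MP_361a6f_ag.PP
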