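import Pool.Agent.Lib.MP_361a6f_ag.PP.Root
import Pool.Agent.Lib.MP_361a6f_ag.H3.RealStr

/-!
# Positive definite hermitian forms on the cohomology of a product
-/

open CategoryTheory AlgebraicGeometry MonoidalCategory CartesianMonoidalCategory

universe u v w

set_option autoImplicit false
set_option linter.unusedSectionVars false

namespace Pool.Agent.Lib.MP_361a6f_ag.PP

open Module Pool.Agent.Lib.MP_361a6f_ag.H3

section lin

variable {V : Type*} [AddCommGroup V] [Module ℂ V]

/-- a positive definite hermitian form has an orthonormal basis -/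
theorem PosHerm.exists_orthonormal [FiniteDimensional ℂ V] {H : V → V → ℂ} (h : PosHerm H) :
    ∃ b : Basis (Fin (finrank ℂ V)) ℂ V, ∀ i j, H (b i) (b j) = if i = j then 1 else 0 := by
  classical
  let c : InnerProductSpace.Core ℂ V :=
    { inner := fun x y => H y x
      conj_inner_symm := fun x y => h.conj _ _
      re_inner_nonneg := fun x => by
        obtain ⟨r, hr0, hr, -⟩ := h.self x
        show 0 ≤ RCLike.re (H x x)
        rw [hr]
        exact hr0
      add_left := fun x y z => h.add_right _ _ _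
      smul_left := fun x y r => h.smul_right _ _ _
      definite := fun x hx => by
        obtain ⟨r, hr0, hr, h1⟩ := h.self x
        have hx' : H x x = 0 := hx
        rw [hr] at hx'
        exact h1 (by exact_mod_cast hx') }
  let _ : NormedAddCommGroup V := @InnerProductSpace.Core.toNormedAddCommGroup ℂ V _ _ _ c
  let _ : InnerProductSpace ℂ V := InnerProductSpace.ofCore c.toCore
  set b := stdOrthonormalBasis ℂ V
  refine ⟨b.toBasis, fun i j => ?_⟩
  have h1 := orthonormal_iff_ite.1 b.orthonormal j i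
  have h2 : inner ℂ (b j) (b i) = H (b i) (b j) := rfl
  rw [OrthonormalBasis.coe_toBasis, ← h2, h1]
  by_cases hij : i = j
  · rw [if_pos hij, if_pos hij.symm]
  · rw [if_neg hij, if_neg (fun h => hij h.symm)]

/-- a hermitian form with an orthonormal basis is positive definite -/
theorem PosHerm.of_orthonormal {ι : Type*} [Fintype ι] [DecidableEq ι] {H : V → V → ℂ}
    (hadd : ∀ x x' y, H (x + x') y = H x y + H x' y)
    (hsmul : ∀ (c : ℂ) x y, H (c • x) y = c * H x y)
    (hconj : ∀ x y, starRingEnd ℂ (H x y) = H y x) (b : Basis ι ℂ V)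
    (hb : ∀ i j, H (b i) (b j) = if i = j then 1 else 0) : PosHerm H := by
  refine ⟨hadd, hsmul, hconj, fun x => ?_⟩
  have hsum : ∀ (s : Finset ι) (f : ι → V) (y : V), H (∑ i ∈ s, f i) y = ∑ i ∈ s, H (f i) y := by
    intro s f y
    induction s using Finset.induction_on with
    | empty =>
      rw [Finset.sum_empty, Finset.sum_empty]
      have := hsmul 0 0 y
      rwa [zero_smul, zero_mul] at this
    | insert a s ha ih => rw [Finset.sum_insert ha, hadd, ih, Finset.sum_insert ha]
  have hcoef : ∀ i, H (b i) x = starRingEnd ℂ (b.repr x i) := by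
    intro i
    rw [← hconj x (b i)]
    congr 1
    conv_lhs => rw [← b.sum_repr x]
    rw [hsum, Finset.sum_eq_single i]
    · rw [hsmul, hb, if_pos rfl, mul_one]
    · intro j _ hj
      rw [hsmul, hb, if_neg hj, mul_zero]
    · intro hi
      exact absurd (Finset.mem_univ i) hi
  refine ⟨∑ i, Complex.normSq (b.repr x i), Finset.sum_nonneg fun i _ => Complex.normSq_nonneg _,
    ?_, ?_⟩
  · conv_lhs => rw [← b.sum_repr x]
    rw [b.sum_repr x, ← b.sum_repr x, hsum, b.sum_repr x]
    push_cast
    refine Finset.sum_congr rfl fun i _ => ?_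
    rw [hsmul, hcoef, Complex.mul_conj]
  · intro h0
    rw [Finset.sum_eq_zero_iff_of_nonneg fun k _ => Complex.normSq_nonneg _] at h0
    refine b.repr.map_eq_zero_iff.1 ?_
    ext k
    exact Complex.normSq_eq_zero.1 (h0 k (Finset.mem_univ k))

end lin

section prod

variable {k : Type u} [Field k] {W : CohomologyData.{u, 0, w} k ℂ} {𝒱 : VarietyClass k}
variable (hW : IsWeilCohomology W 𝒱) {Y X : Sch k} {d e : ℕ} (hY : 𝒱.mem Y d) (hX : 𝒱.mem X e)

include hW hY hX

/-- the product of two positive definite hermitian forms -/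
theorem PosHerm.prod {HY : W.coh Y → W.coh Y → ℂ} {HX : W.coh X → W.coh X → ℂ}
    (pY : PosHerm HY) (pX : PosHerm HX) {H : W.coh (Y ⊗ X) → W.coh (Y ⊗ X) → ℂ}
    (hadd : ∀ x x' y, H (x + x') y = H x y + H x' y)
    (hsmul : ∀ (c : ℂ) x y, H (c • x) y = c * H x y)
    (hconj : ∀ x y, starRingEnd ℂ (H x y) = H y x)
    (hgen : ∀ y x y' x', H (W.pull (fst Y X) y * W.pull (snd Y X) x)
      (W.pull (fst Y X) y' * W.pull (snd Y X) x') = HY y y' * HX x x') : PosHerm H := by
  classical
  have := hW.finite hY
  have := hW.finite hX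
  obtain ⟨bY, hbY⟩ := pY.exists_orthonormal
  obtain ⟨bX, hbX⟩ := pX.exists_orthonormal
  set b := Module.Basis.mk (linInd_prod hW hY hX bY bX) (span_prod hW hY hX bY bX) with hb
  refine PosHerm.of_orthonormal hadd hsmul hconj b fun p p' => ?_
  rw [hb, Module.Basis.mk_apply, Module.Basis.mk_apply, hgen, hbY, hbX]
  obtain ⟨i, l⟩ := p
  obtain ⟨i', l'⟩ := p'
  by_cases h1 : i = i'
  · by_cases h2 : l = l'
    · rw [if_pos h1, if_pos h2, mul_one, if_pos (by rw [h1, h2])]
    · rw [if_neg h2, mul_zero, if_neg (by rintro ⟨⟩; exact h2 rfl)]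
  · rw [if_neg h1, zero_mul, if_neg (by rintro ⟨⟩; exact h1 rfl)]

end prod

end Pool.Agent.Lib.MP_361a6f_ag.PP
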