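import Pool.Agent.Lib.MP_361a6f_ag.PP.Defs
import Pool.Agent.Lib.MP_361a6f_ag.PP.Tens

/-!
# Row RSP: products of real structures
-/

open CategoryTheory AlgebraicGeometry MonoidalCategory CartesianMonoidalCategory

universe u v w

set_option autoImplicit false
set_option linter.unusedSectionVars false

namespace Pool.Agent.Lib.MP_361a6f_ag.PP

open Pool.Agent.Lib.MP_361a6f_ag.H3 Pool.Agent.Lib.MP_361a6f_ag.SQ
  Pool.Agent.Lib.MP_361a6f_ag.IP2

/-- a sesquilinear form with `H(x, x) > 0` is hermitian -/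
theorem PosHerm.of_pos {V : Type*} [AddCommGroup V] [Module ℂ V] {H : V → V → ℂ}
    (hal : ∀ x x' y, H (x + x') y = H x y + H x' y)
    (hsl : ∀ (c : ℂ) x y, H (c • x) y = c * H x y)
    (har : ∀ x y y', H x (y + y') = H x y + H x y')
    (hsr : ∀ (c : ℂ) x y, H x (c • y) = starRingEnd ℂ c * H x y)
    (hpos : ∀ x, x ≠ 0 → ∃ r : ℝ, 0 < r ∧ H x x = (r : ℂ)) : PosHerm H := by
  have h0 : ∀ x, ∃ r : ℝ, 0 ≤ r ∧ H x x = r ∧ (r = 0 → x = 0) := by
    intro x
    by_cases hx : x = 0
    · refine ⟨0, le_rfl, ?_, fun _ => hx⟩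
      have := hsl 0 0 x
      rw [zero_smul, zero_mul] at this
      rw [hx] at this ⊢
      rw [this, Complex.ofReal_zero]
    · obtain ⟨r, hr, hr'⟩ := hpos x hx
      exact ⟨r, hr.le, hr', fun h => absurd h hr.ne'⟩
  refine ⟨hal, hsl, fun x y => ?_, h0⟩
  obtain ⟨a, -, ha, -⟩ := h0 x
  obtain ⟨b, -, hb, -⟩ := h0 y
  obtain ⟨c, -, hc, -⟩ := h0 (x + y)
  obtain ⟨d, -, hd, -⟩ := h0 (x + Complex.I • y)
  rw [hal, har, har, ha, hb] at hc
  rw [hal, har, har, hsl, hsl, hsr, hsr, ha, hb, Complex.conj_I] at hd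
  have e1 := congrArg Complex.im hc
  have e2 := congrArg Complex.im hd
  simp only [Complex.add_im, Complex.mul_im, Complex.ofReal_im, Complex.ofReal_re,
    Complex.neg_im, Complex.neg_re, Complex.I_im, Complex.I_re, Complex.mul_re] at e1 e2
  refine Complex.ext ?_ ?_
  · rw [Complex.conj_re]
    linarith
  · rw [Complex.conj_im]
    linarith

section psi

variable {k : Type u} [Field k] {W : CohomologyData.{u, 0, w} k ℂ} {X : Sch k} {n : ℕ}
  {ξ : W.coh X} {Lam : Module.End ℂ (W.coh X)} (h : DirectSum.IsInternal (W.gr X))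

theorem psi_add_left (x x' y : W.coh X) :
    psi W X ξ Lam h (x + x') y = psi W X ξ Lam h x y + psi W X ξ Lam h x' y := by
  rw [psi, add_mul, map_add]; rfl

theorem psi_smul_left (c : ℂ) (x y : W.coh X) :
    psi W X ξ Lam h (c • x) y = c * psi W X ξ Lam h x y := by
  rw [psi, smul_mul_assoc, map_smul]; rfl

theorem psi_add_right (x y y' : W.coh X) :
    psi W X ξ Lam h x (y + y') = psi W X ξ Lam h x y + psi W X ξ Lam h x y' := by
  rw [psi, map_add, mul_add, map_add]; rfl

theorem psi_smul_right (c : ℂ) (x y : W.coh X) :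
    psi W X ξ Lam h x (c • y) = c * psi W X ξ Lam h x y := by
  rw [psi, map_smul, mul_smul_comm, map_smul]; rfl

/-- the hermitian form of a real structure -/
theorem IsRS.posHerm {j : W.coh X →ₛₗ[starRingEnd ℂ] W.coh X} (R : IsRS W X n ξ Lam j) :
    PosHerm (fun x y => psi W X ξ Lam R.slm.internal x (j y)) := by
  refine PosHerm.of_pos (fun x x' y => psi_add_left _ x x' _) (fun c x y => psi_smul_left _ c x _)
    (fun x y y' => ?_) (fun c x y => ?_) R.pos
  · rw [map_add, psi_add_right]
  · rw [LinearMap.map_smulₛₗ, psi_smul_right]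

end psi

section prod

variable {k : Type u} [Field k] {W : CohomologyData.{u, 0, w} k ℂ} {𝒱 : VarietyClass k}
variable (hW : IsWeilCohomology W 𝒱) {Y X : Sch k} {d e : ℕ} (hY : 𝒱.mem Y d) (hX : 𝒱.mem X e)

include hW hY hX

/-- induction for additive properties of classes on a product, homogeneous generators -/
theorem prod_hom_induction {P : W.coh (Y ⊗ X) → Prop} (z : W.coh (Y ⊗ X))
    (hgen : ∀ i l y x, y ∈ W.gr Y i → x ∈ W.gr X l →
      P (W.pull (fst Y X) y * W.pull (snd Y X) x)) (h0 : P 0)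
    (hadd : ∀ a b, P a → P b → P (a + b)) (hsmul : ∀ (c : ℂ) a, P a → P (c • a)) : P z := by
  have hz : z ∈ Submodule.span ℂ {z | ∃ (i j : ℕ) (y : W.coh Y) (x : W.coh X),
      y ∈ W.gr Y i ∧ x ∈ W.gr X j ∧ z = W.pull (fst Y X) y * W.pull (snd Y X) x} := by
    rw [span_homog hW hY hX]; trivial
  refine Submodule.span_induction (p := fun z _ => P z) ?_ h0 (fun a b _ _ => hadd a b)
    (fun c a _ => hsmul c a) hz
  rintro _ ⟨i, l, y, x, hy, hx, rfl⟩
  exact hgen i l y x hy hx

/-- the product of an operator of even degree on the right factor with a class from the left -/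
theorem sumPol_mul {l : W.coh Y} {ξ : W.coh X} (hξ : ξ ∈ W.gr X 2) (y : W.coh Y) (x : W.coh X) :
    sumPol W l ξ * (W.pull (fst Y X) y * W.pull (snd Y X) x)
      = W.pull (fst Y X) (l * y) * W.pull (snd Y X) x
        + W.pull (fst Y X) y * W.pull (snd Y X) (ξ * x) := by
  have hYX := 𝒱.prod hY hX
  have h1 : ∀ y : W.coh Y, W.pull (snd Y X) ξ * W.pull (fst Y X) y
      = W.pull (fst Y X) y * W.pull (snd Y X) ξ := by
    intro y
    refine hW.hom_induction hY (P := fun y => W.pull (snd Y X) ξ * W.pull (fst Y X) y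
      = W.pull (fst Y X) y * W.pull (snd Y X) ξ) y ?_ ?_ ?_
    · intro i y hy
      rw [hW.comm_gr hYX (hW.pull_gr hYX hX _ hξ) (hW.pull_gr hYX hY _ hy), pow_mul]
      simp
    · simp
    · intro a b ha hb
      rw [map_add, mul_add, ha, hb, add_mul]
  rw [sumPol, add_mul, ← mul_assoc, ← map_mul, ← mul_assoc (W.pull (snd Y X) ξ), h1, mul_assoc,
    ← map_mul]

end prod

theorem rsp (hLmp : LmpStatement.{u, w}) (hStp : StpStatement.{u, w}) :
    RspStatement.{u, w} := by
  intro k _ W 𝒱 hW Y X d n hY hX l ξ LamY LamX jY jX hl hξ RY RX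
  have hYX := 𝒱.prod hY hX
  obtain ⟨j, hj⟩ := exists_semi hW hY hX jY jX
  have S := (hLmp hW hY hX hl hξ).1 RY.slm RX.slm
  have hpsi := (hStp hW hY hX hl hξ RY.slm RX.slm S).2
  have hpsi' : ∀ y x y' x', psi W (Y ⊗ X) (sumPol W l ξ) (lamProd hW hY hX LamY LamX) S.internal
        (W.pull (fst Y X) y * W.pull (snd Y X) x)
        (j (W.pull (fst Y X) y' * W.pull (snd Y X) x'))
      = psi W Y l LamY RY.slm.internal y (jY y') * psi W X ξ LamX RX.slm.internal x (jX x') := by
    intro y x y' x'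
    rw [hj, hpsi]
  have hconj : ∀ z z', starRingEnd ℂ (psi W (Y ⊗ X) (sumPol W l ξ) (lamProd hW hY hX LamY LamX)
      S.internal z (j z')) = psi W (Y ⊗ X) (sumPol W l ξ) (lamProd hW hY hX LamY LamX)
      S.internal z' (j z) := by
    intro z z'
    refine prod_induction hW hY hX (P := fun z => starRingEnd ℂ (psi W (Y ⊗ X) (sumPol W l ξ)
      (lamProd hW hY hX LamY LamX) S.internal z (j z')) = psi W (Y ⊗ X) (sumPol W l ξ)
      (lamProd hW hY hX LamY LamX) S.internal z' (j z)) z ?_ ?_ ?_ ?_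
    · intro y x
      refine prod_induction hW hY hX (P := fun z' => starRingEnd ℂ (psi W (Y ⊗ X) (sumPol W l ξ)
        (lamProd hW hY hX LamY LamX) S.internal (W.pull (fst Y X) y * W.pull (snd Y X) x) (j z'))
        = psi W (Y ⊗ X) (sumPol W l ξ) (lamProd hW hY hX LamY LamX) S.internal z'
          (j (W.pull (fst Y X) y * W.pull (snd Y X) x))) z' ?_ ?_ ?_ ?_
      · intro y' x'
        rw [hpsi', hpsi', map_mul, RY.posHerm.conj, RX.posHerm.conj]
      · have e1 : psi W (Y ⊗ X) (sumPol W l ξ) (lamProd hW hY hX LamY LamX) S.internal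
          (W.pull (fst Y X) y * W.pull (snd Y X) x) (j 0) = 0 := by
          have := psi_smul_right (ξ := sumPol W l ξ) (Lam := lamProd hW hY hX LamY LamX)
            S.internal 0 (W.pull (fst Y X) y * W.pull (snd Y X) x) 0
          rwa [zero_smul, zero_mul, ← map_zero j] at this
        have e2 := psi_smul_left (ξ := sumPol W l ξ) (Lam := lamProd hW hY hX LamY LamX)
            S.internal 0 0 (j (W.pull (fst Y X) y * W.pull (snd Y X) x))
        rw [zero_smul, zero_mul] at e2
        rw [e1, e2, map_zero]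
      · intro a b ha hb
        rw [map_add, psi_add_right, map_add, ha, hb, psi_add_left]
      · intro c a ha
        rw [LinearMap.map_smulₛₗ, psi_smul_right, map_mul, ha, psi_smul_left, Complex.conj_conj]
    · have e1 := psi_smul_left (ξ := sumPol W l ξ) (Lam := lamProd hW hY hX LamY LamX)
            S.internal 0 0 (j z')
      rw [zero_smul, zero_mul] at e1
      have e2 : psi W (Y ⊗ X) (sumPol W l ξ) (lamProd hW hY hX LamY LamX) S.internal
          z' (j 0) = 0 := by
        have := psi_smul_right (ξ := sumPol W l ξ) (Lam := lamProd hW hY hX LamY LamX)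
            S.internal 0 z' 0
        rwa [zero_smul, zero_mul, ← map_zero j] at this
      rw [e1, e2, map_zero]
    · intro a b ha hb
      rw [map_add, psi_add_right, psi_add_left, map_add, ha, hb]
    · intro c a ha
      rw [LinearMap.map_smulₛₗ, psi_smul_right, psi_smul_left, map_mul, ha]
  have hPos : PosHerm (fun z z' => psi W (Y ⊗ X) (sumPol W l ξ) (lamProd hW hY hX LamY LamX)
      S.internal z (j z')) :=
    PosHerm.prod hW hY hX RY.posHerm RX.posHerm (fun x x' y => psi_add_left _ x x' _)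
      (fun c x y => psi_smul_left _ c x _) hconj hpsi'
  refine ⟨j, ⟨S, ?_, ?_, ?_, ?_, ?_, ?_⟩, hj⟩
  · intro i z hz
    refine Submodule.span_induction (p := fun z _ => j z ∈ W.gr (Y ⊗ X) i) ?_ ?_ ?_ ?_
      (gr_prod hW hY hX hz)
    · rintro _ ⟨p, q, y, x, rfl, hy, hx, rfl⟩
      rw [hj]
      exact hW.mul_gr hYX (hW.pull_gr hYX hY _ (RY.gr _ _ hy)) (hW.pull_gr hYX hX _ (RX.gr _ _ hx))
    · rw [map_zero]; exact zero_mem _
    · intro a b _ _ ha hb
      rw [map_add]; exact add_mem ha hb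
    · intro c a _ ha
      rw [LinearMap.map_smulₛₗ]; exact Submodule.smul_mem _ _ ha
  · intro z
    refine prod_induction hW hY hX (P := fun z => j (sumPol W l ξ * z) = sumPol W l ξ * j z) z
      ?_ ?_ ?_ ?_
    · intro y x
      rw [sumPol_mul hW hY hX hξ, map_add, hj, hj, hj, sumPol_mul hW hY hX hξ, RY.map_L, RX.map_L]
    · simp
    · intro a b ha hb
      rw [mul_add, map_add, ha, hb, map_add, mul_add]
    · intro c a ha
      rw [mul_smul_comm, LinearMap.map_smulₛₗ, ha, LinearMap.map_smulₛₗ, mul_smul_comm]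
  · intro z
    have hL : ∀ y x, lamProd hW hY hX LamY LamX (W.pull (fst Y X) y * W.pull (snd Y X) x)
        = W.pull (fst Y X) (LamY y) * W.pull (snd Y X) x
          + W.pull (fst Y X) y * W.pull (snd Y X) (LamX x) := by
      intro y x
      rw [lamProd, LinearMap.add_apply, ten_gen, ten_gen, LinearMap.id_apply, LinearMap.id_apply]
    refine prod_induction hW hY hX (P := fun z => j (lamProd hW hY hX LamY LamX z)
      = lamProd hW hY hX LamY LamX (j z)) z ?_ ?_ ?_ ?_
    · intro y x
      rw [hL, map_add, hj, hj, hj, hL, RY.map_Lam, RX.map_Lam]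
    · simp
    · intro a b ha hb
      rw [map_add, map_add, ha, hb, map_add, map_add]
    · intro c a ha
      rw [map_smul, LinearMap.map_smulₛₗ, ha, LinearMap.map_smulₛₗ, map_smul]
  · have h1 := hj 1 1
    rw [RY.one, RX.one, map_one, map_one, one_mul] at h1
    exact h1
  · intro z z'
    refine prod_hom_induction hW hY hX (P := fun z => W.tr (Y ⊗ X) (j z * j z')
      = starRingEnd ℂ (W.tr (Y ⊗ X) (z * z'))) z ?_ ?_ ?_ ?_
    · intro i m y x hy hx
      refine prod_hom_induction hW hY hX (P := fun z' => W.tr (Y ⊗ X)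
        (j (W.pull (fst Y X) y * W.pull (snd Y X) x) * j z')
        = starRingEnd ℂ (W.tr (Y ⊗ X) (W.pull (fst Y X) y * W.pull (snd Y X) x * z'))) z'
        ?_ ?_ ?_ ?_
      · intro i' m' y' x' hy' hx'
        rw [hj, hj, prod_gen hW hY hX hx hy', prod_gen hW hY hX (RX.gr _ _ hx) (RY.gr _ _ hy'),
          map_smul, map_smul, hW.kunneth_tr hY hX, hW.kunneth_tr hY hX, RY.tr, RX.tr]
        simp
      · simp
      · intro a b ha hb
        rw [map_add, mul_add, map_add, ha, hb, mul_add, map_add, map_add]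
      · intro c a ha
        rw [LinearMap.map_smulₛₗ, mul_smul_comm, map_smul, ha, mul_smul_comm, map_smul,
          smul_eq_mul, smul_eq_mul, map_mul (starRingEnd ℂ)]
    · simp
    · intro a b ha hb
      rw [map_add, add_mul, map_add, ha, hb, add_mul, map_add, map_add]
    · intro c a ha
      rw [LinearMap.map_smulₛₗ, smul_mul_assoc, map_smul, ha, smul_mul_assoc, map_smul,
        smul_eq_mul, smul_eq_mul, map_mul (starRingEnd ℂ)]
  · intro z hz
    obtain ⟨r, hr0, hr, hr1⟩ := hPos.self z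
    rcases hr0.eq_or_lt with h0 | h0
    · exact absurd (hr1 h0.symm) hz
    · exact ⟨r, h0, hr⟩

end Pool.Agent.Lib.MP_361a6f_ag.PP
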