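import Pool.Agent.Lib.MP_361a6f_ag.PP.Defs

/-!
# Row PSI: `Q1` for `(Z, η)` says that `ψ` is positive definite on all algebraic classes
-/

open CategoryTheory AlgebraicGeometry MonoidalCategory CartesianMonoidalCategory

universe u v w

set_option linter.unusedSectionVars false

namespace Pool.Agent.Lib.MP_361a6f_ag.PP

open Pool.Agent.Lib.MP_361a6f_ag.H3 Pool.Agent.Lib.MP_361a6f_ag.SQ
  Pool.Agent.Lib.MP_361a6f_ag.IP2

namespace PSI

/-! ### Positive rational numbers -/

theorem ratPos_add {x y : ℂ} (hx : RatPos x) (hy : RatPos y) : RatPos (x + y) := by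
  obtain ⟨r, hr, rfl⟩ := hx
  obtain ⟨s, hs, rfl⟩ := hy
  exact ⟨r + s, add_pos hr hs, by push_cast; rfl⟩

theorem ratPos_mul {x y : ℂ} (hx : RatPos x) (hy : RatPos y) : RatPos (x * y) := by
  obtain ⟨r, hr, rfl⟩ := hx
  obtain ⟨s, hs, rfl⟩ := hy
  exact ⟨r * s, mul_pos hr hs, by push_cast; rfl⟩

theorem ratPos_sum {ι : Type*} (s : Finset ι) (f : ι → ℂ) (h : ∀ i ∈ s, f i = 0 ∨ RatPos (f i)) :
    (∑ i ∈ s, f i = 0 ∧ ∀ i ∈ s, f i = 0) ∨ RatPos (∑ i ∈ s, f i) := by
  classical
  induction s using Finset.induction_on with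
  | empty => left; simp
  | insert a s ha ih =>
    have ih' := ih fun i hi => h i (Finset.mem_insert_of_mem hi)
    rw [Finset.sum_insert ha]
    rcases h a (Finset.mem_insert_self _ _) with h0 | h0
    · rcases ih' with ⟨h1, h2⟩ | h1
      · left
        refine ⟨by rw [h0, h1, add_zero], fun i hi => ?_⟩
        rcases Finset.mem_insert.1 hi with rfl | hi
        · exact h0
        · exact h2 i hi
      · right; rw [h0, zero_add]; exact h1
    · rcases ih' with ⟨h1, _⟩ | h1
      · right; rw [h1, add_zero]; exact h0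
      · right; exact ratPos_add h0 h1

theorem ratPos_sum' {ι : Type*} (s : Finset ι) (f : ι → ℂ) (h : ∀ i ∈ s, f i = 0 ∨ RatPos (f i))
    (h' : ∃ i ∈ s, f i ≠ 0) : RatPos (∑ i ∈ s, f i) := by
  rcases ratPos_sum s f h with ⟨_, h1⟩ | h1
  · obtain ⟨i, hi, hne⟩ := h'
    exact absurd (h1 i hi) hne
  · exact h1

/-! ### The star operator on a Lefschetz string -/

section abs

variable {M : Type w} [AddCommGroup M] [Module ℂ M] {gr : ℕ → Submodule ℂ M} {n : ℕ}
  {L Λ : Module.End ℂ M}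

theorem lam_pow (hS : Sl2Statement.{w}) (S : Slm gr n L Λ) {i : ℕ} {v : M} (hi : i ≤ n)
    (hv : v ∈ gr i) (hΛ : Λ v = 0) (s : ℕ) (hs : s ≤ n - i) :
    ∃ q : ℚ, 0 < q ∧ (Λ ^ s) ((L ^ (n - i)) v) = (q : ℂ) • (L ^ (n - i - s)) v := by
  induction s with
  | zero => exact ⟨1, one_pos, by simp⟩
  | succ s ih =>
    obtain ⟨q, hq, h1⟩ := ih (by omega)
    obtain ⟨r, hr⟩ : ∃ r, n - i - s = r + 1 := ⟨n - i - s - 1, by omega⟩
    refine ⟨q * (((r : ℚ) + 1) * ((s : ℚ) + 1)), by positivity, ?_⟩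
    rw [pow_succ', Module.End.mul_apply, h1, map_smul, hr, (hS S).2.2.1 i v r hv hΛ, smul_smul,
      show n - i - (s + 1) = r by omega]
    congr 1
    have h2 : (n : ℂ) = (i : ℂ) + s + (r + 1) := by
      have : n = i + s + (r + 1) := by omega
      rw [this]; push_cast; ring
    rw [h2]
    push_cast
    ring

theorem star_pow (hT : StaStatement.{w}) (S : Slm gr n L Λ) (s : ℕ) (x : M) :
    star S.internal L Λ ((L ^ s) x) = (Λ ^ s) (star S.internal L Λ x) := by
  induction s with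
  | zero => simp
  | succ s ih =>
    rw [pow_succ', Module.End.mul_apply, (hT S).2.2.1, ih, pow_succ', Module.End.mul_apply]

theorem star_string (hS : Sl2Statement.{w}) (hT : StaStatement.{w}) (S : Slm gr n L Λ) {i : ℕ}
    {v : M} (hi : 2 * i ≤ n) (hv : v ∈ gr (2 * i)) (hΛ : Λ v = 0) (s : ℕ) (hs : s ≤ n - 2 * i) :
    ∃ q : ℚ, 0 < q ∧ star S.internal L Λ ((L ^ s) v)
      = ((-1 : ℂ) ^ i * (q : ℂ)) • (L ^ (n - 2 * i - s)) v := by
  obtain ⟨q, hq, h1⟩ := lam_pow hS S hi hv hΛ s hs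
  refine ⟨((n - 2 * i).factorial : ℚ)⁻¹ * q, by positivity, ?_⟩
  rw [star_pow hT S, (hT S).2.2.2.2.1 i v hi hv hΛ, map_smul, h1, smul_smul]
  congr 1
  push_cast
  ring

end abs

/-! ### Algebraic classes -/

section geo

variable {k : Type u} [Field k] {W : CohomologyData.{u, 0, w} k ℂ} {𝒱 : VarietyClass k}
  (hW : IsWeilCohomology W 𝒱) {Z : Sch k} {e : ℕ} (hZ : 𝒱.mem Z e)

include hW hZ

theorem AlgOp.pow {a : Module.End ℂ (W.coh Z)} (h : AlgOp W Z a) (i : ℕ) :
    AlgOp W Z (a ^ i) := by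
  induction i with
  | zero => exact AlgOp.id hW hZ
  | succ i ih => rw [pow_succ']; exact AlgOp.comp hW hZ h ih

theorem AlgOp.sum {ι : Type*} (s : Finset ι) (f : ι → Module.End ℂ (W.coh Z))
    (h : ∀ i ∈ s, AlgOp W Z (f i)) : AlgOp W Z (∑ i ∈ s, f i) := by
  classical
  induction s using Finset.induction_on with
  | empty => exact AlgOp.zero hW hZ
  | insert a s ha ih =>
    rw [Finset.sum_insert ha]
    exact AlgOp.add hW hZ (h a (Finset.mem_insert_self _ _))
      (ih fun i hi => h i (Finset.mem_insert_of_mem hi))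

theorem AlgOp.ex {a : Module.End ℂ (W.coh Z)} (h : AlgOp W Z a) : AlgOp W Z (ex a) := by
  refine AlgOp.sum hW hZ _ _ fun i _ => ?_
  have := AlgOp.smul hW hZ ((i.factorial : ℚ)⁻¹) (AlgOp.pow hW hZ h i)
  push_cast at this
  exact this

theorem AlgOp.neg' {a : Module.End ℂ (W.coh Z)} (h : AlgOp W Z a) : AlgOp W Z (-a) := by
  have h1 : -a = (((-1 : ℚ)) : ℂ) • a := by
    have h2 : (((-1 : ℚ)) : ℂ) = -1 := by norm_num
    rw [h2]
    exact (neg_one_smul ℂ a).symm
  rw [h1]
  exact AlgOp.smul hW hZ (-1) h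

/-- the star operator maps even algebraic classes to algebraic classes -/
theorem star_tot {η : W.coh Z} (hη : η ∈ W.alg Z 1) {Lam : Module.End ℂ (W.coh Z)}
    (D : LamData W Z e η Lam) {i : ℕ} {z : W.coh Z} (hz : z ∈ tot W Z) (hg : z ∈ W.gr Z i) :
    star D.slm.internal (Lop W Z η) Lam z ∈ tot W Z := by
  have h1 : AlgOp W Z (wop (Lop W Z η) Lam) := by
    have hL : AlgOp W Z (Lop W Z η) := AlgOp.mulLeft hW hZ (alg_le_tot hW Z 1 hη)
    exact AlgOp.comp hW hZ (AlgOp.comp hW hZ (AlgOp.ex hW hZ hL)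
      (AlgOp.ex hW hZ (AlgOp.neg' hW hZ D.alg))) (AlgOp.ex hW hZ hL)
  rw [star, Module.End.mul_apply, gop_apply _ _ hg, map_smul]
  have h2 : sgn i = (((-1 : ℚ) ^ (i * (i + 1) / 2) : ℚ) : ℂ) := by
    rw [sgn]; push_cast; rfl
  rw [h2]
  exact tot_smul hW hZ _ (AlgOp.apply hW hZ h1 hz)

/-- a sum of algebraic classes is the sum of its homogeneous components -/
theorem tot_dec {z : W.coh Z} (hz : z ∈ tot W Z) :
    ∃ g : ℕ → W.coh Z, (∀ j, g j ∈ W.alg Z j) ∧ z = ∑ j ∈ Finset.range (e + 1), g j := by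
  classical
  refine tot_induction hW (P := fun z => ∃ g : ℕ → W.coh Z, (∀ j, g j ∈ W.alg Z j) ∧
    z = ∑ j ∈ Finset.range (e + 1), g j) hz ?_ ?_
  · intro j x hx
    by_cases hj : j ≤ e
    · refine ⟨Pi.single j x, fun l => ?_, ?_⟩
      · by_cases hl : l = j
        · subst hl; rw [Pi.single_eq_same]; exact hx
        · rw [Pi.single_eq_of_ne hl]; exact zero_mem _
      · rw [Finset.sum_eq_single j]
        · rw [Pi.single_eq_same]
        · intro l _ hl
          rw [Pi.single_eq_of_ne hl]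
        · intro h
          exact absurd (Finset.mem_range.2 (by omega)) h
    · refine ⟨fun _ => 0, fun _ => zero_mem _, ?_⟩
      rw [hW.top_gr hZ (hW.alg_gr hZ hx) (by omega)]
      simp
  · rintro x y ⟨g, hg, rfl⟩ ⟨g', hg', rfl⟩
    exact ⟨fun j => g j + g' j, fun j => add_mem (hg j) (hg' j), by
      rw [Finset.sum_add_distrib]⟩

theorem Lop_pow (η : W.coh Z) (r : ℕ) (x : W.coh Z) : ((Lop W Z η) ^ r) x = η ^ r * x := by
  induction r with
  | zero => simp
  | succ r ih =>
    rw [pow_succ', Module.End.mul_apply, ih, Lop, LinearMap.mulLeft_apply, pow_succ', mul_assoc]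

variable {η : W.coh Z} (hη : η ∈ W.alg Z 1) {Lam : Module.End ℂ (W.coh Z)}
  (D : LamData W Z e η Lam) (hS : Sl2Statement.{w}) (hT : StaStatement.{w})
  (hH : HodgeType W Z e η)

include hη D hS hT hH

/-- positivity in the degrees at most `e` -/
theorem pos_low {j : ℕ} (hj : 2 * j ≤ e) {z : W.coh Z} (hz : z ∈ W.alg Z j) (hz0 : z ≠ 0) :
    RatPos (psi W Z η Lam D.slm.internal z z) := by
  classical
  set L := Lop W Z η with hLdef
  obtain ⟨f, hfC, hfg, hf0, hfΛ, hsum⟩ := (hS D.slm).2.2.2.2.2.2 (tot W Z)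
    (fun x hx => (AlgOp.mulLeft hW hZ (alg_le_tot hW Z 1 hη)).apply hW hZ hx)
    (fun x hx => D.alg.apply hW hZ hx) (fun q x hx => tot_smul hW hZ q hx) (2 * j) z hj
    (hW.alg_gr hZ hz) (alg_le_tot hW Z j hz)
  -- the primitive components
  have hfg' : ∀ r, r ≤ j → f r ∈ W.gr Z (2 * (j - r)) := fun r hr => by
    have := hfg r (by omega)
    rwa [show 2 * j - 2 * r = 2 * (j - r) by omega] at this
  have hfa : ∀ r, r ≤ j → f r ∈ W.alg Z (j - r) := fun r hr =>
    tot_alg hW hZ (hfC r) (hfg' r hr)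
  have hfz : ∀ r, j < r → f r = 0 := fun r hr => hf0 r (by omega)
  have hprim : ∀ r, r ≤ j → η ^ (e - 2 * (j - r) + 1) * f r = 0 := fun r hr => by
    have := (hS D.slm).2.2.2.1 (2 * (j - r)) (f r) (by omega) (hfg' r hr) (hfΛ r)
    rwa [Lop_pow hW hZ] at this
  -- the star operator
  have hstar : ∀ s, ∃ q : ℚ, 0 < q ∧ (s ≤ j → star D.slm.internal L Lam ((L ^ s) (f s))
      = ((-1 : ℂ) ^ (j - s) * (q : ℂ)) • (η ^ (e - 2 * (j - s) - s) * f s)) := by
    intro s
    by_cases hs : s ≤ j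
    · obtain ⟨q, hq, h1⟩ := star_string hS hT D.slm (i := j - s) (by omega) (hfg' s hs) (hfΛ s) s
        (by omega)
      refine ⟨q, hq, fun _ => ?_⟩
      rw [h1, Lop_pow hW hZ]
    · exact ⟨1, one_pos, fun h => absurd h hs⟩
  choose q hq hstar using hstar
  have hpair : ∀ r s, psi W Z η Lam D.slm.internal ((L ^ r) (f r)) ((L ^ s) (f s)) =
      if r = s ∧ s ≤ j then (q s : ℂ) * ((-1 : ℂ) ^ (j - s) *
        W.tr Z (η ^ (e - 2 * (j - s)) * (f s * f s))) else 0 := by
    intro r s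
    by_cases hr : r ≤ j
    swap
    · rw [hfz r (by omega), psi, map_zero, zero_mul, map_zero, if_neg (by omega)]
    by_cases hs : s ≤ j
    swap
    · rw [hfz s (by omega), psi, map_zero, map_zero, mul_zero, map_zero, if_neg (by omega)]
    have h1 : psi W Z η Lam D.slm.internal ((L ^ r) (f r)) ((L ^ s) (f s)) =
        ((-1 : ℂ) ^ (j - s) * (q s : ℂ)) *
          W.tr Z (η ^ (r + (e - 2 * (j - s) - s)) * (f r * f s)) := by
      rw [psi, hstar s hs, mul_smul_comm, map_smul, smul_eq_mul, Lop_pow hW hZ]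
      congr 2
      rw [pow_add, mul_assoc, mul_assoc, ← mul_assoc (f r),
        hW.alg_comm hZ (hfa r hr) (η ^ (e - 2 * (j - s) - s)), mul_assoc]
    rw [h1]
    rcases lt_trichotomy r s with h | h | h
    · -- `f r` is killed
      rw [if_neg (by omega)]
      have h2 : η ^ (r + (e - 2 * (j - s) - s)) * (f r * f s) = 0 := by
        have h3 : r + (e - 2 * (j - s) - s) =
            (r + (e - 2 * (j - s) - s) - (e - 2 * (j - r) + 1)) + (e - 2 * (j - r) + 1) := by
          omega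
        rw [h3, pow_add, mul_assoc, ← mul_assoc (η ^ (e - 2 * (j - r) + 1)), hprim r hr,
          zero_mul, mul_zero]
      rw [h2, map_zero, mul_zero]
    · subst h
      rw [if_pos ⟨rfl, hs⟩, show r + (e - 2 * (j - r) - r) = e - 2 * (j - r) by omega]
      ring
    · rw [if_neg (by omega)]
      have h2 : η ^ (r + (e - 2 * (j - s) - s)) * (f r * f s) = 0 := by
        have h3 : r + (e - 2 * (j - s) - s) =
            (r + (e - 2 * (j - s) - s) - (e - 2 * (j - s) + 1)) + (e - 2 * (j - s) + 1) := by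
          omega
        rw [hW.alg_comm hZ (hfa r hr) (f s), h3, pow_add, mul_assoc,
          ← mul_assoc (η ^ (e - 2 * (j - s) + 1)), hprim s hs, zero_mul, mul_zero]
      rw [h2, map_zero, mul_zero]
  have hpsi : psi W Z η Lam D.slm.internal z z = ∑ r ∈ Finset.range (e + 1),
      if r ≤ j then (q r : ℂ) * ((-1 : ℂ) ^ (j - r) *
        W.tr Z (η ^ (e - 2 * (j - r)) * (f r * f r))) else 0 := by
    have h1 : psi W Z η Lam D.slm.internal z z = ∑ r ∈ Finset.range (e + 1),
        ∑ s ∈ Finset.range (e + 1),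
          psi W Z η Lam D.slm.internal ((L ^ r) (f r)) ((L ^ s) (f s)) := by
      rw [hsum]
      simp only [psi, map_sum, Finset.sum_mul, Finset.mul_sum]
      exact Finset.sum_comm
    rw [h1]
    refine Finset.sum_congr rfl fun r hr => ?_
    rw [Finset.sum_eq_single r]
    · rw [hpair]
      simp
    · intro s _ hsr
      rw [hpair, if_neg (fun h => hsr h.1.symm)]
    · intro h
      exact absurd hr h
  rw [hpsi]
  have hterm : ∀ r, r ≤ j → f r ≠ 0 → RatPos ((q r : ℂ) * ((-1 : ℂ) ^ (j - r) *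
        W.tr Z (η ^ (e - 2 * (j - r)) * (f r * f r)))) := fun r hr hne =>
    ratPos_mul ⟨q r, hq r, rfl⟩ (hH (j - r) (by omega) (f r) (hfa r hr) (hprim r hr) hne)
  refine ratPos_sum' _ _ ?_ ?_
  · intro r _
    by_cases hr : r ≤ j
    · rw [if_pos hr]
      by_cases h0 : f r = 0
      · left; rw [h0]; simp
      · right; exact hterm r hr h0
    · left; rw [if_neg hr]
  · by_contra hcon
    push Not at hcon
    refine hz0 (hsum.trans (Finset.sum_eq_zero fun r hr => ?_))
    have h1 := hcon r hr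
    by_cases hrj : r ≤ j
    · by_cases h0 : f r = 0
      · rw [h0, map_zero]
      · rw [if_pos hrj] at h1
        obtain ⟨t, ht, h2⟩ := hterm r hrj h0
        rw [h2] at h1
        exact absurd (by exact_mod_cast h1 : t = 0) ht.ne'
    · rw [hfz r (by omega), map_zero]

/-- positivity in one degree -/
theorem pos_hom {j : ℕ} {z : W.coh Z} (hz : z ∈ W.alg Z j) (hz0 : z ≠ 0) :
    RatPos (psi W Z η Lam D.slm.internal z z) := by
  by_cases hj : 2 * j ≤ e
  · exact pos_low hW hZ hη D hS hT hH hj hz hz0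
  have hje : j ≤ e := by
    by_contra h
    exact hz0 (hW.top_gr hZ (hW.alg_gr hZ hz) (by omega))
  set y := star D.slm.internal (Lop W Z η) Lam z with hy
  have hzz : star D.slm.internal (Lop W Z η) Lam y = z := (hT D.slm).2.1 z
  have hyg : y ∈ W.gr Z (2 * (e - j)) := by
    have := (hT D.slm).1 (2 * j) z (by omega) (hW.alg_gr hZ hz)
    rwa [show 2 * e - 2 * j = 2 * (e - j) by omega] at this
  have hya : y ∈ W.alg Z (e - j) :=
    tot_alg hW hZ (star_tot hW hZ hη D (alg_le_tot hW Z j hz) (hW.alg_gr hZ hz)) hyg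
  have hy0 : y ≠ 0 := fun h => hz0 (by rw [← hzz, h, map_zero])
  have h1 := pos_low hW hZ hη D hS hT hH (j := e - j) (by omega) hya hy0
  have h2 : psi W Z η Lam D.slm.internal z z = psi W Z η Lam D.slm.internal y y := by
    rw [psi, psi, hzz, ← hy, hW.alg_comm hZ hya]
  rw [h2]
  exact h1

theorem pos_all {z : W.coh Z} (hz : z ∈ tot W Z) (hz0 : z ≠ 0) :
    RatPos (psi W Z η Lam D.slm.internal z z) := by
  obtain ⟨g, hg, hsum⟩ := tot_dec hW hZ hz
  have hoff : ∀ j l, j ≤ e → l ≤ e → j ≠ l →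
      psi W Z η Lam D.slm.internal (g j) (g l) = 0 := by
    intro j l hj hl hjl
    have h1 := (hT D.slm).1 (2 * l) (g l) (by omega) (hW.alg_gr hZ (hg l))
    exact hW.tr_gr hZ (hW.mul_gr hZ (hW.alg_gr hZ (hg j)) h1) (by omega)
  have hpsi : psi W Z η Lam D.slm.internal z z =
      ∑ j ∈ Finset.range (e + 1), psi W Z η Lam D.slm.internal (g j) (g j) := by
    have h1 : psi W Z η Lam D.slm.internal z z = ∑ j ∈ Finset.range (e + 1),
        ∑ l ∈ Finset.range (e + 1), psi W Z η Lam D.slm.internal (g j) (g l) := by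
      rw [hsum]
      simp only [psi, map_sum, Finset.sum_mul, Finset.mul_sum]
      exact Finset.sum_comm
    rw [h1]
    refine Finset.sum_congr rfl fun j hj => ?_
    refine Finset.sum_eq_single j (fun l hl hlj => ?_) (fun h => absurd hj h)
    rw [Finset.mem_range] at hj hl
    exact hoff j l (by omega) (by omega) (Ne.symm hlj)
  rw [hpsi]
  refine ratPos_sum' _ _ ?_ ?_
  · intro j _
    by_cases h0 : g j = 0
    · left; rw [h0, psi, zero_mul, map_zero]
    · right; exact pos_hom hW hZ hη D hS hT hH (hg j) h0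
  · by_contra hcon
    push Not at hcon
    refine hz0 (hsum.trans (Finset.sum_eq_zero fun j hj => ?_))
    by_contra h0
    obtain ⟨t, ht, h2⟩ := pos_hom hW hZ hη D hS hT hH (hg j) h0
    have h1 := hcon j hj
    rw [h2] at h1
    exact ht.ne' (by exact_mod_cast h1)

end geo

end PSI

/-- Row PSI. -/
theorem psi_pos (hS : Sl2Statement.{w}) (hT : StaStatement.{w}) : PsiStatement.{u, w} := by
  intro k _ W 𝒱 hW Z e hZ η hη Lam D hH z hz hz0
  exact PSI.pos_all hW hZ hη D hS hT hH hz hz0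

end Pool.Agent.Lib.MP_361a6f_ag.PP
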