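import Pool.Agent.Lib.MP_361a6f_ag.PP.Defs

/-!
# Row SL2: elementary facts on graded `sl_2`-modules
-/

universe w

namespace Pool.Agent.Lib.MP_361a6f_ag.PP

open Finset

namespace SL2

variable {M : Type w} [AddCommGroup M] [Module ℂ M] {gr : ℕ → Submodule ℂ M} {n : ℕ}
  {L Λ : Module.End ℂ M}

/-- an operator that vanishes on the homogeneous elements vanishes -/
theorem ext0 (S : Slm gr n L Λ) {f : Module.End ℂ M} (h : ∀ i x, x ∈ gr i → f x = 0) : f = 0 := by
  have h1 : (⨆ i, gr i) = ⊤ := S.internal.submodule_iSup_eq_top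
  refine LinearMap.ker_eq_top.1 (top_le_iff.1 ?_)
  rw [← h1]
  refine iSup_le fun i x hx => ?_
  exact LinearMap.mem_ker.2 (h i x hx)

theorem L_pow_gr (S : Slm gr n L Λ) (r i : ℕ) (x : M) (hx : x ∈ gr i) :
    (L ^ r) x ∈ gr (i + 2 * r) := by
  induction r with
  | zero => simpa using hx
  | succ r ih =>
    rw [pow_succ', Module.End.mul_apply]
    exact S.L_gr _ _ ih

theorem Λ_pow_gr (S : Slm gr n L Λ) (r : ℕ) : ∀ (i : ℕ) (x : M), x ∈ gr i →
    (2 * r ≤ i → (Λ ^ r) x ∈ gr (i - 2 * r)) ∧ (i < 2 * r → (Λ ^ r) x = 0) := by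
  induction r with
  | zero => exact fun i x hx => ⟨fun _ => by simpa using hx, fun h => by omega⟩
  | succ r ih =>
    intro i x hx
    rw [pow_succ, Module.End.mul_apply]
    rcases lt_or_ge i 2 with h2 | h2
    · refine ⟨fun h => by omega, fun _ => ?_⟩
      rw [S.Λ_low i x h2 hx, map_zero]
    · obtain ⟨i', rfl⟩ := Nat.exists_eq_add_of_le' h2
      have h3 := ih i' (Λ x) (S.Λ_gr i' x hx)
      refine ⟨fun h => ?_, fun h => h3.2 (by omega)⟩
      have h4 := h3.1 (by omega)
      rwa [show i' + 2 - 2 * (r + 1) = i' - 2 * r by omega]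

theorem L_pow (S : Slm gr n L Λ) : L ^ (n + 1) = 0 := by
  refine ext0 S fun i x hx => ?_
  exact S.top _ _ (L_pow_gr S (n + 1) i x hx) (by omega)

theorem Λ_pow (S : Slm gr n L Λ) : Λ ^ (n + 1) = 0 := by
  refine ext0 S fun i x hx => ?_
  rcases lt_or_ge (2 * n) i with h | h
  · rw [S.top i x hx h, map_zero]
  · exact (Λ_pow_gr S (n + 1) i x hx).2 (by omega)

/-- the commutator of `L ^ (r + 1)` and `Λ` -/
theorem comm_pow (S : Slm gr n L Λ) (i : ℕ) (x : M) (hx : x ∈ gr i) (r : ℕ) :
    (L ^ (r + 1)) (Λ x) - Λ ((L ^ (r + 1)) x)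
      = (((r : ℂ) + 1) * ((i : ℂ) - n + r)) • (L ^ r) x := by
  induction r with
  | zero => simpa using S.comm i x hx
  | succ r ih =>
    have h1 := S.comm _ _ (L_pow_gr S (r + 1) i x hx)
    have e : ∀ y, (L ^ (r + 1 + 1)) y = L ((L ^ (r + 1)) y) := fun y => by
      rw [pow_succ', Module.End.mul_apply]
    have e' : (L ^ (r + 1)) x = L ((L ^ r) x) := by rw [pow_succ', Module.End.mul_apply]
    rw [e, e]
    have h2 : Λ (L ((L ^ (r + 1)) x)) = L (Λ ((L ^ (r + 1)) x))
        - (((i + 2 * (r + 1) : ℕ) : ℂ) - (n : ℂ)) • (L ^ (r + 1)) x := by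
      rw [← h1]; abel
    have h3 : L ((L ^ (r + 1)) (Λ x)) - L (Λ ((L ^ (r + 1)) x))
        = (((r : ℂ) + 1) * ((i : ℂ) - n + r)) • (L ^ (r + 1)) x := by
      rw [← map_sub, ih, map_smul, ← e']
    rw [h2, sub_sub_eq_add_sub, add_sub_right_comm, h3, ← add_smul]
    congr 1
    push_cast
    ring

theorem str (S : Slm gr n L Λ) (i : ℕ) (v : M) (r : ℕ) (hv : v ∈ gr i) (h0 : Λ v = 0) :
    Λ ((L ^ (r + 1)) v) = (((r : ℂ) + 1) * ((n : ℂ) - i - r)) • (L ^ r) v := by
  have h := comm_pow S i v hv r
  rw [h0, map_zero, zero_sub] at h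
  rw [← neg_neg (Λ _), h, ← neg_smul]
  congr 1
  ring

theorem high (S : Slm gr n L Λ) (i : ℕ) (v : M) (hi : n < i) (hv : v ∈ gr i) (h0 : Λ v = 0) :
    v = 0 := by
  have h : ∀ r, (L ^ r) v = 0 → v = 0 := by
    intro r
    induction r with
    | zero => exact fun h => by simpa using h
    | succ r ih =>
      intro h
      have h1 := str S i v r hv h0
      rw [h, map_zero] at h1
      refine ih ((smul_eq_zero.1 h1.symm).resolve_left (mul_ne_zero ?_ ?_))
      · exact_mod_cast Nat.succ_ne_zero r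
      · intro h2
        have h3 : ((n : ℕ) : ℂ) = ((i + r : ℕ) : ℂ) := by
          push_cast
          linear_combination h2
        have h4 : n = i + r := by exact_mod_cast h3
        omega
  refine h (n + 1) ?_
  rw [L_pow S, LinearMap.zero_apply]

theorem low_pow (S : Slm gr n L Λ) (i : ℕ) (v : M) (hi : i ≤ n) (hv : v ∈ gr i) (h0 : Λ v = 0) :
    (L ^ (n - i + 1)) v = 0 := by
  refine high S _ _ ?_ (L_pow_gr S (n - i + 1) i v hv) ?_
  · omega
  · rw [str S i v (n - i) hv h0]
    have : (n : ℂ) - i - ((n - i : ℕ) : ℂ) = 0 := by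
      rw [Nat.cast_sub hi]; ring
    rw [this, mul_zero, zero_smul]

/-- hard Lefschetz: injectivity -/
theorem inj (S : Slm gr n L Λ) : ∀ (i : ℕ) (x : M), i ≤ n → x ∈ gr i →
    (L ^ (n - i)) x = 0 → x = 0 := by
  intro i
  induction i using Nat.strong_induction_on with
  | _ i IH =>
    intro x hi hx hL
    -- first `Λ x = 0`
    have h0 : Λ x = 0 := by
      rcases lt_or_ge i 2 with h2 | h2
      · exact S.Λ_low i x h2 hx
      · obtain ⟨i', rfl⟩ := Nat.exists_eq_add_of_le' h2
        refine IH i' (by omega) (Λ x) (by omega) (S.Λ_gr i' x hx) ?_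
        have h3 := comm_pow S _ x hx (n - (i' + 2))
        rw [show n - i' = n - (i' + 2) + 1 + 1 by omega, pow_succ', Module.End.mul_apply]
        have e1 : (L ^ (n - (i' + 2) + 1)) x = 0 := by
          rw [pow_succ', Module.End.mul_apply, hL, map_zero]
        rw [e1, map_zero, sub_zero, hL, smul_zero] at h3
        rw [h3, map_zero]
    have h : ∀ r, r ≤ n - i → (L ^ r) x = 0 → x = 0 := by
      intro r
      induction r with
      | zero => exact fun _ h => by simpa using h
      | succ r ih =>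
        intro hr h
        have h1 := str S i x r hx h0
        rw [h, map_zero] at h1
        refine ih (by omega) ((smul_eq_zero.1 h1.symm).resolve_left (mul_ne_zero ?_ ?_))
        · exact_mod_cast Nat.succ_ne_zero r
        · intro h2
          have h3 : ((n : ℕ) : ℂ) = ((i + r : ℕ) : ℂ) := by
            push_cast
            linear_combination h2
          have h4 : n = i + r := by exact_mod_cast h3
          omega
    exact h _ le_rfl hL

theorem prim (S : Slm gr n L Λ) (i : ℕ) (v : M) (hi : i ≤ n) (hv : v ∈ gr i)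
    (hL : (L ^ (n - i + 1)) v = 0) : Λ v = 0 := by
  rcases lt_or_ge i 2 with h2 | h2
  · exact S.Λ_low i v h2 hv
  · obtain ⟨i', rfl⟩ := Nat.exists_eq_add_of_le' h2
    refine inj S i' (Λ v) (by omega) (S.Λ_gr i' v hv) ?_
    have h3 := comm_pow S _ v hv (n - (i' + 2))
    rw [hL, map_zero, sub_zero] at h3
    have h4 : ((i' + 2 : ℕ) : ℂ) - n + ((n - (i' + 2) : ℕ) : ℂ) = 0 := by
      rw [Nat.cast_sub hi]; ring
    rw [h4, mul_zero, zero_smul] at h3
    rw [show n - i' = n - (i' + 2) + 1 + 1 by omega, pow_succ', Module.End.mul_apply, h3, map_zero]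

theorem dec (S : Slm gr n L Λ) (C : AddSubgroup M) (hCL : ∀ x ∈ C, L x ∈ C)
    (hCΛ : ∀ x ∈ C, Λ x ∈ C) (hCq : ∀ (q : ℚ), ∀ x ∈ C, (q : ℂ) • x ∈ C) :
    ∀ i x, i ≤ n → x ∈ gr i → x ∈ C →
      ∃ f : ℕ → M, (∀ r, f r ∈ C) ∧ (∀ r, 2 * r ≤ i → f r ∈ gr (i - 2 * r)) ∧
        (∀ r, i < 2 * r → f r = 0) ∧ (∀ r, Λ (f r) = 0) ∧
        x = ∑ r ∈ Finset.range (n + 1), (L ^ r) (f r) := by
  have hCp : ∀ (r : ℕ) (x : M), x ∈ C → (L ^ r) x ∈ C := by
    intro r
    induction r with
    | zero => exact fun x hx => by simpa using hx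
    | succ r ih =>
      intro x hx
      rw [pow_succ', Module.End.mul_apply]
      exact hCL _ (ih x hx)
  intro i
  induction i using Nat.strong_induction_on with
  | _ i IH =>
    intro x hi hx hxC
    rcases lt_or_ge i 2 with h2 | h2
    · refine ⟨fun r => if r = 0 then x else 0, fun r => ?_, fun r hr => ?_, fun r hr => ?_,
        fun r => ?_, ?_⟩
      · dsimp only
        split_ifs
        · exact hxC
        · exact C.zero_mem
      · dsimp only
        split_ifs with h
        · subst h; simpa using hx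
        · exact Submodule.zero_mem _
      · dsimp only
        rw [if_neg (by omega)]
      · dsimp only
        split_ifs
        · exact S.Λ_low i x h2 hx
        · exact map_zero _
      · rw [Finset.sum_range_succ']
        simp
    · obtain ⟨i', rfl⟩ := Nat.exists_eq_add_of_le' h2
      obtain ⟨g, gC, ggr, g0, gΛ, gs⟩ := IH i' (by omega) (Λ x) (by omega) (S.Λ_gr i' x hx)
        (hCΛ x hxC)
      set c : ℕ → ℚ := fun r => (((r : ℚ) + 1) * ((n : ℚ) - i' + r))⁻¹ with hc
      have hc1 : ∀ r : ℕ, (((r : ℂ) + 1) * ((n : ℂ) - i' + r)) * ((c r : ℚ) : ℂ) = 1 := by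
        intro r
        rw [hc]
        push_cast
        refine mul_inv_cancel₀ (mul_ne_zero ?_ ?_)
        · exact_mod_cast Nat.succ_ne_zero r
        · intro h
          have h3 : ((n + r : ℕ) : ℂ) = ((i' : ℕ) : ℂ) := by
            push_cast
            linear_combination h
          have h4 : n + r = i' := by exact_mod_cast h3
          omega
      set f1 : ℕ → M := fun r => ((c r : ℚ) : ℂ) • g r with hf1
      have f1C : ∀ r, f1 r ∈ C := fun r => hCq _ _ (gC r)
      have f1gr : ∀ r, 2 * r ≤ i' → f1 r ∈ gr (i' - 2 * r) := fun r hr =>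
        Submodule.smul_mem _ _ (ggr r hr)
      have f10 : ∀ r, i' < 2 * r → f1 r = 0 := fun r hr => by
        rw [hf1]; dsimp only; rw [g0 r hr, smul_zero]
      have f1Λ : ∀ r, Λ (f1 r) = 0 := fun r => by
        rw [hf1]; dsimp only; rw [map_smul, gΛ, smul_zero]
      have f1s : ∀ r, Λ ((L ^ (r + 1)) (f1 r)) = (L ^ r) (g r) := by
        intro r
        rcases lt_or_ge i' (2 * r) with h | h
        · rw [f10 r h, g0 r h, map_zero, map_zero, map_zero]
        · rw [str S (i' - 2 * r) (f1 r) r (f1gr r h) (f1Λ r)]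
          rw [hf1]
          dsimp only
          rw [map_smul, smul_smul]
          have e : (((r : ℂ) + 1) * ((n : ℂ) - ((i' - 2 * r : ℕ) : ℂ) - r))
              = (((r : ℂ) + 1) * ((n : ℂ) - i' + r)) := by
            rw [Nat.cast_sub h]
            push_cast
            ring
          rw [e, hc1 r, one_smul]
      set T : M := ∑ r ∈ range (n + 1), (L ^ (r + 1)) (f1 r) with hT
      have hTC : T ∈ C := C.sum_mem fun r _ => hCp _ _ (f1C r)
      have hTgr : T ∈ gr (i' + 2) := by
        refine Submodule.sum_mem _ fun r _ => ?_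
        rcases lt_or_ge i' (2 * r) with h | h
        · rw [f10 r h, map_zero]; exact Submodule.zero_mem _
        · have h5 := L_pow_gr S (r + 1) _ _ (f1gr r h)
          rwa [show i' - 2 * r + 2 * (r + 1) = i' + 2 by omega] at h5
      have hTΛ : Λ T = Λ x := by
        rw [hT, map_sum, gs]
        exact sum_congr rfl fun r _ => f1s r
      refine ⟨fun r => if r = 0 then x - T else f1 (r - 1), fun r => ?_, fun r hr => ?_,
        fun r hr => ?_, fun r => ?_, ?_⟩
      · dsimp only
        split_ifs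
        · exact C.sub_mem hxC hTC
        · exact f1C _
      · dsimp only
        split_ifs with h
        · subst h
          simpa using Submodule.sub_mem _ hx hTgr
        · have h6 := f1gr (r - 1) (by omega)
          rwa [show i' - 2 * (r - 1) = i' + 2 - 2 * r by omega] at h6
      · dsimp only
        rw [if_neg (by omega)]
        exact f10 _ (by omega)
      · dsimp only
        split_ifs
        · rw [map_sub, hTΛ, sub_self]
        · exact f1Λ _
      · rw [Finset.sum_range_succ']
        have h7 : T = ∑ r ∈ range n, (L ^ (r + 1)) (f1 r) := by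
          rw [hT, Finset.sum_range_succ, f10 n (by omega), map_zero, add_zero]
        have h8 : ∑ r ∈ range n, (L ^ (r + 1)) (if r + 1 = 0 then x - T else f1 (r + 1 - 1))
            = T := by
          rw [h7]
          refine sum_congr rfl fun r _ => ?_
          rw [if_neg (Nat.succ_ne_zero r), Nat.add_sub_cancel]
        rw [h8]
        simp

end SL2

/-- Row SL2. -/
theorem sl2 : Sl2Statement.{w} := by
  intro M _ _ gr n L Λ S
  exact ⟨SL2.L_pow S, SL2.Λ_pow S, fun i v r => SL2.str S i v r, fun i v => SL2.low_pow S i v,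
    fun i v => SL2.high S i v, fun i v => SL2.prim S i v, fun C h1 h2 h3 => SL2.dec S C h1 h2 h3⟩

end Pool.Agent.Lib.MP_361a6f_ag.PP
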