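import Pool.Agent.Lib.MP_361a6f_ag.PP.Defs
import Pool.Agent.Lib.MP_361a6f_ag.PP.Wey

/-!
# Row STP: the star operator and the form `ψ` are multiplicative
-/

open CategoryTheory AlgebraicGeometry MonoidalCategory CartesianMonoidalCategory

universe u v w

set_option linter.unusedSectionVars false

namespace Pool.Agent.Lib.MP_361a6f_ag.PP

open Pool.Agent.Lib.MP_361a6f_ag.H3 Pool.Agent.Lib.MP_361a6f_ag.SQ
  Pool.Agent.Lib.MP_361a6f_ag.IP2

namespace STP

section abs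

variable {M : Type*} [AddCommGroup M] [Module ℂ M]

theorem ex_eq (a : Module.End ℂ M) : ex a = kexp ℂ a := rfl

theorem wop_add {L L' Λ Λ' : Module.End ℂ M} (nL : IsNilpotent L) (nL' : IsNilpotent L')
    (nΛ : IsNilpotent Λ) (nΛ' : IsNilpotent Λ') (h1 : Commute L L') (h2 : Commute L Λ')
    (h3 : Commute Λ L') (h4 : Commute Λ Λ') :
    wop (L + L') (Λ + Λ') = wop L Λ * wop L' Λ' := by
  have hLΛ' : Commute (kexp ℂ L) (kexp ℂ (-Λ')) := commute_kexp ℂ nL nΛ'.neg h2.neg_right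
  have hLL' : Commute (kexp ℂ L) (kexp ℂ L') := commute_kexp ℂ nL nL' h1
  have hΛL' : Commute (kexp ℂ (-Λ)) (kexp ℂ L') := commute_kexp ℂ nΛ.neg nL' h3.neg_left
  rw [wop, wop, wop]
  simp only [ex_eq]
  rw [neg_add, kexp_add ℂ h1 nL nL', kexp_add ℂ h4.neg_left.neg_right nΛ.neg nΛ'.neg]
  calc kexp ℂ L * kexp ℂ L' * (kexp ℂ (-Λ) * kexp ℂ (-Λ')) * (kexp ℂ L * kexp ℂ L')
      = kexp ℂ L * (kexp ℂ L' * kexp ℂ (-Λ)) * (kexp ℂ (-Λ') * kexp ℂ L) * kexp ℂ L' := by
        simp only [mul_assoc]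
    _ = kexp ℂ L * (kexp ℂ (-Λ) * kexp ℂ L') * (kexp ℂ L * kexp ℂ (-Λ')) * kexp ℂ L' := by
        rw [hΛL'.eq, hLΛ'.eq]
    _ = kexp ℂ L * kexp ℂ (-Λ) * (kexp ℂ L' * kexp ℂ L) * kexp ℂ (-Λ') * kexp ℂ L' := by
        simp only [mul_assoc]
    _ = _ := by rw [← hLL'.eq]; simp only [mul_assoc]

theorem wop_intertwine {M' : Type*} [AddCommGroup M'] [Module ℂ M'] {L Λ : Module.End ℂ M}
    {L' Λ' : Module.End ℂ M'} (nL : IsNilpotent L) (nL' : IsNilpotent L')
    (nΛ : IsNilpotent Λ) (nΛ' : IsNilpotent Λ') (g : M →ₗ[ℂ] M')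
    (h : ∀ v, L' (g v) = g (L v)) (h' : ∀ v, Λ' (g v) = g (Λ v)) (v : M) :
    wop L' Λ' (g v) = g (wop L Λ v) := by
  have h'' : ∀ v, (-Λ') (g v) = g ((-Λ) v) := by
    intro v
    rw [LinearMap.neg_apply, LinearMap.neg_apply, map_neg, h']
  rw [wop, wop]
  simp only [ex_eq, Module.End.mul_apply]
  rw [kexp_intertwine ℂ nL nL' g h, kexp_intertwine ℂ nΛ.neg nΛ'.neg g h'',
    kexp_intertwine ℂ nL nL' g h]

theorem sgn_add (i j : ℕ) : sgn (i + j) = (-1) ^ (i * j) * (sgn i * sgn j) := by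
  obtain ⟨a, ha⟩ : ∃ a, i * (i + 1) = 2 * a := (Nat.even_mul_succ_self i).two_dvd
  obtain ⟨b, hb⟩ : ∃ b, j * (j + 1) = 2 * b := (Nat.even_mul_succ_self j).two_dvd
  have hc : (i + j) * (i + j + 1) = 2 * (i * j + (a + b)) := by
    have : (i + j) * (i + j + 1) = i * (i + 1) + j * (j + 1) + 2 * (i * j) := by ring
    rw [this, ha, hb]
    ring
  rw [sgn, sgn, sgn, ha, hb, hc, Nat.mul_div_cancel_left _ two_pos,
    Nat.mul_div_cancel_left _ two_pos, Nat.mul_div_cancel_left _ two_pos, pow_add, pow_add]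

end abs

variable {k : Type u} [Field k] {W : CohomologyData.{u, 0, w} k ℂ} {𝒱 : VarietyClass k}

/-- exterior product with a fixed second factor -/
noncomputable def el (W : CohomologyData.{u, 0, w} k ℂ) (Y X : Sch k) (x : W.coh X) :
    W.coh Y →ₗ[ℂ] W.coh (Y ⊗ X) :=
  (LinearMap.mulRight ℂ (W.pull (snd Y X) x)) ∘ₗ (W.pull (fst Y X)).toLinearMap

/-- exterior product with a fixed first factor -/
noncomputable def er (W : CohomologyData.{u, 0, w} k ℂ) (Y X : Sch k) (y : W.coh Y) :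
    W.coh X →ₗ[ℂ] W.coh (Y ⊗ X) :=
  (LinearMap.mulLeft ℂ (W.pull (fst Y X) y)) ∘ₗ (W.pull (snd Y X)).toLinearMap

theorem el_apply (Y X : Sch k) (x : W.coh X) (y : W.coh Y) :
    el W Y X x y = W.pull (fst Y X) y * W.pull (snd Y X) x := rfl

theorem er_apply (Y X : Sch k) (y : W.coh Y) (x : W.coh X) :
    er W Y X y x = W.pull (fst Y X) y * W.pull (snd Y X) x := rfl

theorem ten_pow_left (hW : IsWeilCohomology W 𝒱) {Y X : Sch k} {d n : ℕ} (hY : 𝒱.mem Y d)
    (hX : 𝒱.mem X n) (u : Module.End ℂ (W.coh Y)) (N : ℕ) (hu : u ^ N = 0) :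
    (show Module.End ℂ (W.coh (Y ⊗ X)) from ten hW hY hX u LinearMap.id) ^ N = 0 := by
  refine lin_ext hW hY hX _ _ fun y x => ?_
  have key : ∀ N : ℕ, ((show Module.End ℂ (W.coh (Y ⊗ X)) from ten hW hY hX u LinearMap.id) ^ N)
      (W.pull (fst Y X) y * W.pull (snd Y X) x)
      = W.pull (fst Y X) ((u ^ N) y) * W.pull (snd Y X) x := by
    intro N
    induction N with
    | zero => simp
    | succ N ih =>
      rw [pow_succ', Module.End.mul_apply, ih, pow_succ', Module.End.mul_apply]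
      exact ten_gen hW hY hX _ _ _ _
  rw [key, hu, LinearMap.zero_apply, map_zero, zero_mul, LinearMap.zero_apply]

theorem ten_pow_right (hW : IsWeilCohomology W 𝒱) {Y X : Sch k} {d n : ℕ} (hY : 𝒱.mem Y d)
    (hX : 𝒱.mem X n) (u : Module.End ℂ (W.coh X)) (N : ℕ) (hu : u ^ N = 0) :
    (show Module.End ℂ (W.coh (Y ⊗ X)) from ten hW hY hX LinearMap.id u) ^ N = 0 := by
  refine lin_ext hW hY hX _ _ fun y x => ?_
  have key : ∀ N : ℕ, ((show Module.End ℂ (W.coh (Y ⊗ X)) from ten hW hY hX LinearMap.id u) ^ N)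
      (W.pull (fst Y X) y * W.pull (snd Y X) x)
      = W.pull (fst Y X) y * W.pull (snd Y X) ((u ^ N) x) := by
    intro N
    induction N with
    | zero => simp
    | succ N ih =>
      rw [pow_succ', Module.End.mul_apply, ih, pow_succ', Module.End.mul_apply]
      exact ten_gen hW hY hX _ _ _ _
  rw [key, hu, LinearMap.zero_apply, map_zero, mul_zero, LinearMap.zero_apply]

theorem ten_comm (hW : IsWeilCohomology W 𝒱) {Y X : Sch k} {d n : ℕ} (hY : 𝒱.mem Y d)
    (hX : 𝒱.mem X n) (u : Module.End ℂ (W.coh Y)) (v : Module.End ℂ (W.coh X)) :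
    Commute (show Module.End ℂ (W.coh (Y ⊗ X)) from ten hW hY hX u LinearMap.id)
      (show Module.End ℂ (W.coh (Y ⊗ X)) from ten hW hY hX LinearMap.id v) := by
  refine lin_ext hW hY hX _ _ fun y x => ?_
  rw [Module.End.mul_apply, Module.End.mul_apply]
  change ten hW hY hX u LinearMap.id (ten hW hY hX LinearMap.id v _)
    = ten hW hY hX LinearMap.id v (ten hW hY hX u LinearMap.id _)
  rw [ten_gen, ten_gen, ten_gen, ten_gen]
  rfl

theorem lop_eq (hW : IsWeilCohomology W 𝒱) {Y X : Sch k} {d n : ℕ} (hY : 𝒱.mem Y d)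
    (hX : 𝒱.mem X n) {l : W.coh Y} {ξ : W.coh X} (hξ : ξ ∈ W.gr X 2) :
    Lop W (Y ⊗ X) (sumPol W l ξ)
      = ten hW hY hX (Lop W Y l) LinearMap.id + ten hW hY hX LinearMap.id (Lop W X ξ) := by
  refine lin_ext hW hY hX _ _ fun y x => ?_
  have hYX := 𝒱.prod hY hX
  have hc : W.pull (snd Y X) ξ * W.pull (fst Y X) y = W.pull (fst Y X) y * W.pull (snd Y X) ξ :=
    hW.even_comm hYX (j := 1) (hW.pull_gr hYX hX (snd Y X) hξ) _
  rw [LinearMap.add_apply, ten_gen, ten_gen, LinearMap.id_apply, LinearMap.id_apply]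
  simp only [Lop, LinearMap.mulLeft_apply, sumPol]
  rw [add_mul, map_mul, map_mul, mul_assoc, ← mul_assoc (W.pull (snd Y X) ξ), hc, mul_assoc]

/-- the operator `w` on a product -/
theorem wop_ten (h1 : Sl2Statement.{w}) (hW : IsWeilCohomology W 𝒱) {Y X : Sch k} {d n : ℕ}
    (hY : 𝒱.mem Y d) (hX : 𝒱.mem X n) {l : W.coh Y} {ξ : W.coh X}
    {LamY : Module.End ℂ (W.coh Y)} {LamX : Module.End ℂ (W.coh X)} (hξ : ξ ∈ W.gr X 2)
    (SY : Slm (W.gr Y) d (Lop W Y l) LamY) (SX : Slm (W.gr X) n (Lop W X ξ) LamX)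
    (y : W.coh Y) (x : W.coh X) :
    wop (Lop W (Y ⊗ X) (sumPol W l ξ)) (lamProd hW hY hX LamY LamX)
        (W.pull (fst Y X) y * W.pull (snd Y X) x)
      = W.pull (fst Y X) (wop (Lop W Y l) LamY y)
          * W.pull (snd Y X) (wop (Lop W X ξ) LamX x) := by
  obtain ⟨nLY, nΛY, -⟩ := h1 SY
  obtain ⟨nLX, nΛX, -⟩ := h1 SX
  have a1 : IsNilpotent (show Module.End ℂ (W.coh (Y ⊗ X)) from
      ten hW hY hX (Lop W Y l) LinearMap.id) := ⟨_, ten_pow_left hW hY hX _ _ nLY⟩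
  have a2 : IsNilpotent (show Module.End ℂ (W.coh (Y ⊗ X)) from
      ten hW hY hX LinearMap.id (Lop W X ξ)) := ⟨_, ten_pow_right hW hY hX _ _ nLX⟩
  have a3 : IsNilpotent (show Module.End ℂ (W.coh (Y ⊗ X)) from
      ten hW hY hX LamY LinearMap.id) := ⟨_, ten_pow_left hW hY hX _ _ nΛY⟩
  have a4 : IsNilpotent (show Module.End ℂ (W.coh (Y ⊗ X)) from
      ten hW hY hX LinearMap.id LamX) := ⟨_, ten_pow_right hW hY hX _ _ nΛX⟩
  have key := wop_add a1 a2 a3 a4 (ten_comm hW hY hX _ _) (ten_comm hW hY hX _ _)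
    (ten_comm hW hY hX _ _) (ten_comm hW hY hX _ _)
  rw [lop_eq hW hY hX hξ, lamProd]
  refine (LinearMap.congr_fun key _).trans ?_
  rw [Module.End.mul_apply, ← er_apply Y X y x]
  have e1 := wop_intertwine (M := W.coh X) (M' := W.coh (Y ⊗ X)) ⟨_, nLX⟩ a2 ⟨_, nΛX⟩ a4
    (er W Y X y) (fun v => by
      rw [er_apply, er_apply]
      exact ten_gen hW hY hX _ _ _ _) (fun v => by
      rw [er_apply, er_apply]
      exact ten_gen hW hY hX _ _ _ _) x
  rw [e1, er_apply, ← el_apply Y X _ y]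
  have e2 := wop_intertwine (M := W.coh Y) (M' := W.coh (Y ⊗ X)) ⟨_, nLY⟩ a1 ⟨_, nΛY⟩ a3
    (el W Y X (wop (Lop W X ξ) LamX x)) (fun v => by
      rw [el_apply, el_apply]
      exact ten_gen hW hY hX _ _ _ _) (fun v => by
      rw [el_apply, el_apply]
      exact ten_gen hW hY hX _ _ _ _) y
  rw [e2, el_apply]

theorem star_ten (h1 : Sl2Statement.{w}) (hW : IsWeilCohomology W 𝒱) {Y X : Sch k} {d n : ℕ}
    (hY : 𝒱.mem Y d) (hX : 𝒱.mem X n) {l : W.coh Y} {ξ : W.coh X}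
    {LamY : Module.End ℂ (W.coh Y)} {LamX : Module.End ℂ (W.coh X)} (hξ : ξ ∈ W.gr X 2)
    (SY : Slm (W.gr Y) d (Lop W Y l) LamY) (SX : Slm (W.gr X) n (Lop W X ξ) LamX)
    (S : Slm (W.gr (Y ⊗ X)) (d + n) (Lop W (Y ⊗ X) (sumPol W l ξ))
        (lamProd hW hY hX LamY LamX)) {i j : ℕ} {y : W.coh Y} {x : W.coh X}
    (hy : y ∈ W.gr Y i) (hx : x ∈ W.gr X j) :
    star S.internal (Lop W (Y ⊗ X) (sumPol W l ξ)) (lamProd hW hY hX LamY LamX)
          (W.pull (fst Y X) y * W.pull (snd Y X) x)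
        = ((-1 : ℂ) ^ (i * j)) • (W.pull (fst Y X) (star SY.internal (Lop W Y l) LamY y)
            * W.pull (snd Y X) (star SX.internal (Lop W X ξ) LamX x)) := by
  have hYX := 𝒱.prod hY hX
  have hyx : W.pull (fst Y X) y * W.pull (snd Y X) x ∈ W.gr (Y ⊗ X) (i + j) :=
    hW.mul_gr hYX (hW.pull_gr hYX hY _ hy) (hW.pull_gr hYX hX _ hx)
  rw [star, star, star, Module.End.mul_apply, Module.End.mul_apply, Module.End.mul_apply,
    gop_apply S.internal sgn hyx, gop_apply SY.internal sgn hy, gop_apply SX.internal sgn hx,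
    map_smul, wop_ten h1 hW hY hX hξ SY SX, map_smul, map_smul, map_smul, map_smul, smul_mul_assoc,
    mul_smul_comm, smul_smul, smul_smul, sgn_add, mul_assoc]

theorem psi_ten (h1 : Sl2Statement.{w}) (h2 : StaStatement.{w}) (hW : IsWeilCohomology W 𝒱)
    {Y X : Sch k} {d n : ℕ}
    (hY : 𝒱.mem Y d) (hX : 𝒱.mem X n) {l : W.coh Y} {ξ : W.coh X}
    {LamY : Module.End ℂ (W.coh Y)} {LamX : Module.End ℂ (W.coh X)} (hξ : ξ ∈ W.gr X 2)
    (SY : Slm (W.gr Y) d (Lop W Y l) LamY) (SX : Slm (W.gr X) n (Lop W X ξ) LamX)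
    (S : Slm (W.gr (Y ⊗ X)) (d + n) (Lop W (Y ⊗ X) (sumPol W l ξ))
        (lamProd hW hY hX LamY LamX)) {i j i' j' : ℕ} {y y' : W.coh Y} {x x' : W.coh X}
    (hy : y ∈ W.gr Y i) (hx : x ∈ W.gr X j) (hy' : y' ∈ W.gr Y i') (hx' : x' ∈ W.gr X j') :
    psi W (Y ⊗ X) (sumPol W l ξ) (lamProd hW hY hX LamY LamX) S.internal
        (W.pull (fst Y X) y * W.pull (snd Y X) x) (W.pull (fst Y X) y' * W.pull (snd Y X) x')
      = psi W Y l LamY SY.internal y y' * psi W X ξ LamX SX.internal x x' := by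
  have hYX := 𝒱.prod hY hX
  rw [psi, psi, psi, star_ten h1 hW hY hX hξ SY SX S hy' hx']
  rcases lt_or_ge (2 * d) i' with hi | hi
  · rw [hW.top_gr hY hy' hi]
    simp
  rcases lt_or_ge (2 * n) j' with hj | hj
  · rw [hW.top_gr hX hx' hj]
    simp
  have sY := (h2 SY).1 i' y' hi hy'
  have sX := (h2 SX).1 j' x' hj hx'
  set ys := star SY.internal (Lop W Y l) LamY y' with hys
  set xs := star SX.internal (Lop W X ξ) LamX x' with hxs
  have hcomm := hW.comm_gr hYX (hW.pull_gr hYX hX (snd Y X) hx) (hW.pull_gr hYX hY (fst Y X) sY)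
  have e1 : W.pull (fst Y X) y * W.pull (snd Y X) x *
      ((-1 : ℂ) ^ (i' * j') • (W.pull (fst Y X) ys * W.pull (snd Y X) xs))
      = ((-1 : ℂ) ^ (i' * j') * (-1 : ℂ) ^ (j * (2 * d - i'))) •
        (W.pull (fst Y X) (y * ys) * W.pull (snd Y X) (x * xs)) := by
    rw [mul_smul_comm, mul_smul, map_mul, map_mul]
    congr 1
    rw [mul_assoc, ← mul_assoc (W.pull (snd Y X) x), hcomm, smul_mul_assoc, mul_smul_comm,
      mul_assoc, mul_assoc]
  rw [e1, map_smul, hW.kunneth_tr hY hX, smul_eq_mul]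
  by_cases hjj : j = j'
  · subst hjj
    have e2 : (-1 : ℂ) ^ (i' * j) * (-1 : ℂ) ^ (j * (2 * d - i')) = 1 := by
      rw [← pow_add, mul_comm i' j, ← mul_add, Nat.add_sub_cancel' hi, mul_left_comm, pow_mul]
      simp
    rw [e2, one_mul]
  · have : W.tr X (x * xs) = 0 := by
      refine hW.tr_gr hX (hW.mul_gr hX hx sX) ?_
      omega
    rw [this, mul_zero, mul_zero]

theorem psi_add_left (X : Sch k) (ξ : W.coh X) (Lam : Module.End ℂ (W.coh X))
    (h : DirectSum.IsInternal (W.gr X)) (x x' y : W.coh X) :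
    psi W X ξ Lam h (x + x') y = psi W X ξ Lam h x y + psi W X ξ Lam h x' y := by
  rw [psi, psi, psi, add_mul, map_add]

theorem psi_add_right (X : Sch k) (ξ : W.coh X) (Lam : Module.End ℂ (W.coh X))
    (h : DirectSum.IsInternal (W.gr X)) (x y y' : W.coh X) :
    psi W X ξ Lam h x (y + y') = psi W X ξ Lam h x y + psi W X ξ Lam h x y' := by
  rw [psi, psi, psi, map_add, mul_add, map_add]

theorem psi_zero_left (X : Sch k) (ξ : W.coh X) (Lam : Module.End ℂ (W.coh X))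
    (h : DirectSum.IsInternal (W.gr X)) (y : W.coh X) : psi W X ξ Lam h 0 y = 0 := by
  rw [psi, zero_mul, map_zero]

theorem psi_zero_right (X : Sch k) (ξ : W.coh X) (Lam : Module.End ℂ (W.coh X))
    (h : DirectSum.IsInternal (W.gr X)) (x : W.coh X) : psi W X ξ Lam h x 0 = 0 := by
  rw [psi, map_zero, mul_zero, map_zero]

end STP

theorem stp (h1 : Sl2Statement.{w}) (h2 : StaStatement.{w}) : StpStatement.{u, w} := by
  intro k _ W 𝒱 hW Y X d n hY hX l ξ LamY LamX hl hξ SY SX S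
  refine ⟨fun i j y x hy hx => STP.star_ten h1 hW hY hX hξ SY SX S hy hx, ?_⟩
  intro y x y' x'
  refine hW.hom_induction hY (P := fun y => psi W (Y ⊗ X) (sumPol W l ξ)
      (lamProd hW hY hX LamY LamX) S.internal (W.pull (fst Y X) y * W.pull (snd Y X) x)
      (W.pull (fst Y X) y' * W.pull (snd Y X) x')
      = psi W Y l LamY SY.internal y y' * psi W X ξ LamX SX.internal x x') y ?_ ?_ ?_
  rotate_left
  · rw [map_zero, zero_mul, STP.psi_zero_left, STP.psi_zero_left, zero_mul]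
  · intro a b ha hb
    rw [map_add, add_mul, STP.psi_add_left, STP.psi_add_left, ha, hb, add_mul]
  intro i y hy
  refine hW.hom_induction hX (P := fun x => psi W (Y ⊗ X) (sumPol W l ξ)
      (lamProd hW hY hX LamY LamX) S.internal (W.pull (fst Y X) y * W.pull (snd Y X) x)
      (W.pull (fst Y X) y' * W.pull (snd Y X) x')
      = psi W Y l LamY SY.internal y y' * psi W X ξ LamX SX.internal x x') x ?_ ?_ ?_
  rotate_left
  · rw [map_zero, mul_zero, STP.psi_zero_left, STP.psi_zero_left, mul_zero]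
  · intro a b ha hb
    rw [map_add, mul_add, STP.psi_add_left, STP.psi_add_left, ha, hb, mul_add]
  intro j x hx
  refine hW.hom_induction hY (P := fun y' => psi W (Y ⊗ X) (sumPol W l ξ)
      (lamProd hW hY hX LamY LamX) S.internal (W.pull (fst Y X) y * W.pull (snd Y X) x)
      (W.pull (fst Y X) y' * W.pull (snd Y X) x')
      = psi W Y l LamY SY.internal y y' * psi W X ξ LamX SX.internal x x') y' ?_ ?_ ?_
  rotate_left
  · rw [map_zero, zero_mul, STP.psi_zero_right, STP.psi_zero_right, zero_mul]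
  · intro a b ha hb
    rw [map_add, add_mul, STP.psi_add_right, STP.psi_add_right, ha, hb, add_mul]
  intro i' y' hy'
  refine hW.hom_induction hX (P := fun x' => psi W (Y ⊗ X) (sumPol W l ξ)
      (lamProd hW hY hX LamY LamX) S.internal (W.pull (fst Y X) y * W.pull (snd Y X) x)
      (W.pull (fst Y X) y' * W.pull (snd Y X) x')
      = psi W Y l LamY SY.internal y y' * psi W X ξ LamX SX.internal x x') x' ?_ ?_ ?_
  rotate_left
  · rw [map_zero, mul_zero, STP.psi_zero_right, STP.psi_zero_right, mul_zero]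
  · intro a b ha hb
    rw [map_add, mul_add, STP.psi_add_right, STP.psi_add_right, ha, hb, mul_add]
  intro j' x' hx'
  exact STP.psi_ten h1 h2 hW hY hX hξ SY SX S hy hx hy' hx'

end Pool.Agent.Lib.MP_361a6f_ag.PP
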