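import Mathlib

/-!
# Fourth roots of positive operators as real polynomials in the operator
-/

set_option autoImplicit false

namespace Pool.Agent.Lib.MP_361a6f_ag.PP

open Module Polynomial

variable {V : Type*} [AddCommGroup V] [Module ℂ V]

/-- a positive definite hermitian form, linear in the first argument -/
structure PosHerm (H : V → V → ℂ) : Prop where
  add_left : ∀ x x' y, H (x + x') y = H x y + H x' y
  smul_left : ∀ (c : ℂ) x y, H (c • x) y = c * H x y
  conj : ∀ x y, starRingEnd ℂ (H x y) = H y x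
  self : ∀ x, ∃ r : ℝ, 0 ≤ r ∧ H x x = r ∧ (r = 0 → x = 0)

theorem PosHerm.add_right {H : V → V → ℂ} (h : PosHerm H) (x y y' : V) :
    H x (y + y') = H x y + H x y' := by
  rw [← h.conj, h.add_left, map_add, h.conj, h.conj]

theorem PosHerm.smul_right {H : V → V → ℂ} (h : PosHerm H) (c : ℂ) (x y : V) :
    H x (c • y) = starRingEnd ℂ c * H x y := by
  rw [← h.conj, h.smul_left, map_mul, h.conj]

/-- a real polynomial in the operator `T` -/
noncomputable def rp (T : Module.End ℂ V) (p : ℝ[X]) : Module.End ℂ V :=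
  aeval T (p.map (algebraMap ℝ ℂ))

theorem rp_add (T : Module.End ℂ V) (p q : ℝ[X]) : rp T (p + q) = rp T p + rp T q := by
  rw [rp, Polynomial.map_add, map_add]; rfl

theorem rp_mul (T : Module.End ℂ V) (p q : ℝ[X]) : rp T (p * q) = rp T p * rp T q := by
  rw [rp, Polynomial.map_mul, map_mul]; rfl

theorem rp_monomial (T : Module.End ℂ V) (n : ℕ) (a : ℝ) (x : V) :
    rp T (monomial n a) x = (a : ℂ) • (T ^ n) x := by
  rw [rp, Polynomial.map_monomial, aeval_monomial]
  rfl

theorem pow_comm_map {T : Module.End ℂ V} (φ : V →+ V) (hT : ∀ x, φ (T x) = T (φ x)) (n : ℕ)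
    (x : V) : φ ((T ^ n) x) = (T ^ n) (φ x) := by
  induction n generalizing x with
  | zero => rfl
  | succ n ih =>
    rw [pow_succ, Module.End.mul_apply, ih, hT, Module.End.mul_apply]

/-- additive maps that commute with `T` and with real scalars commute with real polynomials
in `T` -/
theorem rp_comm {T : Module.End ℂ V} (φ : V →+ V) (hT : ∀ x, φ (T x) = T (φ x))
    (hr : ∀ (a : ℝ) x, φ ((a : ℂ) • x) = (a : ℂ) • φ x) (p : ℝ[X]) (x : V) :
    φ (rp T p x) = rp T p (φ x) := by
  induction p using Polynomial.induction_on' with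
  | add p q hp hq =>
    rw [rp_add, LinearMap.add_apply, map_add, hp, hq, LinearMap.add_apply]
  | monomial n a => rw [rp_monomial, hr, pow_comm_map φ hT, rp_monomial]

theorem rp_symm {H : V → V → ℂ} (h : PosHerm H) {T : Module.End ℂ V}
    (hT : ∀ x y, H (T x) y = H x (T y)) (p : ℝ[X]) (x y : V) :
    H (rp T p x) y = H x (rp T p y) := by
  induction p using Polynomial.induction_on' with
  | add p q hp hq =>
    rw [rp_add, LinearMap.add_apply, LinearMap.add_apply, h.add_left, h.add_right, hp, hq]
  | monomial n a =>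
    rw [rp_monomial, rp_monomial, h.smul_left, h.smul_right, Complex.conj_ofReal]
    congr 1
    induction n generalizing x with
    | zero => rfl
    | succ n ih =>
      rw [pow_succ, Module.End.mul_apply, ih, hT, ← Module.End.mul_apply, ← pow_succ', pow_succ]

/-- there is a real polynomial `p` with `p(T)^4 T = 1` -/
theorem exists_root [FiniteDimensional ℂ V] {H : V → V → ℂ} (h : PosHerm H)
    {T : Module.End ℂ V} (hT : ∀ x y, H (T x) y = H x (T y))
    (hpos : ∀ x, x ≠ 0 → ∃ r : ℝ, 0 < r ∧ H (T x) x = r) :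
    ∃ p : ℝ[X], ∀ x, rp T p (rp T p (rp T p (rp T p (T x)))) = x := by
  classical
  let c : InnerProductSpace.Core ℂ V :=
    { inner := fun x y => H y x
      conj_inner_symm := fun x y => h.conj _ _
      re_inner_nonneg := fun x => by
        obtain ⟨r, hr0, hr, -⟩ := h.self x
        show 0 ≤ RCLike.re (H x x)
        rw [hr]
        exact hr0
      add_left := fun x y z => h.add_right _ _ _
      smul_left := fun x y r => h.smul_right _ _ _
      definite := fun x hx => by
        obtain ⟨r, hr0, hr, h1⟩ := h.self x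
        have hx' : H x x = 0 := hx
        rw [hr] at hx'
        exact h1 (by exact_mod_cast hx') }
  letI : NormedAddCommGroup V := @InnerProductSpace.Core.toNormedAddCommGroup ℂ V _ _ _ c
  letI : InnerProductSpace ℂ V := InnerProductSpace.ofCore c.toCore
  have hsym : LinearMap.IsSymmetric T := fun x y => (hT y x).symm
  set b := hsym.eigenvectorBasis rfl with hb
  set μ := hsym.eigenvalues rfl with hμ
  have hTb : ∀ i, T (b i) = (μ i : ℂ) • b i := fun i => hsym.apply_eigenvectorBasis rfl i
  have hμpos : ∀ i, 0 < μ i := by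
    intro i
    have hbi : b i ≠ 0 := b.toBasis.ne_zero i |> fun h => by simpa using h
    obtain ⟨r, hr, hr'⟩ := hpos (b i) hbi
    obtain ⟨s, hs0, hs, hs1⟩ := h.self (b i)
    rw [hTb, h.smul_left, hs] at hr'
    have h1 : μ i * s = r := by exact_mod_cast hr'
    rcases hs0.eq_or_lt with h0 | h0
    · exact absurd (hs1 h0.symm) hbi
    · by_contra hcon
      push Not at hcon
      have := mul_nonpos_of_nonpos_of_nonneg hcon hs0
      linarith
  set s : Finset ℝ := Finset.univ.image μ with hs
  set ρ : ℝ → ℝ := fun t => (Real.sqrt (Real.sqrt t))⁻¹ with hρ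
  set p := Lagrange.interpolate s id ρ with hp
  have hev : ∀ i, p.eval (μ i) = ρ (μ i) := by
    intro i
    exact Lagrange.eval_interpolate_at_node (v := id) ρ Function.injective_id.injOn
      (Finset.mem_image_of_mem μ (Finset.mem_univ i))
  have hpb : ∀ i, rp T p (b i) = ((ρ (μ i) : ℝ) : ℂ) • b i := by
    intro i
    have h1 := Module.End.aeval_apply_of_hasEigenvector
      (hsym.hasEigenvector_eigenvectorBasis rfl i) (p := p.map (algebraMap ℝ ℂ))
    rw [rp]
    refine h1.trans ?_
    have h2 : (p.map (algebraMap ℝ ℂ)).eval ((μ i : ℝ) : ℂ) = ((p.eval (μ i) : ℝ) : ℂ) := by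
      rw [Polynomial.eval_map]
      exact Polynomial.eval₂_at_apply (algebraMap ℝ ℂ) (μ i)
    rw [← hev i, ← h2]
    rfl
  have hρ4 : ∀ i, ρ (μ i) * (ρ (μ i) * (ρ (μ i) * ρ (μ i))) * μ i = 1 := by
    intro i
    have h1 := Real.mul_self_sqrt (hμpos i).le
    have h2 := Real.mul_self_sqrt (Real.sqrt_nonneg (μ i))
    have h3 : 0 < Real.sqrt (Real.sqrt (μ i)) := Real.sqrt_pos.2 (Real.sqrt_pos.2 (hμpos i))
    rw [hρ]
    beta_reduce
    set t := Real.sqrt (Real.sqrt (μ i)) with ht
    have h4 : μ i = t * t * (t * t) := by rw [h2, h1]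
    rw [h4]
    field_simp
  refine ⟨p, fun x => ?_⟩
  have key : (rp T p * (rp T p * (rp T p * (rp T p * T))) : Module.End ℂ V) = 1 := by
    refine b.toBasis.ext fun i => ?_
    rw [OrthonormalBasis.coe_toBasis]
    simp only [Module.End.mul_apply, Module.End.one_apply]
    have hc : ∀ (c : ℂ), rp T p (c • b i) = (c * ((ρ (μ i) : ℝ) : ℂ)) • b i := by
      intro c
      rw [map_smul, hpb, smul_smul]
    rw [hTb, hc, hc, hc, hc]
    rw [show (μ i : ℂ) * (ρ (μ i) : ℝ) * (ρ (μ i) : ℝ) * (ρ (μ i) : ℝ) * (ρ (μ i) : ℝ)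
      = ((ρ (μ i) * (ρ (μ i) * (ρ (μ i) * ρ (μ i))) * μ i : ℝ) : ℂ) by push_cast; ring, hρ4]
    simp
  have := LinearMap.congr_fun key x
  simpa [Module.End.mul_apply] using this

end Pool.Agent.Lib.MP_361a6f_ag.PP
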