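import Pool.Agent.Lib.MP_361a6f_ag.PP.Herm
import Pool.Agent.Lib.MP_361a6f_ag.PP.Root

/-!
# The real or quaternionic structure commuting with an algebra with positive involution
-/

set_option autoImplicit false

namespace Pool.Agent.Lib.MP_361a6f_ag.PP

open Module

variable {V : Type*} [AddCommGroup V] [Module ℂ V] [FiniteDimensional ℂ V]

/-- the antilinear map `J₀` with `ψ(x, J₀ y) = H(x, y)` -/
noncomputable def jay (psi : V →ₗ[ℂ] V →ₗ[ℂ] ℂ) (h : ∀ y, (∀ x, psi x y = 0) → y = 0)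
    {H : V → V → ℂ} (hH : PosHerm H) : V →ₛₗ[starRingEnd ℂ] V where
  toFun y := (phi psi h).symm
    { toFun := fun x => H x y
      map_add' := fun x x' => hH.add_left x x' y
      map_smul' := fun c x => hH.smul_left c x y }
  map_add' y y' := by
    rw [← map_add]
    congr 1
    exact LinearMap.ext fun x => hH.add_right x y y'
  map_smul' c y := by
    rw [← map_smul]
    congr 1
    exact LinearMap.ext fun x => hH.smul_right c x y

theorem psi_jay (psi : V →ₗ[ℂ] V →ₗ[ℂ] ℂ) (h : ∀ y, (∀ x, psi x y = 0) → y = 0)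
    {H : V → V → ℂ} (hH : PosHerm H) (x y : V) : psi x (jay psi h hH y) = H x y := by
  rw [← phi_apply psi h]
  show phi psi h ((phi psi h).symm _) x = _
  rw [LinearEquiv.apply_symm_apply]
  rfl

/-- If `E` is an algebra of endomorphisms of the complex vector space `V` which is stable under the
adjoint `e ↦ e'` for the `ε`-symmetric form `ψ` and `Tr(e e') > 0` for all `e ≠ 0` in `E`, then
there is an antilinear map `J` on `V` with `J² = ε` which commutes with `E`, such that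
`ψ(x, J y)` is a positive definite hermitian form and `ψ(J x, J y)` is the conjugate of
`ψ(x, y)`. -/
theorem exists_realJ {psi : V →ₗ[ℂ] V →ₗ[ℂ] ℂ} {h : ∀ y, (∀ x, psi x y = 0) → y = 0}
    {eps : V →ₗ[ℂ] V} {E : AddSubgroup (V →ₗ[ℂ] V)} (P : PosAlg psi h eps E) :
    ∃ J : V →ₛₗ[starRingEnd ℂ] V, (∀ x, J (J x) = eps x) ∧ (∀ e ∈ E, ∀ x, J (e x) = e (J x)) ∧
      (∀ x y, psi (J x) (J y) = starRingEnd ℂ (psi x y)) ∧
      PosHerm (fun x y => psi x (J y)) := by
  classical
  obtain ⟨N, e, q, O, C⟩ := P.exists_complete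
  set b := Module.finBasis ℂ V
  have hH : PosHerm (h0 psi h b e q) :=
    ⟨h0_add_left b, h0_smul_left b, h0_conj b, P.h0_self b O C⟩
  set H := h0 psi h b e q with hHdef
  have hinv : ∀ f ∈ E, ∀ x y, H (f x) y = H x (adj psi h f y) := fun f hf x y =>
    P.h0_inv b O C hf x y
  set J0 := jay psi h hH with hJ0
  have hpsi : ∀ x y, psi x (J0 y) = H x y := psi_jay psi h hH
  have haa : ∀ f ∈ E, adj psi h (adj psi h f) = f := fun f hf =>
    adj_adj psi h P.symm (P.comm f hf)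
  have hcomm : ∀ f ∈ E, ∀ y, J0 (f y) = f (J0 y) := by
    intro f hf y
    refine eq_of_psi psi h fun x => ?_
    have h1 := hinv _ (P.adj_mem f hf) x y
    rw [haa f hf] at h1
    rw [hpsi, ← h1, ← hpsi, adj_spec psi h, haa f hf]
  have hinj : ∀ y, J0 y = 0 → y = 0 := by
    intro y hy
    obtain ⟨r, -, hr, hr1⟩ := hH.self y
    have h1 := hpsi y y
    rw [hy, map_zero] at h1
    rw [← h1] at hr
    exact hr1 (by exact_mod_cast hr.symm)
  let T : Module.End ℂ V := eps ∘ₗ (J0.comp J0)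
  have hT : ∀ x, T x = eps (J0 (J0 x)) := fun x => rfl
  have hHT : ∀ x y, H (T x) y = H (J0 y) (J0 x) := by
    intro x y
    rw [← hpsi, hT, ← P.symm, hpsi]
  have hTsym : ∀ x y, H (T x) y = H x (T y) := by
    intro x y
    rw [← hH.conj (T y) x, hHT, hHT, hH.conj]
  have hTpos : ∀ x, x ≠ 0 → ∃ r : ℝ, 0 < r ∧ H (T x) x = r := by
    intro x hx
    obtain ⟨r, hr0, hr, hr1⟩ := hH.self (J0 x)
    rcases hr0.eq_or_lt with h0 | h0
    · exact absurd (hinj x (hr1 h0.symm)) hx
    · exact ⟨r, h0, by rw [hHT, hr]⟩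
  obtain ⟨p, hp⟩ := exists_root hH hTsym hTpos
  set R := rp T p with hR
  have hTe : ∀ f ∈ E, ∀ x, f (T x) = T (f x) := by
    intro f hf x
    rw [hT, hT, hcomm f hf, hcomm f hf, P.comm f hf]
  have hTJ : ∀ x, J0 (T x) = T (J0 x) := by
    intro x
    rw [hT, hT, hcomm eps P.eps_mem]
  have hRe : ∀ f ∈ E, ∀ x, f (R x) = R (f x) := fun f hf x =>
    rp_comm f.toAddMonoidHom (hTe f hf) (fun a x => f.map_smul _ _) p x
  have hRJ : ∀ x, J0 (R x) = R (J0 x) := fun x =>
    rp_comm J0.toAddMonoidHom hTJ (fun a x => by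
      show J0 ((a : ℂ) • x) = (a : ℂ) • J0 x
      rw [LinearMap.map_smulₛₗ, Complex.conj_ofReal]) p x
  have hRT : ∀ x, T (R x) = R (T x) := fun x =>
    rp_comm T.toAddMonoidHom (fun x => rfl) (fun a x => T.map_smul _ _) p x
  have hRsym : ∀ x y, H (R x) y = H x (R y) := rp_symm hH hTsym p
  let J : V →ₛₗ[starRingEnd ℂ] V := J0.comp (R ∘ₗ R)
  have hJ : ∀ x, J x = J0 (R (R x)) := fun x => rfl
  have hJJ : ∀ x, J (J x) = eps x := by
    intro x
    have h1 : J (J x) = J0 (J0 (R (R (R (R x))))) := by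
      rw [hJ, hJ, ← hRJ, ← hRJ]
    have h2 : ∀ z, J0 (J0 z) = eps (T z) := by
      intro z
      rw [hT, P.sq]
    rw [h1, h2, hRT, hRT, hRT, hRT, hp]
  have hH' : ∀ x y, psi x (J y) = H (R x) (R y) := by
    intro x y
    rw [hJ, hpsi, hRsym]
  have hRinj : ∀ x, R x = 0 → x = 0 := by
    intro x hx
    rw [← hp x, ← hRT, hx, map_zero, map_zero, map_zero, map_zero]
  have hPos : PosHerm (fun x y => psi x (J y)) := by
    refine ⟨fun x x' y => ?_, fun c x y => ?_, fun x y => ?_, fun x => ?_⟩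
    · rw [map_add, LinearMap.add_apply]
    · rw [map_smul, LinearMap.smul_apply, smul_eq_mul]
    · rw [hH', hH', hH.conj]
    · obtain ⟨r, hr0, hr, hr1⟩ := hH.self (R x)
      exact ⟨r, hr0, by rw [hH', hr], fun h0 => hRinj x (hr1 h0)⟩
  refine ⟨J, hJJ, ?_, ?_, hPos⟩
  · intro f hf x
    rw [hJ, hJ, ← hcomm f hf, hRe f hf, hRe f hf]
  · intro x y
    have h1 := hPos.conj y (J x)
    beta_reduce at h1
    rw [← h1, hJJ, P.symm, P.sq]

end Pool.Agent.Lib.MP_361a6f_ag.PP
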