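import Pool.Agent.Lib.MP_361a6f_ag.PP.StarAlg
import Pool.Agent.Lib.MP_361a6f_ag.PP.RealJ

/-!
# Block operators on the sum of the cohomology spaces of the factors
-/

open CategoryTheory AlgebraicGeometry MonoidalCategory CartesianMonoidalCategory

universe u v w

set_option linter.unusedSectionVars false

namespace Pool.Agent.Lib.MP_361a6f_ag.PP

open Pool.Agent.Lib.MP_361a6f_ag.H3 Pool.Agent.Lib.MP_361a6f_ag.SQ
  Pool.Agent.Lib.MP_361a6f_ag.IP2

namespace BLK

variable {k : Type u} [Field k] {W : CohomologyData.{u, 0, w} k ℂ} {𝒱 : VarietyClass k}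

section one

variable (hW : IsWeilCohomology W 𝒱) (hSta : StaStatement.{w}) {X : Sch k} {n : ℕ}
  (hX : 𝒱.mem X n) {ξ : W.coh X} (hξ : ξ ∈ W.alg X 1) {Lam : Module.End ℂ (W.coh X)}
  (D : LamData W X n ξ Lam)
include hW hSta hX hξ D

theorem star_star (x : W.coh X) :
    star D.slm.internal (Lop W X ξ) Lam (star D.slm.internal (Lop W X ξ) Lam x) = x :=
  (hSta D.slm).2.1 x

theorem star_adj (x y : W.coh X) :
    W.tr X (star D.slm.internal (Lop W X ξ) Lam x * y)
      = W.tr X (x * star D.slm.internal (Lop W X ξ) Lam y) := by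
  refine (hSta D.slm).2.2.2.2.2.2 ((LinearMap.mul ℂ (W.coh X)).compr₂ (W.tr X)) ?_ D.adj ?_ x y
  · intro x y
    change W.tr X (ξ * x * y) = W.tr X (x * (ξ * y))
    rw [hW.alg_comm hX hξ x, mul_assoc]
  · intro i i' x y hx hy hi
    exact hW.tr_gr hX (hW.mul_gr hX hx hy) hi

theorem psi_star (x y : W.coh X) :
    psi W X ξ Lam D.slm.internal x (star D.slm.internal (Lop W X ξ) Lam y) = W.tr X (x * y) := by
  rw [psi, star_star hW hSta hX hξ D]

theorem psi_symm (x y : W.coh X) :
    psi W X ξ Lam D.slm.internal y x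
      = psi W X ξ Lam D.slm.internal (epsOp W X D.slm.internal x) y := by
  refine hW.hom_induction hX (P := fun x => psi W X ξ Lam D.slm.internal y x
      = psi W X ξ Lam D.slm.internal (epsOp W X D.slm.internal x) y) x ?_ ?_ ?_
  · intro i x hx
    by_cases hi : i ≤ 2 * n
    · have h1 := (hSta D.slm).1 i x hi hx
      have h2 := tr_comm_gr hW hX h1 y
      rw [star_adj hW hSta hX hξ D] at h2
      have h3 : (-1 : ℂ) ^ (2 * n - i) = (-1) ^ i := by
        obtain ⟨c, hc⟩ : ∃ c, 2 * n = i + c := ⟨2 * n - i, by omega⟩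
        rw [hc, Nat.add_sub_cancel_left]
        have h4 : (-1 : ℂ) ^ i * (-1) ^ c = 1 := by
          rw [← pow_add, ← hc, pow_mul]
          norm_num
        rcases neg_one_pow_eq_or ℂ i with h2 | h2 <;> rcases neg_one_pow_eq_or ℂ c with h3 | h3 <;>
          rw [h2, h3] at h4 ⊢
        · norm_num at h4
        · norm_num at h4
      rw [psi, psi, epsOp, gop_apply _ _ hx, smul_mul_assoc, map_smul, h2, smul_eq_mul, h3,
        ← mul_assoc, ← mul_pow]
      norm_num
    · rw [D.slm.top i x hx (by omega), map_zero, psi, psi, map_zero, mul_zero, zero_mul]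
  · rw [map_zero, psi, psi, map_zero, mul_zero, zero_mul]
  · intro a b ha hb
    rw [psi] at ha hb ⊢
    rw [psi] at ha hb ⊢
    rw [map_add, mul_add, map_add, ha, hb, map_add, add_mul, map_add]

theorem psi_nondeg (y : W.coh X) (h : ∀ x, psi W X ξ Lam D.slm.internal x y = 0) : y = 0 := by
  refine hW.duality hX y fun z => ?_
  change W.tr X (y * z) = 0
  rw [← psi_star hW hSta hX hξ D, psi_symm hW hSta hX hξ D]
  exact h _

end one

section sum

variable (hW : IsWeilCohomology W 𝒱) (hSta : StaStatement.{w}) {m : ℕ} {X : Fin m → Sch k}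
  {n : Fin m → ℕ} (hX : ∀ a, 𝒱.mem (X a) (n a)) {ξ : ∀ a, W.coh (X a)}
  (hξ : ∀ a, ξ a ∈ W.alg (X a) 1) {Lam : ∀ a, Module.End ℂ (W.coh (X a))}
  (D : ∀ a, LamData W (X a) (n a) (ξ a) (Lam a))

/-- the form `ψ` on the sum of the spaces `H(X_a)` -/
noncomputable def psiV (D : ∀ a, LamData W (X a) (n a) (ξ a) (Lam a)) :
    (∀ a, W.coh (X a)) →ₗ[ℂ] (∀ a, W.coh (X a)) →ₗ[ℂ] ℂ :=
  LinearMap.mk₂ ℂ (fun x y => ∑ a, psi W (X a) (ξ a) (Lam a) (D a).slm.internal (x a) (y a))
    (fun x x' y => by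
      rw [← Finset.sum_add_distrib]
      refine Finset.sum_congr rfl fun a _ => ?_
      rw [psi, psi, psi, Pi.add_apply, add_mul, map_add])
    (fun c x y => by
      rw [Finset.smul_sum]
      refine Finset.sum_congr rfl fun a _ => ?_
      rw [psi, psi, Pi.smul_apply, smul_mul_assoc, map_smul])
    (fun x y y' => by
      rw [← Finset.sum_add_distrib]
      refine Finset.sum_congr rfl fun a _ => ?_
      rw [psi, psi, psi, Pi.add_apply, map_add, mul_add, map_add])
    (fun c x y => by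
      rw [Finset.smul_sum]
      refine Finset.sum_congr rfl fun a _ => ?_
      rw [psi, psi, Pi.smul_apply, map_smul, mul_smul_comm, map_smul])

theorem psiV_apply (x y : ∀ a, W.coh (X a)) :
    psiV D x y = ∑ a, psi W (X a) (ξ a) (Lam a) (D a).slm.internal (x a) (y a) := rfl

theorem psiV_single_left (a : Fin m) (s : W.coh (X a)) (y : ∀ a, W.coh (X a)) :
    psiV D (Pi.single a s) y = psi W (X a) (ξ a) (Lam a) (D a).slm.internal s (y a) := by
  classical
  rw [psiV_apply, Finset.sum_eq_single a]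
  · rw [Pi.single_eq_same]
  · intro b _ hb
    rw [Pi.single_eq_of_ne hb, psi, zero_mul, map_zero]
  · intro h
    exact absurd (Finset.mem_univ a) h

theorem psiV_single_right (a : Fin m) (s : W.coh (X a)) (y : ∀ a, W.coh (X a)) :
    psiV D y (Pi.single a s) = psi W (X a) (ξ a) (Lam a) (D a).slm.internal (y a) s := by
  classical
  rw [psiV_apply, Finset.sum_eq_single a]
  · rw [Pi.single_eq_same]
  · intro b _ hb
    rw [Pi.single_eq_of_ne hb, psi, map_zero, mul_zero, map_zero]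
  · intro h
    exact absurd (Finset.mem_univ a) h

/-- the operator `(-1)^i` -/
noncomputable def epsV (D : ∀ a, LamData W (X a) (n a) (ξ a) (Lam a)) :
    (∀ a, W.coh (X a)) →ₗ[ℂ] (∀ a, W.coh (X a)) :=
  LinearMap.pi fun a => (epsOp W (X a) (D a).slm.internal) ∘ₗ LinearMap.proj a

theorem epsV_apply (x : ∀ a, W.coh (X a)) (a : Fin m) :
    epsV D x a = epsOp W (X a) (D a).slm.internal (x a) := rfl

/-- the block of an operator -/
noncomputable def blk (e : (∀ a, W.coh (X a)) →ₗ[ℂ] (∀ a, W.coh (X a))) (a b : Fin m) :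
    W.coh (X a) →ₗ[ℂ] W.coh (X b) :=
  LinearMap.proj b ∘ₗ e ∘ₗ LinearMap.single ℂ (fun a => W.coh (X a)) a

theorem blk_apply (e : (∀ a, W.coh (X a)) →ₗ[ℂ] (∀ a, W.coh (X a))) (a b : Fin m)
    (s : W.coh (X a)) : blk e a b s = e (Pi.single a s) b := rfl

theorem blk_sum (e : (∀ a, W.coh (X a)) →ₗ[ℂ] (∀ a, W.coh (X a))) (b : Fin m)
    (x : ∀ a, W.coh (X a)) : e x b = ∑ a, blk e a b (x a) := by
  classical
  conv_lhs => rw [← Finset.univ_sum_single x]
  rw [map_sum, Finset.sum_apply]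
  rfl

theorem blk_add (e f : (∀ a, W.coh (X a)) →ₗ[ℂ] (∀ a, W.coh (X a))) (a b : Fin m) :
    blk (e + f) a b = blk e a b + blk f a b := rfl

theorem blk_neg (e : (∀ a, W.coh (X a)) →ₗ[ℂ] (∀ a, W.coh (X a))) (a b : Fin m) :
    blk (-e) a b = -blk e a b := rfl

theorem blk_zero (a b : Fin m) :
    blk (0 : (∀ a, W.coh (X a)) →ₗ[ℂ] (∀ a, W.coh (X a))) a b = 0 := rfl

theorem blk_smul (c : ℂ) (e : (∀ a, W.coh (X a)) →ₗ[ℂ] (∀ a, W.coh (X a))) (a b : Fin m) :
    blk (c • e) a b = c • blk e a b := rfl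

theorem blk_comp (e f : (∀ a, W.coh (X a)) →ₗ[ℂ] (∀ a, W.coh (X a))) (a c : Fin m) :
    blk (e ∘ₗ f) a c = ∑ b, blk e b c ∘ₗ blk f a b := by
  refine LinearMap.ext fun s => ?_
  rw [blk_apply, LinearMap.comp_apply, blk_sum, LinearMap.sum_apply]
  rfl

theorem blk_eq_zero {e : (∀ a, W.coh (X a)) →ₗ[ℂ] (∀ a, W.coh (X a))}
    (h : ∀ a b, blk e a b = 0) : e = 0 := by
  refine LinearMap.ext fun x => funext fun b => ?_
  rw [blk_sum]
  refine Finset.sum_eq_zero fun a _ => ?_
  rw [h, LinearMap.zero_apply]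

theorem blk_id (a b : Fin m) (s : W.coh (X a)) :
    blk (LinearMap.id : (∀ a, W.coh (X a)) →ₗ[ℂ] (∀ a, W.coh (X a))) a b s
      = Pi.single (M := fun a => W.coh (X a)) a s b := rfl

include hW hX in
theorem trace_blk (e : (∀ a, W.coh (X a)) →ₗ[ℂ] (∀ a, W.coh (X a))) :
    LinearMap.trace ℂ (∀ a, W.coh (X a)) e
      = ∑ a, LinearMap.trace ℂ (W.coh (X a)) (blk e a a) := by
  classical
  have := fun a => hW.finite (hX a)
  have h1 : e = ∑ a, (LinearMap.single ℂ (fun a => W.coh (X a)) a) ∘ₗ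
      (LinearMap.proj a ∘ₗ e) := by
    refine LinearMap.ext fun x => ?_
    rw [LinearMap.sum_apply]
    exact (Finset.univ_sum_single (e x)).symm
  conv_lhs => rw [h1]
  rw [map_sum]
  refine Finset.sum_congr rfl fun a _ => ?_
  rw [LinearMap.trace_comp_comm']
  rfl

/-- the block operators all of whose blocks are algebraic -/
def EV (W : CohomologyData.{u, 0, w} k ℂ) (X : Fin m → Sch k) :
    AddSubgroup ((∀ a, W.coh (X a)) →ₗ[ℂ] (∀ a, W.coh (X a))) where
  carrier := {e | ∀ a b, AlgCor W (X a) (X b) (blk e a b)}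
  add_mem' := fun he hf a b => (he a b).add (hf a b)
  zero_mem' := fun _ _ => AlgCor.zero
  neg_mem' := fun he a b => (he a b).neg

theorem mem_EV {e : (∀ a, W.coh (X a)) →ₗ[ℂ] (∀ a, W.coh (X a))} :
    e ∈ EV W X ↔ ∀ a b, AlgCor W (X a) (X b) (blk e a b) := Iff.rfl

include hW hX in
/-- a diagonal operator -/
theorem diag_mem {e : (∀ a, W.coh (X a)) →ₗ[ℂ] (∀ a, W.coh (X a))}
    (u : ∀ a, Module.End ℂ (W.coh (X a))) (hu : ∀ a, AlgOp W (X a) (u a))
    (he : ∀ x a, e x a = u a (x a)) : e ∈ EV W X := by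
  intro a b
  by_cases hab : a = b
  · subst hab
    have : blk e a a = u a := by
      refine LinearMap.ext fun s => ?_
      rw [blk_apply, he, Pi.single_eq_same]
    rw [this]
    exact hu a
  · have : blk e a b = 0 := by
      refine LinearMap.ext fun s => ?_
      rw [blk_apply, he, Pi.single_eq_of_ne (Ne.symm hab), map_zero, LinearMap.zero_apply]
    rw [this]
    exact AlgCor.zero

/-- the operator with a single block -/
noncomputable def inj (a b : Fin m) (u : W.coh (X a) →ₗ[ℂ] W.coh (X b)) :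
    (∀ a, W.coh (X a)) →ₗ[ℂ] (∀ a, W.coh (X a)) :=
  LinearMap.single ℂ (fun a => W.coh (X a)) b ∘ₗ u ∘ₗ LinearMap.proj a

theorem inj_apply (a b : Fin m) (u : W.coh (X a) →ₗ[ℂ] W.coh (X b)) (x : ∀ a, W.coh (X a)) :
    inj a b u x = Pi.single (M := fun a => W.coh (X a)) b (u (x a)) := rfl

theorem inj_mem {a b : Fin m} {u : W.coh (X a) →ₗ[ℂ] W.coh (X b)}
    (hu : AlgCor W (X a) (X b) u) : inj a b u ∈ EV W X := by
  intro a' b'
  by_cases ha : a' = a
  · subst ha
    by_cases hb : b' = b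
    · subst hb
      have : blk (inj a' b' u) a' b' = u := by
        refine LinearMap.ext fun s => ?_
        rw [blk_apply, inj_apply, Pi.single_eq_same, Pi.single_eq_same]
      rwa [this]
    · have : blk (inj a' b u) a' b' = 0 := by
        refine LinearMap.ext fun s => ?_
        rw [blk_apply, inj_apply, Pi.single_eq_of_ne hb, LinearMap.zero_apply]
      rw [this]
      exact AlgCor.zero
  · have : blk (inj a b u) a' b' = 0 := by
      refine LinearMap.ext fun s => ?_
      rw [blk_apply, inj_apply, Pi.single_eq_of_ne (Ne.symm ha), map_zero, Pi.single_zero,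
        LinearMap.zero_apply]
      rfl
    rw [this]
    exact AlgCor.zero

end sum

end BLK

end Pool.Agent.Lib.MP_361a6f_ag.PP
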