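import Pool.Agent.Lib.MP_361a6f_ag.PP.Defs
import Pool.Agent.Lib.MP_361a6f_ag.SQ.OpTrace

/-!
# Row TRC: the trace of the composition of an algebraic operator with its adjoint
-/

open CategoryTheory AlgebraicGeometry MonoidalCategory CartesianMonoidalCategory

universe u v w

set_option linter.unusedSectionVars false

namespace Pool.Agent.Lib.MP_361a6f_ag.PP

open Pool.Agent.Lib.MP_361a6f_ag.H3 Pool.Agent.Lib.MP_361a6f_ag.SQ
  Pool.Agent.Lib.MP_361a6f_ag.IP2

namespace TRC

variable {k : Type u} [Field k] {W : CohomologyData.{u, 0, w} k ℂ} {𝒱 : VarietyClass k}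

/-- the trace form -/
noncomputable def trf (W : CohomologyData.{u, 0, w} k ℂ) (X : Sch k) :
    W.coh X →ₗ[ℂ] W.coh X →ₗ[ℂ] ℂ :=
  LinearMap.mk₂ ℂ (fun x y => W.tr X (x * y))
    (fun x x' y => by rw [add_mul, map_add])
    (fun c x y => by rw [smul_mul_assoc, map_smul])
    (fun x y y' => by rw [mul_add, map_add])
    (fun c x y => by rw [mul_smul_comm, map_smul])

theorem trf_apply (X : Sch k) (x y : W.coh X) : trf W X x y = W.tr X (x * y) := rfl

/-- the star operator is self-adjoint for the trace form -/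
theorem star_adj (hsta : StaStatement.{w}) (hW : IsWeilCohomology W 𝒱) {X : Sch k} {n : ℕ}
    (hX : 𝒱.mem X n) {ξ : W.coh X} (hξ : ξ ∈ W.alg X 1) {Lam : Module.End ℂ (W.coh X)}
    (D : LamData W X n ξ Lam) (x y : W.coh X) :
    W.tr X (star D.slm.internal (Lop W X ξ) Lam x * y)
      = W.tr X (x * star D.slm.internal (Lop W X ξ) Lam y) := by
  obtain ⟨-, -, -, -, -, -, h⟩ := hsta D.slm
  refine h (trf W X) ?_ ?_ ?_ x y
  · intro x y
    rw [trf_apply, trf_apply, Lop, LinearMap.mulLeft_apply, LinearMap.mulLeft_apply,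
      hW.alg_comm hX hξ x, mul_assoc]
  · intro x y
    rw [trf_apply, trf_apply, D.adj]
  · intro i i' x y hx hy hii
    rw [trf_apply]
    exact hW.tr_gr hX (hW.mul_gr hX hx hy) hii

/-- nondegeneracy on the right -/
theorem eq_of_tr_left (hW : IsWeilCohomology W 𝒱) {X : Sch k} {n : ℕ} (hX : 𝒱.mem X n)
    {y y' : W.coh X} (h : ∀ s, W.tr X (s * y) = W.tr X (s * y')) : y = y' := by
  rw [← sub_eq_zero]
  refine hW.duality hX _ (fun z => ?_)
  refine hW.hom_induction hX (P := fun z => W.tr X ((y - y') * z) = 0) z ?_ ?_ ?_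
  · intro i z hz
    have h1 : W.tr X (z * (y - y')) = 0 := by rw [mul_sub, map_sub, h z, sub_self]
    have h2 := tr_comm_gr hW hX hz (y - y')
    rw [h1] at h2
    rcases mul_eq_zero.1 h2.symm with h0 | h0
    · exact absurd h0 (pow_ne_zero _ (neg_ne_zero.2 one_ne_zero))
    · exact h0
  · rw [mul_zero, map_zero]
  · intro a b ha hb
    rw [mul_add, map_add, ha, hb, add_zero]

/-- every class on a product is a sum of exterior products -/
theorem exists_sum (hW : IsWeilCohomology W 𝒱) {X Y : Sch k} {n d : ℕ} (hX : 𝒱.mem X n)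
    (hY : 𝒱.mem Y d) (γ : W.coh (X ⊗ Y)) :
    ∃ (m : ℕ) (a : Fin m → W.coh X) (b : Fin m → W.coh Y),
      γ = ∑ j, W.pull (fst X Y) (a j) * W.pull (snd X Y) (b j) := by
  obtain ⟨m, b, b', hb⟩ := exists_dual hW hY
  refine ⟨m, fun j => W.push (fst X Y) (γ * W.pull (snd X Y) (b' j)), b, ?_⟩
  have key : (LinearMap.id : W.coh (X ⊗ Y) →ₗ[ℂ] W.coh (X ⊗ Y))
      = ∑ j, (LinearMap.mulRight ℂ (W.pull (snd X Y) (b j))).comp
        ((W.pull (fst X Y)).toLinearMap.comp ((W.push (fst X Y)).comp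
          (LinearMap.mulRight ℂ (W.pull (snd X Y) (b' j))))) := by
    refine lin_ext hW hX hY _ _ (fun x y => ?_)
    have e : ∀ j, ((LinearMap.mulRight ℂ (W.pull (snd X Y) (b j))).comp
        ((W.pull (fst X Y)).toLinearMap.comp ((W.push (fst X Y)).comp
          (LinearMap.mulRight ℂ (W.pull (snd X Y) (b' j))))))
          (W.pull (fst X Y) x * W.pull (snd X Y) y)
        = W.pull (fst X Y) x * W.pull (snd X Y) (W.tr Y (y * b' j) • b j) := by
      intro j
      rw [LinearMap.comp_apply, LinearMap.comp_apply, LinearMap.comp_apply,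
        LinearMap.mulRight_apply, LinearMap.mulRight_apply, mul_assoc, ← map_mul,
        hW.push_fst hX hY, AlgHom.toLinearMap_apply, map_smul (W.pull (fst X Y)),
        map_smul (W.pull (snd X Y)), smul_mul_assoc, mul_smul_comm]
    rw [LinearMap.sum_apply, Finset.sum_congr rfl (fun j _ => e j), ← Finset.mul_sum, ← map_sum,
      ← hb y, LinearMap.id_apply]
  have h := LinearMap.congr_fun key γ
  rw [LinearMap.id_apply, LinearMap.sum_apply] at h
  exact h

/-- the trace of an operator of finite rank given by the trace form -/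
theorem trace_sum (hW : IsWeilCohomology W 𝒱) {X : Sch k} {n : ℕ} (hX : 𝒱.mem X n) {m : ℕ}
    (c v : Fin m → W.coh X) (u : W.coh X →ₗ[ℂ] W.coh X)
    (hu : ∀ s, u s = ∑ j, W.tr X (s * c j) • v j) :
    LinearMap.trace ℂ (W.coh X) u = ∑ j, W.tr X (v j * c j) := by
  have := hW.finite hX
  have e2 : u = ∑ j, ((W.tr X) ∘ₗ (LinearMap.mulRight ℂ (c j))).smulRight (v j) := by
    refine LinearMap.ext fun s => ?_
    rw [hu s, LinearMap.sum_apply]
    rfl
  rw [e2, map_sum]
  refine Finset.sum_congr rfl fun j _ => ?_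
  rw [LinearMap.trace_smulRight]
  rfl

end TRC

open TRC in
/-- Row TRC. -/
theorem trc (hsta : StaStatement.{w}) (hstp : StpStatement.{u, w}) : TrcStatement.{u, w} := by
  intro k _ W 𝒱 hW X Y n d hX hY ξ l hξ hl LamX LamY DX DY D e e' γ hγ he hadj
  have := hW.finite hX
  obtain ⟨-, hss, -⟩ := hsta DX.slm
  obtain ⟨m, a, b, hab⟩ := exists_sum hW hX hY γ
  have he2 : ∀ s, e s = ∑ i, W.tr X (s * a i) • b i := by
    intro s
    rw [he s, hab, Finset.mul_sum, map_sum]
    refine Finset.sum_congr rfl fun i _ => ?_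
    rw [← mul_assoc, ← map_mul, push_snd_ext hW hX hY]
  have hpsiY : ∀ (N : ℕ) (c : Fin N → ℂ) (y : Fin N → W.coh Y) (t : W.coh Y),
      psi W Y l LamY DY.slm.internal (∑ i, c i • y i) t
        = ∑ i, c i * psi W Y l LamY DY.slm.internal (y i) t := by
    intro N c y t
    rw [psi, Finset.sum_mul, map_sum]
    refine Finset.sum_congr rfl fun i _ => ?_
    rw [smul_mul_assoc, map_smul, smul_eq_mul, psi]
  have hpsiY' : ∀ (N : ℕ) (c : Fin N → ℂ) (y : Fin N → W.coh Y) (t : W.coh Y),
      psi W Y l LamY DY.slm.internal t (∑ i, c i • y i)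
        = ∑ i, c i * psi W Y l LamY DY.slm.internal t (y i) := by
    intro N c y t
    rw [psi, map_sum, Finset.mul_sum, map_sum]
    refine Finset.sum_congr rfl fun i _ => ?_
    rw [map_smul, mul_smul_comm, map_smul, smul_eq_mul, psi]
  have he' : ∀ t, e' t = ∑ i, psi W Y l LamY DY.slm.internal (b i) t •
      star DX.slm.internal (Lop W X ξ) LamX (a i) := by
    intro t
    have h1 : star DX.slm.internal (Lop W X ξ) LamX (e' t)
        = ∑ i, psi W Y l LamY DY.slm.internal (b i) t • a i := by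
      refine eq_of_tr_left hW hX (fun s => ?_)
      have h2 := hadj s t
      rw [he2 s, hpsiY] at h2
      rw [show W.tr X (s * star DX.slm.internal (Lop W X ξ) LamX (e' t))
        = psi W X ξ LamX DX.slm.internal s (e' t) from rfl, ← h2, Finset.mul_sum, map_sum]
      refine Finset.sum_congr rfl fun i _ => ?_
      rw [mul_smul_comm, map_smul, smul_eq_mul, mul_comm]
    rw [← hss (e' t), h1, map_sum]
    refine Finset.sum_congr rfl fun i _ => ?_
    rw [map_smul]
  have hcomp : ∀ s, (e' ∘ₗ e) s = ∑ i, W.tr X (s * ∑ j, psi W Y l LamY DY.slm.internal (b i) (b j)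
      • a j) • star DX.slm.internal (Lop W X ξ) LamX (a i) := by
    intro s
    rw [LinearMap.comp_apply, he' (e s)]
    refine Finset.sum_congr rfl fun i _ => ?_
    congr 1
    rw [he2 s, hpsiY', Finset.mul_sum, map_sum]
    refine Finset.sum_congr rfl fun j _ => ?_
    rw [mul_smul_comm, map_smul, smul_eq_mul, mul_comm]
  rw [trace_sum hW hX _ _ _ hcomp]
  have hpsi : ∀ z z' : W.coh (X ⊗ Y), psi W (X ⊗ Y) (sumPol W ξ l) (lamProd hW hX hY LamX LamY)
      D.slm.internal z z' = trf W (X ⊗ Y) z (star D.slm.internal (Lop W (X ⊗ Y) (sumPol W ξ l))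
        (lamProd hW hX hY LamX LamY) z') := fun z z' => rfl
  have hst := (hstp hW hX hY (hW.alg_gr hX hξ) (hW.alg_gr hY hl) DX.slm DY.slm D.slm).2
  have hR : psi W (X ⊗ Y) (sumPol W ξ l) (lamProd hW hX hY LamX LamY) D.slm.internal γ γ
      = ∑ i, ∑ j, psi W X ξ LamX DX.slm.internal (a i) (a j)
        * psi W Y l LamY DY.slm.internal (b i) (b j) := by
    rw [hpsi]
    conv_lhs => rw [hab]
    rw [map_sum, LinearMap.sum_apply]
    refine Finset.sum_congr rfl fun i _ => ?_
    rw [map_sum, map_sum]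
    refine Finset.sum_congr rfl fun j _ => ?_
    rw [← hpsi, hst]
  rw [hR]
  refine Finset.sum_congr rfl fun i _ => ?_
  rw [Finset.mul_sum, map_sum]
  refine Finset.sum_congr rfl fun j _ => ?_
  rw [mul_smul_comm, map_smul, smul_eq_mul, star_adj hsta hW hX hξ DX (a i) (a j), mul_comm]
  rfl

end Pool.Agent.Lib.MP_361a6f_ag.PP
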