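import Pool.Agent.Lib.MP_361a6f_ag.PP.Ops

/-!
# The star operator is algebraic
-/

open CategoryTheory AlgebraicGeometry MonoidalCategory CartesianMonoidalCategory

universe u v w

set_option linter.unusedSectionVars false

namespace Pool.Agent.Lib.MP_361a6f_ag.PP

open Pool.Agent.Lib.MP_361a6f_ag.H3 Pool.Agent.Lib.MP_361a6f_ag.SQ
  Pool.Agent.Lib.MP_361a6f_ag.IP2

variable {k : Type u} [Field k] {W : CohomologyData.{u, 0, w} k ℂ} {𝒱 : VarietyClass k}

section alg

variable (hW : IsWeilCohomology W 𝒱) {X : Sch k} {n : ℕ} (hX : 𝒱.mem X n)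
include hW hX

theorem algOp_closed : LPr.Closed (K := ℂ) (AlgOp W X) :=
  { zero := AlgOp.zero hW hX
    add := fun h h' => AlgOp.add hW hX h h'
    smul := fun q _ h => AlgOp.smul hW hX q h
    comp := fun h h' => AlgOp.comp hW hX h h'
    id := AlgOp.id hW hX }

theorem AlgOp.mul {a b : Module.End ℂ (W.coh X)} (ha : AlgOp W X a) (hb : AlgOp W X b) :
    AlgOp W X (a * b) := AlgOp.comp hW hX ha hb

theorem AlgOp.neg {a : Module.End ℂ (W.coh X)} (ha : AlgOp W X a) : AlgOp W X (-a) :=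
  AlgCor.neg ha

theorem AlgOp.sub {a b : Module.End ℂ (W.coh X)} (ha : AlgOp W X a) (hb : AlgOp W X b) :
    AlgOp W X (a - b) := by
  rw [sub_eq_add_neg]
  exact AlgOp.add hW hX ha (AlgOp.neg hW hX hb)

theorem AlgOp.pow {a : Module.End ℂ (W.coh X)} (ha : AlgOp W X a) (r : ℕ) :
    AlgOp W X (a ^ r) := by
  induction r with
  | zero => rw [pow_zero]; exact AlgOp.id hW hX
  | succ r ih => rw [pow_succ]; exact AlgOp.mul hW hX ih ha

theorem AlgOp.sum {ι : Type*} (S : Finset ι) (u : ι → Module.End ℂ (W.coh X))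
    (h : ∀ i ∈ S, AlgOp W X (u i)) : AlgOp W X (∑ i ∈ S, u i) :=
  AlgCor.sum S u h

theorem AlgOp.ex {a : Module.End ℂ (W.coh X)} (ha : AlgOp W X a) : AlgOp W X (ex a) := by
  refine AlgOp.sum hW hX _ _ fun i _ => ?_
  have := AlgOp.smul hW hX ((i.factorial : ℚ)⁻¹) (AlgOp.pow hW hX ha i)
  push_cast at this
  exact this

theorem AlgOp.wop {L Λ : Module.End ℂ (W.coh X)} (hL : AlgOp W X L) (hΛ : AlgOp W X Λ) :
    AlgOp W X (wop L Λ) :=
  AlgOp.mul hW hX (AlgOp.mul hW hX (AlgOp.ex hW hX hL) (AlgOp.ex hW hX (AlgOp.neg hW hX hΛ)))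
    (AlgOp.ex hW hX hL)

/-- an operator that acts as a rational number on every `H^i(X)` is algebraic, if the degree
operator is -/
theorem AlgOp.gop {D : Module.End ℂ (W.coh X)} (hD : AlgOp W X D)
    (hDi : ∀ i x, x ∈ W.gr X i → D x = (i : ℂ) • x) (h : DirectSum.IsInternal (W.gr X))
    (htop : ∀ i x, x ∈ W.gr X i → 2 * n < i → x = 0) (c : ℕ → ℚ) :
    AlgOp W X (gop h fun i => ((c i : ℚ) : ℂ)) := by
  classical
  choose p hp1 hp2 hp3 using fun i : ℕ => LPr.lagr (algOp_closed hW hX) hD i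
    ((Finset.range (2 * n + 1)).erase i) (Finset.notMem_erase i _)
  have key : PP.gop h (fun i => ((c i : ℚ) : ℂ))
      = ∑ i ∈ Finset.range (2 * n + 1), ((c i : ℚ) : ℂ) • p i := by
    refine LinearMap.ext fun x => ?_
    refine hW.hom_induction hX (P := fun x => PP.gop h (fun i => ((c i : ℚ) : ℂ)) x
      = (∑ i ∈ Finset.range (2 * n + 1), ((c i : ℚ) : ℂ) • p i) x) x ?_ ?_ ?_
    · intro j x hx
      by_cases hj : j ≤ 2 * n
      · rw [gop_apply h _ hx, LinearMap.sum_apply, Finset.sum_eq_single j]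
        · rw [LinearMap.smul_apply, hp2 j x (hDi j x hx)]
        · intro i hi hij
          rw [LinearMap.smul_apply, hp3 i j (Finset.mem_erase.2 ⟨hij.symm, Finset.mem_range.2
            (by omega)⟩) x (hDi j x hx), smul_zero]
        · intro hj'
          exact absurd (Finset.mem_range.2 (by omega)) hj'
      · rw [htop j x hx (by omega), map_zero, map_zero]
    · rw [map_zero, map_zero]
    · intro x y hx hy
      rw [map_add, map_add, hx, hy]
  rw [key]
  exact AlgOp.sum hW hX _ _ fun i _ => AlgOp.smul hW hX (c i) (hp1 i)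

end alg

section lam

variable (hW : IsWeilCohomology W 𝒱) {X : Sch k} {n : ℕ} (hX : 𝒱.mem X n) {ξ : W.coh X}
  (hξ : ξ ∈ W.alg X 1) {Lam : Module.End ℂ (W.coh X)} (D : LamData W X n ξ Lam)
include hW hX hξ D

theorem algOp_Lop : AlgOp W X (Lop W X ξ) := AlgOp.mulLeft hW hX (alg_le_tot hW X 1 hξ)

/-- the degree operator is algebraic -/
theorem algOp_deg : ∃ E : Module.End ℂ (W.coh X), AlgOp W X E ∧
    ∀ i x, x ∈ W.gr X i → E x = (i : ℂ) • x := by
  have hL := algOp_Lop hW hX hξ D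
  refine ⟨(Lop W X ξ * Lam - Lam * Lop W X ξ) + (((n : ℚ)) : ℂ) • LinearMap.id,
    AlgOp.add hW hX (AlgOp.sub hW hX (AlgOp.mul hW hX hL D.alg) (AlgOp.mul hW hX D.alg hL))
      (AlgOp.smul hW hX _ (AlgOp.id hW hX)), fun i x hx => ?_⟩
  have h := D.slm.comm i x hx
  rw [LinearMap.add_apply, LinearMap.sub_apply, Module.End.mul_apply, Module.End.mul_apply, h,
    LinearMap.smul_apply, LinearMap.id_apply, ← add_smul]
  push_cast
  rw [sub_add_cancel]

/-- an operator that acts as a rational number on every `H^i(X)` is algebraic -/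
theorem algOp_gop (c : ℕ → ℚ) : AlgOp W X (gop D.slm.internal fun i => ((c i : ℚ) : ℂ)) := by
  obtain ⟨E, hE, hEi⟩ := algOp_deg hW hX hξ D
  exact AlgOp.gop hW hX hE hEi _ D.slm.top c

theorem algOp_sgn : AlgOp W X (gop D.slm.internal sgn) := by
  have := algOp_gop hW hX hξ D (fun i => (-1) ^ (i * (i + 1) / 2))
  have e : (fun i : ℕ => (((-1) ^ (i * (i + 1) / 2) : ℚ) : ℂ)) = sgn := by
    funext i
    rw [sgn]
    push_cast
    rfl
  rwa [e] at this

/-- the star operator is algebraic -/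
theorem algOp_star : AlgOp W X (star D.slm.internal (Lop W X ξ) Lam) :=
  AlgOp.mul hW hX (AlgOp.wop hW hX (algOp_Lop hW hX hξ D) D.alg) (algOp_sgn hW hX hξ D)

/-- the operator `(-1)^i` on `H^i(X)` is algebraic -/
theorem algOp_eps : AlgOp W X (gop D.slm.internal fun i => (-1 : ℂ) ^ i) := by
  have := algOp_gop hW hX hξ D (fun i => (-1) ^ i)
  have e : (fun i : ℕ => (((-1) ^ i : ℚ) : ℂ)) = fun i => (-1 : ℂ) ^ i := by
    funext i
    push_cast
    rfl
  rwa [e] at this

end lam

section eps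

variable (hW : IsWeilCohomology W 𝒱) {X Y : Sch k} {n d : ℕ} (hX : 𝒱.mem X n) (hY : 𝒱.mem Y d)
include hW

/-- the operator `(-1)^i` on `H^i(X)` -/
noncomputable def epsOp (W : CohomologyData.{u, 0, w} k ℂ) (X : Sch k)
    (h : DirectSum.IsInternal (W.gr X)) : Module.End ℂ (W.coh X) :=
  gop h fun i => (-1 : ℂ) ^ i

include hX in
theorem tr_eps (h : DirectSum.IsInternal (W.gr X)) {j : ℕ} {t : W.coh X} (ht : t ∈ W.gr X j)
    (z : W.coh X) : W.tr X (epsOp W X h z * t) = (-1) ^ j * W.tr X (z * t) := by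
  refine hW.hom_induction hX (P := fun z => W.tr X (epsOp W X h z * t)
    = (-1) ^ j * W.tr X (z * t)) z ?_ ?_ ?_
  · intro i z hz
    rw [epsOp, gop_apply h _ hz, smul_mul_assoc, map_smul, smul_eq_mul]
    by_cases hij : i + j = 2 * n
    · congr 1
      have h1 : (-1 : ℂ) ^ i * (-1) ^ j = 1 := by
        rw [← pow_add, hij, pow_mul]
        norm_num
      rcases neg_one_pow_eq_or ℂ i with h2 | h2 <;> rcases neg_one_pow_eq_or ℂ j with h3 | h3 <;>
        rw [h2, h3] at h1 ⊢
      · norm_num at h1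
      · norm_num at h1
    · rw [hW.tr_gr hX (hW.mul_gr hX hz ht) hij, mul_zero, mul_zero]
  · rw [map_zero, zero_mul, map_zero, mul_zero]
  · intro a b ha hb
    rw [map_add, add_mul, map_add, ha, hb, add_mul, map_add, mul_add]

include hX in
theorem eps_eps (h : DirectSum.IsInternal (W.gr X)) (z : W.coh X) :
    epsOp W X h (epsOp W X h z) = z := by
  refine hW.hom_induction hX (P := fun z => epsOp W X h (epsOp W X h z) = z) z ?_ ?_ ?_
  · intro i z hz
    rw [epsOp, gop_apply h _ hz, map_smul, gop_apply h _ hz, smul_smul, ← mul_pow]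
    norm_num
  · rw [map_zero, map_zero]
  · intro a b ha hb
    rw [map_add, map_add, ha, hb]

include hX hY in
/-- an algebraic operator commutes with the operators `(-1)^i` -/
theorem AlgCor.eps (h : DirectSum.IsInternal (W.gr X)) (h' : DirectSum.IsInternal (W.gr Y))
    {u : W.coh X →ₗ[ℂ] W.coh Y} (hu : AlgCor W X Y u) (s : W.coh X) :
    epsOp W Y h' (u s) = u (epsOp W X h s) := by
  obtain ⟨γ, hγ, rfl⟩ := hu.exists_cor
  refine hW.hom_induction hX (P := fun s => epsOp W Y h' (cor W γ s)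
    = cor W γ (epsOp W X h s)) s ?_ ?_ ?_
  · intro i s hs
    rw [epsOp, epsOp, gop_apply h _ hs, map_smul, ← sub_eq_zero]
    refine hW.duality hY _ (fun t => ?_)
    refine hW.hom_induction hY (P := fun t => W.tr Y ((gop h' (fun i => (-1 : ℂ) ^ i) (cor W γ s)
      - (-1 : ℂ) ^ i • cor W γ s) * t) = 0) t ?_ ?_ ?_
    · intro j t ht
      have h1 := tr_eps hW hY h' ht (cor W γ s)
      rw [epsOp] at h1
      rw [sub_mul, map_sub, h1, smul_mul_assoc, map_smul, smul_eq_mul]
      by_cases hij : 2 ∣ i + j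
      · have h2 : (-1 : ℂ) ^ i * (-1) ^ j = 1 := by
          rw [← pow_add]
          exact (even_iff_two_dvd.2 hij).neg_one_pow
        rcases neg_one_pow_eq_or ℂ i with h3 | h3 <;> rcases neg_one_pow_eq_or ℂ j with h4 | h4 <;>
          rw [h3, h4] at h2 ⊢
        · ring
        · norm_num at h2
        · norm_num at h2
        · ring
      · rw [cor_tr hW hX hY hγ, bilC_parity hW hX hY hγ hs ht hij, mul_zero, mul_zero, sub_zero]
    · rw [mul_zero, map_zero]
    · intro a b ha hb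
      rw [mul_add, map_add, ha, hb, add_zero]
  · simp only [map_zero]
  · intro a b ha hb
    simp only [map_add, ha, hb]

end eps

end Pool.Agent.Lib.MP_361a6f_ag.PP
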