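import Pool.Agent.Lib.MP_361a6f_ag.PP.Defs

/-!
# Row LAM: the dual Lefschetz operator exists
-/

open CategoryTheory AlgebraicGeometry MonoidalCategory CartesianMonoidalCategory

universe u v w

set_option linter.unusedSectionVars false

namespace Pool.Agent.Lib.MP_361a6f_ag.PP

open Pool.Agent.Lib.MP_361a6f_ag.H3 Pool.Agent.Lib.MP_361a6f_ag.SQ
  Pool.Agent.Lib.MP_361a6f_ag.IP2

namespace LAM

section

variable {k : Type u} [Field k] {K : Type v} [Field K] [CharZero K]
  {W : CohomologyData.{u, v, w} k K} {𝒱 : VarietyClass k}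

/-- induction on homogeneous elements by the Lefschetz decomposition -/
theorem gen_ind (hW : IsWeilCohomology W 𝒱) {X : Sch k} {n : ℕ} (hX : 𝒱.mem X n) {ξ : W.coh X}
    (hξ : ξ ∈ W.alg X 1) (hL : HardLefschetz W X n ξ) {m : ℕ} {x : W.coh X}
    (hx : x ∈ W.gr X m) {P : W.coh X → Prop} (h0 : P 0) (hadd : ∀ a b, P a → P b → P (a + b))
    (hgen : ∀ i r y, i ≤ n → r ≤ n - i → i + 2 * r = m → y ∈ PS W X n ξ i → P (ξ ^ r * y)) :
    P x := by
  classical
  obtain ⟨f, hf, hxf⟩ := lef_dec hW hX hξ hL x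
  obtain ⟨π, h1, h2⟩ := Crit.exists_proj hW hX m
  have e : x = ∑ i ∈ Finset.range (n + 1), ∑ r ∈ Finset.range (n - i + 1),
      π (ξ ^ r * f i r) := by
    conv_lhs => rw [← h1 x hx, hxf]
    rw [map_sum]
    refine Finset.sum_congr rfl fun i _ => ?_
    rw [map_sum]
  rw [e]
  refine Finset.sum_induction _ P hadd h0 fun i hi => ?_
  refine Finset.sum_induction _ P hadd h0 fun r hr => ?_
  rw [Finset.mem_range] at hi hr
  have hg : ξ ^ r * f i r ∈ W.gr X (2 * r + i) := hW.mul_gr hX (pow_gr hW hX hξ r) (hf i r).1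
  by_cases hm : i + 2 * r = m
  · rw [h1 _ (by rwa [show m = 2 * r + i by omega])]
    exact hgen i r _ (by omega) (by omega) hm (hf i r)
  · rw [h2 (2 * r + i) (by omega) _ hg]
    exact h0

/-- induction on all elements by the Lefschetz decomposition -/
theorem all_ind (hW : IsWeilCohomology W 𝒱) {X : Sch k} {n : ℕ} (hX : 𝒱.mem X n) {ξ : W.coh X}
    (hξ : ξ ∈ W.alg X 1) (hL : HardLefschetz W X n ξ) (x : W.coh X)
    {P : W.coh X → Prop} (h0 : P 0) (hadd : ∀ a b, P a → P b → P (a + b))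
    (hgen : ∀ i r y, i ≤ n → r ≤ n - i → y ∈ PS W X n ξ i → P (ξ ^ r * y)) : P x := by
  obtain ⟨f, hf, hxf⟩ := lef_dec hW hX hξ hL x
  rw [hxf]
  refine Finset.sum_induction _ P hadd h0 fun i hi => ?_
  refine Finset.sum_induction _ P hadd h0 fun r hr => ?_
  rw [Finset.mem_range] at hi hr
  exact hgen i r _ (by omega) (by omega) (hf i r)

/-- the trace form on two strings -/
theorem tr_str (hW : IsWeilCohomology W 𝒱) {X : Sch k} {n : ℕ} (hX : 𝒱.mem X n) {ξ : W.coh X}
    (hξ : ξ ∈ W.alg X 1) (a b : ℕ) (x y : W.coh X) :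
    W.tr X ((ξ ^ a * x) * (ξ ^ b * y)) = W.tr X (ξ ^ (a + b) * (x * y)) := by
  have h1 := hW.alg_comm hX (hW.pow_alg hX hξ b) x
  rw [mul_assoc, ← mul_assoc x, ← h1, pow_add, mul_assoc, mul_assoc]

/-- an operator with the values of `Λ` on strings -/
structure Str (W : CohomologyData.{u, v, w} k K) (X : Sch k) (n : ℕ) (ξ : W.coh X)
    (Λ : Module.End K (W.coh X)) : Prop where
  str : ∀ i r x, i ≤ n → r ≤ n - i → x ∈ PS W X n ξ i →
    Λ (ξ ^ r * x) = ((r * (n - i - r + 1) : ℕ) : K) • (ξ ^ (r - 1) * x)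

theorem Str.adj (hW : IsWeilCohomology W 𝒱) {X : Sch k} {n : ℕ} (hX : 𝒱.mem X n) {ξ : W.coh X}
    (hξ : ξ ∈ W.alg X 1) (hL : HardLefschetz W X n ξ) {Λ : Module.End K (W.coh X)}
    (hΛ : Str W X n ξ Λ) (x y : W.coh X) : W.tr X (Λ x * y) = W.tr X (x * Λ y) := by
  refine all_ind hW hX hξ hL x (P := fun x => W.tr X (Λ x * y) = W.tr X (x * Λ y)) ?_ ?_ ?_
  · simp
  · intro a b ha hb
    rw [map_add, add_mul, add_mul, map_add, map_add, ha, hb]
  · intro i r u hi hr hu
    refine all_ind hW hX hξ hL y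
      (P := fun y => W.tr X (Λ (ξ ^ r * u) * y) = W.tr X ((ξ ^ r * u) * Λ y)) ?_ ?_ ?_
    · simp
    · intro a b ha hb
      rw [map_add, mul_add, mul_add, map_add, map_add, ha, hb]
    · intro j s t hj hs ht
      rw [hΛ.str i r u hi hr hu, hΛ.str j s t hj hs ht, smul_mul_assoc, mul_smul_comm, map_smul,
        map_smul, tr_str hW hX hξ, tr_str hW hX hξ]
      rcases Nat.eq_zero_or_pos r with hr0 | hr0
      · subst hr0
        rw [zero_mul, Nat.cast_zero, zero_smul]
        rcases Nat.eq_zero_or_pos s with hs0 | hs0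
        · subst hs0
          rw [zero_mul, Nat.cast_zero, zero_smul]
        · rw [prim_orth hW hX hξ hi hj hu ht _ (by omega), smul_zero]
      · rcases Nat.eq_zero_or_pos s with hs0 | hs0
        · subst hs0
          rw [zero_mul, Nat.cast_zero, zero_smul,
            prim_orth hW hX hξ hi hj hu ht _ (by omega), smul_zero]
        · obtain ⟨r', rfl⟩ : ∃ r', r = r' + 1 := ⟨r - 1, by omega⟩
          obtain ⟨s', rfl⟩ : ∃ s', s = s' + 1 := ⟨s - 1, by omega⟩
          rw [Nat.add_sub_cancel, Nat.add_sub_cancel, show r' + (s' + 1) = r' + 1 + s' by omega]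
          by_cases h : i = j ∧ r' + 1 + s' + i = n
          · obtain ⟨rfl, h⟩ := h
            congr 2
            rw [show n - i - (r' + 1) + 1 = s' + 1 by omega,
              show n - i - (s' + 1) + 1 = r' + 1 by omega, mul_comm]
          · rw [prim_orth hW hX hξ hi hj hu ht _ (by omega), smul_zero, smul_zero]

end

section

variable {k : Type u} [Field k] {W : CohomologyData.{u, 0, w} k ℂ} {𝒱 : VarietyClass k}

theorem Str.slm (hW : IsWeilCohomology W 𝒱) {X : Sch k} {n : ℕ} (hX : 𝒱.mem X n) {ξ : W.coh X}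
    (hξ : ξ ∈ W.alg X 1) (hL : HardLefschetz W X n ξ) {Λ : Module.End ℂ (W.coh X)}
    (hΛ : Str W X n ξ Λ) : Slm (W.gr X) n (Lop W X ξ) Λ where
  internal := hW.internal hX
  top i x hx hi := hW.top_gr hX hx hi
  L_gr i x hx := by
    have h := hW.mul_gr hX (hW.alg_gr hX hξ) hx
    rwa [show 2 * 1 + i = i + 2 by omega] at h
  Λ_gr m x hx := by
    refine gen_ind hW hX hξ hL hx (P := fun x => Λ x ∈ W.gr X m) ?_ ?_ ?_
    · rw [map_zero]; exact zero_mem _
    · intro a b ha hb
      rw [map_add]; exact add_mem ha hb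
    · intro i r y hi hr hm hy
      rw [hΛ.str i r y hi hr hy]
      rcases Nat.eq_zero_or_pos r with hr0 | hr0
      · subst hr0
        rw [zero_mul, Nat.cast_zero, zero_smul]; exact zero_mem _
      · refine Submodule.smul_mem _ _ ?_
        have h := hW.mul_gr hX (pow_gr hW hX hξ (r - 1)) hy.1
        rwa [show 2 * (r - 1) + i = m by omega] at h
  Λ_low m x hm hx := by
    refine gen_ind hW hX hξ hL hx (P := fun x => Λ x = 0) ?_ ?_ ?_
    · exact map_zero _
    · intro a b ha hb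
      rw [map_add, ha, hb, add_zero]
    · intro i r y hi hr hm' hy
      rw [hΛ.str i r y hi hr hy, show r = 0 by omega, zero_mul, Nat.cast_zero, zero_smul]
  comm m x hx := by
    refine gen_ind hW hX hξ hL hx
      (P := fun x => Lop W X ξ (Λ x) - Λ (Lop W X ξ x) = ((m : ℂ) - (n : ℂ)) • x) ?_ ?_ ?_
    · rw [map_zero, map_zero, map_zero, sub_zero, smul_zero]
    · intro a b ha hb
      rw [map_add, map_add, map_add, map_add, smul_add, ← ha, ← hb]
      abel
    · intro i r y hi hr hm hy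
      have e1 : Lop W X ξ (Λ (ξ ^ r * y)) = ((r * (n - i - r + 1) : ℕ) : ℂ) • (ξ ^ r * y) := by
        rw [hΛ.str i r y hi hr hy, map_smul, Lop, LinearMap.mulLeft_apply]
        rcases Nat.eq_zero_or_pos r with hr0 | hr0
        · subst hr0
          rw [zero_mul, Nat.cast_zero, zero_smul, zero_smul]
        · rw [← mul_assoc, ← pow_succ', show r - 1 + 1 = r by omega]
      have e2 : Λ (Lop W X ξ (ξ ^ r * y)) = (((r + 1) * (n - i - r) : ℕ) : ℂ) • (ξ ^ r * y) := by
        rw [Lop, LinearMap.mulLeft_apply, ← mul_assoc, ← pow_succ']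
        rcases hr.lt_or_eq with h | h
        · rw [hΛ.str i (r + 1) y hi h hy, Nat.add_sub_cancel,
            show n - i - (r + 1) + 1 = n - i - r by omega]
        · subst h
          rw [hy.2, map_zero, Nat.sub_self, mul_zero, Nat.cast_zero, zero_smul]
      rw [e1, e2, ← sub_smul]
      congr 1
      obtain ⟨c, rfl⟩ : ∃ c, n = i + r + c := ⟨n - i - r, by omega⟩
      rw [show i + r + c - i - r = c by omega, ← hm]
      push_cast
      ring

end

end LAM

/-- Row LAM. -/
theorem lam : LamStatement.{u, w} := by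
  intro k _ W 𝒱 hW X n hX ξ hξ hL hΛ
  obtain ⟨l, hl, h1⟩ := hΛ
  let Λ : Module.End ℂ (W.coh X) :=
    { toFun := fun s => act W l s
      map_add' := fun s s' => by simp only [act]; rw [map_add, add_mul, map_add]
      map_smul' := fun c s => by
        simp only [act, RingHom.id_apply]; rw [map_smul, smul_mul_assoc, map_smul] }
  have hS : LAM.Str W X n ξ Λ := ⟨fun i r x hi hr hx => h1 i r x hi hr hx⟩
  exact ⟨Λ, LAM.Str.slm hW hX hξ hL hS, LAM.Str.adj hW hX hξ hL hS,
    ⟨l, alg_le_tot hW _ _ hl, fun s => rfl⟩⟩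

end Pool.Agent.Lib.MP_361a6f_ag.PP
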