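import Mathlib

/-!
# Graded modules over `sl_2`: definitions
-/

namespace Pool.Agent.Lib.MP_361a6f_ag.PP

universe w

variable {M : Type w} [AddCommGroup M] [Module ℂ M]

/-- `M` is graded in the degrees `0, …, 2 n`, with operators `L`, `Λ` of degree `2`, `-2` and
`[L, Λ] = i - n` in the degree `i`. -/
structure Slm (gr : ℕ → Submodule ℂ M) (n : ℕ) (L Λ : Module.End ℂ M) : Prop where
  internal : DirectSum.IsInternal gr
  top : ∀ i x, x ∈ gr i → 2 * n < i → x = 0
  L_gr : ∀ i x, x ∈ gr i → L x ∈ gr (i + 2)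
  Λ_gr : ∀ i x, x ∈ gr (i + 2) → Λ x ∈ gr i
  Λ_low : ∀ i x, i < 2 → x ∈ gr i → Λ x = 0
  comm : ∀ i x, x ∈ gr i → L (Λ x) - Λ (L x) = ((i : ℂ) - (n : ℂ)) • x

/-- The exponential of a nilpotent operator. -/
noncomputable def ex (a : Module.End ℂ M) : Module.End ℂ M :=
  ∑ i ∈ Finset.range (nilpotencyClass a), ((i.factorial : ℂ)⁻¹) • a ^ i

/-- The operator `exp(L) exp(-Λ) exp(L)`. -/
noncomputable def wop (L Λ : Module.End ℂ M) : Module.End ℂ M := ex L * ex (-Λ) * ex L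

/-- The operator that acts as `c i` in the degree `i`. -/
noncomputable def gop {gr : ℕ → Submodule ℂ M} (h : DirectSum.IsInternal gr) (c : ℕ → ℂ) :
    Module.End ℂ M :=
  (DirectSum.toModule ℂ ℕ M (fun i => c i • (gr i).subtype)) ∘ₗ
    (LinearEquiv.ofBijective (DirectSum.coeLinearMap gr) h).symm.toLinearMap

theorem gop_apply {gr : ℕ → Submodule ℂ M} (h : DirectSum.IsInternal gr) (c : ℕ → ℂ) {i : ℕ}
    {x : M} (hx : x ∈ gr i) : gop h c x = c i • x := by
  have e : (LinearEquiv.ofBijective (DirectSum.coeLinearMap gr) h).symm x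
      = DirectSum.lof ℂ ℕ (fun i => gr i) i ⟨x, hx⟩ := by
    rw [LinearEquiv.symm_apply_eq]
    change x = DirectSum.coeLinearMap gr _
    rw [DirectSum.coeLinearMap_lof]
  rw [gop, LinearMap.comp_apply, LinearEquiv.coe_coe, e, DirectSum.toModule_lof]
  rfl

/-- the sign `(-1)^(i(i+1)/2)` -/
noncomputable def sgn (i : ℕ) : ℂ := (-1) ^ (i * (i + 1) / 2)

/-- The star operator `x ↦ exp(L) exp(-Λ) exp(L) (-1)^(i(i+1)/2) x`, `x` of degree `i`. -/
noncomputable def star {gr : ℕ → Submodule ℂ M} (h : DirectSum.IsInternal gr)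
    (L Λ : Module.End ℂ M) : Module.End ℂ M := wop L Λ * gop h sgn

end Pool.Agent.Lib.MP_361a6f_ag.PP
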