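import Pool.Agent.Lib.MP_361a6f_ag.PP.PSI

/-!
# Row SPN: algebraic classes in the span of fixed algebraic classes are fixed
-/

open CategoryTheory AlgebraicGeometry MonoidalCategory CartesianMonoidalCategory

universe u v w

namespace Pool.Agent.Lib.MP_361a6f_ag.PP

open Pool.Agent.Lib.MP_361a6f_ag.H3 Pool.Agent.Lib.MP_361a6f_ag.SQ
  Pool.Agent.Lib.MP_361a6f_ag.IP2

namespace SPN

variable {k : Type u} [Field k] {W : CohomologyData.{u, 0, w} k ℂ} {𝒱 : VarietyClass k}
  (hW : IsWeilCohomology W 𝒱) {X : Sch k} {n : ℕ} (hX : 𝒱.mem X n)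

include hW hX

/-- the star operator preserves the sums of algebraic classes -/
theorem star_mem {ξ : W.coh X} (hξ : ξ ∈ W.alg X 1) {Lam : Module.End ℂ (W.coh X)}
    (D : LamData W X n ξ Lam) {z : W.coh X} (hz : z ∈ tot W X) :
    star D.slm.internal (Lop W X ξ) Lam z ∈ tot W X := by
  obtain ⟨g, hg, rfl⟩ := PSI.tot_dec hW hX hz
  rw [map_sum]
  exact sum_mem fun j _ =>
    PSI.star_tot hW hX hξ D (alg_le_tot hW X j (hg j)) (hW.alg_gr hX (hg j))

/-- the form `ψ` is rational on algebraic classes -/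
theorem psi_rat {ξ : W.coh X} (hξ : ξ ∈ W.alg X 1) {Lam : Module.End ℂ (W.coh X)}
    (D : LamData W X n ξ Lam) {x z : W.coh X} (hx : x ∈ tot W X) (hz : z ∈ tot W X) :
    ∃ q : ℚ, psi W X ξ Lam D.slm.internal x z = q :=
  tot_tr hW hX (tot_mul hW hX hx (star_mem hW hX hξ D hz))

end SPN

theorem spn : SpnStatement.{u, w} := by
  intro k _ W 𝒱 hW X n hX ξ Lam j hξ D S Z hZ hjZ x hx hxs
  classical
  obtain ⟨N, c, g, hsum⟩ := Submodule.mem_span_set'.1 hxs
  -- linearity of `ψ`
  have hl : ∀ (f : Fin N → ℂ) (z : W.coh X),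
      psi W X ξ Lam D.slm.internal (∑ i, f i • (g i : W.coh X)) z
        = ∑ i, f i * psi W X ξ Lam D.slm.internal (g i : W.coh X) z := by
    intro f z
    simp only [psi, Finset.sum_mul, map_sum, smul_mul_assoc, map_smul, smul_eq_mul]
  have hr : ∀ (f : Fin N → ℂ) (z : W.coh X),
      psi W X ξ Lam D.slm.internal z (∑ i, f i • (g i : W.coh X))
        = ∑ i, f i * psi W X ξ Lam D.slm.internal z (g i : W.coh X) := by
    intro f z
    simp only [psi, Finset.mul_sum, map_sum, mul_smul_comm, map_smul, smul_eq_mul]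
  -- real combinations are fixed
  have hj : ∀ f : Fin N → ℝ, j (∑ i, (f i : ℂ) • (g i : W.coh X))
      = ∑ i, (f i : ℂ) • (g i : W.coh X) := by
    intro f
    rw [map_sum]
    refine Finset.sum_congr rfl fun i _ => ?_
    rw [LinearMap.map_smulₛₗ, Complex.conj_ofReal, hjZ _ (g i).2]
  set y : W.coh X := ∑ i, ((c i).im : ℂ) • (g i : W.coh X) with hy
  have hyz : ∀ z ∈ Z, psi W X ξ Lam D.slm.internal y z = 0 := by
    intro z hz
    obtain ⟨q, hq⟩ := SPN.psi_rat hW hX hξ D hx (hZ z hz)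
    have h1 : ∀ i, ∃ q : ℚ, psi W X ξ Lam D.slm.internal (g i : W.coh X) z = q := fun i =>
      SPN.psi_rat hW hX hξ D (hZ _ (g i).2) (hZ z hz)
    choose r hr' using h1
    rw [← hsum, hl] at hq
    rw [hy, hl]
    have h2 := congrArg Complex.im hq
    have h3 : (∑ i, c i * psi W X ξ Lam D.slm.internal (g i : W.coh X) z).im
        = ∑ i, (c i).im * (r i : ℝ) := by
      rw [Complex.im_sum]
      refine Finset.sum_congr rfl fun i _ => ?_
      rw [hr' i, Complex.mul_im]
      simp
    rw [h3] at h2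
    have h4 : ∑ i, ((c i).im : ℂ) * psi W X ξ Lam D.slm.internal (g i : W.coh X) z
        = ((∑ i, (c i).im * (r i : ℝ) : ℝ) : ℂ) := by
      push_cast
      refine Finset.sum_congr rfl fun i _ => ?_
      rw [hr' i]
    rw [h4, h2]
    simp
  have hy0 : y = 0 := by
    by_contra hne
    obtain ⟨r, hr0, hpos⟩ := S.pos y hne
    rw [hy, hj, ← hy] at hpos
    have h1 : psi W X ξ Lam S.slm.internal y y = 0 := by
      have h2 := hr (fun i => ((c i).im : ℂ)) y
      rw [← hy] at h2
      rw [h2]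
      exact Finset.sum_eq_zero fun i _ => by rw [hyz _ (g i).2, mul_zero]
    rw [h1] at hpos
    exact hr0.ne' (by exact_mod_cast hpos.symm)
  have hx' : x = ∑ i, ((c i).re : ℂ) • (g i : W.coh X) := by
    have h1 : x = ∑ i, ((c i).re : ℂ) • (g i : W.coh X) + Complex.I • y := by
      rw [← hsum, hy, Finset.smul_sum, ← Finset.sum_add_distrib]
      refine Finset.sum_congr rfl fun i _ => ?_
      rw [smul_smul, ← add_smul]
      congr 1
      rw [mul_comm]
      exact (Complex.re_add_im (c i)).symm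
    rw [h1, hy0, smul_zero, add_zero]
  rw [hx', hj]

end Pool.Agent.Lib.MP_361a6f_ag.PP
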