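import Pool.Agent.Lib.MP_361a6f_ag.PP.Defs
import Pool.Agent.Lib.MP_361a6f_ag.H3.GenFinal

/-!
# Extension of the coefficients
-/

open CategoryTheory AlgebraicGeometry MonoidalCategory CartesianMonoidalCategory
open scoped TensorProduct

universe u v w

set_option linter.unusedSectionVars false

namespace Pool.Agent.Lib.MP_361a6f_ag.PP

open Pool.Agent.Lib.MP_361a6f_ag.H3 Pool.Agent.Lib.MP_361a6f_ag.SQ
  Pool.Agent.Lib.MP_361a6f_ag.IP2

namespace BC

section linear

variable {K : Type v} [Field K] [Algebra K ℂ] {V V' : Type w} [AddCommGroup V] [Module K V]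
  [AddCommGroup V'] [Module K V']

/-- the coordinate of a tensor with respect to a linear form on `ℂ` -/
noncomputable def co (φ : ℂ →ₗ[K] K) (V : Type w) [AddCommGroup V] [Module K V] :
    ℂ ⊗[K] V →ₗ[K] V :=
  (TensorProduct.lid K V).toLinearMap ∘ₗ φ.rTensor V

theorem co_tmul (φ : ℂ →ₗ[K] K) (c : ℂ) (x : V) : co φ V (c ⊗ₜ[K] x) = φ c • x := by
  simp [co]

theorem co_baseChange (φ : ℂ →ₗ[K] K) (g : V →ₗ[K] V') (z : ℂ ⊗[K] V) :
    co φ V' (g.baseChange ℂ z) = g (co φ V z) := by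
  induction z using TensorProduct.induction_on with
  | zero => simp
  | tmul c x => rw [LinearMap.baseChange_tmul, co_tmul, co_tmul, map_smul]
  | add x y hx hy => rw [map_add, map_add, hx, hy, map_add, map_add]

theorem co_mem (φ : ℂ →ₗ[K] K) (G : Submodule K V) {z : ℂ ⊗[K] V} (hz : z ∈ G.baseChange ℂ) :
    co φ V z ∈ G := by
  obtain ⟨w, rfl⟩ := hz
  rw [co_baseChange]
  exact (co φ G w).2

/-- every tensor is a sum of coordinates -/
theorem mem_span_co (z : ℂ ⊗[K] V) (S : Submodule ℂ (ℂ ⊗[K] V))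
    (h : ∀ φ : ℂ →ₗ[K] K, (1 : ℂ) ⊗ₜ[K] (co φ V z) ∈ S) : z ∈ S := by
  classical
  let b := Module.Basis.ofVectorSpace K ℂ
  have h1 : z = (TensorProduct.equivFinsuppOfBasisLeft b).symm
      (TensorProduct.equivFinsuppOfBasisLeft b z) := by simp
  rw [h1, TensorProduct.equivFinsuppOfBasisLeft_symm_apply]
  refine Submodule.sum_mem _ ?_
  intro i _
  rw [TensorProduct.equivFinsuppOfBasisLeft_apply]
  have h2 := S.smul_mem (b i) (h (b.coord i))
  rw [TensorProduct.smul_tmul', smul_eq_mul, mul_one] at h2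
  exact h2

end linear

section coh

variable {k : Type u} [Field k] {K : Type v} [Field K] [CharZero K] [Algebra K ℂ]
  {W : CohomologyData.{u, v, w} k K} {𝒱 : VarietyClass k} {X : Sch k} {n : ℕ} {ξ : W.coh X}

theorem inc_mul_eq (ξ : W.coh X) (z : W.ext'.coh X) :
    inc W ξ * z = (LinearMap.mulLeft K ξ).baseChange ℂ z := by
  refine ext_induction (P := fun z => inc W ξ * z = (LinearMap.mulLeft K ξ).baseChange ℂ z)
    z ?_ ?_ ?_
  · intro x
    rw [← inc_mul]
    exact (LinearMap.baseChange_tmul (A := ℂ) (LinearMap.mulLeft K ξ) 1 x).symm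
  · intro a b ha hb
    rw [mul_add, ha, hb]
    exact (map_add ((LinearMap.mulLeft K ξ).baseChange ℂ) a b).symm
  · intro c a ha
    rw [mul_smul_comm, ha]
    exact (map_smul ((LinearMap.mulLeft K ξ).baseChange ℂ) c a).symm

theorem mem_co (z : W.ext'.coh X) (S : Submodule ℂ (W.ext'.coh X))
    (h : ∀ φ : ℂ →ₗ[K] K, inc W (co φ (W.coh X) z) ∈ S) : z ∈ S :=
  mem_span_co (K := K) (V := W.coh X) z S h

/-- homogeneous classes killed by a power of `ξ` come from such classes over `K` -/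
theorem ker_span {i a : ℕ} {z : W.ext'.coh X} (hz : z ∈ W.ext'.gr X i)
    (h : inc W ξ ^ a * z = 0) :
    z ∈ Submodule.span ℂ {y | ∃ x ∈ W.gr X i, ξ ^ a * x = 0 ∧ y = inc W x} := by
  refine mem_co z _ ?_
  intro φ
  refine Submodule.subset_span ⟨co φ (W.coh X) z, co_mem φ _ hz, ?_, rfl⟩
  have h1 : (LinearMap.mulLeft K (ξ ^ a)).baseChange ℂ z = 0 := by
    rw [← inc_mul_eq, inc_pow]; exact h
  have h2 := co_baseChange φ (LinearMap.mulLeft K (ξ ^ a)) z
  have h3 : co φ (W.coh X) ((LinearMap.mulLeft K (ξ ^ a)).baseChange ℂ z) = 0 :=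
    (congrArg (co φ (W.coh X)) h1).trans (map_zero _)
  rw [h3] at h2
  exact h2.symm

theorem hard (h : HardLefschetz W X n ξ) : HardLefschetz W.ext' X n (inc W ξ) := by
  intro i z hi hz h0
  have h1 := ker_span (ξ := ξ) (a := n - i) (z := z) hz h0
  refine Submodule.span_induction (p := fun z _ => z = 0) ?_ ?_ ?_ ?_ h1
  · rintro _ ⟨x, hx, hx', rfl⟩
    rw [h i x hi hx hx', inc_zero]
  · rfl
  · rintro a b _ _ rfl rfl
    exact add_zero _
  · rintro c a _ rfl
    exact smul_zero _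

theorem lam (h : AlgebraicLambda W X n ξ) : AlgebraicLambda W.ext' X n (inc W ξ) := by
  obtain ⟨l, hl, h⟩ := h
  refine ⟨inc W l, inc_alg hl, ?_⟩
  rintro i r z hi hr ⟨hz, h0⟩
  have h1 := ker_span (ξ := ξ) (a := n - i + 1) (z := z) hz h0
  change W.ext'.push (snd X X) (W.ext'.pull (fst X X) (inc W ξ ^ r * z) * inc W l)
    = (((r * (n - i - r + 1) : ℕ) : ℂ)) • (inc W ξ ^ (r - 1) * z)
  have h2' : ∀ x, Primitive W X n ξ i x → W.push (snd X X) (W.pull (fst X X) (ξ ^ r * x) * l)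
      = (((r * (n - i - r + 1) : ℕ) : K)) • (ξ ^ (r - 1) * x) := fun x hx => h i r x hi hr hx
  generalize r * (n - i - r + 1) = N at h2' ⊢
  refine Submodule.span_induction (p := fun z _ =>
    W.ext'.push (snd X X) (W.ext'.pull (fst X X) (inc W ξ ^ r * z) * inc W l)
    = ((N : ℕ) : ℂ) • (inc W ξ ^ (r - 1) * z)) ?_ ?_ ?_ ?_ h1
  · rintro _ ⟨x, hx, hx', rfl⟩
    have h2 := h2' x ⟨hx, hx'⟩
    rw [← inc_pow, ← inc_mul, ext_pull, ← inc_mul, ext_push, h2, inc_smul, map_natCast, inc_mul,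
      inc_pow]
  · rw [mul_zero, mul_zero, map_zero, zero_mul, map_zero, smul_zero]
  · intro a b _ _ ha hb
    rw [mul_add, mul_add, map_add, add_mul, map_add, ha, hb, smul_add]
  · intro c a _ ha
    rw [mul_smul_comm, mul_smul_comm, map_smul, smul_mul_assoc, map_smul, ha, smul_comm]

theorem positive (h : PositiveDivisor W X n ξ) : PositiveDivisor W.ext' X n (inc W ξ) := by
  refine ⟨inc_alg h.1, ?_⟩
  change RatPos (W.ext'.tr X (inc W ξ ^ n))
  rw [← inc_pow, ext_tr, ratPos_ext]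
  exact h.2

theorem hodgeOn {R : Submodule K (W.coh X)} {R' : Submodule ℂ (W.ext'.coh X)}
    (hR : ∀ x ∈ R, inc W x ∈ R') (h : HodgeOn W.ext' X n (inc W ξ) R') : HodgeOn W X n ξ R := by
  intro j hj x hx hxR h1 h2
  have h3 := h j hj (inc W x) (inc_alg hx) (hR x hxR) (by
    change inc W ξ ^ (n - 2 * j + 1) * inc W x = 0
    rw [← inc_pow, ← inc_mul]
    change ξ ^ (n - 2 * j + 1) * x = 0 at h1
    rw [h1, inc_zero]) (fun h0 => h2 (inc_inj (by rw [h0, inc_zero])))
  have h4 : (-1 : ℂ) ^ j * W.ext'.tr X (inc W ξ ^ (n - 2 * j) * (inc W x * inc W x))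
      = algebraMap K ℂ ((-1) ^ j * W.tr X (ξ ^ (n - 2 * j) * (x * x))) := by
    rw [← inc_mul, ← inc_pow, ← inc_mul, ext_tr, RingHom.map_mul, map_pow, map_neg, map_one]
  change RatPos ((-1 : ℂ) ^ j * W.ext'.tr X (inc W ξ ^ (n - 2 * j) * (inc W x * inc W x))) at h3
  rw [h4, ratPos_ext] at h3
  exact h3

theorem pairClass (X : ℕ → Sch k) (r : ℕ) (S : Finset (Fin (r + 1))) (z : W.coh (prodSeq X r))
    (h : PairClass W X r S z) : PairClass W.ext' X r S (inc W z) := by
  induction h with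
  | one => exact PairClass.one
  | single S z i l a hz hi ha ih =>
    have h1 := PairClass.single (W := W.ext') S (inc W z) i l (inc W a) ih hi (inc_alg ha)
    have h2 : W.ext'.cup (inc W z) (W.ext'.pb (prSeq X r i) (inc W a))
        = inc W (W.cup z (W.pb (prSeq X r i) a)) := by
      change inc W z * W.ext'.pull (prSeq X r i) (inc W a) = inc W (z * W.pull (prSeq X r i) a)
      rw [ext_pull, inc_mul]
    rw [h2] at h1
    exact h1
  | pair S z i j l a hz hi hj hij ha ih =>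
    have h1 := PairClass.pair (W := W.ext') S (inc W z) i j l (inc W a) ih hi hj hij (inc_alg ha)
    have h2 : W.ext'.cup (inc W z) (W.ext'.pb (prPair X r i j) (inc W a))
        = inc W (W.cup z (W.pb (prPair X r i j) a)) := by
      change inc W z * W.ext'.pull (prPair X r i j) (inc W a)
        = inc W (z * W.pull (prPair X r i j) a)
      rw [ext_pull, inc_mul]
    rw [h2] at h1
    exact h1

theorem polSeq_inc (X : ℕ → Sch k) (r : ℕ) (ξ : ∀ i, W.coh (X i)) :
    inc W (polSeq W ξ r) = polSeq W.ext' (fun i => inc W (ξ i)) r := by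
  induction r with
  | zero => rfl
  | succ r ih =>
    have e1 : polSeq W.ext' (fun i => inc W (ξ i)) (r + 1)
        = W.ext'.pull (fst (prodSeq X r) (X (r + 1))) (polSeq W.ext' (fun i => inc W (ξ i)) r)
          + W.ext'.pull (snd (prodSeq X r) (X (r + 1))) (inc W (ξ (r + 1))) := rfl
    rw [e1, ← ih, ext_pull, ext_pull]
    exact inc_add _ _

end coh

end BC

theorem bc : BcStatement.{u, v, w} := by
  intro k _ K _ _ _ W 𝒱 hW
  refine ⟨fun hX ξ hξ => ⟨BC.hard, fun _ h => BC.lam h, BC.positive, fun h => hodge_ext.mpr h,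
    fun R R' hR h => BC.hodgeOn hR h⟩, BC.pairClass, BC.polSeq_inc⟩

end Pool.Agent.Lib.MP_361a6f_ag.PP
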