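import Pool.Agent.Lib.MP_361a6f_ag.PP.Defs

/-!
# Row RSC: change of the polarisation by a factor
-/

open CategoryTheory AlgebraicGeometry MonoidalCategory CartesianMonoidalCategory

universe u v w

namespace Pool.Agent.Lib.MP_361a6f_ag.PP

open Pool.Agent.Lib.MP_361a6f_ag.H3 Pool.Agent.Lib.MP_361a6f_ag.SQ
  Pool.Agent.Lib.MP_361a6f_ag.IP2

namespace RSC

/-- the homogeneous components -/
theorem hom_dec {M : Type w} [AddCommGroup M] [Module ℂ M] {gr : ℕ → Submodule ℂ M} {n : ℕ}
    {L Λ : Module.End ℂ M} (S : Slm gr n L Λ) (x : M) :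
    ∃ g : ℕ → M, (∀ i, g i ∈ gr i) ∧ x = ∑ i ∈ Finset.range (2 * n + 1), g i := by
  classical
  have hx : x ∈ ⨆ i, gr i := by
    rw [S.internal.submodule_iSup_eq_top]; exact Submodule.mem_top
  refine Submodule.iSup_induction gr
    (motive := fun x => ∃ g : ℕ → M, (∀ i, g i ∈ gr i) ∧ x = ∑ i ∈ Finset.range (2 * n + 1), g i)
    hx ?_ ?_ ?_
  · intro i y hy
    by_cases hi : i ≤ 2 * n
    · refine ⟨Pi.single i y, fun l => ?_, ?_⟩
      · by_cases hl : l = i
        · subst hl; rw [Pi.single_eq_same]; exact hy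
        · rw [Pi.single_eq_of_ne hl]; exact zero_mem _
      · rw [Finset.sum_eq_single i]
        · rw [Pi.single_eq_same]
        · intro l _ hl
          rw [Pi.single_eq_of_ne hl]
        · intro h
          exact absurd (Finset.mem_range.2 (by omega)) h
    · refine ⟨fun _ => 0, fun _ => zero_mem _, ?_⟩
      rw [S.top i y hy (by omega)]
      simp
  · exact ⟨fun _ => 0, fun _ => zero_mem _, by simp⟩
  · rintro y z ⟨g, hg, rfl⟩ ⟨g', hg', rfl⟩
    exact ⟨fun i => g i + g' i, fun i => add_mem (hg i) (hg' i), by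
      rw [Finset.sum_add_distrib]⟩

variable {k : Type u} [Field k] {W : CohomologyData.{u, 0, w} k ℂ} {𝒱 : VarietyClass k}

theorem Lop_smul {X : Sch k} (ξ : W.coh X) (c : ℂ) : Lop W X (c • ξ) = c • Lop W X ξ := by
  refine LinearMap.ext fun x => ?_
  rw [Lop, Lop, LinearMap.smul_apply, LinearMap.mulLeft_apply, LinearMap.mulLeft_apply,
    smul_mul_assoc]

theorem Lop_pow {X : Sch k} (η : W.coh X) (r : ℕ) (x : W.coh X) :
    ((Lop W X η) ^ r) x = η ^ r * x := by
  induction r with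
  | zero => simp
  | succ r ih =>
    rw [pow_succ', Module.End.mul_apply, ih, Lop, LinearMap.mulLeft_apply, pow_succ', mul_assoc]

end RSC

/-- Row RSC. -/
theorem rsc (hT : StaStatement.{w}) : RscStatement.{u, w} := by
  intro k _ W 𝒱 hW X n hX ξ Lam j c hc R
  classical
  have hc0 : (c : ℂ) ≠ 0 := by exact_mod_cast hc.ne'
  have hsc := (hT R.slm).2.2.2.2.2.1 (c : ℂ) hc0
  have hS' : Slm (W.gr X) n (Lop W X ((c : ℂ) • ξ)) ((c : ℂ)⁻¹ • Lam) := by
    rw [RSC.Lop_smul]; exact hsc.1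
  refine ⟨hS', R.gr, ?_, ?_, R.one, R.tr, ?_⟩
  · intro x
    rw [smul_mul_assoc, LinearMap.map_smulₛₗ, Complex.conj_ofReal, R.map_L, smul_mul_assoc]
  · intro x
    rw [LinearMap.smul_apply, LinearMap.smul_apply, LinearMap.map_smulₛₗ, map_inv₀,
      Complex.conj_ofReal, R.map_Lam]
  · intro x hx
    obtain ⟨g, hg, hsum⟩ := RSC.hom_dec R.slm x
    have hoff : ∀ i l, i ≤ 2 * n → l ≤ 2 * n → i ≠ l →
        W.tr X (g i * star R.slm.internal (Lop W X ξ) Lam (j (g l))) = 0 := by
      intro i l hi hl hil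
      have h1 := (hT R.slm).1 l (j (g l)) hl (R.gr l _ (hg l))
      exact hW.poincare.deg hX (hW.graded.mul hX (hg i) h1) (by omega)
    have hpos : ∀ i, ∃ r : ℝ, 0 ≤ r ∧ (g i ≠ 0 → 0 < r) ∧
        W.tr X (g i * star R.slm.internal (Lop W X ξ) Lam (j (g i))) = (r : ℂ) := by
      intro i
      by_cases h0 : g i = 0
      · exact ⟨0, le_rfl, fun h => absurd h0 h, by rw [h0, zero_mul, map_zero]; simp⟩
      · obtain ⟨r, hr, h1⟩ := R.pos (g i) h0
        exact ⟨r, hr.le, fun _ => hr, h1⟩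
    choose r hr0 hr1 hr2 using hpos
    have hst : ∀ l, l ≤ 2 * n →
        star hS'.internal (Lop W X ((c : ℂ) • ξ)) ((c : ℂ)⁻¹ • Lam) (j (g l))
          = ((c : ℂ) ^ ((n : ℤ) - l)) • star R.slm.internal (Lop W X ξ) Lam (j (g l)) := by
      intro l hl
      have h2 := hsc.2 l (j (g l)) hl (R.gr l _ (hg l))
      simpa only [RSC.Lop_smul] using h2
    refine ⟨∑ i ∈ Finset.range (2 * n + 1), c ^ ((n : ℤ) - i) * r i, ?_, ?_⟩
    · have hne : ∃ i ∈ Finset.range (2 * n + 1), g i ≠ 0 := by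
        by_contra h
        push Not at h
        exact hx (hsum.trans (Finset.sum_eq_zero h))
      obtain ⟨i, hi, hgi⟩ := hne
      refine Finset.sum_pos' (fun l _ => mul_nonneg (zpow_nonneg hc.le _) (hr0 l))
        ⟨i, hi, mul_pos (zpow_pos hc _) (hr1 i hgi)⟩
    · have h1 : psi W X ((c : ℂ) • ξ) ((c : ℂ)⁻¹ • Lam) hS'.internal x (j x)
          = ∑ i ∈ Finset.range (2 * n + 1), ∑ l ∈ Finset.range (2 * n + 1),
            W.tr X (g i * star hS'.internal (Lop W X ((c : ℂ) • ξ)) ((c : ℂ)⁻¹ • Lam)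
              (j (g l))) := by
        rw [psi]
        conv_lhs => rw [hsum]
        simp only [map_sum, Finset.sum_mul, Finset.mul_sum]
        exact Finset.sum_comm
      rw [h1]
      push_cast
      refine Finset.sum_congr rfl fun i hi => ?_
      rw [Finset.mem_range] at hi
      rw [Finset.sum_eq_single i]
      · rw [hst i (by omega), mul_smul_comm, map_smul, hr2 i, smul_eq_mul]
      · intro l hl hli
        rw [Finset.mem_range] at hl
        rw [hst l (by omega), mul_smul_comm, map_smul, hoff i l (by omega) (by omega)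
          (Ne.symm hli), smul_zero]
      · intro h
        exact absurd (Finset.mem_range.2 hi) h

end Pool.Agent.Lib.MP_361a6f_ag.PP
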