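import Pool.Agent.Lib.MP_361a6f_ag.PP.RSC

/-!
# Row RSQ: positivity on the classes fixed by the real structure
-/

open CategoryTheory AlgebraicGeometry MonoidalCategory CartesianMonoidalCategory

universe u v w

namespace Pool.Agent.Lib.MP_361a6f_ag.PP

open Pool.Agent.Lib.MP_361a6f_ag.H3 Pool.Agent.Lib.MP_361a6f_ag.SQ
  Pool.Agent.Lib.MP_361a6f_ag.IP2

/-- Row RSQ. -/
theorem rsq (hS : Sl2Statement.{w}) (hT : StaStatement.{w}) : RsqStatement.{u, w} := by
  intro k _ W 𝒱 hW X n hX ξ Lam j hξ R i x hi hx hprim hx0 hjx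
  have hΛ : Lam x = 0 := by
    refine (hS R.slm).2.2.2.2.2.1 (2 * i) x hi hx ?_
    rw [RSC.Lop_pow]; exact hprim
  have hst := (hT R.slm).2.2.2.2.1 i x hi hx hΛ
  obtain ⟨r, hr, h1⟩ := R.pos x hx0
  rw [hjx, psi, hst, RSC.Lop_pow, mul_smul_comm, map_smul, smul_eq_mul] at h1
  have hcomm : x * (ξ ^ (n - 2 * i) * x) = ξ ^ (n - 2 * i) * (x * x) := by
    have hpow : ∀ m, x * ξ ^ m = ξ ^ m * x := by
      intro m
      induction m with
      | zero => simp
      | succ m ih =>
        have h2 : x * ξ = ξ * x := by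
          have := hW.graded.comm hX hx hξ
          simp only [CohomologyData.cup, CohomologyData.scal] at this
          rw [this, Even.neg_one_pow ⟨2 * i, by ring⟩, one_smul]
        rw [pow_succ, ← mul_assoc, ih, mul_assoc, h2, mul_assoc]
    rw [← mul_assoc, hpow, mul_assoc]
  rw [hcomm] at h1
  have hf : ((n - 2 * i).factorial : ℂ) ≠ 0 := by exact_mod_cast (Nat.factorial_pos _).ne'
  refine ⟨(n - 2 * i).factorial * r, mul_pos (by exact_mod_cast Nat.factorial_pos _) hr, ?_⟩
  push_cast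
  rw [← h1]
  field_simp

end Pool.Agent.Lib.MP_361a6f_ag.PP
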