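import Pool.Agent.Lib.MP_361a6f_ag.PP.DefsG
import Pool.Agent.Lib.MP_361a6f_ag.H3.RealStr

/-!
# Row MTC: matched words come from pairs
-/

open CategoryTheory AlgebraicGeometry MonoidalCategory CartesianMonoidalCategory

universe u v w

set_option autoImplicit false
set_option linter.unusedSectionVars false

namespace Pool.Agent.Lib.MP_361a6f_ag.PP

open Pool.Agent.Lib.MP_361a6f_ag.H3 Pool.Agent.Lib.MP_361a6f_ag.SQ
  Pool.Agent.Lib.MP_361a6f_ag.IP2

namespace MTC

variable {k : Type u} [Field k] {W : CohomologyData.{u, 0, w} k ℂ} {𝒱 : VarietyClass k}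
variable {X : ℕ → Sch k} {n : ℕ → ℕ}

theorem mem_prodSeq (hX : ∀ i, 𝒱.mem (X i) (n i)) (r : ℕ) : ∃ e, 𝒱.mem (prodSeq X r) e := by
  induction r with
  | zero => exact ⟨_, hX 0⟩
  | succ r ih =>
    obtain ⟨e, he⟩ := ih
    exact ⟨_, 𝒱.prod he (hX (r + 1))⟩

/-- the product of the pull-backs along the projections with index in the list -/
noncomputable def prodL (W : CohomologyData.{u, 0, w} k ℂ) (X : ℕ → Sch k) (r : ℕ)
    (y : ∀ i, W.coh (X i)) (l : List (Fin (r + 1))) : W.coh (prodSeq X r) :=
  (l.map fun i => W.pull (prSeq X r i) (y (i : ℕ))).prod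

theorem prSeq_castSucc (r : ℕ) (i : Fin (r + 1)) : prSeq X (r + 1) i.castSucc
    = fst (prodSeq X r) (X (r + 1)) ≫ prSeq X r i := by
  simp only [prSeq, Fin.lastCases_castSucc]
  rfl

theorem prSeq_last (r : ℕ) : prSeq X (r + 1) (Fin.last (r + 1))
    = snd (prodSeq X r) (X (r + 1)) := by
  simp only [prSeq, Fin.lastCases_last]

theorem pull_castSucc (r : ℕ) (i : Fin (r + 1)) (y : ∀ i, W.coh (X i)) :
    W.pull (prSeq X (r + 1) i.castSucc) (y ((i.castSucc : Fin (r + 2)) : ℕ))
      = W.pull (fst (prodSeq X r) (X (r + 1))) (W.pull (prSeq X r i) (y (i : ℕ))) := by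
  rw [prSeq_castSucc]
  exact W.pull_comp _ _ _

theorem pull_last (r : ℕ) (y : ∀ i, W.coh (X i)) :
    W.pull (prSeq X (r + 1) (Fin.last (r + 1))) (y ((Fin.last (r + 1) : Fin (r + 2)) : ℕ))
      = W.pull (snd (prodSeq X r) (X (r + 1))) (y (r + 1)) := by
  rw [prSeq_last]
  rfl

theorem word_eq (r : ℕ) (y : ∀ i, W.coh (X i)) :
    word W X y r = prodL W X r y (List.finRange (r + 1)) := by
  induction r with
  | zero =>
    have h1 : List.finRange (0 + 1) = [(0 : Fin 1)] := rfl
    rw [h1]
    show y 0 = ([(0 : Fin 1)].map fun i => W.pull (prSeq X 0 i) (y (i : ℕ))).prod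
    rw [List.map_cons, List.map_nil, List.prod_cons, List.prod_nil, mul_one]
    have h2 : prSeq X 0 0 = 𝟙 (X 0) := rfl
    rw [h2]
    exact (W.pull_id _).symm
  | succ r ih =>
    have h1 : word W X y (r + 1) = W.pull (fst (prodSeq X r) (X (r + 1))) (word W X y r)
      * W.pull (snd (prodSeq X r) (X (r + 1))) (y (r + 1)) := rfl
    have h2 : prodL W X (r + 1) y (List.finRange (r + 1 + 1))
        = ((List.finRange (r + 1)).map fun i => W.pull (prSeq X (r + 1) i.castSucc)
            (y ((i.castSucc : Fin (r + 2)) : ℕ))).prod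
          * W.pull (prSeq X (r + 1) (Fin.last (r + 1)))
            (y ((Fin.last (r + 1) : Fin (r + 2)) : ℕ)) := by
      have e : List.finRange (r + 1 + 1)
          = (List.finRange (r + 1)).map Fin.castSucc ++ [Fin.last (r + 1)] :=
        List.finRange_succ_last
      rw [prodL, e, List.map_append, List.prod_append, List.map_cons, List.map_nil,
        List.prod_cons, List.prod_nil, mul_one, List.map_map]
      rfl
    have h3 : W.pull (fst (prodSeq X r) (X (r + 1))) (prodL W X r y (List.finRange (r + 1)))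
        = ((List.finRange (r + 1)).map fun i => W.pull (prSeq X (r + 1) i.castSucc)
            (y ((i.castSucc : Fin (r + 2)) : ℕ))).prod := by
      rw [prodL]
      refine (map_list_prod _ _).trans ?_
      rw [List.map_map]
      refine congrArg List.prod (List.map_congr_left fun i _ => ?_)
      exact (pull_castSucc r i y).symm
    rw [h2, pull_last, ← h3, h1, ih]
    rfl

variable (hW : IsWeilCohomology W 𝒱) (hX : ∀ i, 𝒱.mem (X i) (n i))
include hW hX

/-- reordering a product changes it by a nonzero scalar -/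
theorem perm_prodL {r : ℕ} {y : ∀ i, W.coh (X i)} {d : ℕ → ℕ}
    (hy : ∀ i ≤ r, y i ∈ W.gr (X i) (d i)) {l l' : List (Fin (r + 1))} (h : l.Perm l') :
    ∃ c : ℂ, prodL W X r y l = c • prodL W X r y l' := by
  obtain ⟨e, he⟩ := mem_prodSeq hX r
  induction h with
  | nil => exact ⟨1, by rw [one_smul]⟩
  | @cons i l l' _ ih =>
    obtain ⟨c, hc⟩ := ih
    refine ⟨c, ?_⟩
    have h1 : ∀ l : List (Fin (r + 1)), prodL W X r y (i :: l)
        = W.pull (prSeq X r i) (y (i : ℕ)) * prodL W X r y l := fun l => rfl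
    rw [h1, h1, hc, mul_smul_comm]
  | @swap i j l =>
    refine ⟨(-1 : ℂ) ^ (d j * d i), ?_⟩
    have h1 : ∀ i j (l : List (Fin (r + 1))), prodL W X r y (i :: j :: l)
        = W.pull (prSeq X r i) (y (i : ℕ)) * (W.pull (prSeq X r j) (y (j : ℕ))
          * prodL W X r y l) := fun i j l => rfl
    have h2 := hW.comm_gr he (hW.pull_gr he (hX _) (prSeq X r j) (hy j (by omega)))
      (hW.pull_gr he (hX _) (prSeq X r i) (hy i (by omega)))
    rw [h1, h1, ← mul_assoc, h2, smul_mul_assoc, mul_assoc]
  | trans _ _ ih1 ih2 =>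
    obtain ⟨c, hc⟩ := ih1
    obtain ⟨c', hc'⟩ := ih2
    exact ⟨c * c', by rw [hc, hc', smul_smul]⟩

/-- the span of the pair classes with index set `T` -/
noncomputable def spT (W : CohomologyData.{u, 0, w} k ℂ) (X : ℕ → Sch k) (r : ℕ)
    (T : Finset (Fin (r + 1))) : Submodule ℂ (W.coh (prodSeq X r)) :=
  Submodule.span ℂ {z | PairClass W X r T z}

omit hW hX in
theorem spT_single {r : ℕ} {T : Finset (Fin (r + 1))} {z : W.coh (prodSeq X r)}
    (hz : z ∈ spT W X r T) {i : Fin (r + 1)} (hi : i ∉ T) {a : W.coh (X (i : ℕ))}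
    (ha : a ∈ Submodule.span ℂ {a | ∃ c, a ∈ W.alg (X (i : ℕ)) c}) :
    z * W.pull (prSeq X r i) a ∈ spT W X r (insert i T) := by
  refine Submodule.span_induction (p := fun z _ => z * W.pull (prSeq X r i) a
    ∈ spT W X r (insert i T)) ?_ ?_ ?_ ?_ hz
  · intro z hz
    refine Submodule.span_induction (p := fun a _ => z * W.pull (prSeq X r i) a
      ∈ spT W X r (insert i T)) ?_ ?_ ?_ ?_ ha
    · rintro a ⟨c, hc⟩
      exact Submodule.subset_span (PairClass.single T z i c a hz hi hc)
    · rw [map_zero, mul_zero]; exact zero_mem _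
    · intro a b _ _ ha hb
      rw [map_add, mul_add]; exact add_mem ha hb
    · intro c a _ ha
      rw [map_smul, mul_smul_comm]; exact Submodule.smul_mem _ _ ha
  · rw [zero_mul]; exact zero_mem _
  · intro a b _ _ ha hb
    rw [add_mul]; exact add_mem ha hb
  · intro c a _ ha
    rw [smul_mul_assoc]; exact Submodule.smul_mem _ _ ha

omit hW hX in
theorem spT_pair {r : ℕ} {T : Finset (Fin (r + 1))} {z : W.coh (prodSeq X r)}
    (hz : z ∈ spT W X r T) {i j : Fin (r + 1)} (hi : i ∉ T) (hj : j ∉ T) (hij : i ≠ j)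
    {a : W.coh (X (i : ℕ) ⊗ X (j : ℕ))}
    (ha : a ∈ Submodule.span ℂ {a | ∃ c, a ∈ W.alg (X (i : ℕ) ⊗ X (j : ℕ)) c}) :
    z * W.pull (prPair X r i j) a ∈ spT W X r (insert i (insert j T)) := by
  refine Submodule.span_induction (p := fun z _ => z * W.pull (prPair X r i j) a
    ∈ spT W X r (insert i (insert j T))) ?_ ?_ ?_ ?_ hz
  · intro z hz
    refine Submodule.span_induction (p := fun a _ => z * W.pull (prPair X r i j) a
      ∈ spT W X r (insert i (insert j T))) ?_ ?_ ?_ ?_ ha
    · rintro a ⟨c, hc⟩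
      exact Submodule.subset_span (PairClass.pair T z i j c a hz hi hj hij hc)
    · rw [map_zero, mul_zero]; exact zero_mem _
    · intro a b _ _ ha hb
      rw [map_add, mul_add]; exact add_mem ha hb
    · intro c a _ ha
      rw [map_smul, mul_smul_comm]; exact Submodule.smul_mem _ _ ha
  · rw [zero_mul]; exact zero_mem _
  · intro a b _ _ ha hb
    rw [add_mul]; exact add_mem ha hb
  · intro c a _ ha
    rw [smul_mul_assoc]; exact Submodule.smul_mem _ _ ha

omit hW hX in
/-- the pull-back of an exterior product along `(pr_i, pr_j)` -/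
theorem pull_prPair (r : ℕ) (i j : Fin (r + 1)) (a : W.coh (X (i : ℕ))) (b : W.coh (X (j : ℕ))) :
    W.pull (prPair X r i j) (W.pull (fst (X (i : ℕ)) (X (j : ℕ))) a
      * W.pull (snd (X (i : ℕ)) (X (j : ℕ))) b)
      = W.pull (prSeq X r i) a * W.pull (prSeq X r j) b := by
  have e1 : prPair X r i j ≫ fst (X (i : ℕ)) (X (j : ℕ)) = prSeq X r i := lift_fst _ _
  have e2 : prPair X r i j ≫ snd (X (i : ℕ)) (X (j : ℕ)) = prSeq X r j := lift_snd _ _
  rw [map_mul, ← W.pull_comp, ← W.pull_comp, e1, e2]

omit hW hX in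
/-- a matched set of letters can be ordered so that the product is a combination of pair
classes -/
theorem exists_list {r : ℕ} {y : ∀ i, W.coh (X i)} {S : Finset ℕ}
    (hS : ∀ i ≤ r, i ∉ S → y i ∈ Submodule.span ℂ {z | ∃ c, z ∈ W.alg (X i) c})
    {σ : ℕ → ℕ}
    (hσ : ∀ p ∈ S, σ p ∈ S ∧ σ (σ p) = p ∧ σ p ≠ p ∧ PairOK W (y p) (y (σ p))) :
    ∀ (N : ℕ) (T : Finset (Fin (r + 1))), T.card ≤ N →
      (∀ p ∈ T, (p : ℕ) ∈ S → ∃ p' ∈ T, (p' : ℕ) = σ p) →
      ∃ l : List (Fin (r + 1)), l.Nodup ∧ l.toFinset = T ∧ prodL W X r y l ∈ spT W X r T := by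
  classical
  intro N
  induction N with
  | zero =>
    intro T hT _
    have : T = ∅ := Finset.card_eq_zero.1 (by omega)
    subst this
    exact ⟨[], List.nodup_nil, rfl, Submodule.subset_span PairClass.one⟩
  | succ N ih =>
    intro T hT hcl
    rcases T.eq_empty_or_nonempty with rfl | ⟨i, hi⟩
    · exact ⟨[], List.nodup_nil, rfl, Submodule.subset_span PairClass.one⟩
    by_cases hiS : (i : ℕ) ∈ S
    · obtain ⟨j, hj, hjσ⟩ := hcl i hi hiS
      obtain ⟨h1, h2, h3, h4⟩ := hσ i hiS
      have hij : i ≠ j := by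
        rintro rfl
        exact h3 hjσ.symm
      have hjS : (j : ℕ) ∈ S := by rw [hjσ]; exact h1
      set T' := (T.erase i).erase j with hT'
      have hjT : j ∈ T.erase i := Finset.mem_erase.2 ⟨hij.symm, hj⟩
      have hc1 : (T.erase i).card = T.card - 1 := Finset.card_erase_of_mem hi
      have hc2 : T'.card = (T.erase i).card - 1 := Finset.card_erase_of_mem hjT
      have hpos : 0 < T.card := Finset.card_pos.2 ⟨i, hi⟩
      obtain ⟨l, hl1, hl2, hl3⟩ := ih T' (by omega) (by
        intro p hp hpS
        have hp' := Finset.mem_erase.1 hp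
        have hp'' := Finset.mem_erase.1 hp'.2
        obtain ⟨p', hp1, hp2⟩ := hcl p hp''.2 hpS
        refine ⟨p', ?_, hp2⟩
        obtain ⟨-, g2, -, -⟩ := hσ p hpS
        refine Finset.mem_erase.2 ⟨?_, Finset.mem_erase.2 ⟨?_, hp1⟩⟩
        · rintro rfl
          -- `σ p = j = σ i`
          apply hp''.1
          apply Fin.ext
          rw [← g2, ← hp2, hjσ, h2]
        · rintro rfl
          -- `σ p = i`
          apply hp'.1
          apply Fin.ext
          rw [← g2, ← hp2, hjσ])
      have hiT' : i ∉ T' := fun h => (Finset.mem_erase.1 (Finset.mem_erase.1 h).2).1 rfl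
      have hjT' : j ∉ T' := fun h => (Finset.mem_erase.1 h).1 rfl
      refine ⟨l ++ [i, j], ?_, ?_, ?_⟩
      · refine List.Nodup.append hl1 (by simp [hij]) ?_
        intro p hp hp'
        have hpT : p ∈ T' := by rw [← hl2]; exact List.mem_toFinset.2 hp
        simp only [List.mem_cons, List.not_mem_nil, or_false] at hp'
        rcases hp' with rfl | rfl
        · exact hiT' hpT
        · exact hjT' hpT
      · rw [List.toFinset_append, hl2]
        ext p
        simp only [Finset.mem_union, List.mem_toFinset, List.mem_cons, List.not_mem_nil, or_false,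
          hT', Finset.mem_erase]
        constructor
        · rintro (h | h | h)
          · exact h.2.2
          · rw [h]; exact hi
          · rw [h]; exact hj
        · intro h
          by_cases h5 : p = i
          · exact Or.inr (Or.inl h5)
          · by_cases h6 : p = j
            · exact Or.inr (Or.inr h6)
            · exact Or.inl ⟨h6, h5, h⟩
      · have e1 : prodL W X r y (l ++ [i, j]) = prodL W X r y l
            * (W.pull (prSeq X r i) (y (i : ℕ)) * W.pull (prSeq X r j) (y (j : ℕ))) := by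
          rw [prodL, List.map_append, List.prod_append, List.map_cons, List.map_cons,
            List.map_nil, List.prod_cons, List.prod_cons, List.prod_nil, mul_one]
          rfl
        have e2 : insert i (insert j T') = T := by
          rw [hT', Finset.insert_erase hjT, Finset.insert_erase hi]
        rw [e1, ← pull_prPair, ← e2]
        refine spT_pair hl3 hiT' hjT' hij ?_
        have h4' := h4
        rw [← hjσ] at h4'
        exact h4'
    · set T' := T.erase i with hT'
      have hc1 : T'.card = T.card - 1 := Finset.card_erase_of_mem hi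
      have hpos : 0 < T.card := Finset.card_pos.2 ⟨i, hi⟩
      obtain ⟨l, hl1, hl2, hl3⟩ := ih T' (by omega) (by
        intro p hp hpS
        have hp' := Finset.mem_erase.1 hp
        obtain ⟨p', hp1, hp2⟩ := hcl p hp'.2 hpS
        refine ⟨p', Finset.mem_erase.2 ⟨?_, hp1⟩, hp2⟩
        rintro rfl
        exact hiS (by rw [hp2]; exact (hσ p hpS).1))
      have hiT' : i ∉ T' := fun h => (Finset.mem_erase.1 h).1 rfl
      refine ⟨l ++ [i], ?_, ?_, ?_⟩
      · refine List.Nodup.append hl1 (by simp) ?_
        intro p hp hp'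
        have hpT : p ∈ T' := by rw [← hl2]; exact List.mem_toFinset.2 hp
        simp only [List.mem_cons, List.not_mem_nil, or_false] at hp'
        rw [hp'] at hpT
        exact hiT' hpT
      · rw [List.toFinset_append, hl2]
        ext p
        simp only [Finset.mem_union, List.mem_toFinset, List.mem_cons, List.not_mem_nil, or_false,
          hT', Finset.mem_erase]
        constructor
        · rintro (h | h)
          · exact h.2
          · rw [h]; exact hi
        · intro h
          by_cases h5 : p = i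
          · exact Or.inr h5
          · exact Or.inl ⟨h5, h⟩
      · have e1 : prodL W X r y (l ++ [i]) = prodL W X r y l
            * W.pull (prSeq X r i) (y (i : ℕ)) := by
          rw [prodL, List.map_append, List.prod_append, List.map_cons,
            List.map_nil, List.prod_cons, List.prod_nil, mul_one]
          rfl
        have e2 : insert i T' = T := Finset.insert_erase hi
        rw [e1, ← e2]
        exact spT_single hl3 hiT' (hS i (by omega) hiS)

end MTC

open MTC

theorem mtc : MtcStatement.{u, w} := by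
  classical
  intro k _ W 𝒱 hW X n hX r y d hy S hSr hS σ hσ
  obtain ⟨l, hl1, hl2, hl3⟩ := exists_list (W := W) (r := r) hS hσ _
    (Finset.univ : Finset (Fin (r + 1))) le_rfl (by
      intro p _ hp
      have h1 := (hσ p hp).1
      have h2 := hSr _ h1
      exact ⟨⟨σ p, by omega⟩, Finset.mem_univ _, rfl⟩)
  have hperm : (List.finRange (r + 1)).Perm l := by
    refine List.perm_of_nodup_nodup_toFinset_eq (List.nodup_finRange _) hl1 ?_
    rw [hl2]
    ext p
    simp
  obtain ⟨c, hc⟩ := perm_prodL hW hX hy hperm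
  rw [word_eq, hc]
  refine Submodule.smul_mem _ _ ?_
  have hle : spT W X r (Finset.univ : Finset (Fin (r + 1))) ≤ pairSpan W X r :=
    Submodule.span_mono (fun z hz => ⟨Finset.univ, hz⟩)
  exact hle hl3

end Pool.Agent.Lib.MP_361a6f_ag.PP
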