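import Mathlib

/-!
# Generalised eigenspaces of algebra endomorphisms
-/

namespace Pool.Agent.Lib.MP_361a6f_ag.PP

namespace GenEig

universe u v

section alg

variable {K : Type u} [Field K] {A : Type v} [Ring A] [Algebra K A] (φ : A →ₐ[K] A)

/-- `φ - α` -/
def sh (α : K) : A →ₗ[K] A := φ.toLinearMap - α • LinearMap.id

theorem sh_apply (α : K) (x : A) : sh φ α x = φ x - α • x := rfl

theorem sh_comm (α : K) (x : A) : φ (sh φ α x) = sh φ α (φ x) := by
  rw [sh_apply, sh_apply, map_sub, map_smul]

theorem sh_pow_comm (α : K) (k : ℕ) (x : A) :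
    φ (((sh φ α : Module.End K A) ^ k) x) = ((sh φ α : Module.End K A) ^ k) (φ x) := by
  induction k generalizing x with
  | zero => simp
  | succ k ih => rw [pow_succ, Module.End.mul_apply, Module.End.mul_apply, ih, sh_comm]

theorem sh_mul (α β : K) (x y : A) :
    sh φ (α * β) (x * y) = sh φ α x * φ y + (α • x) * sh φ β y := by
  simp only [sh_apply, map_mul, sub_mul, mul_sub, smul_mul_assoc, mul_smul_comm, smul_smul]
  rw [mul_comm β α]
  abel

/-- products of generalised eigenvectors -/
theorem pow_mul_eq {α β : K} (k l : ℕ) {x y : A} (hx : ((sh φ α : Module.End K A) ^ k) x = 0)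
    (hy : ((sh φ β : Module.End K A) ^ l) y = 0) :
    ((sh φ (α * β) : Module.End K A) ^ (k + l)) (x * y) = 0 := by
  obtain ⟨n, hn⟩ : ∃ n, n = k + l := ⟨_, rfl⟩
  rw [← hn]
  induction n generalizing k l x y with
  | zero =>
    obtain ⟨rfl, rfl⟩ : k = 0 ∧ l = 0 := by omega
    have : x = 0 := by simpa using hx
    rw [this]; simp
  | succ n ih =>
    rcases k with _ | k
    · have : x = 0 := by simpa using hx
      rw [this]; simp
    rcases l with _ | l
    · have : y = 0 := by simpa using hy
      rw [this]; simp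
    rw [pow_succ, Module.End.mul_apply, sh_mul, map_add]
    have h1 : ((sh φ α : Module.End K A) ^ k) (sh φ α x) = 0 := by
      rw [pow_succ, Module.End.mul_apply] at hx
      exact hx
    have h2 : ((sh φ β : Module.End K A) ^ l) (sh φ β y) = 0 := by
      rw [pow_succ, Module.End.mul_apply] at hy
      exact hy
    have h3 : ((sh φ β : Module.End K A) ^ (l + 1)) (φ y) = 0 := by
      rw [← sh_pow_comm, hy, map_zero]
    have h4 : ((sh φ α : Module.End K A) ^ (k + 1)) (α • x) = 0 := by
      rw [map_smul, hx, smul_zero]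
    rw [ih k (l + 1) h1 h3 (by omega), ih (k + 1) l h4 h2 (by omega), add_zero]

end alg

section span

variable {K : Type u} [Field K] {V : Type v} [AddCommGroup V] [Module K V]

/-- a generalised eigenvector in the span of generalised eigenvectors is in the span of those with
the same eigenvalue -/
theorem span_eig {ι : Type*} (f : Module.End K V) (e : ι → V) (μ : ι → K)
    (he : ∀ i, e i ∈ f.maxGenEigenspace (μ i)) {x : V} {lam : K}
    (hx : x ∈ Submodule.span K (Set.range e)) (hxl : x ∈ f.maxGenEigenspace lam) :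
    x ∈ Submodule.span K (e '' {i | μ i = lam}) := by
  have h1 : Set.range e = e '' {i | μ i = lam} ∪ e '' {i | μ i ≠ lam} := by
    rw [← Set.image_union, ← Set.image_univ]
    congr 1
    ext i
    simp [em]
  rw [h1, Submodule.span_union, Submodule.mem_sup] at hx
  obtain ⟨a, ha, b, hb, rfl⟩ := hx
  have ha' : a ∈ f.maxGenEigenspace lam := by
    refine (Submodule.span_le.2 ?_) ha
    rintro _ ⟨i, hi, rfl⟩
    have := he i
    rwa [show μ i = lam from hi] at this
  have hb' : b ∈ ⨆ j ≠ lam, f.maxGenEigenspace j := by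
    refine (Submodule.span_le.2 ?_) hb
    rintro _ ⟨i, hi, rfl⟩
    exact Submodule.mem_iSup_of_mem (μ i) (Submodule.mem_iSup_of_mem hi (he i))
  have hb'' : b ∈ f.maxGenEigenspace lam := by
    have := sub_mem hxl ha'
    rwa [add_sub_cancel_left] at this
  have h0 : b = 0 := by
    have h2 := f.independent_maxGenEigenspace lam
    rw [Submodule.disjoint_def] at h2
    exact h2 b hb'' hb'
  rw [h0, add_zero]
  exact ha

/-- generalised eigenvectors of a power -/
theorem maxGen_pow (f : Module.End K V) (lam : K) (t : ℕ) :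
    f.maxGenEigenspace lam ≤ (f ^ t).maxGenEigenspace (lam ^ t) := by
  intro x hx
  rw [Module.End.mem_maxGenEigenspace] at hx ⊢
  obtain ⟨k, hk⟩ := hx
  refine ⟨k, ?_⟩
  have hc : Commute f (lam • (1 : Module.End K V)) := by
    rw [Commute, SemiconjBy, mul_smul_comm, smul_mul_assoc, mul_one, one_mul]
  obtain ⟨g, hg⟩ : ∃ g : Module.End K V, f ^ t - lam ^ t • 1 = g * (f - lam • 1) ∧
      Commute g (f - lam • 1) := by
    refine ⟨∑ i ∈ Finset.range t, f ^ i * (lam • 1) ^ (t - 1 - i), ?_, ?_⟩
    · rw [hc.geom_sum₂_mul, smul_pow, one_pow]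
    · refine Commute.sum_left _ _ _ fun i _ => ?_
      refine Commute.mul_left (Commute.sub_right ?_ ?_) (Commute.sub_right ?_ ?_)
      · exact (Commute.refl f).pow_left i
      · exact hc.pow_left i
      · exact (hc.symm).pow_left _
      · exact (Commute.refl _).pow_left _
  rw [hg.1, hg.2.mul_pow, Module.End.mul_apply, hk, map_zero]

theorem maxGen_pow' (f : Module.End K V) (lam : K) (s t : ℕ) :
    (f ^ s).maxGenEigenspace (lam ^ s) ≤ (f ^ (s * t)).maxGenEigenspace (lam ^ (s * t)) := by
  rw [pow_mul, pow_mul]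
  exact maxGen_pow (f ^ s) (lam ^ s) t

/-- intertwining operators map generalised eigenvectors to generalised eigenvectors -/
theorem maxGen_map {V' : Type*} [AddCommGroup V'] [Module K V'] {f : Module.End K V}
    {f' : Module.End K V'} (g : V →ₗ[K] V') (h : ∀ x, g (f x) = f' (g x)) {lam : K} {x : V}
    (hx : x ∈ f.maxGenEigenspace lam) : g x ∈ f'.maxGenEigenspace lam := by
  rw [Module.End.mem_maxGenEigenspace] at hx ⊢
  obtain ⟨m, hm⟩ := hx
  refine ⟨m, ?_⟩
  have key : ∀ (m : ℕ) (x : V), g (((f - lam • 1) ^ m) x) = ((f' - lam • 1) ^ m) (g x) := by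
    intro m
    induction m with
    | zero => intro x; simp
    | succ m ih =>
      intro x
      rw [pow_succ, Module.End.mul_apply, ih, pow_succ, Module.End.mul_apply]
      congr 1
      simp only [LinearMap.sub_apply, LinearMap.smul_apply, Module.End.one_apply, map_sub,
        map_smul, h]
  rw [← key, hm, map_zero]

end span

/-- products of generalised eigenvectors of an algebra endomorphism -/
theorem maxGen_mul {K : Type u} [Field K] {A : Type v} [Ring A] [Algebra K A] (φ : A →ₐ[K] A)
    (f : Module.End K A) (hf : ∀ x, f x = φ x) {α β : K} {x y : A}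
    (hx : x ∈ f.maxGenEigenspace α) (hy : y ∈ f.maxGenEigenspace β) :
    x * y ∈ f.maxGenEigenspace (α * β) := by
  rw [Module.End.mem_maxGenEigenspace] at hx hy ⊢
  obtain ⟨a, ha⟩ := hx
  obtain ⟨b, hb⟩ := hy
  have e : ∀ c : K, f - c • 1 = sh φ c := fun c => by
    ext x
    rw [sh_apply]
    simp [hf]
  rw [e] at ha hb
  refine ⟨a + b, ?_⟩
  rw [e]
  exact pow_mul_eq φ a b ha hb

end GenEig

end Pool.Agent.Lib.MP_361a6f_ag.PP
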