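import Pool.Agent.Lib.MP_361a6f_ag.PP.DefsG
import Pool.Agent.Lib.MP_361a6f_ag.PP.GenEig
import Pool.Agent.Lib.MP_361a6f_ag.IP2.Step

/-!
# Row WRD: eigenclasses on `X_0 × ⋯ × X_r` are combinations of words
-/

open CategoryTheory AlgebraicGeometry MonoidalCategory CartesianMonoidalCategory

universe u v w

set_option linter.unusedSectionVars false

namespace Pool.Agent.Lib.MP_361a6f_ag.PP

namespace WRD

open Pool.Agent.Lib.MP_361a6f_ag.H3 Pool.Agent.Lib.MP_361a6f_ag.IP2

variable {k : Type u} [Field k]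

variable {W : CohomologyData.{u, 0, w} k ℂ} {𝒱 : VarietyClass k} (hW : IsWeilCohomology W 𝒱)
  {X : ℕ → Sch k} {n : ℕ → ℕ} (hX : ∀ i, 𝒱.mem (X i) (n i))

theorem word_congr {v v' : ∀ i, W.coh (X i)} (r : ℕ) (h : ∀ i ≤ r, v i = v' i) :
    word W X v r = word W X v' r := by
  induction r with
  | zero => exact h 0 le_rfl
  | succ r ih =>
    rw [word, word, ih fun i hi => h i (by omega), h (r + 1) le_rfl]

include hX in
theorem mem_prodSeq (r : ℕ) : 𝒱.mem (prodSeq X r) (∑ i ∈ Finset.range (r + 1), n i) := by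
  induction r with
  | zero => simpa [prodSeq] using hX 0
  | succ r ih =>
    rw [Finset.sum_range_succ]
    exact 𝒱.prod ih (hX (r + 1))

include hW hX in
/-- exterior products span -/
theorem word_span (S : ∀ i, Set (W.coh (X i))) (hS : ∀ i, Submodule.span ℂ (S i) = ⊤) (r : ℕ) :
    Submodule.span ℂ {z | ∃ v : ∀ i, W.coh (X i), (∀ i ≤ r, v i ∈ S i) ∧ z = word W X v r} = ⊤ := by
  classical
  induction r with
  | zero =>
    change (Submodule.span ℂ {z : W.coh (X 0) | ∃ v : ∀ i, W.coh (X i), (∀ i ≤ 0, v i ∈ S i) ∧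
      z = word W X v 0}) = ⊤
    rw [eq_top_iff, ← hS 0]
    refine Submodule.span_mono fun z hz => ?_
    refine ⟨Function.update (fun _ => 0) 0 z, fun i hi => ?_, ?_⟩
    · obtain rfl : i = 0 := by omega
      rw [Function.update_self]
      exact hz
    · rw [word, Function.update_self]
  | succ r ih =>
    set P : Submodule ℂ (W.coh (prodSeq X r ⊗ X (r + 1))) := Submodule.span ℂ
      {z | ∃ v : ∀ i, W.coh (X i), (∀ i ≤ r + 1, v i ∈ S i) ∧ z = word W X v (r + 1)} with hP
    have hYr := mem_prodSeq hX r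
    change P = ⊤
    rw [eq_top_iff, ← hW.kunneth_span hYr (hX (r + 1)), Submodule.span_le]
    rintro _ ⟨y, x, rfl⟩
    have key : ∀ x ∈ S (r + 1), ∀ y : W.coh (prodSeq X r),
        W.pull (fst (prodSeq X r) (X (r + 1))) y * W.pull (snd (prodSeq X r) (X (r + 1))) x
          ∈ P := by
      intro x hx y
      have hy : y ∈ Submodule.span ℂ {z | ∃ v : ∀ i, W.coh (X i), (∀ i ≤ r, v i ∈ S i) ∧
        z = word W X v r} := by rw [ih]; trivial
      induction hy using Submodule.span_induction with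
      | mem z hz =>
        obtain ⟨v, hv, rfl⟩ := hz
        refine Submodule.subset_span ⟨Function.update v (r + 1) x, fun i hi => ?_, ?_⟩
        · by_cases h : i = r + 1
          · subst h; rw [Function.update_self]; exact hx
          · rw [Function.update_of_ne h]; exact hv i (by omega)
        · rw [word, Function.update_self]
          congr 2
          exact word_congr r fun i hi => by rw [Function.update_of_ne (by omega)]
      | zero => rw [map_zero, zero_mul]; exact zero_mem _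
      | add a b _ _ ha hb => rw [map_add, add_mul]; exact add_mem ha hb
      | smul c a _ ha => rw [map_smul, smul_mul_assoc]; exact Submodule.smul_mem _ c ha
    have hx : x ∈ Submodule.span ℂ (S (r + 1)) := by rw [hS]; trivial
    change _ ∈ P
    induction hx using Submodule.span_induction with
    | mem z hz => exact key z hz y
    | zero => rw [map_zero, mul_zero]; exact zero_mem _
    | add a b _ _ ha hb => rw [map_add, mul_add]; exact add_mem ha hb
    | smul c a _ ha => rw [map_smul, mul_smul_comm]; exact Submodule.smul_mem _ c ha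

/-- pull-back of an exterior product -/
theorem pull_word (F : ∀ i, Sch.Mor (X i) (X i)) (v : ∀ i, W.coh (X i)) (r : ℕ) :
    W.pull (homSeq F r) (word W X v r) = word W X (fun i => W.pull (F i) (v i)) r := by
  induction r with
  | zero => rfl
  | succ r ih =>
    rw [word, word, ← ih]
    change W.pull (homSeq F r ⊗ₘ F (r + 1)) (W.pull (fst (prodSeq X r) (X (r + 1))) (word W X v r)
      * W.pull (snd (prodSeq X r) (X (r + 1))) (v (r + 1))) = _
    rw [map_mul]
    have e1 : W.pull (homSeq F r ⊗ₘ F (r + 1))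
          (W.pull (fst (prodSeq X r) (X (r + 1))) (word W X v r))
        = W.pull (fst (prodSeq X r) (X (r + 1))) (W.pull (homSeq F r) (word W X v r)) := by
      rw [← W.pull_comp, ← W.pull_comp, tensorHom_fst]
    have e2 : W.pull (homSeq F r ⊗ₘ F (r + 1)) (W.pull (snd (prodSeq X r) (X (r + 1))) (v (r + 1)))
        = W.pull (snd (prodSeq X r) (X (r + 1))) (W.pull (F (r + 1)) (v (r + 1))) := by
      rw [← W.pull_comp, ← W.pull_comp, tensorHom_snd]
    rw [e1, e2]

/-- the power of a pull-back is an algebra homomorphism -/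
theorem opn_alg {X : Sch k} (F : X ⟶ X) (t : ℕ) :
    ∃ φ : W.coh X →ₐ[ℂ] W.coh X, ∀ x, (opn W F ^ t) x = φ x := by
  induction t with
  | zero => exact ⟨AlgHom.id ℂ _, fun x => rfl⟩
  | succ t ih =>
    obtain ⟨φ, hφ⟩ := ih
    refine ⟨(W.pull F).comp φ, fun x => ?_⟩
    rw [pow_succ', Module.End.mul_apply, hφ]
    rfl

theorem opn_fst {Y X : Sch k} (F : Y ⟶ Y) (G : X ⟶ X) (t : ℕ) (y : W.coh Y) :
    (opn W (F ⊗ₘ G) ^ t) (W.pull (fst Y X) y) = W.pull (fst Y X) ((opn W F ^ t) y) := by
  induction t with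
  | zero => rfl
  | succ t ih =>
    rw [pow_succ', Module.End.mul_apply, ih, pow_succ', Module.End.mul_apply]
    change W.pull (F ⊗ₘ G) _ = W.pull (fst Y X) (W.pull F _)
    rw [← W.pull_comp, ← W.pull_comp, tensorHom_fst]

theorem opn_snd {Y X : Sch k} (F : Y ⟶ Y) (G : X ⟶ X) (t : ℕ) (x : W.coh X) :
    (opn W (F ⊗ₘ G) ^ t) (W.pull (snd Y X) x) = W.pull (snd Y X) ((opn W G ^ t) x) := by
  induction t with
  | zero => rfl
  | succ t ih =>
    rw [pow_succ', Module.End.mul_apply, ih, pow_succ', Module.End.mul_apply]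
    change W.pull (F ⊗ₘ G) _ = W.pull (snd Y X) (W.pull G _)
    rw [← W.pull_comp, ← W.pull_comp, tensorHom_snd]

/-- an exterior product of generalised eigenvectors is a generalised eigenvector -/
theorem word_eig (F : ∀ i, Sch.Mor (X i) (X i)) (t : ℕ) (v : ∀ i, W.coh (X i)) (μ : ℕ → ℂ)
    (r : ℕ) (h : ∀ i ≤ r, v i ∈ (opn W (F i) ^ t).maxGenEigenspace (μ i)) :
    word W X v r ∈ (opn W (homSeq F r) ^ t).maxGenEigenspace (∏ i ∈ Finset.range (r + 1), μ i) := by
  induction r with
  | zero =>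
    rw [Finset.prod_range_succ, Finset.prod_range_zero, one_mul]
    exact h 0 le_rfl
  | succ r ih =>
    rw [Finset.prod_range_succ]
    change W.pull (fst (prodSeq X r) (X (r + 1))) (word W X v r)
      * W.pull (snd (prodSeq X r) (X (r + 1))) (v (r + 1))
      ∈ (opn W (homSeq F r ⊗ₘ F (r + 1)) ^ t).maxGenEigenspace _
    obtain ⟨φ, hφ⟩ := opn_alg (W := W) (homSeq F r ⊗ₘ F (r + 1)) t
    refine GenEig.maxGen_mul φ _ hφ ?_ ?_
    · exact GenEig.maxGen_map (W.pull (fst (prodSeq X r) (X (r + 1)))).toLinearMap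
        (fun x => (opn_fst _ _ t x).symm) (ih fun i hi => h i (by omega))
    · exact GenEig.maxGen_map (W.pull (snd (prodSeq X r) (X (r + 1)))).toLinearMap
        (fun x => (opn_snd _ _ t x).symm) (h (r + 1) le_rfl)

end WRD

open Pool.Agent.Lib.MP_361a6f_ag.H3 Pool.Agent.Lib.MP_361a6f_ag.IP2

/-- Row WRD. -/
theorem wrd : WrdStatement.{u, w} := by
  intro k _ W 𝒱 hW X n hX F Lt t hLt hspan r c x hx
  classical
  -- the words
  let ι : Type _ := {p : (∀ i, W.coh (X i)) × (ℕ → ℂ) // ∀ i ≤ r, Lt i (p.1 i) (p.2 i)}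
  let e : ι → W.coh (prodSeq X r) := fun p => word W X p.1.1 r
  let μ : ι → ℂ := fun p => (∏ i ∈ Finset.range (r + 1), p.1.2 i) ^ t
  have he : ∀ p : ι, e p ∈ Module.End.maxGenEigenspace (opn W (homSeq F r) ^ t) (μ p) := by
    intro p
    have h1 := WRD.word_eig F t p.1.1 (fun i => p.1.2 i ^ t) r
      (fun i hi => hLt i _ _ (p.2 i hi))
    rw [Finset.prod_pow] at h1
    exact h1
  have htop : x ∈ Submodule.span ℂ (Set.range e) := by
    have h1 := WRD.word_span hW hX (fun i => {x | ∃ μ, Lt i x μ}) hspan r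
    have h2 : Submodule.span ℂ {z | ∃ v : ∀ i, W.coh (X i),
        (∀ i ≤ r, v i ∈ {x | ∃ μ, Lt i x μ}) ∧ z = word W X v r} ≤
        Submodule.span ℂ (Set.range e) := by
      refine Submodule.span_mono ?_
      rintro z ⟨v, hv, rfl⟩
      have h3 : ∀ i, ∃ μ, i ≤ r → Lt i (v i) μ := fun i => by
        by_cases hi : i ≤ r
        · obtain ⟨μ, hμ⟩ := hv i hi
          exact ⟨μ, fun _ => hμ⟩
        · exact ⟨0, fun h => absurd h hi⟩
      choose μ' hμ' using h3
      exact ⟨⟨(v, μ'), hμ'⟩, rfl⟩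
    rw [h1] at h2
    exact h2 trivial
  have hxe : x ∈ Module.End.maxGenEigenspace (opn W (homSeq F r) ^ t) c := by
    rw [Module.End.mem_maxGenEigenspace]
    refine ⟨1, ?_⟩
    rw [pow_one, LinearMap.sub_apply, opn_pow]
    change (W.pull (homSeq F r))^[t] x - c • x = 0
    rw [hx, sub_self]
  have h := GenEig.span_eig _ e μ he htop hxe
  refine Submodule.span_mono ?_ h
  rintro _ ⟨p, hp, rfl⟩
  exact ⟨p.1.1, p.1.2, p.2, hp, rfl⟩

end Pool.Agent.Lib.MP_361a6f_ag.PP
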