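import Pool.Agent.Lib.MP_361a6f_ag.PP.CG
import Pool.Agent.Lib.MP_361a6f_ag.PP.WRD
import Pool.Agent.Lib.MP_361a6f_ag.PP.MTC

/-!
# Row CG with one unpaired eigenvalue

Algebraic classes on `X_0 × ⋯ × X_r` come from pairs also if the relations between the eigenvalues
consist of pairs and at most one more eigenvalue: the components of an algebraic class in the words
with one unpaired transcendental letter vanish, since such a word is orthogonal to all algebraic
classes.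
-/

open CategoryTheory AlgebraicGeometry MonoidalCategory CartesianMonoidalCategory

universe u v w

set_option linter.unusedSectionVars false

namespace Pool.Agent.Lib.MP_361a6f_ag.PP

open Pool.Agent.Lib.MP_361a6f_ag.H3 Pool.Agent.Lib.MP_361a6f_ag.SQ
  Pool.Agent.Lib.MP_361a6f_ag.IP2

/-- Row CG1: as row CG, but one eigenvalue may be unpaired. -/
def Cg1Statement : Prop :=
  ∀ {k : Type u} [Field k] {W : CohomologyData.{u, 0, w} k ℂ} {𝒱 : VarietyClass k}
    (_ : IsWeilCohomology W 𝒱) {X : ℕ → Sch k} {n : ℕ → ℕ} (_ : ∀ i, 𝒱.mem (X i) (n i))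
    {ξ : ∀ i, W.coh (X i)} (_ : ∀ i, ξ i ∈ W.alg (X i) 1)
    (_ : ∀ i, HardLefschetz W (X i) (n i) (ξ i)) (_ : ∀ i, AlgebraicLambda W (X i) (n i) (ξ i))
    (_ : ∀ i, HodgeType W (X i) (n i) (ξ i))
    {F : ∀ i, X i ⟶ X i} {q : ℕ} (_ : 1 < q)
    (_ : ∀ i x, W.tr (X i) (W.pull (F i) x) = (q : ℂ) ^ (n i) * W.tr (X i) x)
    (_ : ∀ i, W.pull (F i) (ξ i) = (q : ℂ) • ξ i)
    (_ : ∀ i j, ∀ x ∈ W.alg (X i) j, ∃ t : ℕ, 0 < t ∧
      (W.pull (F i))^[t] x = ((q : ℂ) ^ (j * t)) • x)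
    (r : ℕ) (_ : FrobeniusSeq W F q r)
    -- the eigenvalues on `T^i` have absolute value `q^(i/2)`
    (_ : ∀ p i, i ≤ n p → ∀ (v : W.coh (X p)) (β : ℂ), v ∈ TS W (X p) (n p) (ξ p) i → v ≠ 0 →
      v ∈ Module.End.maxGenEigenspace (W.pull (F p)).toLinearMap β → ‖β‖ ^ 2 = (q : ℝ) ^ i)
    -- relations come from pairs, up to one
    (_ : ∀ (S : Finset ℕ) (i : ℕ → ℕ) (v : ∀ p, W.coh (X p)) (β : ℕ → ℂ) (c t : ℕ),
      (∀ p ∈ S, p ≤ r ∧ i p ≤ n p ∧ v p ∈ TS W (X p) (n p) (ξ p) (i p) ∧ v p ≠ 0 ∧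
        v p ∈ Module.End.maxGenEigenspace (W.pull (F p)).toLinearMap (β p)) →
      ∑ p ∈ S, i p = 2 * c → 0 < t → (∏ p ∈ S, β p) ^ t = ((q : ℂ) ^ c) ^ t →
      ∃ σ : ℕ → ℕ, (∀ p ∈ S, σ p ∈ S ∧ σ (σ p) = p ∧ (σ p ≠ p → PairOK W (v p) (v (σ p)))) ∧
        ∀ p ∈ S, ∀ p' ∈ S, σ p = p → σ p' = p' → p = p'),
    ∀ j, ∀ x ∈ W.alg (prodSeq X r) j, x ∈ pairSpan W X r

namespace CG1

/-! ### Involutions with at most one fixed point -/

theorem even_moved {S : Finset ℕ} {σ : ℕ → ℕ} (h : ∀ p ∈ S, σ p ∈ S ∧ σ (σ p) = p) :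
    Even (S.filter fun p => σ p ≠ p).card := by
  rw [← ZMod.natCast_eq_zero_iff_even]
  have h1 : ∑ _p ∈ S.filter fun p => σ p ≠ p, (1 : ZMod 2) = 0 := by
    refine Finset.sum_involution (fun p _ => σ p) ?_ ?_ ?_ ?_
    · intro p _; decide
    · intro p hp _; exact (Finset.mem_filter.1 hp).2
    · intro p hp
      obtain ⟨h1, h2⟩ := Finset.mem_filter.1 hp
      refine Finset.mem_filter.2 ⟨(h p h1).1, fun h3 => h2 ?_⟩
      rw [(h p h1).2] at h3
      exact h3.symm
    · intro p hp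
      exact (h p (Finset.mem_filter.1 hp).1).2
  rw [Finset.sum_const, nsmul_eq_mul, mul_one] at h1
  exact h1

theorem fixed_of_odd {S : Finset ℕ} {σ : ℕ → ℕ} (h : ∀ p ∈ S, σ p ∈ S ∧ σ (σ p) = p)
    (hS : ¬ Even S.card) : ∃ p ∈ S, σ p = p := by
  by_contra hcon
  have hcon : ∀ p ∈ S, σ p ≠ p := fun p hp h => hcon ⟨p, hp, h⟩
  have h1 : S.filter (fun p => σ p ≠ p) = S := Finset.filter_true_of_mem hcon
  have h2 := even_moved h
  rw [h1] at h2
  exact hS h2

theorem not_fixed_of_even {S : Finset ℕ} {σ : ℕ → ℕ} (h : ∀ p ∈ S, σ p ∈ S ∧ σ (σ p) = p)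
    (h1 : ∀ p ∈ S, ∀ p' ∈ S, σ p = p → σ p' = p' → p = p') (hS : Even S.card) :
    ∀ p ∈ S, σ p ≠ p := by
  intro p hp hfix
  have h2 : S.filter (fun p => σ p ≠ p) = S.erase p := by
    ext p'
    rw [Finset.mem_filter, Finset.mem_erase]
    constructor
    · rintro ⟨h3, h4⟩
      refine ⟨fun h5 => h4 ?_, h3⟩
      rw [h5]; exact hfix
    · rintro ⟨h3, h4⟩
      exact ⟨h4, fun h5 => h3 (h1 p' h4 p hp h5 hfix)⟩
  have h3 := even_moved h
  rw [h2, Finset.card_erase_of_mem hp] at h3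
  have h4 : 0 < S.card := Finset.card_pos.2 ⟨p, hp⟩
  obtain ⟨a, ha⟩ := hS
  obtain ⟨b, hb⟩ := h3
  omega

section geo

variable {k : Type u} [Field k] {W : CohomologyData.{u, 0, w} k ℂ} {𝒱 : VarietyClass k}
  (hW : IsWeilCohomology W 𝒱)
include hW

/-- pull-backs of classes orthogonal to the algebraic classes -/
theorem tr_pull_eq_zero {Y X : Sch k} {d e : ℕ} (hY : 𝒱.mem Y d) (hX : 𝒱.mem X e) (f : Y ⟶ X)
    {i : ℕ} {x : W.coh Y} (hx : x ∈ W.alg Y i) {v : W.coh X}
    (hv : ∀ j, ∀ a ∈ W.alg X j, W.tr X (a * v) = 0) :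
    W.tr Y (x * W.pull f v) = 0 := by
  rw [← hW.push_adj hY hX]
  by_cases h : d ≤ i + e
  · exact hv (i + e - d) _ (hW.push_alg hY hX f hx (by omega))
  · rw [hW.push_zero hY hX f (hW.alg_gr hY hx) (by omega), zero_mul, map_zero]

/-- generalised eigenvectors for an eigenvalue not inverse to that of `x` are orthogonal to `x` -/
theorem tr_eig {Y : Sch k} {F : Y ⟶ Y} {Q : ℂ} (hF : ∀ a, W.tr Y (W.pull F a) = Q * W.tr Y a)
    {t : ℕ} {c μ : ℂ} {x : W.coh Y} (hx : (W.pull F)^[t] x = c • x) (hne : c * μ ≠ Q ^ t)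
    {z : W.coh Y} (hz : z ∈ Module.End.maxGenEigenspace ((W.pull F).toLinearMap ^ t) μ) :
    W.tr Y (x * z) = 0 := by
  have hpow : ∀ (t : ℕ) (z : W.coh Y), ((W.pull F).toLinearMap ^ t) z = (W.pull F)^[t] z := by
    intro t z
    induction t with
    | zero => rfl
    | succ t ih =>
      rw [pow_succ', Module.End.mul_apply, ih, Function.iterate_succ_apply']
      rfl
  have hmul : ∀ (t : ℕ) (a b : W.coh Y),
      (W.pull F)^[t] (a * b) = (W.pull F)^[t] a * (W.pull F)^[t] b := by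
    intro t a b
    induction t with
    | zero => rfl
    | succ t ih =>
      rw [Function.iterate_succ_apply', Function.iterate_succ_apply',
        Function.iterate_succ_apply', ih, map_mul]
  have htr : ∀ (t : ℕ) (a : W.coh Y), W.tr Y ((W.pull F)^[t] a) = Q ^ t * W.tr Y a := by
    intro t a
    induction t with
    | zero => simp
    | succ t ih =>
      rw [Function.iterate_succ_apply', hF, ih, pow_succ']
      ring
  have hl : ∀ z, Q ^ t * W.tr Y (x * z) = c * W.tr Y (x * ((W.pull F).toLinearMap ^ t) z) := by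
    intro z
    rw [← htr, hmul, hx, hpow, smul_mul_assoc, map_smul, smul_eq_mul]
  rw [Module.End.mem_maxGenEigenspace] at hz
  obtain ⟨N, hN⟩ := hz
  induction N generalizing z with
  | zero =>
    rw [pow_zero, Module.End.one_apply] at hN
    rw [hN, mul_zero, map_zero]
  | succ N ih =>
    rw [pow_succ, Module.End.mul_apply] at hN
    have h1 := ih hN
    rw [LinearMap.sub_apply, LinearMap.smul_apply, Module.End.one_apply, mul_sub,
      mul_smul_comm, map_sub, map_smul, smul_eq_mul] at h1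
    have h2 := hl z
    have h3 : (c * μ - Q ^ t) * W.tr Y (x * z) = 0 := by
      linear_combination (-c) * h1 - h2
    rcases mul_eq_zero.1 h3 with h4 | h4
    · exact absurd (sub_eq_zero.1 h4) hne
    · exact h4

/-- the degree of a product of endomorphisms -/
theorem tr_tensor {Y X : Sch k} {d e : ℕ} (hY : 𝒱.mem Y d) (hX : 𝒱.mem X e) {F : Y ⟶ Y}
    {G : X ⟶ X} {a b : ℂ} (hF : ∀ x, W.tr Y (W.pull F x) = a * W.tr Y x)
    (hG : ∀ x, W.tr X (W.pull G x) = b * W.tr X x) (z : W.coh (Y ⊗ X)) :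
    W.tr (Y ⊗ X) (W.pull (F ⊗ₘ G) z) = a * b * W.tr (Y ⊗ X) z := by
  have hz : z ∈ Submodule.span ℂ {z | ∃ (x : W.coh Y) (y : W.coh X),
      z = W.pull (fst Y X) x * W.pull (snd Y X) y} := by
    rw [hW.kunneth_span hY hX]
    exact Submodule.mem_top
  induction hz using Submodule.span_induction with
  | mem z hz =>
    obtain ⟨x, y, rfl⟩ := hz
    have e1 : W.pull (F ⊗ₘ G) (W.pull (fst Y X) x * W.pull (snd Y X) y)
        = W.pull (fst Y X) (W.pull F x) * W.pull (snd Y X) (W.pull G y) := by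
      rw [map_mul, ← W.pull_comp, ← W.pull_comp, ← W.pull_comp, ← W.pull_comp,
        tensorHom_fst, tensorHom_snd]
    rw [e1, hW.kunneth_tr hY hX, hW.kunneth_tr hY hX, hF, hG]
    ring
  | zero => rw [map_zero, map_zero, mul_zero]
  | add x y _ _ h h' => rw [map_add, map_add, map_add, h, h', mul_add]
  | smul c x _ h =>
    rw [map_smul, map_smul, map_smul, h, smul_eq_mul, smul_eq_mul]
    ring

/-- the trace of a product of exterior products -/
theorem tr_ext_mul {Y X : Sch k} {d e : ℕ} (hY : 𝒱.mem Y d) (hX : 𝒱.mem X e) {i l : ℕ}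
    (a : W.coh Y) {b : W.coh X} (hb : b ∈ W.gr X i) {a' : W.coh Y} (ha' : a' ∈ W.gr Y l)
    (b' : W.coh X) :
    W.tr (Y ⊗ X) ((W.pull (fst Y X) a * W.pull (snd Y X) b)
      * (W.pull (fst Y X) a' * W.pull (snd Y X) b'))
      = (-1 : ℂ) ^ (i * l) * (W.tr Y (a * a') * W.tr X (b * b')) := by
  have hM' := 𝒱.prod hY hX
  have h3 := hW.comm_gr hM' (hW.pull_gr hM' hX (snd Y X) hb) (hW.pull_gr hM' hY (fst Y X) ha')
  have h4 : (W.pull (fst Y X) a * W.pull (snd Y X) b) * (W.pull (fst Y X) a' * W.pull (snd Y X) b')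
      = ((-1 : ℂ) ^ (i * l)) • (W.pull (fst Y X) (a * a') * W.pull (snd Y X) (b * b')) := by
    rw [mul_assoc, ← mul_assoc (W.pull (snd Y X) b), h3, smul_mul_assoc, mul_smul_comm, map_mul,
      map_mul, ← mul_assoc, ← mul_assoc, ← mul_assoc]
  rw [h4, map_smul, hW.kunneth_tr hY hX, smul_eq_mul]

variable {X : ℕ → Sch k} {n : ℕ → ℕ} (hX : ∀ i, 𝒱.mem (X i) (n i))
include hX

theorem tr_homSeq {F : ∀ i, X i ⟶ X i} {q : ℕ}
    (hdeg : ∀ i x, W.tr (X i) (W.pull (F i) x) = (q : ℂ) ^ (n i) * W.tr (X i) x) (r : ℕ)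
    (a : W.coh (prodSeq X r)) : W.tr (prodSeq X r) (W.pull (homSeq F r) a)
      = (q : ℂ) ^ (∑ i ∈ Finset.range (r + 1), n i) * W.tr (prodSeq X r) a := by
  induction r with
  | zero =>
    rw [Finset.sum_range_one]
    exact hdeg 0 a
  | succ r ih =>
    have h := tr_tensor hW (WRD.mem_prodSeq hX r) (hX (r + 1)) ih (hdeg (r + 1)) a
    rw [Finset.sum_range_succ _ (r + 1), pow_add]
    exact h

omit hX in
theorem word_gr (hX : ∀ i, 𝒱.mem (X i) (n i)) {y : ∀ i, W.coh (X i)} {d : ℕ → ℕ} (r : ℕ)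
    (hy : ∀ i ≤ r, y i ∈ W.gr (X i) (d i)) :
    word W X y r ∈ W.gr (prodSeq X r) (∑ i ∈ Finset.range (r + 1), d i) := by
  induction r with
  | zero =>
    rw [Finset.sum_range_one]
    exact hy 0 le_rfl
  | succ r ih =>
    rw [Finset.sum_range_succ]
    have hM := WRD.mem_prodSeq hX r
    have hM' := 𝒱.prod hM (hX (r + 1))
    exact hW.mul_gr hM' (hW.pull_gr hM' hM _ (ih fun i hi => hy i (by omega)))
      (hW.pull_gr hM' (hX (r + 1)) _ (hy (r + 1) le_rfl))

/-- words with orthogonal letters at one place are orthogonal -/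
theorem tr_word {y y' : ∀ i, W.coh (X i)} {d d' : ℕ → ℕ} (r : ℕ)
    (hy : ∀ i ≤ r, y i ∈ W.gr (X i) (d i)) (hy' : ∀ i ≤ r, y' i ∈ W.gr (X i) (d' i))
    (h : ∃ p ≤ r, W.tr (X p) (y p * y' p) = 0) :
    W.tr (prodSeq X r) (word W X y r * word W X y' r) = 0 := by
  induction r with
  | zero =>
    obtain ⟨p, hp, h⟩ := h
    have hp0 : p = 0 := by omega
    subst hp0
    exact h
  | succ r ih =>
    have hM := WRD.mem_prodSeq hX r
    have hM' := 𝒱.prod hM (hX (r + 1))
    have h4 := tr_ext_mul hW hM (hX (r + 1)) (word W X y r) (hy (r + 1) le_rfl)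
      (word_gr hW hX r (y := y') (d := d') fun i hi => hy' i (by omega)) (y' (r + 1))
    have h5 : W.tr (prodSeq X r) (word W X y r * word W X y' r)
        * W.tr (X (r + 1)) (y (r + 1) * y' (r + 1)) = 0 := by
      obtain ⟨p, hp, h⟩ := h
      by_cases hpr : p ≤ r
      · rw [ih (fun i hi => hy i (by omega)) (fun i hi => hy' i (by omega)) ⟨p, hpr, h⟩, zero_mul]
      · have hp1 : p = r + 1 := by omega
        subst hp1
        rw [h, mul_zero]
    rw [h5, mul_zero] at h4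
    exact h4

/-- pair classes are algebraic -/
theorem pairClass_alg {r : ℕ} {S : Finset (Fin (r + 1))} {z : W.coh (prodSeq X r)}
    (hz : PairClass W X r S z) : ∃ c, z ∈ W.alg (prodSeq X r) c := by
  have hM := WRD.mem_prodSeq hX r
  induction hz with
  | one => exact ⟨0, hW.one_alg hM⟩
  | single S z i l a _ _ ha ih =>
    obtain ⟨c, hc⟩ := ih
    exact ⟨_, hW.mul_alg hM hc (hW.pull_alg hM (hX _) _ ha)⟩
  | pair S z i j l a _ _ _ _ ha ih =>
    obtain ⟨c, hc⟩ := ih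
    exact ⟨_, hW.mul_alg hM hc (hW.pull_alg hM (𝒱.prod (hX _) (hX _)) _ ha)⟩

/-- words with one unpaired transcendental letter are orthogonal to the algebraic classes -/
theorem tr_single {r : ℕ} {y : ∀ i, W.coh (X i)} {d : ℕ → ℕ}
    (hy : ∀ i ≤ r, y i ∈ W.gr (X i) (d i)) {S : Finset ℕ} (hSr : ∀ i ∈ S, i ≤ r)
    (hS : ∀ i ≤ r, i ∉ S → y i ∈ Submodule.span ℂ {z | ∃ c, z ∈ W.alg (X i) c}) {σ : ℕ → ℕ}
    (hσ : ∀ p ∈ S, σ p ∈ S ∧ σ (σ p) = p ∧ (σ p ≠ p → PairOK W (y p) (y (σ p))))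
    {p₀ : ℕ} (hp₀ : p₀ ∈ S) (hfix : σ p₀ = p₀) (huniq : ∀ p ∈ S, σ p = p → p = p₀)
    (horth : ∀ j, ∀ a ∈ W.alg (X p₀) j, W.tr (X p₀) (a * y p₀) = 0)
    {j : ℕ} {x : W.coh (prodSeq X r)} (hx : x ∈ W.alg (prodSeq X r) j) :
    W.tr (prodSeq X r) (x * word W X y r) = 0 := by
  classical
  have hM := WRD.mem_prodSeq hX r
  let P : Fin (r + 1) := ⟨p₀, by have := hSr p₀ hp₀; omega⟩
  let y' : ∀ i, W.coh (X i) := Function.update y p₀ 0
  have hy'0 : y' p₀ = 0 := Function.update_self _ _ _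
  have hy'1 : ∀ i, i ≠ p₀ → y' i = y i := fun i hi => Function.update_of_ne hi _ _
  obtain ⟨l, hl1, hl2, hl3⟩ := MTC.exists_list (W := W) (r := r) (y := y') (S := S.erase p₀)
    (σ := σ) (by
      intro i hi hiS
      by_cases h : i = p₀
      · subst h
        rw [hy'0]; exact zero_mem _
      · rw [hy'1 i h]
        exact hS i hi fun h' => hiS (Finset.mem_erase.2 ⟨h, h'⟩)) (by
      intro p hp
      obtain ⟨h1, h2⟩ := Finset.mem_erase.1 hp
      obtain ⟨h3, h4, h5⟩ := hσ p h2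
      have h6 : σ p ≠ p := fun h => h1 (huniq p h2 h)
      have h7 : σ p ≠ p₀ := fun h => h1 (by rw [← h4, h, hfix])
      refine ⟨Finset.mem_erase.2 ⟨h7, h3⟩, h4, h6, ?_⟩
      rw [hy'1 p h1, hy'1 _ h7]
      exact h5 h6) _ ((Finset.univ : Finset (Fin (r + 1))).erase P) le_rfl (by
      intro p _ hp
      obtain ⟨h1, h2⟩ := Finset.mem_erase.1 hp
      obtain ⟨h3, h4, h5⟩ := hσ p h2
      have h7 : σ p ≠ p₀ := fun h => h1 (by rw [← h4, h, hfix])
      have h8 := hSr _ h3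
      refine ⟨⟨σ p, by omega⟩, Finset.mem_erase.2 ⟨fun h => h7 (congrArg Fin.val h),
        Finset.mem_univ _⟩, rfl⟩)
  have hPl : P ∉ l := by
    intro h
    have h1 : P ∈ l.toFinset := List.mem_toFinset.2 h
    rw [hl2] at h1
    exact (Finset.mem_erase.1 h1).1 rfl
  have hl4 : MTC.prodL W X r y' l = MTC.prodL W X r y l := by
    refine congrArg List.prod (List.map_congr_left fun i hi => ?_)
    have h1 : (i : ℕ) ≠ p₀ := fun h => hPl (by
      have : i = P := Fin.ext h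
      rw [← this]; exact hi)
    rw [hy'1 _ h1]
  rw [hl4] at hl3
  have hperm : (List.finRange (r + 1)).Perm (l ++ [P]) := by
    refine List.perm_of_nodup_nodup_toFinset_eq (List.nodup_finRange _) ?_ ?_
    · refine List.Nodup.append hl1 (by simp) ?_
      intro p hp hp'
      simp only [List.mem_cons, List.not_mem_nil, or_false] at hp'
      rw [hp'] at hp
      exact hPl hp
    · rw [List.toFinset_append, hl2]
      ext p
      simp only [List.mem_toFinset, List.mem_finRange, Finset.mem_union, Finset.mem_erase,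
        Finset.mem_univ, and_true, List.mem_cons, List.not_mem_nil, or_false, true_iff]
      exact ne_or_eq p P
  obtain ⟨c, hc⟩ := MTC.perm_prodL hW hX hy hperm
  have e1 : MTC.prodL W X r y (l ++ [P]) = MTC.prodL W X r y l * W.pull (prSeq X r P) (y p₀) := by
    rw [MTC.prodL, List.map_append, List.prod_append, List.map_cons,
      List.map_nil, List.prod_cons, List.prod_nil, mul_one]
    rfl
  rw [MTC.word_eq, hc, e1, mul_smul_comm, map_smul]
  have h1 : ∀ z ∈ MTC.spT W X r ((Finset.univ : Finset (Fin (r + 1))).erase P),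
      W.tr (prodSeq X r) (x * (z * W.pull (prSeq X r P) (y p₀))) = 0 := by
    intro z hz
    refine Submodule.span_induction (p := fun z _ =>
      W.tr (prodSeq X r) (x * (z * W.pull (prSeq X r P) (y p₀))) = 0) ?_ ?_ ?_ ?_ hz
    · intro z hz
      obtain ⟨c, hc⟩ := pairClass_alg hW hX hz
      rw [← mul_assoc]
      exact tr_pull_eq_zero hW hM (hX p₀) (prSeq X r P) (hW.mul_alg hM hx hc) horth
    · rw [zero_mul, mul_zero, map_zero]
    · intro a b _ _ ha hb
      rw [add_mul, mul_add, map_add, ha, hb, add_zero]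
    · intro c a _ ha
      rw [smul_mul_assoc, mul_smul_comm, map_smul, ha, smul_zero]
  rw [h1 _ hl3, smul_zero]

end geo

end CG1

/-- Row CG1 -/
theorem cg1 (hLET : LetStatement.{u, w}) (hWRD : WrdStatement.{u, w})
    (hMTC : MtcStatement.{u, w}) : Cg1Statement.{u, w} := by
  intro k _ W 𝒱 hW X n hX ξ hξ hL hΛ hHT F q hq hdeg hpol halg r hFr habs hrel j x hx
  classical
  have hM := WRD.mem_prodSeq hX r
  have hq0 : (q : ℂ) ≠ 0 := by exact_mod_cast (by omega : q ≠ 0)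
  -- the letters
  choose Lt t₀ ht₀ hLt hgen hspan using fun i =>
    hLET hW (hX i) (hξ i) (hL i) (hΛ i) (hHT i) (F := F i) (by omega : 0 < q) (hdeg i) (hpol i)
      (halg i)
  obtain ⟨s, hs, hsx⟩ := hFr j x hx
  -- the exponent
  obtain ⟨t, htdef⟩ : ∃ t, t = s * ∏ i ∈ Finset.range (r + 1), t₀ i := ⟨_, rfl⟩
  have ht : 0 < t := by
    rw [htdef]
    exact Nat.mul_pos hs (Finset.prod_pos fun i _ => ht₀ i)
  have hxt : (W.pull (homSeq F r))^[t] x = ((q : ℂ) ^ (j * t)) • x := by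
    have h1 := CG.iter_mul_smul (W.pull (homSeq F r)).toLinearMap s
      (∏ i ∈ Finset.range (r + 1), t₀ i) _ hsx
    rw [← htdef, ← pow_mul, mul_assoc, ← htdef] at h1
    exact h1
  have ht₀t : ∀ i ≤ r, t₀ i ∣ t := by
    intro i hi
    rw [htdef]
    exact (Finset.dvd_prod_of_mem t₀ (Finset.mem_range.2 (by omega))).trans (dvd_mul_left _ _)
  -- the transcendental letters of a word
  let sup : (∀ i, W.coh (X i)) → (ℕ → ℂ) → Finset ℕ := fun y μ =>
    (Finset.range (r + 1)).filter fun i => ¬ ∃ j, y i ∈ W.alg (X i) j ∧ μ i = (q : ℂ) ^ j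
  -- analysis of a word
  have key : ∀ (y : ∀ i, W.coh (X i)) (μ : ℕ → ℂ), (∀ i ≤ r, Lt i (y i) (μ i)) →
      (∃ d : ℕ → ℕ, ∀ i ≤ r, y i ∈ W.gr (X i) (d i)) ∧ (∀ i ∈ sup y μ, i ≤ r) ∧
      (∀ i ≤ r, i ∉ sup y μ → ∃ c, y i ∈ W.alg (X i) c) ∧
      (∀ i ∈ sup y μ, ∀ j, ∀ a ∈ W.alg (X i) j, W.tr (X i) (a * y i) = 0) ∧
      (∀ j' : ℕ, (∏ i ∈ Finset.range (r + 1), μ i) ^ t = (q : ℂ) ^ (j' * t) →
        ∃ σ : ℕ → ℕ, (∀ p ∈ sup y μ, σ p ∈ sup y μ ∧ σ (σ p) = p ∧
          (σ p ≠ p → PairOK W (y p) (y (σ p)))) ∧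
          ∀ p ∈ sup y μ, ∀ p' ∈ sup y μ, σ p = p → σ p' = p' → p = p') := by
    intro y μ hy
    have hlet : ∀ i ≤ r, Letter W (X i) (n i) (ξ i) (F i) q (y i) (μ i) := fun i hi =>
      hLt i _ _ (hy i hi)
    obtain ⟨S, hSdef⟩ : ∃ S, S = sup y μ := ⟨_, rfl⟩
    rw [← hSdef]
    have hSr : ∀ i ∈ S, i ≤ r := fun i hi => by
      rw [hSdef] at hi
      have := (Finset.mem_filter.1 hi).1
      have := Finset.mem_range.1 this
      omega
    have hSn : ∀ i ≤ r, i ∉ S → ∃ j, y i ∈ W.alg (X i) j ∧ μ i = (q : ℂ) ^ j := by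
      intro i hi hS
      by_contra hcon
      rw [hSdef] at hS
      exact hS (Finset.mem_filter.2 ⟨Finset.mem_range.2 (by omega), hcon⟩)
    have hSy : ∀ i ∈ S, ∃ (e s : ℕ) (v : W.coh (X i)) (β : ℂ), e ≤ n i ∧
        v ∈ TS W (X i) (n i) (ξ i) e ∧ v ≠ 0 ∧
        v ∈ Module.End.maxGenEigenspace (W.pull (F i)).toLinearMap β ∧ y i = ξ i ^ s * v ∧
        μ i = (q : ℂ) ^ s * β := by
      intro i hi
      rcases hlet i (hSr i hi) with h | h
      · rw [hSdef] at hi
        exact absurd h (Finset.mem_filter.1 hi).2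
      · exact h
    choose! J hJ1 hJ2 using hSn
    have hSy' : ∀ i, ∃ (e s : ℕ) (v : W.coh (X i)) (β : ℂ), i ∈ S → e ≤ n i ∧
        v ∈ TS W (X i) (n i) (ξ i) e ∧ v ≠ 0 ∧
        v ∈ Module.End.maxGenEigenspace (W.pull (F i)).toLinearMap β ∧ y i = ξ i ^ s * v ∧
        μ i = (q : ℂ) ^ s * β := by
      intro i
      by_cases hi : i ∈ S
      · obtain ⟨e, s, v, β, h⟩ := hSy i hi
        exact ⟨e, s, v, β, fun _ => h⟩
      · exact ⟨0, 0, 0, 0, fun h => absurd h hi⟩
    choose e s' v β hS using hSy'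
    refine ⟨⟨fun i => if i ∈ S then 2 * s' i + e i else 2 * J i, ?_⟩, hSr, ?_, ?_, ?_⟩
    · intro i hi
      change y i ∈ W.gr (X i) (if i ∈ S then 2 * s' i + e i else 2 * J i)
      by_cases hi' : i ∈ S
      · rw [if_pos hi', (hS i hi').2.2.2.2.1]
        exact hW.mul_gr (hX i) (hW.alg_gr (hX i) (hW.pow_alg (hX i) (hξ i) _)) (hS i hi').2.1.1.1
      · rw [if_neg hi']
        exact hW.alg_gr (hX i) (hJ1 i hi hi')
    · intro i hi hi'
      exact ⟨_, hJ1 i hi hi'⟩
    · intro i hi j a ha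
      rw [(hS i hi).2.2.2.2.1, ← mul_assoc,
        hW.alg_comm (hX i) (hW.mul_alg (hX i) ha (hW.pow_alg (hX i) (hξ i) _))]
      exact (hS i hi).2.1.2 _ _ (hW.mul_alg (hX i) ha (hW.pow_alg (hX i) (hξ i) _))
    · intro j' hμ
      -- the product of the eigenvalues
      have hprod : ∏ i ∈ Finset.range (r + 1), μ i
          = (q : ℂ) ^ (∑ i ∈ Finset.range (r + 1), if i ∈ S then s' i else J i)
            * ∏ p ∈ S, β p := by
        have hS2 : ∏ p ∈ S, β p = ∏ i ∈ Finset.range (r + 1), if i ∈ S then β i else 1 := by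
          rw [← Finset.prod_filter]
          refine Finset.prod_congr ?_ fun _ _ => rfl
          ext i
          simp only [Finset.mem_filter, Finset.mem_range]
          exact ⟨fun h => ⟨by have := hSr i h; omega, h⟩, fun h => h.2⟩
        rw [hS2, ← Finset.prod_pow_eq_pow_sum, ← Finset.prod_mul_distrib]
        refine Finset.prod_congr rfl fun i hi => ?_
        have hir : i ≤ r := by have := Finset.mem_range.1 hi; omega
        by_cases hi' : i ∈ S
        · rw [if_pos hi', if_pos hi', (hS i hi').2.2.2.2.2]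
        · rw [if_neg hi', if_neg hi', hJ2 i hir hi', mul_one]
      rw [hprod] at hμ
      obtain ⟨c, hc1, hc2⟩ := CG.expo hq ht (i := e) (fun p hp =>
        habs p (e p) (hS p hp).1 (v p) (β p) (hS p hp).2.1 (hS p hp).2.2.1 (hS p hp).2.2.2.1) hμ
      obtain ⟨σ, hσ, hσ1⟩ := hrel S e v β c t (fun p hp => ⟨hSr p hp, (hS p hp).1, (hS p hp).2.1,
        (hS p hp).2.2.1, (hS p hp).2.2.2.1⟩) hc1 ht hc2
      refine ⟨σ, fun p hp => ?_, hσ1⟩
      obtain ⟨h1, h2, h4⟩ := hσ p hp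
      refine ⟨h1, h2, fun h3 => ?_⟩
      rw [(hS p hp).2.2.2.2.1, (hS (σ p) h1).2.2.2.2.1]
      exact CG.pairOK_mul hW (hX p) (hX (σ p)) (hW.pow_alg (hX p) (hξ p) _)
        (hW.pow_alg (hX (σ p)) (hξ (σ p)) _) (h4 h3)
  -- words with different transcendental letters are orthogonal
  have hort : ∀ (y : ∀ i, W.coh (X i)) (μ : ℕ → ℂ), (∀ i ≤ r, Lt i (y i) (μ i)) →
      ∀ (y' : ∀ i, W.coh (X i)) (μ' : ℕ → ℂ), (∀ i ≤ r, Lt i (y' i) (μ' i)) →
      sup y μ ≠ sup y' μ' → W.tr (prodSeq X r) (word W X y r * word W X y' r) = 0 := by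
    intro y μ hy y' μ' hy' hne
    obtain ⟨⟨d, hd⟩, hr, ha, ho, -⟩ := key y μ hy
    obtain ⟨⟨d', hd'⟩, hr', ha', ho', -⟩ := key y' μ' hy'
    refine CG1.tr_word hW hX r hd hd' ?_
    by_contra hcon
    apply hne
    ext p
    constructor
    · intro hp
      by_contra hp'
      obtain ⟨c, hc⟩ := ha' p (hr p hp) hp'
      refine hcon ⟨p, hr p hp, ?_⟩
      rw [← hW.alg_comm (hX p) hc]
      exact ho p hp _ _ hc
    · intro hp
      by_contra hp'
      obtain ⟨c, hc⟩ := ha p (hr' p hp) hp'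
      exact hcon ⟨p, hr' p hp, ho' p hp _ _ hc⟩
  -- the two kinds of words
  let A : Set (W.coh (prodSeq X r)) := {z | ∃ (y : ∀ i, W.coh (X i)) (μ : ℕ → ℂ),
    (∀ i ≤ r, Lt i (y i) (μ i)) ∧ Even (sup y μ).card ∧
      (∏ i ∈ Finset.range (r + 1), μ i) ^ t = (q : ℂ) ^ (j * t) ∧ z = word W X y r}
  let B : Set (W.coh (prodSeq X r)) := {z | ∃ (y : ∀ i, W.coh (X i)) (μ : ℕ → ℂ),
    (∀ i ≤ r, Lt i (y i) (μ i)) ∧ ¬ Even (sup y μ).card ∧ z = word W X y r}
  have hA : Submodule.span ℂ A ≤ pairSpan W X r := by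
    refine Submodule.span_le.2 ?_
    rintro z ⟨y, μ, hy, hev, hμ, rfl⟩
    obtain ⟨⟨d, hd⟩, hr, ha, ho, hσ⟩ := key y μ hy
    obtain ⟨σ, hσ1, hσ2⟩ := hσ j hμ
    have hnf := CG1.not_fixed_of_even (fun p hp => ⟨(hσ1 p hp).1, (hσ1 p hp).2.1⟩) hσ2 hev
    exact hMTC hW hX r y d hd (sup y μ) hr
      (fun i hi hi' => Submodule.subset_span (ha i hi hi')) σ
      (fun p hp => ⟨(hσ1 p hp).1, (hσ1 p hp).2.1, hnf p hp, (hσ1 p hp).2.2 (hnf p hp)⟩)
  have hAB : ∀ a ∈ Submodule.span ℂ A, ∀ b ∈ Submodule.span ℂ B,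
      W.tr (prodSeq X r) (a * b) = 0 := by
    intro a ha b hb
    refine Submodule.span_induction (p := fun a _ => W.tr (prodSeq X r) (a * b) = 0)
      ?_ ?_ ?_ ?_ ha
    · rintro a ⟨y, μ, hy, hev, -, rfl⟩
      refine Submodule.span_induction (p := fun b _ =>
        W.tr (prodSeq X r) (word W X y r * b) = 0) ?_ ?_ ?_ ?_ hb
      · rintro b ⟨y', μ', hy', hodd, rfl⟩
        exact hort y μ hy y' μ' hy' fun h => hodd (by rw [← h]; exact hev)
      · rw [mul_zero, map_zero]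
      · intro b b' _ _ h h'
        rw [mul_add, map_add, h, h', add_zero]
      · intro c b _ h
        rw [mul_smul_comm, map_smul, h, smul_zero]
    · rw [zero_mul, map_zero]
    · intro a a' _ _ h h'
      rw [add_mul, map_add, h, h', add_zero]
    · intro c a _ h
      rw [smul_mul_assoc, map_smul, h, smul_zero]
  -- odd words are orthogonal to `x`
  have hxB : ∀ b ∈ Submodule.span ℂ B, W.tr (prodSeq X r) (x * b) = 0 := by
    intro b hb
    refine Submodule.span_induction (p := fun b _ => W.tr (prodSeq X r) (x * b) = 0)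
      ?_ ?_ ?_ ?_ hb
    · rintro b ⟨y, μ, hy, hodd, rfl⟩
      obtain ⟨⟨d, hd⟩, hr, ha, ho, hσ⟩ := key y μ hy
      by_cases hj : j ≤ ∑ i ∈ Finset.range (r + 1), n i
      · by_cases hμ : (q : ℂ) ^ (j * t) * (∏ i ∈ Finset.range (r + 1), μ i) ^ t
            = ((q : ℂ) ^ (∑ i ∈ Finset.range (r + 1), n i)) ^ t
        · have hμ' : (∏ i ∈ Finset.range (r + 1), μ i) ^ t
              = (q : ℂ) ^ ((∑ i ∈ Finset.range (r + 1), n i - j) * t) := by
            refine mul_left_cancel₀ (pow_ne_zero (j * t) hq0) ?_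
            rw [hμ, ← pow_add, ← add_mul, Nat.add_sub_cancel' hj, pow_mul]
          obtain ⟨σ, hσ1, hσ2⟩ := hσ _ hμ'
          obtain ⟨p₀, hp₀, hfix⟩ := CG1.fixed_of_odd
            (fun p hp => ⟨(hσ1 p hp).1, (hσ1 p hp).2.1⟩) hodd
          exact CG1.tr_single hW hX hd hr
            (fun i hi hi' => Submodule.subset_span (ha i hi hi')) hσ1 hp₀ hfix
            (fun p hp h => hσ2 p hp p₀ hp₀ h hfix) (ho p₀ hp₀) hx
        · refine CG1.tr_eig hW (CG1.tr_homSeq hW hX hdeg r) hxt hμ ?_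
          have h1 := WRD.word_eig F t y (fun i => μ i ^ t) r
            (fun i hi => hgen i t (ht₀t i hi) _ _ (hy i hi))
          rw [Finset.prod_pow] at h1
          exact h1
      · rw [hW.top_gr hM (hW.alg_gr hM hx) (by omega), zero_mul, map_zero]
    · rw [mul_zero, map_zero]
    · intro b b' _ _ h h'
      rw [mul_add, map_add, h, h', add_zero]
    · intro c b _ h
      rw [mul_smul_comm, map_smul, h, smul_zero]
  -- the decomposition of `x` into even and odd words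
  have hxAB : x ∈ Submodule.span ℂ (A ∪ B) := by
    -- change of `F` and of the letters outside `{0, …, r}`
    let F' : ∀ i, X i ⟶ X i := fun i => if i ≤ r then F i else 𝟙 (X i)
    have hF' : ∀ i ≤ r, F' i = F i := fun i hi => if_pos hi
    have hF'' : ∀ i, ¬ i ≤ r → F' i = 𝟙 (X i) := fun i hi => if_neg hi
    have hxt' := hxt
    rw [← CG.homSeq_congr r hF'] at hxt'
    let Lt' : ∀ i, W.coh (X i) → ℂ → Prop := fun i x μ => if i ≤ r then Lt i x μ else μ = 1
    have hw := hWRD hW hX F' Lt' t ?_ ?_ r _ x hxt'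
    · refine Submodule.span_mono ?_ hw
      rintro z ⟨y, μ, hy, hμ, rfl⟩
      have hy' : ∀ i ≤ r, Lt i (y i) (μ i) := fun i hi => by
        have := hy i hi
        simpa only [Lt', if_pos hi] using this
      by_cases hev : Even (sup y μ).card
      · exact Or.inl ⟨y, μ, hy', hev, hμ, rfl⟩
      · exact Or.inr ⟨y, μ, hy', hev, rfl⟩
    · intro i x μ hxμ
      by_cases hi : i ≤ r
      · rw [hF' i hi]
        simp only [Lt', if_pos hi] at hxμ
        exact hgen i t (ht₀t i hi) x μ hxμ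
      · rw [hF'' i hi]
        simp only [Lt', if_neg hi] at hxμ
        subst hxμ
        rw [Module.End.mem_maxGenEigenspace]
        refine ⟨1, ?_⟩
        have h1 : ∀ m : ℕ, ((W.pull (𝟙 (X i))).toLinearMap ^ m) x = x := by
          intro m
          induction m with
          | zero => rfl
          | succ m ih =>
            rw [pow_succ', Module.End.mul_apply, ih]
            exact W.pull_id x
        rw [pow_one, LinearMap.sub_apply, h1, one_pow, one_smul]
        exact sub_self x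
    · intro i
      by_cases hi : i ≤ r
      · simp only [Lt', if_pos hi]
        exact hspan i
      · simp only [Lt', if_neg hi]
        rw [eq_top_iff]
        intro x _
        exact Submodule.subset_span ⟨1, rfl⟩
  rw [Submodule.span_union] at hxAB
  obtain ⟨e, he, o, ho, rfl⟩ := Submodule.mem_sup.1 hxAB
  -- the odd part vanishes
  have hBE : ∀ (y : ∀ i, W.coh (X i)) (μ : ℕ → ℂ), (∀ i ≤ r, Lt i (y i) (μ i)) →
      Even (sup y μ).card → W.tr (prodSeq X r) (o * word W X y r) = 0 := by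
    intro y μ hy hev
    refine Submodule.span_induction (p := fun b _ =>
      W.tr (prodSeq X r) (b * word W X y r) = 0) ?_ ?_ ?_ ?_ ho
    · rintro b ⟨y', μ', hy', hodd, rfl⟩
      exact hort y' μ' hy' y μ hy fun h => hodd (by rw [h]; exact hev)
    · rw [zero_mul, map_zero]
    · intro b b' _ _ h h'
      rw [add_mul, map_add, h, h', add_zero]
    · intro c b _ h
      rw [smul_mul_assoc, map_smul, h, smul_zero]
  have ho0 : o = 0 := by
    refine hW.duality hM o fun z => ?_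
    have hz : z ∈ Submodule.span ℂ {z | ∃ v : ∀ i, W.coh (X i),
        (∀ i ≤ r, v i ∈ {x | ∃ μ, Lt i x μ}) ∧ z = word W X v r} := by
      rw [WRD.word_span hW hX (fun i => {x | ∃ μ, Lt i x μ}) hspan r]
      exact Submodule.mem_top
    refine Submodule.span_induction (p := fun z _ =>
      W.tr (prodSeq X r) (o * z) = 0) ?_ ?_ ?_ ?_ hz
    · rintro z ⟨y, hy, rfl⟩
      have h3 : ∀ i, ∃ μ, i ≤ r → Lt i (y i) μ := fun i => by
        by_cases hi : i ≤ r
        · obtain ⟨μ, hμ⟩ := hy i hi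
          exact ⟨μ, fun _ => hμ⟩
        · exact ⟨0, fun h => absurd h hi⟩
      choose μ hμ using h3
      by_cases hev : Even (sup y μ).card
      · exact hBE y μ hμ hev
      · have hB : word W X y r ∈ Submodule.span ℂ B :=
          Submodule.subset_span ⟨y, μ, hμ, hev, rfl⟩
        have h4 := hxB _ hB
        rw [add_mul, map_add, hAB e he _ hB, zero_add] at h4
        exact h4
    · rw [mul_zero, map_zero]
    · intro b b' _ _ h h'
      rw [mul_add, map_add, h, h', add_zero]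
    · intro c b _ h
      rw [mul_smul_comm, map_smul, h, smul_zero]
  rw [ho0, add_zero]
  exact hA he

end Pool.Agent.Lib.MP_361a6f_ag.PP
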