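import Pool.Agent.Lib.MP_361a6f_ag.PP.Defs

/-!
# Row PFX: a class whose operator commutes with the real structures is fixed
-/

open CategoryTheory AlgebraicGeometry MonoidalCategory CartesianMonoidalCategory

universe u v w

set_option linter.unusedSectionVars false

namespace Pool.Agent.Lib.MP_361a6f_ag.PP

open Pool.Agent.Lib.MP_361a6f_ag.H3 Pool.Agent.Lib.MP_361a6f_ag.SQ

namespace PFX

section gen

variable {k : Type u} [Field k] {K : Type v} [Field K] [CharZero K]
  {W : CohomologyData.{u, v, w} k K} {𝒱 : VarietyClass k}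

/-- duality in the second variable -/
theorem duality_right (hW : IsWeilCohomology W 𝒱) {X : Sch k} {n : ℕ} (hX : 𝒱.mem X n)
    (y : W.coh X) (h : ∀ x, W.tr X (x * y) = 0) : y = 0 := by
  have : Module.Finite K (W.coh X) := hW.finite hX
  have hflip : Function.Injective (dmap W X).flip := by
    rw [← LinearMap.ker_eq_bot, LinearMap.ker_eq_bot']
    intro x hx
    refine hW.duality hX x (fun y => ?_)
    have := LinearMap.congr_fun hx y
    simpa [LinearMap.flip_apply, dmap_apply] using this
  have hsur : Function.Surjective (dmap W X).flip := by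
    refine (LinearMap.injective_iff_surjective_of_finrank_eq_finrank ?_).1 hflip
    exact (Subspace.dual_finrank_eq (K := K) (V := W.coh X)).symm
  rw [← Module.forall_dual_apply_eq_zero_iff K y]
  intro φ
  obtain ⟨x, rfl⟩ := hsur φ
  rw [LinearMap.flip_apply, dmap_apply]
  exact h x

/-- the other half of the dual basis property -/
theorem dual_right (hW : IsWeilCohomology W 𝒱) {X : Sch k} {n : ℕ} (hX : 𝒱.mem X n)
    {m : ℕ} {b b' : Fin m → W.coh X} (hb : ∀ x, x = ∑ j, W.tr X (x * b' j) • b j)
    (a : W.coh X) : a = ∑ j, W.tr X (b j * a) • b' j := by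
  rw [← sub_eq_zero]
  refine duality_right hW hX _ (fun x => ?_)
  rw [mul_sub, map_sub, Finset.mul_sum, map_sum, sub_eq_zero]
  conv_lhs => rw [hb x]
  rw [Finset.sum_mul, map_sum]
  refine Finset.sum_congr rfl fun j _ => ?_
  rw [smul_mul_assoc, map_smul, mul_smul_comm, map_smul, smul_eq_mul, smul_eq_mul, mul_comm]

/-- a class is recovered from its operator -/
theorem recover (hW : IsWeilCohomology W 𝒱) {X Y : Sch k} {n d : ℕ} (hX : 𝒱.mem X n)
    (hY : 𝒱.mem Y d) {m : ℕ} {b b' : Fin m → W.coh X}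
    (hb : ∀ x, x = ∑ j, W.tr X (x * b' j) • b j) (γ : W.coh (X ⊗ Y)) :
    γ = ∑ j, W.pull (fst X Y) (b' j)
      * W.pull (snd X Y) (W.push (snd X Y) (W.pull (fst X Y) (b j) * γ)) := by
  refine prod_induction hW hX hY (P := fun γ => γ = ∑ j, W.pull (fst X Y) (b' j)
      * W.pull (snd X Y) (W.push (snd X Y) (W.pull (fst X Y) (b j) * γ))) γ ?_ ?_ ?_ ?_
  · intro a c
    have e : ∀ j, W.pull (fst X Y) (b' j) * W.pull (snd X Y) (W.push (snd X Y)
        (W.pull (fst X Y) (b j) * (W.pull (fst X Y) a * W.pull (snd X Y) c)))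
        = W.pull (fst X Y) (W.tr X (b j * a) • b' j) * W.pull (snd X Y) c := by
      intro j
      rw [← mul_assoc (W.pull (fst X Y) (b j)), ← map_mul (W.pull (fst X Y)),
        push_snd_ext hW hX hY, map_smul (W.pull (snd X Y)), map_smul (W.pull (fst X Y)),
        mul_smul_comm, smul_mul_assoc]
    rw [Finset.sum_congr rfl fun j _ => e j, ← Finset.sum_mul, ← map_sum,
      ← dual_right hW hX hb a]
  · simp
  · intro x y hx hy
    have e : ∀ j, W.pull (fst X Y) (b' j) * W.pull (snd X Y) (W.push (snd X Y)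
        (W.pull (fst X Y) (b j) * (x + y)))
        = W.pull (fst X Y) (b' j) * W.pull (snd X Y) (W.push (snd X Y)
          (W.pull (fst X Y) (b j) * x)) + W.pull (fst X Y) (b' j) *
          W.pull (snd X Y) (W.push (snd X Y) (W.pull (fst X Y) (b j) * y)) := by
      intro j
      rw [mul_add, map_add, map_add, mul_add]
    rw [Finset.sum_congr rfl fun j _ => e j, Finset.sum_add_distrib, ← hx, ← hy]
  · intro c x hx
    have e : ∀ j, W.pull (fst X Y) (b' j) * W.pull (snd X Y) (W.push (snd X Y)
        (W.pull (fst X Y) (b j) * (c • x)))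
        = c • (W.pull (fst X Y) (b' j) * W.pull (snd X Y) (W.push (snd X Y)
          (W.pull (fst X Y) (b j) * x))) := by
      intro j
      rw [mul_smul_comm, map_smul, map_smul, mul_smul_comm]
    rw [Finset.sum_congr rfl fun j _ => e j, ← Finset.smul_sum, ← hx]

end gen

end PFX

/-- Row PFX. -/
theorem pfx : PfxStatement.{u, w} := by
  intro k _ W 𝒱 hW X Y n d hX hY jX jY htr hsurj γ _ hcomm
  obtain ⟨m, b, b', hb⟩ := exists_dual hW hX
  have hb2 : ∀ x, x = ∑ i, W.tr X (x * jX (b' i)) • jX (b i) := by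
    intro x
    obtain ⟨x, rfl⟩ := hsurj x
    conv_lhs => rw [hb x]
    rw [map_sum]
    refine Finset.sum_congr rfl fun i _ => ?_
    rw [map_smulₛₗ, htr]
  refine ⟨m, b', fun i => W.push (snd X Y) (W.pull (fst X Y) (b i) * γ),
    PFX.recover hW hX hY hb γ, ?_⟩
  refine (PFX.recover hW hX hY hb2 γ).trans (Finset.sum_congr rfl fun i _ => ?_)
  rw [hcomm]

end Pool.Agent.Lib.MP_361a6f_ag.PP
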