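import Pool.Agent.Lib.MP_361a6f_ag.PP.Defs
import Pool.Agent.Lib.MP_361a6f_ag.SQ.OpTrace

/-!
# Algebraic operators `H(X) → H(Y)`
-/

open CategoryTheory AlgebraicGeometry MonoidalCategory CartesianMonoidalCategory

universe u v w

set_option linter.unusedSectionVars false

namespace Pool.Agent.Lib.MP_361a6f_ag.PP

open Pool.Agent.Lib.MP_361a6f_ag.H3 Pool.Agent.Lib.MP_361a6f_ag.SQ
  Pool.Agent.Lib.MP_361a6f_ag.IP2

variable {k : Type u} [Field k] {K : Type v} [Field K] [CharZero K]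
  {W : CohomologyData.{u, v, w} k K} {𝒱 : VarietyClass k}

/-- the operator `H(X) → H(Y)` of a class on `X × Y` -/
noncomputable def cor (W : CohomologyData.{u, v, w} k K) {X Y : Sch k} (γ : W.coh (X ⊗ Y)) :
    W.coh X →ₗ[K] W.coh Y where
  toFun s := W.push (snd X Y) (W.pull (fst X Y) s * γ)
  map_add' s s' := by rw [map_add, add_mul, map_add]
  map_smul' c s := by rw [map_smul, smul_mul_assoc, map_smul, RingHom.id_apply]

theorem cor_apply {X Y : Sch k} (γ : W.coh (X ⊗ Y)) (s : W.coh X) :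
    cor W γ s = W.push (snd X Y) (W.pull (fst X Y) s * γ) := rfl

theorem algCor_iff {X : Sch k} {u : W.coh X →ₗ[K] W.coh X} : AlgCor W X X u ↔ AlgOp W X u :=
  Iff.rfl

theorem AlgCor.exists_cor {X Y : Sch k} {u : W.coh X →ₗ[K] W.coh Y} (h : AlgCor W X Y u) :
    ∃ γ ∈ tot W (X ⊗ Y), u = cor W γ := by
  obtain ⟨γ, hγ, h⟩ := h
  exact ⟨γ, hγ, LinearMap.ext h⟩

theorem cor_algCor {X Y : Sch k} {γ : W.coh (X ⊗ Y)} (hγ : γ ∈ tot W (X ⊗ Y)) :
    AlgCor W X Y (cor W γ) := ⟨γ, hγ, fun _ => rfl⟩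

theorem cor_add {X Y : Sch k} (γ γ' : W.coh (X ⊗ Y)) : cor W (γ + γ') = cor W γ + cor W γ' := by
  ext s
  rw [LinearMap.add_apply, cor_apply, cor_apply, cor_apply, mul_add, map_add]

theorem cor_smul {X Y : Sch k} (c : K) (γ : W.coh (X ⊗ Y)) : cor W (c • γ) = c • cor W γ := by
  ext s
  rw [LinearMap.smul_apply, cor_apply, cor_apply, mul_smul_comm, map_smul]

theorem cor_zero {X Y : Sch k} : cor W (0 : W.coh (X ⊗ Y)) = 0 := by
  ext s
  rw [LinearMap.zero_apply, cor_apply, mul_zero, map_zero]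

/-- the bilinear form of a class on `X × Y` -/
noncomputable def bilC (W : CohomologyData.{u, v, w} k K) {X Y : Sch k} (γ : W.coh (X ⊗ Y))
    (s : W.coh X) (t : W.coh Y) : K :=
  W.tr (X ⊗ Y) (W.pull (fst X Y) s * W.pull (snd X Y) t * γ)

section op

variable (hW : IsWeilCohomology W 𝒱) {X Y Z : Sch k} {n d e : ℕ} (hX : 𝒱.mem X n)
  (hY : 𝒱.mem Y d) (hZ : 𝒱.mem Z e)

include hW hX hY in
theorem cor_tr {γ : W.coh (X ⊗ Y)} (hγ : γ ∈ tot W (X ⊗ Y)) (s : W.coh X) (t : W.coh Y) :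
    W.tr Y (cor W γ s * t) = bilC W γ s t := by
  have hXY := 𝒱.prod hX hY
  rw [cor_apply, hW.push_adj hXY hY, bilC, mul_assoc, mul_assoc, tot_comm hW hXY hγ]

include hW hX hY in
/-- the operator of an exterior product -/
theorem cor_ext (a : W.coh X) (b : W.coh Y) (s : W.coh X) :
    cor W (W.pull (fst X Y) a * W.pull (snd X Y) b) s = W.tr X (s * a) • b := by
  rw [cor_apply, ← mul_assoc, ← map_mul, push_snd_ext hW hX hY]

include hW hX hY in
/-- an operator is algebraic if its bilinear form is -/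
theorem AlgCor.of_bil {u : W.coh X →ₗ[K] W.coh Y} {γ : W.coh (X ⊗ Y)} (hγ : γ ∈ tot W (X ⊗ Y))
    (h : ∀ s t, W.tr Y (u s * t) = bilC W γ s t) : u = cor W γ := by
  refine LinearMap.ext fun s => ?_
  rw [← sub_eq_zero]
  refine hW.duality hY _ (fun t => ?_)
  rw [sub_mul, map_sub, h s t, cor_tr hW hX hY hγ, sub_self]

theorem AlgCor.zero : AlgCor W X Y 0 :=
  ⟨0, zero_mem _, fun s => by rw [mul_zero, map_zero, LinearMap.zero_apply]⟩

theorem AlgCor.add {u u' : W.coh X →ₗ[K] W.coh Y} (h : AlgCor W X Y u) (h' : AlgCor W X Y u') :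
    AlgCor W X Y (u + u') := by
  obtain ⟨γ, hγ, hu⟩ := h
  obtain ⟨γ', hγ', hu'⟩ := h'
  refine ⟨γ + γ', add_mem hγ hγ', fun s => ?_⟩
  rw [LinearMap.add_apply, hu, hu', mul_add, map_add]

theorem AlgCor.neg {u : W.coh X →ₗ[K] W.coh Y} (h : AlgCor W X Y u) : AlgCor W X Y (-u) := by
  obtain ⟨γ, hγ, hu⟩ := h
  refine ⟨-γ, neg_mem hγ, fun s => ?_⟩
  rw [LinearMap.neg_apply, hu, mul_neg, map_neg]

include hW hX hY in
theorem AlgCor.smul (q : ℚ) {u : W.coh X →ₗ[K] W.coh Y} (h : AlgCor W X Y u) :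
    AlgCor W X Y ((q : K) • u) := by
  obtain ⟨γ, hγ, hu⟩ := h
  refine ⟨(q : K) • γ, tot_smul hW (𝒱.prod hX hY) q hγ, fun s => ?_⟩
  rw [LinearMap.smul_apply, hu, mul_smul_comm, map_smul]

theorem AlgCor.sum {ι : Type*} (S : Finset ι) (u : ι → W.coh X →ₗ[K] W.coh Y)
    (h : ∀ i ∈ S, AlgCor W X Y (u i)) : AlgCor W X Y (∑ i ∈ S, u i) := by
  classical
  induction S using Finset.induction_on with
  | empty => rw [Finset.sum_empty]; exact AlgCor.zero
  | insert i S hi ih =>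
    rw [Finset.sum_insert hi]
    exact (h i (Finset.mem_insert_self i S)).add
      (ih fun j hj => h j (Finset.mem_insert_of_mem hj))

/-- the projection `X × Y × Z → Y × Z` -/
noncomputable def q23 (X Y Z : Sch k) : (X ⊗ Y) ⊗ Z ⟶ Y ⊗ Z :=
  lift (fst (X ⊗ Y) Z ≫ snd X Y) (snd (X ⊗ Y) Z)

/-- the projection `X × Y × Z → X × Z` -/
noncomputable def q13 (X Y Z : Sch k) : (X ⊗ Y) ⊗ Z ⟶ X ⊗ Z :=
  lift (fst (X ⊗ Y) Z ≫ fst X Y) (snd (X ⊗ Y) Z)

include hW hX hY hZ in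
/-- base change for the triple product -/
theorem tr_triple' (a : W.coh (X ⊗ Y)) (v : W.coh (Y ⊗ Z)) :
    W.tr ((X ⊗ Y) ⊗ Z) (W.pull (fst (X ⊗ Y) Z) a * W.pull (q23 X Y Z) v)
      = W.tr (Y ⊗ Z) (W.pull (fst Y Z) (W.push (snd X Y) a) * v) := by
  have hXY := 𝒱.prod hX hY
  have hYZ := 𝒱.prod hY hZ
  refine prod_induction hW hX hY (P := fun a =>
    W.tr ((X ⊗ Y) ⊗ Z) (W.pull (fst (X ⊗ Y) Z) a * W.pull (q23 X Y Z) v)
      = W.tr (Y ⊗ Z) (W.pull (fst Y Z) (W.push (snd X Y) a) * v)) a ?_ ?_ ?_ ?_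
  · intro a b
    refine prod_induction hW hY hZ (P := fun v =>
      W.tr ((X ⊗ Y) ⊗ Z) (W.pull (fst (X ⊗ Y) Z) (W.pull (fst X Y) a * W.pull (snd X Y) b)
        * W.pull (q23 X Y Z) v)
      = W.tr (Y ⊗ Z) (W.pull (fst Y Z) (W.push (snd X Y) (W.pull (fst X Y) a *
        W.pull (snd X Y) b)) * v)) v ?_ ?_ ?_ ?_
    · intro c e'
      rw [push_snd_ext hW hX hY, map_smul, smul_mul_assoc, map_smul, smul_eq_mul,
        ← mul_assoc (W.pull (fst Y Z) b), ← map_mul, hW.kunneth_tr hY hZ]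
      have e1 : W.pull (q23 X Y Z) (W.pull (fst Y Z) c * W.pull (snd Y Z) e')
          = W.pull (fst (X ⊗ Y) Z) (W.pull (snd X Y) c) * W.pull (snd (X ⊗ Y) Z) e' := by
        rw [map_mul, ← W.pull_comp, ← W.pull_comp, ← W.pull_comp]
        congr 3
        · simp [q23]
        · simp [q23]
      rw [e1, ← mul_assoc, ← map_mul, hW.kunneth_tr hXY hZ, mul_assoc, ← map_mul,
        hW.kunneth_tr hX hY]
      ring
    · simp
    · intro p q hp hq
      rw [map_add, mul_add, map_add, hp, hq, mul_add, map_add]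
    · intro c p hp
      rw [map_smul, mul_smul_comm, map_smul, hp, mul_smul_comm, map_smul]
  · simp
  · intro p q hp hq
    rw [map_add, add_mul, map_add, hp, hq, map_add, map_add, add_mul, map_add]
  · intro c p hp
    rw [map_smul, smul_mul_assoc, map_smul, hp, map_smul, map_smul, smul_mul_assoc, map_smul]

/-- the composition of correspondences -/
noncomputable def compC (W : CohomologyData.{u, v, w} k K) {X Y Z : Sch k}
    (γ : W.coh (X ⊗ Y)) (γ' : W.coh (Y ⊗ Z)) : W.coh (X ⊗ Z) :=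
  W.push (q13 X Y Z) (W.pull (fst (X ⊗ Y) Z) γ * W.pull (q23 X Y Z) γ')

include hW hX hY hZ in
theorem compC_tot {γ : W.coh (X ⊗ Y)} {γ' : W.coh (Y ⊗ Z)} (hγ : γ ∈ tot W (X ⊗ Y))
    (hγ' : γ' ∈ tot W (Y ⊗ Z)) : compC W γ γ' ∈ tot W (X ⊗ Z) := by
  have hXY := 𝒱.prod hX hY
  have hYZ := 𝒱.prod hY hZ
  have hXZ := 𝒱.prod hX hZ
  have h3 := 𝒱.prod hXY hZ
  exact tot_push hW h3 hXZ _ (tot_mul hW h3 (tot_pull hW h3 hXY _ hγ) (tot_pull hW h3 hYZ _ hγ'))

include hW hX hY hZ in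
theorem cor_comp {γ : W.coh (X ⊗ Y)} {γ' : W.coh (Y ⊗ Z)} (hγ : γ ∈ tot W (X ⊗ Y))
    (hγ' : γ' ∈ tot W (Y ⊗ Z)) : cor W γ' ∘ₗ cor W γ = cor W (compC W γ γ') := by
  have hXY := 𝒱.prod hX hY
  have hYZ := 𝒱.prod hY hZ
  have hXZ := 𝒱.prod hX hZ
  have h3 := 𝒱.prod hXY hZ
  refine AlgCor.of_bil hW hX hZ (compC_tot hW hX hY hZ hγ hγ') (fun s t => ?_)
  rw [LinearMap.comp_apply, cor_tr hW hY hZ hγ', bilC, bilC,
    ← tot_comm hW hXZ (compC_tot hW hX hY hZ hγ hγ'), compC, hW.push_adj h3 hXZ]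
  have e1 : W.pull (q13 X Y Z) (W.pull (fst X Z) s * W.pull (snd X Z) t)
      = W.pull (fst (X ⊗ Y) Z) (W.pull (fst X Y) s)
        * W.pull (q23 X Y Z) (W.pull (snd Y Z) t) := by
    rw [map_mul, ← W.pull_comp, ← W.pull_comp, ← W.pull_comp, ← W.pull_comp]
    congr 3
    · simp [q13]
    · simp [q13, q23]
  have e2 : W.pull (fst (X ⊗ Y) Z) γ * W.pull (q23 X Y Z) γ'
        * (W.pull (fst (X ⊗ Y) Z) (W.pull (fst X Y) s)
        * W.pull (q23 X Y Z) (W.pull (snd Y Z) t))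
      = W.pull (fst (X ⊗ Y) Z) (W.pull (fst X Y) s * γ)
        * W.pull (q23 X Y Z) (W.pull (snd Y Z) t * γ') := by
    rw [map_mul, map_mul, mul_assoc (W.pull (fst (X ⊗ Y) Z) γ),
      ← mul_assoc (W.pull (q23 X Y Z) γ'),
      tot_comm hW h3 (tot_pull hW h3 hYZ (q23 X Y Z) hγ') (W.pull (fst (X ⊗ Y) Z) _),
      mul_assoc, ← mul_assoc (W.pull (fst (X ⊗ Y) Z) γ),
      tot_comm hW h3 (tot_pull hW h3 hXY (fst (X ⊗ Y) Z) hγ),
      tot_comm hW h3 (tot_pull hW h3 hYZ (q23 X Y Z) hγ')]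
  rw [e1, e2, tr_triple' hW hX hY hZ, ← mul_assoc]
  rfl

include hW hX hY hZ in
theorem AlgCor.comp {v : W.coh Y →ₗ[K] W.coh Z} {u : W.coh X →ₗ[K] W.coh Y}
    (h : AlgCor W Y Z v) (h' : AlgCor W X Y u) : AlgCor W X Z (v ∘ₗ u) := by
  obtain ⟨γ', hγ', rfl⟩ := h.exists_cor
  obtain ⟨γ, hγ, rfl⟩ := h'.exists_cor
  rw [cor_comp hW hX hY hZ hγ hγ']
  exact cor_algCor (compC_tot hW hX hY hZ hγ hγ')

include hW hX in
theorem AlgCor.id : AlgCor W X X LinearMap.id := AlgOp.id hW hX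

/-- interchange of the factors -/
noncomputable def sw (X Y : Sch k) : Y ⊗ X ≅ X ⊗ Y where
  hom := lift (snd Y X) (fst Y X)
  inv := lift (snd X Y) (fst X Y)
  hom_inv_id := by ext1 <;> simp
  inv_hom_id := by ext1 <;> simp

theorem sw_fst (X Y : Sch k) (s : W.coh X) :
    W.pull (sw X Y).hom (W.pull (fst X Y) s) = W.pull (snd Y X) s := by
  rw [← W.pull_comp]; simp [sw]

theorem sw_snd (X Y : Sch k) (t : W.coh Y) :
    W.pull (sw X Y).hom (W.pull (snd X Y) t) = W.pull (fst Y X) t := by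
  rw [← W.pull_comp]; simp [sw]

theorem sw_sw (X Y : Sch k) (γ : W.coh (X ⊗ Y)) :
    W.pull (sw Y X).hom (W.pull (sw X Y).hom γ) = γ := by
  rw [← W.pull_comp]
  have : (sw Y X).hom ≫ (sw X Y).hom = 𝟙 _ := by
    ext1 <;> simp [sw]
  rw [this, W.pull_id]

include hW hX hY in
/-- the bilinear form of an algebraic class vanishes on classes of different parity -/
theorem bilC_parity {γ : W.coh (X ⊗ Y)} (hγ : γ ∈ tot W (X ⊗ Y)) {i j : ℕ} {s : W.coh X}
    {t : W.coh Y} (hs : s ∈ W.gr X i) (ht : t ∈ W.gr Y j) (hij : ¬ 2 ∣ i + j) :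
    bilC W γ s t = 0 := by
  have hXY := 𝒱.prod hX hY
  refine tot_induction hW (P := fun γ => bilC W γ s t = 0) hγ ?_ ?_
  · intro c γ hγ
    refine hW.tr_gr hXY (hW.mul_gr hXY (hW.mul_gr hXY (hW.pull_gr hXY hX _ hs)
      (hW.pull_gr hXY hY _ ht)) (hW.alg_gr hXY hγ)) ?_
    intro h
    exact hij ⟨n + d - c, by omega⟩
  · intro a b ha hb
    rw [bilC] at ha hb ⊢
    rw [mul_add, map_add, ha, hb, add_zero]

include hW hX hY in
/-- the transpose of an algebraic operator -/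
theorem cor_transpose {γ : W.coh (X ⊗ Y)} (hγ : γ ∈ tot W (X ⊗ Y)) (s : W.coh X) (t : W.coh Y) :
    W.tr Y (cor W γ s * t) = W.tr X (s * cor W (W.pull (sw X Y).hom γ) t) := by
  have hXY := 𝒱.prod hX hY
  have hYX := 𝒱.prod hY hX
  have hγ' : W.pull (sw X Y).hom γ ∈ tot W (Y ⊗ X) := tot_pull hW hYX hXY _ hγ
  rw [cor_tr hW hX hY hγ]
  refine hW.hom_induction hX (P := fun s => bilC W γ s t
    = W.tr X (s * cor W (W.pull (sw X Y).hom γ) t)) s ?_ ?_ ?_
  · intro i s hs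
    refine hW.hom_induction hY (P := fun t => bilC W γ s t
      = W.tr X (s * cor W (W.pull (sw X Y).hom γ) t)) t ?_ ?_ ?_
    · intro j t ht
      rw [tr_comm_gr hW hX hs, cor_tr hW hY hX hγ']
      by_cases hij : 2 ∣ i + j
      · have e1 : bilC W (W.pull (sw X Y).hom γ) t s
            = W.tr (X ⊗ Y) (W.pull (snd X Y) t * W.pull (fst X Y) s * γ) := by
          rw [bilC, ← sw_snd X Y t, ← sw_fst X Y s, ← map_mul, ← map_mul, hW.tr_iso hYX hXY]
        rw [e1, hW.comm_gr hXY (hW.pull_gr hXY hY (snd X Y) ht) (hW.pull_gr hXY hX (fst X Y) hs),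
          smul_mul_assoc, map_smul, smul_eq_mul, ← mul_assoc, ← pow_add]
        have e2 : (-1 : K) ^ (i + j * i) = 1 := by
          have : Even (i + j * i) := by
            rcases Nat.even_or_odd i with h | h
            · exact h.add (h.mul_left j)
            · have hj : Odd j := by
                rcases Nat.even_or_odd j with hj | hj
                · exact absurd (even_iff_two_dvd.2 hij)
                    (Nat.not_even_iff_odd.2 (h.add_even hj))
                · exact hj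
              exact h.add_odd (hj.mul h)
          exact this.neg_one_pow
        rw [e2, one_mul, bilC]
      · rw [bilC_parity hW hX hY hγ hs ht hij, bilC_parity hW hY hX hγ' ht hs
          (by rwa [add_comm]), mul_zero]
    · simp [bilC]
    · intro a b ha hb
      simp only [bilC] at ha hb ⊢
      rw [map_add, mul_add, add_mul, map_add, ha, hb, map_add, mul_add, map_add]
  · simp [bilC]
  · intro a b ha hb
    simp only [bilC] at ha hb ⊢
    rw [map_add, add_mul, add_mul, map_add, ha, hb, add_mul, map_add]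

include hW hX hY in
/-- the transpose on the other side -/
theorem cor_transpose' {γ : W.coh (X ⊗ Y)} (hγ : γ ∈ tot W (X ⊗ Y)) (s : W.coh X) (t : W.coh Y) :
    W.tr X (cor W (W.pull (sw X Y).hom γ) t * s) = W.tr Y (t * cor W γ s) := by
  have hXY := 𝒱.prod hX hY
  have hYX := 𝒱.prod hY hX
  have h := cor_transpose hW hY hX (tot_pull hW hYX hXY (sw X Y).hom hγ) t s
  rwa [sw_sw] at h

include hW hX hY in
/-- every algebraic operator has an algebraic transpose -/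
theorem AlgCor.transpose {u : W.coh X →ₗ[K] W.coh Y} (h : AlgCor W X Y u) :
    ∃ u' : W.coh Y →ₗ[K] W.coh X, AlgCor W Y X u' ∧
      (∀ s t, W.tr Y (u s * t) = W.tr X (s * u' t)) ∧
      ∀ s t, W.tr Y (t * u s) = W.tr X (u' t * s) := by
  obtain ⟨γ, hγ, rfl⟩ := h.exists_cor
  exact ⟨cor W (W.pull (sw X Y).hom γ),
    cor_algCor (tot_pull hW (𝒱.prod hY hX) (𝒱.prod hX hY) _ hγ),
    cor_transpose hW hX hY hγ, fun s t => (cor_transpose' hW hX hY hγ s t).symm⟩

include hW hX hY in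
/-- the pull-back along a morphism -/
theorem AlgCor.pull (f : Y ⟶ X) : AlgCor W X Y (W.pull f).toLinearMap := by
  have hXY := 𝒱.prod hX hY
  have h1 : W.push (lift f (𝟙 Y)) (1 : W.coh Y) ∈ tot W (X ⊗ Y) :=
    tot_push hW hY hXY _ (one_tot hW hY)
  rw [AlgCor.of_bil hW hX hY (u := (W.pull f).toLinearMap) h1 (fun s t => ?_)]
  · exact cor_algCor h1
  · rw [bilC, ← tot_comm hW hXY h1, hW.push_adj hY hXY, map_mul (W.pull _), ← W.pull_comp,
      ← W.pull_comp, lift_fst, lift_snd, W.pull_id, one_mul, AlgHom.toLinearMap_apply]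

include hW hX hY in
/-- a class on `X × Y` is determined by its operator -/
theorem eq_zero_of_cor {z : W.coh (X ⊗ Y)} (h : cor W z = 0) : z = 0 := by
  have hXY := 𝒱.prod hX hY
  refine eq_of_tr hW hX hY z 0 (fun i i' y hy x hx => ?_)
  rw [zero_mul, map_zero,
    hW.comm_gr hXY (hW.pull_gr hXY hX (fst X Y) hy) (hW.pull_gr hXY hY (snd X Y) hx),
    mul_smul_comm, map_smul, ← mul_assoc]
  have e1 := tr_comm_gr hW hXY (hW.pull_gr hXY hX (fst X Y) hy) (z * W.pull (snd X Y) x)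
  have e2 : W.tr (X ⊗ Y) (W.pull (fst X Y) y * (z * W.pull (snd X Y) x)) = 0 := by
    rw [← mul_assoc, ← hW.push_adj hXY hY]
    have := LinearMap.congr_fun h y
    rw [cor_apply, LinearMap.zero_apply] at this
    rw [this, zero_mul, map_zero]
  rw [e2] at e1
  have e3 : W.tr (X ⊗ Y) (z * W.pull (snd X Y) x * W.pull (fst X Y) y) = 0 := by
    rcases mul_eq_zero.1 e1.symm with h0 | h0
    · exact absurd h0 (pow_ne_zero _ (neg_ne_zero.2 one_ne_zero))
    · exact h0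
  rw [e3, smul_zero]

include hW hX hY in
theorem cor_injective {z z' : W.coh (X ⊗ Y)} (h : cor W z = cor W z') : z = z' := by
  rw [← sub_eq_zero]
  refine eq_zero_of_cor hW hX hY (LinearMap.ext fun s => ?_)
  have h1 := LinearMap.congr_fun h s
  rw [cor_apply, cor_apply] at h1
  rw [cor_apply, mul_sub, map_sub, h1, sub_self, LinearMap.zero_apply]

end op

end Pool.Agent.Lib.MP_361a6f_ag.PP
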