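import Pool.Agent.Lib.MP_361a6f_ag.PP.Defs
import Pool.Agent.Lib.MP_361a6f_ag.PP.Ops

/-!
# Theorem P with coefficients in `ℂ`: assembly
-/

open CategoryTheory AlgebraicGeometry MonoidalCategory CartesianMonoidalCategory

universe u v w

namespace Pool.Agent.Lib.MP_361a6f_ag.PP

open Pool.Agent.Lib.MP_361a6f_ag.H3 Pool.Agent.Lib.MP_361a6f_ag.SQ
  Pool.Agent.Lib.MP_361a6f_ag.IP2

namespace PCA

/-- dependent choice -/
theorem dep_choice {T : ℕ → Type*} (P : ∀ r, T r → Prop) (R : ∀ r, T r → T (r + 1) → Prop)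
    (t0 : T 0) (h0 : P 0 t0) (hs : ∀ r t, P r t → ∃ t', P (r + 1) t' ∧ R r t t') :
    ∃ f : ∀ r, T r, f 0 = t0 ∧ (∀ r, P r (f r)) ∧ ∀ r, R r (f r) (f (r + 1)) := by
  classical
  let g : ∀ r, {t : T r // P r t} := fun r => Nat.rec (motive := fun r => {t : T r // P r t})
    ⟨t0, h0⟩ (fun r t => ⟨(hs r t.1 t.2).choose, (hs r t.1 t.2).choose_spec.1⟩) r
  refine ⟨fun r => (g r).1, rfl, fun r => (g r).2, fun r => ?_⟩
  exact (hs r (g r).1 (g r).2).choose_spec.2

variable {k : Type u} [Field k]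

/-- an injective antilinear map of a finite-dimensional space is surjective -/
theorem surj_of_inj {V : Type*} [AddCommGroup V] [Module ℂ V] [FiniteDimensional ℂ V]
    (j : V →ₛₗ[starRingEnd ℂ] V) (hj : Function.Injective j) : Function.Surjective j := by
  let f : V →ₗ[ℝ] V :=
    { toFun := j
      map_add' := map_add j
      map_smul' := fun c x => by
        have : (c • x : V) = ((c : ℂ)) • x := (Complex.coe_smul c x).symm
        rw [this, LinearMap.map_smulₛₗ, Complex.conj_ofReal, Complex.coe_smul]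
        rfl }
  have _ : FiniteDimensional ℝ V := FiniteDimensional.complexToReal V
  have hf : Function.Injective f := hj
  exact (LinearMap.injective_iff_surjective (f := f)).1 hf

/-- classes that come from pairs are algebraic -/
theorem pairClass_tot {W : CohomologyData.{u, 0, w} k ℂ} {𝒱 : VarietyClass k}
    (hW : IsWeilCohomology W 𝒱) {X : ℕ → Sch k} {n : ℕ → ℕ} (hX : ∀ i, 𝒱.mem (X i) (n i))
    {r : ℕ} (hY : 𝒱.mem (prodSeq X r) (∑ i ∈ Finset.range (r + 1), n i))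
    {S : Finset (Fin (r + 1))} {z : W.coh (prodSeq X r)} (h : PairClass W X r S z) :
    z ∈ tot W (prodSeq X r) := by
  induction h with
  | one => exact one_tot hW hY
  | single S z i l a _ _ ha ih =>
    exact tot_mul hW hY ih (tot_pull hW hY (hX i) _ (alg_le_tot hW _ _ ha))
  | pair S z i j l a _ _ _ _ ha ih =>
    exact tot_mul hW hY ih (tot_pull hW hY (𝒱.prod (hX i) (hX j)) _ (alg_le_tot hW _ _ ha))

theorem mem_prodSeq {𝒱 : VarietyClass k} {X : ℕ → Sch k} {n : ℕ → ℕ}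
    (hX : ∀ i, 𝒱.mem (X i) (n i)) (r : ℕ) :
    𝒱.mem (prodSeq X r) (∑ i ∈ Finset.range (r + 1), n i) := by
  induction r with
  | zero => rw [Finset.sum_range_one]; exact hX 0
  | succ r ih => rw [Finset.sum_range_succ]; exact 𝒱.prod ih (hX (r + 1))

theorem polSeq_alg {W : CohomologyData.{u, 0, w} k ℂ} {𝒱 : VarietyClass k}
    (hW : IsWeilCohomology W 𝒱) {X : ℕ → Sch k} {n : ℕ → ℕ} (hX : ∀ i, 𝒱.mem (X i) (n i))
    {ξ : ∀ i, W.coh (X i)} (hξ : ∀ i, ξ i ∈ W.alg (X i) 1) (r : ℕ) :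
    polSeq W ξ r ∈ W.alg (prodSeq X r) 1 := by
  induction r with
  | zero => exact hξ 0
  | succ r ih =>
    have h1 := mem_prodSeq hX r
    have h2 := 𝒱.prod h1 (hX (r + 1))
    exact add_mem (hW.pull_alg h2 h1 _ ih) (hW.pull_alg h2 (hX (r + 1)) _ (hξ (r + 1)))

/-- the data of a multiple of the polarisation -/
theorem lamData_smul {W : CohomologyData.{u, 0, w} k ℂ} {𝒱 : VarietyClass k}
    (hW : IsWeilCohomology W 𝒱) {X : Sch k} {n : ℕ} (hX : 𝒱.mem X n) {ξ : W.coh X}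
    {Lam : Module.End ℂ (W.coh X)} (D : LamData W X n ξ Lam) {c : ℚ}
    (hs : Slm (W.gr X) n (Lop W X ((c : ℂ) • ξ)) ((c : ℂ)⁻¹ • Lam)) :
    LamData W X n ((c : ℂ) • ξ) ((c : ℂ)⁻¹ • Lam) := by
  refine ⟨hs, fun x y => ?_, ?_⟩
  · rw [LinearMap.smul_apply, LinearMap.smul_apply, smul_mul_assoc, mul_smul_comm, map_smul,
      map_smul, D.adj]
  · have := AlgOp.smul hW hX (c⁻¹) D.alg
    push_cast at this
    exact this

end PCA

open PCA in
/-- Theorem P over `ℂ` from the rows -/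
theorem pc (hLam : LamStatement.{u, w}) (hLmp : LmpStatement.{u, w})
    (hBlk : BlkStatement.{u, w}) (hPfx : PfxStatement.{u, w}) (hRsp : RspStatement.{u, w})
    (hRsc : RscStatement.{u, w}) (hRsq : RsqStatement.{u, w}) (hFix : FixStatement.{u, w})
    (hSpn : SpnStatement.{u, w}) : PcStatement.{u, w} := by
  intro k _ W 𝒱 hW m X n hX ξ hξ hL hΛ hQ s c hc r
  classical
  choose Lam D using fun a => hLam hW (hX a) (hξ a).1 (hL a) (hΛ a)
  obtain ⟨j, hj, hcomm, hfix⟩ := hBlk hW hX hξ Lam D hQ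
  -- the sequence of factors
  let X' : ℕ → Sch k := fun i => X (s i)
  let n' : ℕ → ℕ := fun i => n (s i)
  let ξ' : ∀ i, W.coh (X' i) := fun i => ((c i : ℚ) : ℂ) • ξ (s i)
  let Lam' : ∀ i, Module.End ℂ (W.coh (X' i)) := fun i => ((c i : ℚ) : ℂ)⁻¹ • Lam (s i)
  let j' : ∀ i, W.coh (X' i) →ₛₗ[starRingEnd ℂ] W.coh (X' i) := fun i => j (s i)
  have hX' : ∀ i, 𝒱.mem (X' i) (n' i) := fun i => hX (s i)
  have hξ' : ∀ i, ξ' i ∈ W.alg (X' i) 1 := fun i => W.alg_smul _ (hξ (s i)).1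
  have hξg : ∀ i, ξ' i ∈ W.gr (X' i) 2 := fun i => hW.alg_gr (hX' i) (j := 1) (hξ' i)
  have hR' : ∀ i, IsRS W (X' i) (n' i) (ξ' i) (Lam' i) (j' i) := by
    intro i
    have h1 := hRsc hW (hX (s i)) ((c i : ℚ) : ℝ) (by exact_mod_cast hc i) (hj (s i))
    have e1 : ((((c i : ℚ) : ℝ)) : ℂ) = ((c i : ℚ) : ℂ) := by push_cast; rfl
    rw [e1] at h1
    exact h1
  have hD' : ∀ i, LamData W (X' i) (n' i) (ξ' i) (Lam' i) := fun i =>
    lamData_smul hW (hX (s i)) (D (s i)) (hR' i).slm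
  have hM := mem_prodSeq hX'
  have hP := polSeq_alg hW hX' hξ'
  have hPg : ∀ r, polSeq W ξ' r ∈ W.gr (prodSeq X' r) 2 := fun r =>
    hW.alg_gr (hM r) (j := 1) (hP r)
  -- the real structures on the products
  obtain ⟨f, hf0, hf1, hf2⟩ := dep_choice
    (T := fun r => Module.End ℂ (W.coh (prodSeq X' r)) ×
      (W.coh (prodSeq X' r) →ₛₗ[starRingEnd ℂ] W.coh (prodSeq X' r)))
    (fun r t => LamData W (prodSeq X' r) (∑ i ∈ Finset.range (r + 1), n' i) (polSeq W ξ' r) t.1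
      ∧ IsRS W (prodSeq X' r) (∑ i ∈ Finset.range (r + 1), n' i) (polSeq W ξ' r) t.1 t.2)
    (fun r t t' => ∀ y x, t'.2 (W.pull (fst (prodSeq X' r) (X' (r + 1))) y
        * W.pull (snd (prodSeq X' r) (X' (r + 1))) x)
      = W.pull (fst (prodSeq X' r) (X' (r + 1))) (t.2 y)
        * W.pull (snd (prodSeq X' r) (X' (r + 1))) (j' (r + 1) x))
    (Lam' 0, j' 0)
    (by
      rw [Finset.sum_range_one]
      exact ⟨hD' 0, hR' 0⟩)
    (by
      rintro r ⟨LY, jY⟩ ⟨h1, h2⟩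
      obtain ⟨J, hJ1, hJ2⟩ := hRsp hW (hM r) (hX' (r + 1)) (hPg r) (hξg (r + 1)) h2
        (hR' (r + 1))
      have h3 := (hLmp hW (hM r) (hX' (r + 1)) (hPg r) (hξg (r + 1))).2 h1 (hD' (r + 1))
      refine ⟨(lamProd hW (hM r) (hX' (r + 1)) LY (Lam' (r + 1)), J), ?_, hJ2⟩
      rw [Finset.sum_range_succ]
      exact ⟨h3, hJ1⟩)
  -- the classes that come from pairs are fixed
  have hfx := hFix hW hX' j' (fun r => (f r).2) (fun i l x hx => (hR' i).gr l x hx)
    (fun i => (hR' i).one) (by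
      change (f 0).2 = j' 0
      rw [hf0]) hf2
    (fun i l x hx => hfix (s i) x (alg_le_tot hW _ _ hx)) (by
      intro i i' l γ hγ
      have hγ' := alg_le_tot hW _ _ hγ
      refine hPfx hW (hX' i) (hX' i') (j' i) (j' i') (hR' i).tr ?_ γ hγ' (fun t => ?_)
      · have := hW.finite (hX' i)
        refine surj_of_inj _ ?_
        rw [injective_iff_map_eq_zero]
        intro x hx
        by_contra hne
        obtain ⟨ρ, hρ, h⟩ := (hR' i).pos x hne
        rw [hx, psi, map_zero, mul_zero, map_zero] at h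
        have : (0 : ℝ) = ρ := by exact_mod_cast h
        exact absurd this hρ.ne
      · exact hcomm (s i) (s i') (cor W γ) (cor_algCor hγ') t)
  -- conclusion
  intro l hl x hx hxR hx1 hx0
  obtain ⟨hDr, hRr⟩ := hf1 r
  have hjx : (f r).2 x = x := by
    refine hSpn hW (hM r) (hP r) hDr hRr {z | ∃ S, PairClass W X' r S z} ?_ ?_ x
      (alg_le_tot hW _ _ hx) hxR
    · rintro z ⟨S, hz⟩
      exact pairClass_tot hW hX' (hM r) hz
    · rintro z ⟨S, hz⟩
      exact hfx r S z hz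
  obtain ⟨ρ, hρ, h⟩ := hRsq hW (hM r) (hPg r) hRr l x hl (hW.alg_gr (hM r) hx) hx1 hx0 hjx
  have hl' : 2 * l ≤ ∑ i ∈ Finset.range (r + 1), n' i := hl
  have h2 : polSeq W ξ' r ^ ((∑ i ∈ Finset.range (r + 1), n' i) - 2 * l) * (x * x)
      ∈ W.alg (prodSeq X' r) (∑ i ∈ Finset.range (r + 1), n' i) := by
    have h3 := hW.mul_alg (hM r) (hW.pow_alg (hM r) (hP r)
      ((∑ i ∈ Finset.range (r + 1), n' i) - 2 * l)) (hW.mul_alg (hM r) hx hx)
    rwa [show (∑ i ∈ Finset.range (r + 1), n' i) - 2 * l + (l + l)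
      = ∑ i ∈ Finset.range (r + 1), n' i by omega] at h3
  obtain ⟨q, hq⟩ := hW.tr_alg (hM r) h2
  refine ⟨(-1) ^ l * q, ?_, ?_⟩
  · rw [hq] at h
    have h4 : (((-1) ^ l * q : ℚ) : ℝ) = ρ := by
      have : (((((-1) ^ l * q : ℚ) : ℝ)) : ℂ) = (ρ : ℂ) := by
        rw [← h]
        push_cast
        ring
      exact_mod_cast this
    have h5 : (0 : ℝ) < (((-1) ^ l * q : ℚ) : ℝ) := by rw [h4]; exact hρ
    exact_mod_cast h5
  · change (-1 : ℂ) ^ l * W.tr (prodSeq X' r) _ = _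
    rw [show W.cup (polSeq W (fun i => ((c i : ℚ) : ℂ) • ξ (s i)) r ^
      ((∑ i ∈ Finset.range (r + 1), n (s i)) - 2 * l)) (W.cup x x)
      = polSeq W ξ' r ^ ((∑ i ∈ Finset.range (r + 1), n' i) - 2 * l) * (x * x) from rfl, hq]
    push_cast
    ring

end Pool.Agent.Lib.MP_361a6f_ag.PP
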