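import Mathlib

/-!
# Adjoints with respect to a bilinear form and algebras with positive trace form
-/

set_option autoImplicit false

namespace Pool.Agent.Lib.MP_361a6f_ag.PP

open Module

section adj

variable {F : Type*} [Field F] {V : Type*} [AddCommGroup V] [Module F V] [FiniteDimensional F V]

/-- the map `y ↦ ψ(·, y)` is an isomorphism if `ψ` is nondegenerate -/
theorem flip_bij (psi : V →ₗ[F] V →ₗ[F] F) (h : ∀ y, (∀ x, psi x y = 0) → y = 0) :
    Function.Bijective psi.flip := by
  have hinj : Function.Injective psi.flip := by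
    rw [← LinearMap.ker_eq_bot, LinearMap.ker_eq_bot']
    intro y hy
    refine h y fun x => ?_
    have := LinearMap.congr_fun hy x
    simpa using this
  refine ⟨hinj, ?_⟩
  refine (LinearMap.injective_iff_surjective_of_finrank_eq_finrank ?_).1 hinj
  exact (Subspace.dual_finrank_eq (K := F) (V := V)).symm

/-- the isomorphism `y ↦ ψ(·, y)` -/
noncomputable def phi (psi : V →ₗ[F] V →ₗ[F] F) (h : ∀ y, (∀ x, psi x y = 0) → y = 0) :
    V ≃ₗ[F] (Module.Dual F V) :=
  LinearEquiv.ofBijective psi.flip (flip_bij psi h)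

theorem phi_apply (psi : V →ₗ[F] V →ₗ[F] F) (h : ∀ y, (∀ x, psi x y = 0) → y = 0) (x y : V) :
    phi psi h y x = psi x y := rfl

/-- the adjoint of `e`: `ψ(e x, y) = ψ(x, adj e y)` -/
noncomputable def adj (psi : V →ₗ[F] V →ₗ[F] F) (h : ∀ y, (∀ x, psi x y = 0) → y = 0)
    (e : V →ₗ[F] V) : V →ₗ[F] V :=
  (phi psi h).symm.conj (Module.Dual.transpose e)

variable (psi : V →ₗ[F] V →ₗ[F] F) (h : ∀ y, (∀ x, psi x y = 0) → y = 0)

theorem adj_spec (e : V →ₗ[F] V) (x y : V) : psi (e x) y = psi x (adj psi h e y) := by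
  rw [adj, LinearEquiv.conj_apply_apply, LinearEquiv.symm_symm]
  rw [← phi_apply psi h x, LinearEquiv.apply_symm_apply]
  rfl

theorem eq_of_psi {y y' : V} (h : ∀ y, (∀ x, psi x y = 0) → y = 0)
    (hy : ∀ x, psi x y = psi x y') : y = y' := by
  rw [← sub_eq_zero]
  refine h _ fun x => ?_
  rw [map_sub, hy x, sub_self]

theorem adj_unique {e e' : V →ₗ[F] V} (he : ∀ x y, psi (e x) y = psi x (e' y)) :
    adj psi h e = e' := by
  refine LinearMap.ext fun y => eq_of_psi psi h fun x => ?_
  rw [← adj_spec, he]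

theorem adj_add (e f : V →ₗ[F] V) : adj psi h (e + f) = adj psi h e + adj psi h f := by
  refine adj_unique psi h fun x y => ?_
  rw [LinearMap.add_apply, map_add, LinearMap.add_apply, adj_spec psi h, adj_spec psi h,
    LinearMap.add_apply, map_add]

theorem adj_smul (c : F) (e : V →ₗ[F] V) : adj psi h (c • e) = c • adj psi h e := by
  refine adj_unique psi h fun x y => ?_
  rw [LinearMap.smul_apply, map_smul, LinearMap.smul_apply, adj_spec psi h,
    LinearMap.smul_apply, map_smul]

/-- the adjoint as a linear map -/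
noncomputable def adjL : (V →ₗ[F] V) →ₗ[F] (V →ₗ[F] V) where
  toFun := adj psi h
  map_add' := adj_add psi h
  map_smul' := adj_smul psi h

theorem adjL_apply (e : V →ₗ[F] V) : adjL psi h e = adj psi h e := rfl

theorem adj_comp (e f : V →ₗ[F] V) : adj psi h (e ∘ₗ f) = adj psi h f ∘ₗ adj psi h e := by
  refine adj_unique psi h fun x y => ?_
  rw [LinearMap.comp_apply, adj_spec psi h, adj_spec psi h, LinearMap.comp_apply]

theorem trace_adj (e : V →ₗ[F] V) :
    LinearMap.trace F V (adj psi h e) = LinearMap.trace F V e := by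
  rw [adj, LinearMap.trace_conj', LinearMap.trace_transpose']

/-- for an `ε`-symmetric form the double adjoint of an operator that commutes with `ε` is the
operator itself -/
theorem adj_adj {eps : V →ₗ[F] V} (hs : ∀ x y, psi y x = psi (eps x) y)
    {e : V →ₗ[F] V} (he : ∀ x, eps (e x) = e (eps x)) : adj psi h (adj psi h e) = e := by
  refine adj_unique psi h fun x y => ?_
  rw [hs, ← adj_spec psi h, ← he, ← hs]

end adj

end Pool.Agent.Lib.MP_361a6f_ag.PP
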