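import Pool.Agent.Lib.MP_361a6f_ag.PP.DefsG

/-!
# Row CG: algebraic classes on `X_0 × ⋯ × X_r` come from pairs

An algebraic class is a combination of words with the right Frobenius eigenvalue; the absolute
values give the exponent of `q`, and the relations between the eigenvalues come from pairs.
-/

open CategoryTheory AlgebraicGeometry MonoidalCategory CartesianMonoidalCategory

universe u v w

set_option linter.unusedSectionVars false

namespace Pool.Agent.Lib.MP_361a6f_ag.PP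

open Pool.Agent.Lib.MP_361a6f_ag.H3 Pool.Agent.Lib.MP_361a6f_ag.SQ
  Pool.Agent.Lib.MP_361a6f_ag.IP2

namespace CG

section geo

variable {k : Type u} [Field k] {W : CohomologyData.{u, 0, w} k ℂ} {𝒱 : VarietyClass k}

theorem homSeq_congr {X : ℕ → Sch k} {F F' : ∀ i, X i ⟶ X i} (r : ℕ)
    (h : ∀ i ≤ r, F i = F' i) : homSeq F r = homSeq F' r := by
  induction r with
  | zero => exact h 0 le_rfl
  | succ r ih =>
    rw [homSeq, homSeq, ih fun i hi => h i (by omega), h (r + 1) le_rfl]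

/-- iterating an iterate -/
theorem iter_mul_smul {A : Type*} [AddCommGroup A] [Module ℂ A] (f : A →ₗ[ℂ] A) (s u : ℕ) (a : ℂ)
    {x : A} (h : f^[s] x = a • x) : f^[s * u] x = (a ^ u) • x := by
  induction u with
  | zero => simp
  | succ u ih =>
    rw [Nat.mul_succ, Nat.add_comm, Function.iterate_add_apply, ih, ← Module.End.pow_apply, map_smul,
      Module.End.pow_apply, h, smul_smul, pow_succ]

/-- multiplication of pair classes by algebraic classes of the factors -/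
theorem pairOK_mul (hW : IsWeilCohomology W 𝒱) {X Y : Sch k} {n d : ℕ} (hX : 𝒱.mem X n)
    (hY : 𝒱.mem Y d) {a : W.coh X} {b : W.coh Y} {i j : ℕ} (ha : a ∈ W.alg X i)
    (hb : b ∈ W.alg Y j) {x : W.coh X} {y : W.coh Y} (h : PairOK W x y) :
    PairOK W (a * x) (b * y) := by
  have hXY := 𝒱.prod hX hY
  have hA : W.pull (fst X Y) a ∈ W.alg (X ⊗ Y) i := hW.pull_alg hXY hX _ ha
  have hB : W.pull (snd X Y) b ∈ W.alg (X ⊗ Y) j := hW.pull_alg hXY hY _ hb
  unfold PairOK at h ⊢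
  have e : W.pull (fst X Y) (a * x) * W.pull (snd X Y) (b * y)
      = (W.pull (fst X Y) a * W.pull (snd X Y) b)
        * (W.pull (fst X Y) x * W.pull (snd X Y) y) := by
    rw [map_mul, map_mul, mul_assoc, mul_assoc, ← mul_assoc (W.pull (fst X Y) x),
      ← hW.alg_comm hXY hB (W.pull (fst X Y) x), mul_assoc]
  rw [e]
  have hAB := hW.mul_alg hXY hA hB
  refine Submodule.span_induction (p := fun z _ => (W.pull (fst X Y) a * W.pull (snd X Y) b) * z ∈
    Submodule.span ℂ {z | ∃ c, z ∈ W.alg (X ⊗ Y) c}) ?_ ?_ ?_ ?_ h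
  · rintro z ⟨c, hc⟩
    exact Submodule.subset_span ⟨_, hW.mul_alg hXY hAB hc⟩
  · rw [mul_zero]; exact zero_mem _
  · intro x y _ _ hx hy
    rw [mul_add]; exact add_mem hx hy
  · intro c x _ hx
    rw [mul_smul_comm]; exact Submodule.smul_mem _ c hx

end geo

/-- the absolute values determine the exponent of `q` -/
theorem expo {q : ℕ} (hq : 1 < q) {S : Finset ℕ} {β : ℕ → ℂ} {i : ℕ → ℕ} {A j t : ℕ} (ht : 0 < t)
    (hβ : ∀ p ∈ S, ‖β p‖ ^ 2 = (q : ℝ) ^ i p)
    (h : ((q : ℂ) ^ A * ∏ p ∈ S, β p) ^ t = (q : ℂ) ^ (j * t)) :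
    ∃ c, ∑ p ∈ S, i p = 2 * c ∧ (∏ p ∈ S, β p) ^ t = ((q : ℂ) ^ c) ^ t := by
  have hq0 : (q : ℂ) ≠ 0 := by exact_mod_cast (by omega : q ≠ 0)
  have h1 : ‖∏ p ∈ S, β p‖ ^ 2 = (q : ℝ) ^ (∑ p ∈ S, i p) := by
    rw [norm_prod, ← Finset.prod_pow, Finset.prod_congr rfl hβ, Finset.prod_pow_eq_pow_sum]
  have h2 : (q : ℝ) ^ ((2 * A + ∑ p ∈ S, i p) * t) = (q : ℝ) ^ (2 * j * t) := by
    have h3 := congrArg (fun z : ℂ => ‖z‖ ^ 2) h
    simp only [norm_pow, norm_mul, Complex.norm_natCast] at h3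
    calc (q : ℝ) ^ ((2 * A + ∑ p ∈ S, i p) * t)
        = (((q : ℝ) ^ A) ^ 2 * (q : ℝ) ^ (∑ p ∈ S, i p)) ^ t := by
          rw [← pow_mul, ← pow_add, ← pow_mul, mul_comm A 2]
      _ = (((q : ℝ) ^ A) ^ 2 * ‖∏ p ∈ S, β p‖ ^ 2) ^ t := by rw [h1]
      _ = (((q : ℝ) ^ A * ‖∏ p ∈ S, β p‖) ^ t) ^ 2 := by
          rw [← mul_pow, ← pow_mul, ← pow_mul, mul_comm 2 t]
      _ = ((q : ℝ) ^ (j * t)) ^ 2 := h3
      _ = (q : ℝ) ^ (2 * j * t) := by rw [← pow_mul]; congr 1; ring
  have h4 : (2 * A + ∑ p ∈ S, i p) * t = 2 * j * t :=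
    pow_right_injective₀ (by positivity) (by exact_mod_cast hq.ne') h2
  have h5 : 2 * A + ∑ p ∈ S, i p = 2 * j := Nat.eq_of_mul_eq_mul_right ht h4
  refine ⟨j - A, by omega, ?_⟩
  have h6 : j = A + (j - A) := by omega
  rw [mul_pow, h6, add_mul, pow_add, ← pow_mul] at h
  have h7 := mul_left_cancel₀ (pow_ne_zero _ hq0) h
  rw [h7, ← pow_mul]

end CG

/-- Row CG -/
theorem cg (hLET : LetStatement.{u, w}) (hWRD : WrdStatement.{u, w}) (hMTC : MtcStatement.{u, w}) :
    CgStatement.{u, w} := by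
  intro k _ W 𝒱 hW X n hX ξ hξ hL hΛ hHT F q hq hdeg hpol halg r hFr habs hrel j x hx
  classical
  -- the letters
  choose Lt t₀ ht₀ hLt hgen hspan using fun i =>
    hLET hW (hX i) (hξ i) (hL i) (hΛ i) (hHT i) (F := F i) (by omega : 0 < q) (hdeg i) (hpol i)
      (halg i)
  obtain ⟨s, hs, hsx⟩ := hFr j x hx
  -- the exponent
  obtain ⟨t, htdef⟩ : ∃ t, t = s * ∏ i ∈ Finset.range (r + 1), t₀ i := ⟨_, rfl⟩
  have ht : 0 < t := by
    rw [htdef]
    exact Nat.mul_pos hs (Finset.prod_pos fun i _ => ht₀ i)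
  have hxt : (W.pull (homSeq F r))^[t] x = ((q : ℂ) ^ (j * t)) • x := by
    have h1 := CG.iter_mul_smul (W.pull (homSeq F r)).toLinearMap s
      (∏ i ∈ Finset.range (r + 1), t₀ i) _ hsx
    rw [← htdef, ← pow_mul, mul_assoc, ← htdef] at h1
    exact h1
  -- change of `F` and of the letters outside `{0, …, r}`
  let F' : ∀ i, X i ⟶ X i := fun i => if i ≤ r then F i else 𝟙 (X i)
  have hF' : ∀ i ≤ r, F' i = F i := fun i hi => if_pos hi
  have hF'' : ∀ i, ¬ i ≤ r → F' i = 𝟙 (X i) := fun i hi => if_neg hi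
  rw [← CG.homSeq_congr r hF'] at hxt
  let Lt' : ∀ i, W.coh (X i) → ℂ → Prop := fun i x μ => if i ≤ r then Lt i x μ else μ = 1
  have hw := hWRD hW hX F' Lt' t ?_ ?_ r _ x hxt
  · refine Submodule.span_le.2 ?_ hw
    rintro z ⟨y, μ, hy, hμ, rfl⟩
    have hy' : ∀ i ≤ r, Lt i (y i) (μ i) := fun i hi => by
      have := hy i hi
      simpa only [Lt', if_pos hi] using this
    have hlet : ∀ i ≤ r, Letter W (X i) (n i) (ξ i) (F i) q (y i) (μ i) := fun i hi =>
      hLt i _ _ (hy' i hi)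
    -- the transcendental letters
    let S : Finset ℕ := (Finset.range (r + 1)).filter fun i =>
      ¬ ∃ j, y i ∈ W.alg (X i) j ∧ μ i = (q : ℂ) ^ j
    have hSr : ∀ i ∈ S, i ≤ r := fun i hi => by
      have := (Finset.mem_filter.1 hi).1
      have := Finset.mem_range.1 this
      omega
    have hSn : ∀ i ≤ r, i ∉ S → ∃ j, y i ∈ W.alg (X i) j ∧ μ i = (q : ℂ) ^ j := by
      intro i hi hS
      by_contra hcon
      exact hS (Finset.mem_filter.2 ⟨Finset.mem_range.2 (by omega), hcon⟩)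
    have hSy : ∀ i ∈ S, ∃ (e s : ℕ) (v : W.coh (X i)) (β : ℂ), e ≤ n i ∧
        v ∈ TS W (X i) (n i) (ξ i) e ∧ v ≠ 0 ∧
        v ∈ Module.End.maxGenEigenspace (W.pull (F i)).toLinearMap β ∧ y i = ξ i ^ s * v ∧
        μ i = (q : ℂ) ^ s * β := by
      intro i hi
      rcases hlet i (hSr i hi) with h | h
      · exact absurd h (Finset.mem_filter.1 hi).2
      · exact h
    choose! J hJ1 hJ2 using hSn
    have hSy' : ∀ i, ∃ (e s : ℕ) (v : W.coh (X i)) (β : ℂ), i ∈ S → e ≤ n i ∧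
        v ∈ TS W (X i) (n i) (ξ i) e ∧ v ≠ 0 ∧
        v ∈ Module.End.maxGenEigenspace (W.pull (F i)).toLinearMap β ∧ y i = ξ i ^ s * v ∧
        μ i = (q : ℂ) ^ s * β := by
      intro i
      by_cases hi : i ∈ S
      · obtain ⟨e, s, v, β, h⟩ := hSy i hi
        exact ⟨e, s, v, β, fun _ => h⟩
      · exact ⟨0, 0, 0, 0, fun h => absurd h hi⟩
    choose e s' v β hS using hSy'
    -- the product of the eigenvalues
    have hprod : ∏ i ∈ Finset.range (r + 1), μ i
        = (q : ℂ) ^ (∑ i ∈ Finset.range (r + 1), if i ∈ S then s' i else J i)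
          * ∏ p ∈ S, β p := by
      have hS2 : ∏ p ∈ S, β p = ∏ i ∈ Finset.range (r + 1), if i ∈ S then β i else 1 := by
        rw [← Finset.prod_filter]
        refine Finset.prod_congr ?_ fun _ _ => rfl
        ext i
        simp only [Finset.mem_filter, Finset.mem_range]
        exact ⟨fun h => ⟨by have := hSr i h; omega, h⟩, fun h => h.2⟩
      rw [hS2, ← Finset.prod_pow_eq_pow_sum, ← Finset.prod_mul_distrib]
      refine Finset.prod_congr rfl fun i hi => ?_
      have hir : i ≤ r := by have := Finset.mem_range.1 hi; omega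
      by_cases hi' : i ∈ S
      · rw [if_pos hi', if_pos hi', (hS i hi').2.2.2.2.2]
      · rw [if_neg hi', if_neg hi', hJ2 i hir hi', mul_one]
    rw [hprod] at hμ
    obtain ⟨c, hc1, hc2⟩ := CG.expo hq ht (i := e) (fun p hp =>
      habs p (e p) (hS p hp).1 (v p) (β p) (hS p hp).2.1 (hS p hp).2.2.1 (hS p hp).2.2.2.1) hμ
    obtain ⟨σ, hσ⟩ := hrel S e v β c t (fun p hp => ⟨hSr p hp, (hS p hp).1, (hS p hp).2.1,
      (hS p hp).2.2.1, (hS p hp).2.2.2.1⟩) hc1 ht hc2
    refine hMTC hW hX r y (fun i => if i ∈ S then 2 * s' i + e i else 2 * J i) ?_ S hSr ?_ σ ?_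
    · intro i hi
      by_cases hi' : i ∈ S
      · rw [if_pos hi', (hS i hi').2.2.2.2.1]
        exact hW.mul_gr (hX i) (hW.alg_gr (hX i) (hW.pow_alg (hX i) (hξ i) _)) (hS i hi').2.1.1.1
      · rw [if_neg hi']
        exact hW.alg_gr (hX i) (hJ1 i hi hi')
    · intro i hi hi'
      exact Submodule.subset_span ⟨_, hJ1 i hi hi'⟩
    · intro p hp
      obtain ⟨h1, h2, h3, h4⟩ := hσ p hp
      refine ⟨h1, h2, h3, ?_⟩
      rw [(hS p hp).2.2.2.2.1, (hS (σ p) h1).2.2.2.2.1]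
      exact CG.pairOK_mul hW (hX p) (hX (σ p)) (hW.pow_alg (hX p) (hξ p) _)
        (hW.pow_alg (hX (σ p)) (hξ (σ p)) _) h4
  · intro i x μ hxμ
    by_cases hi : i ≤ r
    · rw [hF' i hi]
      simp only [Lt', if_pos hi] at hxμ
      refine hgen i t ?_ x μ hxμ
      rw [htdef]
      exact (Finset.dvd_prod_of_mem t₀ (Finset.mem_range.2 (by omega))).trans (dvd_mul_left _ _)
    · rw [hF'' i hi]
      simp only [Lt', if_neg hi] at hxμ
      subst hxμ
      rw [Module.End.mem_maxGenEigenspace]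
      refine ⟨1, ?_⟩
      have h1 : ∀ m : ℕ, ((W.pull (𝟙 (X i))).toLinearMap ^ m) x = x := by
        intro m
        induction m with
        | zero => rfl
        | succ m ih =>
          rw [pow_succ', Module.End.mul_apply, ih]
          exact W.pull_id x
      rw [pow_one, LinearMap.sub_apply, h1, one_pow, one_smul]
      exact sub_self x
  · intro i
    by_cases hi : i ≤ r
    · simp only [Lt', if_pos hi]
      exact hspan i
    · simp only [Lt', if_neg hi]
      rw [eq_top_iff]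
      intro x _
      exact Submodule.subset_span ⟨1, rfl⟩

end Pool.Agent.Lib.MP_361a6f_ag.PP
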