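import Pool.Agent.Lib.MP_361a6f_ag.PP.Stat
import Pool.Agent.Lib.MP_361a6f_ag.PP.Abs
import Pool.Agent.Lib.MP_361a6f_ag.SQ.OpTen
import Pool.Agent.Lib.MP_361a6f_ag.SQ.LefProj
import Pool.Agent.Lib.MP_361a6f_ag.SQ.Crit
import Pool.Agent.Lib.MP_361a6f_ag.H3.BaseChange

/-!
# `Q1` for pairs implies `Q1` for products: internal definitions and statements of the rows
-/

open CategoryTheory AlgebraicGeometry MonoidalCategory CartesianMonoidalCategory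

universe u v w

namespace Pool.Agent.Lib.MP_361a6f_ag.PP

open Pool.Agent.Lib.MP_361a6f_ag.H3 Pool.Agent.Lib.MP_361a6f_ag.SQ
  Pool.Agent.Lib.MP_361a6f_ag.IP2

/-! ### Internal definitions (coefficients in `ℂ`) -/

section defs

variable {k : Type u} [Field k]

/-- the Lefschetz operator `x ↦ ξ x` -/
noncomputable def Lop (W : CohomologyData.{u, 0, w} k ℂ) (X : Sch k) (ξ : W.coh X) :
    Module.End ℂ (W.coh X) := LinearMap.mulLeft ℂ ξ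

/-- the operator `u : H(X) → H(Y)` is given by an algebraic class on `X × Y` -/
def AlgCor {K : Type v} [Field K] [CharZero K] (W : CohomologyData.{u, v, w} k K) (X Y : Sch k)
    (u : W.coh X →ₗ[K] W.coh Y) : Prop :=
  ∃ γ ∈ tot W (X ⊗ Y), ∀ s, u s = W.push (snd X Y) (W.pull (fst X Y) s * γ)

/-- `Lam` is the dual Lefschetz operator of `(X, ξ)`; it is self-adjoint for the trace form and
preserves algebraic classes. -/
structure LamData (W : CohomologyData.{u, 0, w} k ℂ) (X : Sch k) (n : ℕ) (ξ : W.coh X)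
    (Lam : Module.End ℂ (W.coh X)) : Prop where
  slm : Slm (W.gr X) n (Lop W X ξ) Lam
  adj : ∀ x y, W.tr X (Lam x * y) = W.tr X (x * Lam y)
  alg : AlgOp W X Lam

/-- the form `ψ(x, y) = Tr(x · *y)` -/
noncomputable def psi (W : CohomologyData.{u, 0, w} k ℂ) (X : Sch k) (ξ : W.coh X)
    (Lam : Module.End ℂ (W.coh X)) (h : DirectSum.IsInternal (W.gr X)) (x y : W.coh X) : ℂ :=
  W.tr X (x * star h (Lop W X ξ) Lam y)

/-- the dual Lefschetz operator `Λ ⊗ 1 + 1 ⊗ Λ` of a product -/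
noncomputable def lamProd {W : CohomologyData.{u, 0, w} k ℂ} {𝒱 : VarietyClass k}
    (hW : IsWeilCohomology W 𝒱) {Y X : Sch k} {d n : ℕ} (hY : 𝒱.mem Y d) (hX : 𝒱.mem X n)
    (LamY : Module.End ℂ (W.coh Y)) (LamX : Module.End ℂ (W.coh X)) :
    Module.End ℂ (W.coh (Y ⊗ X)) :=
  ten hW hY hX LamY LinearMap.id + ten hW hY hX LinearMap.id LamX

/-- the class `pr₁^* l + pr₂^* ξ` -/
noncomputable def sumPol (W : CohomologyData.{u, 0, w} k ℂ) {Y X : Sch k} (l : W.coh Y)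
    (ξ : W.coh X) : W.coh (Y ⊗ X) :=
  W.pull (fst Y X) l + W.pull (snd Y X) ξ

/-- `j` is a real (on odd degrees: quaternionic) structure on `H(X)`, compatible with the
Lefschetz operators, for which `ψ(x, j x)` is positive definite -/
structure IsRS (W : CohomologyData.{u, 0, w} k ℂ) (X : Sch k) (n : ℕ) (ξ : W.coh X)
    (Lam : Module.End ℂ (W.coh X)) (j : W.coh X →ₛₗ[starRingEnd ℂ] W.coh X) : Prop where
  slm : Slm (W.gr X) n (Lop W X ξ) Lam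
  gr : ∀ i x, x ∈ W.gr X i → j x ∈ W.gr X i
  map_L : ∀ x, j (ξ * x) = ξ * j x
  map_Lam : ∀ x, j (Lam x) = Lam (j x)
  one : j 1 = 1
  tr : ∀ x y, W.tr X (j x * j y) = starRingEnd ℂ (W.tr X (x * y))
  pos : ∀ x, x ≠ 0 → ∃ r : ℝ, 0 < r ∧ psi W X ξ Lam slm.internal x (j x) = (r : ℂ)

end defs

/-! ### Rows: abstract algebra -/

/-- Row SL2: elementary facts on graded `sl_2`-modules. -/
def Sl2Statement : Prop :=
  ∀ {M : Type w} [AddCommGroup M] [Module ℂ M] {gr : ℕ → Submodule ℂ M} {n : ℕ}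
    {L Λ : Module.End ℂ M}, Slm gr n L Λ →
    L ^ (n + 1) = 0 ∧ Λ ^ (n + 1) = 0 ∧
    -- `Λ` on the string of a primitive vector
    (∀ (i : ℕ) (v : M) (r : ℕ), v ∈ gr i → Λ v = 0 →
      Λ ((L ^ (r + 1)) v) = (((r : ℂ) + 1) * ((n : ℂ) - i - r)) • (L ^ r) v) ∧
    (∀ i v, i ≤ n → v ∈ gr i → Λ v = 0 → (L ^ (n - i + 1)) v = 0) ∧
    (∀ i v, n < i → v ∈ gr i → Λ v = 0 → v = 0) ∧
    -- primitive in the sense of Lefschetz implies primitive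
    (∀ i v, i ≤ n → v ∈ gr i → (L ^ (n - i + 1)) v = 0 → Λ v = 0) ∧
    -- the Lefschetz decomposition in degrees at most `n`, inside a stable subgroup
    (∀ C : AddSubgroup M, (∀ x ∈ C, L x ∈ C) → (∀ x ∈ C, Λ x ∈ C) →
      (∀ (q : ℚ), ∀ x ∈ C, (q : ℂ) • x ∈ C) → ∀ i x, i ≤ n → x ∈ gr i → x ∈ C →
      ∃ f : ℕ → M, (∀ r, f r ∈ C) ∧ (∀ r, 2 * r ≤ i → f r ∈ gr (i - 2 * r)) ∧
        (∀ r, i < 2 * r → f r = 0) ∧ (∀ r, Λ (f r) = 0) ∧
        x = ∑ r ∈ Finset.range (n + 1), (L ^ r) (f r))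

/-- Row WEY: the operator `w = exp(L) exp(-Λ) exp(L)`. -/
def WeyStatement : Prop :=
  ∀ {M : Type w} [AddCommGroup M] [Module ℂ M] {gr : ℕ → Submodule ℂ M} {n : ℕ}
    {L Λ : Module.End ℂ M}, Slm gr n L Λ →
    wop L Λ * L = -(Λ * wop L Λ) ∧ wop L Λ * Λ = -(L * wop L Λ) ∧
    (∀ i x, i ≤ 2 * n → x ∈ gr i → wop L Λ x ∈ gr (2 * n - i)) ∧
    (∀ i x, x ∈ gr i → wop L Λ (wop L Λ x) = ((-1 : ℂ) ^ (n + i)) • x) ∧
    (∀ i v, i ≤ n → v ∈ gr i → Λ v = 0 →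
      wop L Λ v = (((n - i).factorial : ℂ)⁻¹) • (L ^ (n - i)) v)

/-- Row STA: the star operator. -/
def StaStatement : Prop :=
  ∀ {M : Type w} [AddCommGroup M] [Module ℂ M] {gr : ℕ → Submodule ℂ M} {n : ℕ}
    {L Λ : Module.End ℂ M} (S : Slm gr n L Λ),
    (∀ i x, i ≤ 2 * n → x ∈ gr i → star S.internal L Λ x ∈ gr (2 * n - i)) ∧
    (∀ x, star S.internal L Λ (star S.internal L Λ x) = x) ∧
    (∀ x, star S.internal L Λ (L x) = Λ (star S.internal L Λ x)) ∧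
    (∀ x, star S.internal L Λ (Λ x) = L (star S.internal L Λ x)) ∧
    (∀ i v, 2 * i ≤ n → v ∈ gr (2 * i) → Λ v = 0 →
      star S.internal L Λ v
        = ((-1 : ℂ) ^ i * ((n - 2 * i).factorial : ℂ)⁻¹) • (L ^ (n - 2 * i)) v) ∧
    -- scaling
    (∀ c : ℂ, c ≠ 0 → Slm gr n (c • L) (c⁻¹ • Λ) ∧ ∀ i x, i ≤ 2 * n → x ∈ gr i →
      star S.internal (c • L) (c⁻¹ • Λ) x = (c ^ ((n : ℤ) - i)) • star S.internal L Λ x) ∧
    -- selfadjointness for a form `B` with `B(Lx, y) = B(x, Ly)`, `B(Λx, y) = B(x, Λy)` that pairs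
    -- `gr i` with `gr (2 n - i)` only
    (∀ B : M →ₗ[ℂ] M →ₗ[ℂ] ℂ, (∀ x y, B (L x) y = B x (L y)) → (∀ x y, B (Λ x) y = B x (Λ y)) →
      (∀ i i' x y, x ∈ gr i → y ∈ gr i' → i + i' ≠ 2 * n → B x y = 0) →
      ∀ x y, B (star S.internal L Λ x) y = B x (star S.internal L Λ y))

/-! ### Rows: geometry, coefficients in `ℂ` -/

/-- Row LAM: the dual Lefschetz operator exists. -/
def LamStatement : Prop :=
  ∀ {k : Type u} [Field k] {W : CohomologyData.{u, 0, w} k ℂ} {𝒱 : VarietyClass k}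
    (_ : IsWeilCohomology W 𝒱) {X : Sch k} {n : ℕ} (_ : 𝒱.mem X n) {ξ : W.coh X}
    (_ : ξ ∈ W.alg X 1) (_ : HardLefschetz W X n ξ) (_ : AlgebraicLambda W X n ξ),
    ∃ Lam : Module.End ℂ (W.coh X), LamData W X n ξ Lam

/-- Row TAL: tensor products of algebraic operators are algebraic. -/
def TalStatement : Prop :=
  ∀ {k : Type u} [Field k] {W : CohomologyData.{u, 0, w} k ℂ} {𝒱 : VarietyClass k}
    (hW : IsWeilCohomology W 𝒱) {Y X : Sch k} {d n : ℕ} (hY : 𝒱.mem Y d) (hX : 𝒱.mem X n)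
    (a : W.coh Y →ₗ[ℂ] W.coh Y) (b : W.coh X →ₗ[ℂ] W.coh X), AlgOp W Y a → AlgOp W X b →
    AlgOp W (Y ⊗ X) (ten hW hY hX a b)

/-- Row LMP: the dual Lefschetz operator of a product. -/
def LmpStatement : Prop :=
  ∀ {k : Type u} [Field k] {W : CohomologyData.{u, 0, w} k ℂ} {𝒱 : VarietyClass k}
    (hW : IsWeilCohomology W 𝒱) {Y X : Sch k} {d n : ℕ} (hY : 𝒱.mem Y d) (hX : 𝒱.mem X n)
    {l : W.coh Y} {ξ : W.coh X} {LamY : Module.End ℂ (W.coh Y)} {LamX : Module.End ℂ (W.coh X)},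
    l ∈ W.gr Y 2 → ξ ∈ W.gr X 2 →
    (Slm (W.gr Y) d (Lop W Y l) LamY → Slm (W.gr X) n (Lop W X ξ) LamX →
      Slm (W.gr (Y ⊗ X)) (d + n) (Lop W (Y ⊗ X) (sumPol W l ξ)) (lamProd hW hY hX LamY LamX)) ∧
    (LamData W Y d l LamY → LamData W X n ξ LamX →
      LamData W (Y ⊗ X) (d + n) (sumPol W l ξ) (lamProd hW hY hX LamY LamX))

/-- Row STP: the star operator and the form `ψ` are multiplicative. -/
def StpStatement : Prop :=
  ∀ {k : Type u} [Field k] {W : CohomologyData.{u, 0, w} k ℂ} {𝒱 : VarietyClass k}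
    (hW : IsWeilCohomology W 𝒱) {Y X : Sch k} {d n : ℕ} (hY : 𝒱.mem Y d) (hX : 𝒱.mem X n)
    {l : W.coh Y} {ξ : W.coh X} {LamY : Module.End ℂ (W.coh Y)} {LamX : Module.End ℂ (W.coh X)},
    l ∈ W.gr Y 2 → ξ ∈ W.gr X 2 →
    ∀ (SY : Slm (W.gr Y) d (Lop W Y l) LamY) (SX : Slm (W.gr X) n (Lop W X ξ) LamX)
      (S : Slm (W.gr (Y ⊗ X)) (d + n) (Lop W (Y ⊗ X) (sumPol W l ξ))
        (lamProd hW hY hX LamY LamX)),
    (∀ i j y x, y ∈ W.gr Y i → x ∈ W.gr X j →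
      star S.internal (Lop W (Y ⊗ X) (sumPol W l ξ)) (lamProd hW hY hX LamY LamX)
          (W.pull (fst Y X) y * W.pull (snd Y X) x)
        = ((-1 : ℂ) ^ (i * j)) • (W.pull (fst Y X) (star SY.internal (Lop W Y l) LamY y)
            * W.pull (snd Y X) (star SX.internal (Lop W X ξ) LamX x))) ∧
    (∀ y x y' x', psi W (Y ⊗ X) (sumPol W l ξ) (lamProd hW hY hX LamY LamX) S.internal
        (W.pull (fst Y X) y * W.pull (snd Y X) x) (W.pull (fst Y X) y' * W.pull (snd Y X) x')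
      = psi W Y l LamY SY.internal y y' * psi W X ξ LamX SX.internal x x')

/-- Row PSI: `Q1` for `(Z, η)` says that `ψ` is positive definite on all algebraic classes. -/
def PsiStatement : Prop :=
  ∀ {k : Type u} [Field k] {W : CohomologyData.{u, 0, w} k ℂ} {𝒱 : VarietyClass k}
    (_ : IsWeilCohomology W 𝒱) {Z : Sch k} {e : ℕ} (_ : 𝒱.mem Z e) {η : W.coh Z}
    (_ : η ∈ W.alg Z 1) {Lam : Module.End ℂ (W.coh Z)} (D : LamData W Z e η Lam),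
    HodgeType W Z e η → ∀ z ∈ tot W Z, z ≠ 0 → RatPos (psi W Z η Lam D.slm.internal z z)

/-- Row ADJ: adjoints of algebraic operators are algebraic. -/
def AdjStatement : Prop :=
  ∀ {k : Type u} [Field k] {W : CohomologyData.{u, 0, w} k ℂ} {𝒱 : VarietyClass k}
    (_ : IsWeilCohomology W 𝒱) {X Y : Sch k} {n d : ℕ} (_ : 𝒱.mem X n) (_ : 𝒱.mem Y d)
    {ξ : W.coh X} {l : W.coh Y} (_ : ξ ∈ W.alg X 1) (_ : l ∈ W.alg Y 1)
    {LamX : Module.End ℂ (W.coh X)} {LamY : Module.End ℂ (W.coh Y)}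
    (DX : LamData W X n ξ LamX) (DY : LamData W Y d l LamY) (e : W.coh X →ₗ[ℂ] W.coh Y),
    AlgCor W X Y e → ∃ e' : W.coh Y →ₗ[ℂ] W.coh X, AlgCor W Y X e' ∧
      ∀ s t, psi W Y l LamY DY.slm.internal (e s) t = psi W X ξ LamX DX.slm.internal s (e' t)

/-- Row TRC: the trace formula `Tr(e' e) = ψ(γ, γ)`. -/
def TrcStatement : Prop :=
  ∀ {k : Type u} [Field k] {W : CohomologyData.{u, 0, w} k ℂ} {𝒱 : VarietyClass k}
    (hW : IsWeilCohomology W 𝒱) {X Y : Sch k} {n d : ℕ} (hX : 𝒱.mem X n) (hY : 𝒱.mem Y d)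
    {ξ : W.coh X} {l : W.coh Y} (_ : ξ ∈ W.alg X 1) (_ : l ∈ W.alg Y 1)
    {LamX : Module.End ℂ (W.coh X)} {LamY : Module.End ℂ (W.coh Y)}
    (DX : LamData W X n ξ LamX) (DY : LamData W Y d l LamY)
    (D : LamData W (X ⊗ Y) (n + d) (sumPol W ξ l) (lamProd hW hX hY LamX LamY))
    (e : W.coh X →ₗ[ℂ] W.coh Y) (e' : W.coh Y →ₗ[ℂ] W.coh X) (γ : W.coh (X ⊗ Y)),
    γ ∈ tot W (X ⊗ Y) → (∀ s, e s = W.push (snd X Y) (W.pull (fst X Y) s * γ)) →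
    (∀ s t, psi W Y l LamY DY.slm.internal (e s) t = psi W X ξ LamX DX.slm.internal s (e' t)) →
    LinearMap.trace ℂ (W.coh X) (e' ∘ₗ e)
      = psi W (X ⊗ Y) (sumPol W ξ l) (lamProd hW hX hY LamX LamY) D.slm.internal γ γ

/-- Row BLK: the real structures on the cohomology of the factors. -/
def BlkStatement : Prop :=
  ∀ {k : Type u} [Field k] {W : CohomologyData.{u, 0, w} k ℂ} {𝒱 : VarietyClass k}
    (_ : IsWeilCohomology W 𝒱) {m : ℕ} {X : Fin m → Sch k} {n : Fin m → ℕ}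
    (_ : ∀ a, 𝒱.mem (X a) (n a)) {ξ : ∀ a, W.coh (X a)}
    (_ : ∀ a, PositiveDivisor W (X a) (n a) (ξ a))
    (Lam : ∀ a, Module.End ℂ (W.coh (X a)))
    (_ : ∀ a, LamData W (X a) (n a) (ξ a) (Lam a))
    (_ : ∀ a b, HodgeType W ((X a).prod (X b)) (n a + n b) (sumPol W (ξ a) (ξ b))),
    ∃ j : ∀ a, W.coh (X a) →ₛₗ[starRingEnd ℂ] W.coh (X a),
      (∀ a, IsRS W (X a) (n a) (ξ a) (Lam a) (j a)) ∧
      (∀ a b (e : W.coh (X a) →ₗ[ℂ] W.coh (X b)), AlgCor W (X a) (X b) e →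
        ∀ s, j b (e s) = e (j a s)) ∧
      (∀ a, ∀ x ∈ tot W (X a), j a x = x)

/-- Row PFX: a class on `X × Y` whose operator commutes with `j` is fixed by `j ⊗ j`. -/
def PfxStatement : Prop :=
  ∀ {k : Type u} [Field k] {W : CohomologyData.{u, 0, w} k ℂ} {𝒱 : VarietyClass k}
    (_ : IsWeilCohomology W 𝒱) {X Y : Sch k} {n d : ℕ} (_ : 𝒱.mem X n) (_ : 𝒱.mem Y d)
    (jX : W.coh X →ₛₗ[starRingEnd ℂ] W.coh X) (jY : W.coh Y →ₛₗ[starRingEnd ℂ] W.coh Y),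
    (∀ x y, W.tr X (jX x * jX y) = starRingEnd ℂ (W.tr X (x * y))) → Function.Surjective jX →
    ∀ γ ∈ tot W (X ⊗ Y),
      (∀ s, jY (W.push (snd X Y) (W.pull (fst X Y) s * γ))
        = W.push (snd X Y) (W.pull (fst X Y) (jX s) * γ)) →
      ∃ (N : ℕ) (a : Fin N → W.coh X) (b : Fin N → W.coh Y),
        γ = ∑ ν, W.pull (fst X Y) (a ν) * W.pull (snd X Y) (b ν) ∧
        γ = ∑ ν, W.pull (fst X Y) (jX (a ν)) * W.pull (snd X Y) (jY (b ν))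

/-- Row RSP: products of real structures. -/
def RspStatement : Prop :=
  ∀ {k : Type u} [Field k] {W : CohomologyData.{u, 0, w} k ℂ} {𝒱 : VarietyClass k}
    (hW : IsWeilCohomology W 𝒱) {Y X : Sch k} {d n : ℕ} (hY : 𝒱.mem Y d) (hX : 𝒱.mem X n)
    {l : W.coh Y} {ξ : W.coh X} {LamY : Module.End ℂ (W.coh Y)} {LamX : Module.End ℂ (W.coh X)}
    {jY : W.coh Y →ₛₗ[starRingEnd ℂ] W.coh Y} {jX : W.coh X →ₛₗ[starRingEnd ℂ] W.coh X},
    l ∈ W.gr Y 2 → ξ ∈ W.gr X 2 → IsRS W Y d l LamY jY → IsRS W X n ξ LamX jX →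
    ∃ j : W.coh (Y ⊗ X) →ₛₗ[starRingEnd ℂ] W.coh (Y ⊗ X),
      IsRS W (Y ⊗ X) (d + n) (sumPol W l ξ) (lamProd hW hY hX LamY LamX) j ∧
      ∀ y x, j (W.pull (fst Y X) y * W.pull (snd Y X) x)
        = W.pull (fst Y X) (jY y) * W.pull (snd Y X) (jX x)

/-- Row RSC: change of the polarisation by a factor. -/
def RscStatement : Prop :=
  ∀ {k : Type u} [Field k] {W : CohomologyData.{u, 0, w} k ℂ} {𝒱 : VarietyClass k}
    (_ : IsWeilCohomology W 𝒱) {X : Sch k} {n : ℕ} (_ : 𝒱.mem X n)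
    {ξ : W.coh X} {Lam : Module.End ℂ (W.coh X)}
    {j : W.coh X →ₛₗ[starRingEnd ℂ] W.coh X} (c : ℝ), 0 < c → IsRS W X n ξ Lam j →
    IsRS W X n ((c : ℂ) • ξ) ((c : ℂ)⁻¹ • Lam) j

/-- Row RSQ: positivity on the classes fixed by `j`. -/
def RsqStatement : Prop :=
  ∀ {k : Type u} [Field k] {W : CohomologyData.{u, 0, w} k ℂ} {𝒱 : VarietyClass k}
    (_ : IsWeilCohomology W 𝒱) {X : Sch k} {n : ℕ} (_ : 𝒱.mem X n)
    {ξ : W.coh X} {Lam : Module.End ℂ (W.coh X)}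
    {j : W.coh X →ₛₗ[starRingEnd ℂ] W.coh X}, ξ ∈ W.gr X 2 → IsRS W X n ξ Lam j →
    ∀ i x, 2 * i ≤ n → x ∈ W.gr X (2 * i) → ξ ^ (n - 2 * i + 1) * x = 0 → x ≠ 0 → j x = x →
      ∃ r : ℝ, 0 < r ∧ (-1 : ℂ) ^ i * W.tr X (ξ ^ (n - 2 * i) * (x * x)) = (r : ℂ)

/-- Row FIX: the real structures of the products fix the classes that come from pairs. -/
def FixStatement : Prop :=
  ∀ {k : Type u} [Field k] {W : CohomologyData.{u, 0, w} k ℂ} {𝒱 : VarietyClass k}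
    (_ : IsWeilCohomology W 𝒱) {X : ℕ → Sch k} {n : ℕ → ℕ} (_ : ∀ i, 𝒱.mem (X i) (n i))
    (j : ∀ i, W.coh (X i) →ₛₗ[starRingEnd ℂ] W.coh (X i))
    (J : ∀ r, W.coh (prodSeq X r) →ₛₗ[starRingEnd ℂ] W.coh (prodSeq X r)),
    (∀ i l x, x ∈ W.gr (X i) l → j i x ∈ W.gr (X i) l) → (∀ i, j i 1 = 1) →
    J 0 = j 0 →
    (∀ r y x, J (r + 1) (W.pull (fst (prodSeq X r) (X (r + 1))) y
        * W.pull (snd (prodSeq X r) (X (r + 1))) x)
      = W.pull (fst (prodSeq X r) (X (r + 1))) (J r y)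
        * W.pull (snd (prodSeq X r) (X (r + 1))) (j (r + 1) x)) →
    (∀ i l, ∀ x ∈ W.alg (X i) l, j i x = x) →
    (∀ i i' l, ∀ γ ∈ W.alg (X i ⊗ X i') l,
      ∃ (N : ℕ) (a : Fin N → W.coh (X i)) (b : Fin N → W.coh (X i')),
        γ = ∑ ν, W.pull (fst (X i) (X i')) (a ν) * W.pull (snd (X i) (X i')) (b ν) ∧
        γ = ∑ ν, W.pull (fst (X i) (X i')) (j i (a ν)) * W.pull (snd (X i) (X i')) (j i' (b ν))) →
    ∀ r S z, PairClass W X r S z → J r z = z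

/-- Row SPN: algebraic classes in the span of fixed algebraic classes are fixed. -/
def SpnStatement : Prop :=
  ∀ {k : Type u} [Field k] {W : CohomologyData.{u, 0, w} k ℂ} {𝒱 : VarietyClass k}
    (_ : IsWeilCohomology W 𝒱) {X : Sch k} {n : ℕ} (_ : 𝒱.mem X n)
    {ξ : W.coh X} {Lam : Module.End ℂ (W.coh X)}
    {j : W.coh X →ₛₗ[starRingEnd ℂ] W.coh X}, ξ ∈ W.alg X 1 → LamData W X n ξ Lam →
    IsRS W X n ξ Lam j → ∀ Z : Set (W.coh X), (∀ z ∈ Z, z ∈ tot W X) → (∀ z ∈ Z, j z = z) →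
    ∀ x ∈ tot W X, x ∈ Submodule.span ℂ Z → j x = x

/-- Row PC: Theorem P with coefficients in `ℂ`. -/
def PcStatement : Prop :=
  ∀ {k : Type u} [Field k] {W : CohomologyData.{u, 0, w} k ℂ} {𝒱 : VarietyClass k}
    (_ : IsWeilCohomology W 𝒱) {m : ℕ} {X : Fin m → Sch k} {n : Fin m → ℕ}
    (_ : ∀ a, 𝒱.mem (X a) (n a)) {ξ : ∀ a, W.coh (X a)}
    (_ : ∀ a, PositiveDivisor W (X a) (n a) (ξ a))
    (_ : ∀ a, HardLefschetz W (X a) (n a) (ξ a))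
    (_ : ∀ a, AlgebraicLambda W (X a) (n a) (ξ a))
    (_ : ∀ a b, HodgeType W ((X a).prod (X b)) (n a + n b) (sumPol W (ξ a) (ξ b)))
    (s : ℕ → Fin m) (c : ℕ → ℚ) (_ : ∀ i, 0 < c i) (r : ℕ),
    HodgeOn W (prodSeq (fun i => X (s i)) r) (∑ i ∈ Finset.range (r + 1), n (s i))
      (polSeq W (fun i => ((c i : ℚ) : ℂ) • ξ (s i)) r) (pairSpan W (fun i => X (s i)) r)

/-- Row BC: extension of the coefficients. -/
def BcStatement : Prop :=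
  ∀ {k : Type u} [Field k] {K : Type v} [Field K] [CharZero K] [Algebra K ℂ]
    {W : CohomologyData.{u, v, w} k K} {𝒱 : VarietyClass k} (_ : IsWeilCohomology W 𝒱),
    (∀ {X : Sch k} {n : ℕ} (_ : 𝒱.mem X n) (ξ : W.coh X), ξ ∈ W.alg X 1 →
      (HardLefschetz W X n ξ → HardLefschetz W.ext' X n (inc W ξ)) ∧
      (HardLefschetz W X n ξ → AlgebraicLambda W X n ξ →
        AlgebraicLambda W.ext' X n (inc W ξ)) ∧
      (PositiveDivisor W X n ξ → PositiveDivisor W.ext' X n (inc W ξ)) ∧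
      (HodgeType W X n ξ → HodgeType W.ext' X n (inc W ξ)) ∧
      (∀ (R : Submodule K (W.coh X)) (R' : Submodule ℂ (W.ext'.coh X)),
        (∀ x ∈ R, inc W x ∈ R') → HodgeOn W.ext' X n (inc W ξ) R' → HodgeOn W X n ξ R)) ∧
    (∀ (X : ℕ → Sch k) (r : ℕ) (S : Finset (Fin (r + 1))) (z : W.coh (prodSeq X r)),
      PairClass W X r S z → PairClass W.ext' X r S (inc W z)) ∧
    (∀ (X : ℕ → Sch k) (r : ℕ) (ξ : ∀ i, W.coh (X i)),
      inc W (polSeq W ξ r) = polSeq W.ext' (fun i => inc W (ξ i)) r)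

/-- Theorem P. -/
def ThmPStatement : Prop :=
  ∀ {k : Type u} [Field k] {K : Type v} [Field K] [CharZero K] (_ : K →+* ℂ)
    (W : CohomologyData.{u, v, w} k K) (𝒱 : VarietyClass k) (_ : IsWeilCohomology W 𝒱)
    {m : ℕ} {X : Fin m → Sch k} {n : Fin m → ℕ} (_ : ∀ a, 𝒱.mem (X a) (n a))
    {ξ : ∀ a, W.coh (X a)} (_ : ∀ a, PositiveDivisor W (X a) (n a) (ξ a))
    (_ : ∀ a, HardLefschetz W (X a) (n a) (ξ a))
    (_ : ∀ a, AlgebraicLambda W (X a) (n a) (ξ a))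
    (_ : ∀ a b, HodgeType W ((X a).prod (X b)) (n a + n b) (pol W 1 (ξ a) 1 (ξ b)))
    (s : ℕ → Fin m) (c : ℕ → ℚ) (_ : ∀ i, 0 < c i) (r : ℕ),
    HodgeOn W (prodSeq (fun i => X (s i)) r) (∑ i ∈ Finset.range (r + 1), n (s i))
      (polSeq W (fun i => W.scal ((c i : ℚ) : K) (ξ (s i))) r)
      (pairSpan W (fun i => X (s i)) r)

end Pool.Agent.Lib.MP_361a6f_ag.PP
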