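import Pool.Agent.Lib.MP_361a6f_ag.PP.StatG
import Pool.Agent.Lib.MP_361a6f_ag.SQ.OpTen
import Pool.Agent.Lib.MP_361a6f_ag.SQ.LefProj
import Pool.Agent.Lib.MP_361a6f_ag.H3.BaseChange

/-!
# Part G: algebraic classes on products come from pairs (definitions and statements of the rows)
-/

open CategoryTheory AlgebraicGeometry MonoidalCategory CartesianMonoidalCategory

universe u v w

namespace Pool.Agent.Lib.MP_361a6f_ag.PP

open Pool.Agent.Lib.MP_361a6f_ag.H3 Pool.Agent.Lib.MP_361a6f_ag.SQ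
  Pool.Agent.Lib.MP_361a6f_ag.IP2

/-! ### Internal definitions -/

section int

variable {k : Type u} [Field k]

/-- `x` is a letter with Frobenius eigenvalue `μ`: an algebraic class or `ξ^s v`, `v ∈ T^i(X)` a
generalised eigenvector of `F^*` -/
def Letter (W : CohomologyData.{u, 0, w} k ℂ) (X : Sch k) (n : ℕ) (ξ : W.coh X) (F : X ⟶ X)
    (q : ℕ) (x : W.coh X) (μ : ℂ) : Prop :=
  (∃ j, x ∈ W.alg X j ∧ μ = (q : ℂ) ^ j) ∨
  (∃ (i s : ℕ) (v : W.coh X) (β : ℂ), i ≤ n ∧ v ∈ TS W X n ξ i ∧ v ≠ 0 ∧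
    v ∈ Module.End.maxGenEigenspace (W.pull F).toLinearMap β ∧ x = ξ ^ s * v ∧
    μ = (q : ℂ) ^ s * β)

/-- the product `pr_0^* x_0 ⋯ pr_r^* x_r` on `X_0 × ⋯ × X_r` -/
noncomputable def word (W : CohomologyData.{u, 0, w} k ℂ) (X : ℕ → Sch k)
    (x : ∀ i, W.coh (X i)) : (r : ℕ) → W.coh (prodSeq X r)
  | 0 => x 0
  | r + 1 => W.pull (fst (prodSeq X r) (X (r + 1))) (word W X x r)
      * W.pull (snd (prodSeq X r) (X (r + 1))) (x (r + 1))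

/-- the exterior product of `x` and `y` is a linear combination of algebraic classes -/
def PairOK (W : CohomologyData.{u, 0, w} k ℂ) {X Y : Sch k} (x : W.coh X) (y : W.coh Y) : Prop :=
  W.pull (fst X Y) x * W.pull (snd X Y) y ∈
    Submodule.span ℂ {z | ∃ c, z ∈ W.alg (X ⊗ Y) c}

end int

/-! ### Rows over `ℂ` -/

/-- Row LET: the cohomology is spanned by letters (finitely many, so with a uniform exponent). -/
def LetStatement : Prop :=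
  ∀ {k : Type u} [Field k] {W : CohomologyData.{u, 0, w} k ℂ} {𝒱 : VarietyClass k}
    (_ : IsWeilCohomology W 𝒱) {X : Sch k} {n : ℕ} (_ : 𝒱.mem X n) {ξ : W.coh X}
    (_ : ξ ∈ W.alg X 1) (_ : HardLefschetz W X n ξ) (_ : AlgebraicLambda W X n ξ)
    (_ : HodgeType W X n ξ)
    {F : X ⟶ X} {q : ℕ} (_ : 0 < q) (_ : ∀ x, W.tr X (W.pull F x) = (q : ℂ) ^ n * W.tr X x)
    (_ : W.pull F ξ = (q : ℂ) • ξ)
    (_ : ∀ j, ∀ x ∈ W.alg X j, ∃ t : ℕ, 0 < t ∧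
      (W.pull F)^[t] x = ((q : ℂ) ^ (j * t)) • x),
    ∃ (Lt : W.coh X → ℂ → Prop) (t₀ : ℕ), 0 < t₀ ∧
      (∀ x μ, Lt x μ → Letter W X n ξ F q x μ) ∧
      (∀ t, t₀ ∣ t → ∀ x μ, Lt x μ →
        x ∈ Module.End.maxGenEigenspace ((W.pull F).toLinearMap ^ t) (μ ^ t)) ∧
      Submodule.span ℂ {x | ∃ μ, Lt x μ} = ⊤

/-- Row WRD: eigenclasses on `X_0 × ⋯ × X_r` are combinations of words with the right
eigenvalue. -/
def WrdStatement : Prop :=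
  ∀ {k : Type u} [Field k] {W : CohomologyData.{u, 0, w} k ℂ} {𝒱 : VarietyClass k}
    (_ : IsWeilCohomology W 𝒱) {X : ℕ → Sch k} {n : ℕ → ℕ} (_ : ∀ i, 𝒱.mem (X i) (n i))
    (F : ∀ i, X i ⟶ X i) (Lt : ∀ i, W.coh (X i) → ℂ → Prop) (t : ℕ),
    (∀ i x μ, Lt i x μ →
      x ∈ Module.End.maxGenEigenspace ((W.pull (F i)).toLinearMap ^ t) (μ ^ t)) →
    (∀ i, Submodule.span ℂ {x | ∃ μ, Lt i x μ} = ⊤) →
    ∀ (r : ℕ) (c : ℂ) (x : W.coh (prodSeq X r)), (W.pull (homSeq F r))^[t] x = c • x →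
      x ∈ Submodule.span ℂ {z | ∃ (y : ∀ i, W.coh (X i)) (μ : ℕ → ℂ),
        (∀ i ≤ r, Lt i (y i) (μ i)) ∧ (∏ i ∈ Finset.range (r + 1), μ i) ^ t = c ∧
        z = word W X y r}

/-- Row MTC: a word whose letters are algebraic or matched in pairs lies in the span of the pair
classes. -/
def MtcStatement : Prop :=
  ∀ {k : Type u} [Field k] {W : CohomologyData.{u, 0, w} k ℂ} {𝒱 : VarietyClass k}
    (_ : IsWeilCohomology W 𝒱) {X : ℕ → Sch k} {n : ℕ → ℕ} (_ : ∀ i, 𝒱.mem (X i) (n i))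
    (r : ℕ) (y : ∀ i, W.coh (X i)) (d : ℕ → ℕ) (_ : ∀ i ≤ r, y i ∈ W.gr (X i) (d i))
    (S : Finset ℕ) (_ : ∀ i ∈ S, i ≤ r)
    (_ : ∀ i ≤ r, i ∉ S → y i ∈ Submodule.span ℂ {z | ∃ c, z ∈ W.alg (X i) c})
    (σ : ℕ → ℕ) (_ : ∀ p ∈ S, σ p ∈ S ∧ σ (σ p) = p ∧ σ p ≠ p ∧ PairOK W (y p) (y (σ p))),
    word W X y r ∈ pairSpan W X r

/-- Row KIL: the eigenvalues of `F^*` on `T^i(X)` are roots of the characteristic polynomial; if
they are simple then the eigenspaces are lines. -/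
def KilStatement : Prop :=
  ∀ {k : Type u} [Field k] {W : CohomologyData.{u, 0, w} k ℂ} {X : Sch k} {n : ℕ} {ξ : W.coh X}
    {F : X ⟶ X} {i : ℕ} {Φ : Polynomial ℚ} (_ : TransBasis W X n ξ i F Φ) (v : W.coh X) (β : ℂ),
    v ∈ TS W X n ξ i → v ≠ 0 → v ∈ Module.End.maxGenEigenspace (W.pull F).toLinearMap β →
    Polynomial.aeval β Φ = 0 ∧
    (Φ.Separable → W.pull F v = β • v ∧
      ∀ v' ∈ TS W X n ξ i, v' ∈ Module.End.maxGenEigenspace (W.pull F).toLinearMap β →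
        ∃ c : ℂ, v' = c • v)

/-- Row PGC: the pair classes for simple eigenvalues. -/
def PgcStatement : Prop :=
  ∀ {k : Type u} [Field k] {W : CohomologyData.{u, 0, w} k ℂ} {𝒱 : VarietyClass k}
    (_ : IsWeilCohomology W 𝒱) {X : Sch k} {n : ℕ} (_ : 𝒱.mem X n) {ξ : W.coh X}
    (_ : ξ ∈ W.alg X 1) (_ : HardLefschetz W X n ξ) (_ : AlgebraicLambda W X n ξ)
    (_ : HodgeType W X n ξ)
    {F : X ⟶ X} {q : ℕ} (_ : 0 < q) (_ : ∀ x, W.tr X (W.pull F x) = (q : ℂ) ^ n * W.tr X x)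
    (_ : W.pull F ξ = (q : ℂ) • ξ) {i : ℕ} (_ : i ≤ n) {Φ : Polynomial ℚ} (_ : Φ.Separable)
    (_ : TransBasis W X n ξ i F Φ) (v v' : W.coh X) (β β' : ℂ),
    v ∈ TS W X n ξ i → v' ∈ TS W X n ξ i →
    v ∈ Module.End.maxGenEigenspace (W.pull F).toLinearMap β →
    v' ∈ Module.End.maxGenEigenspace (W.pull F).toLinearMap β' →
    β * β' = (q : ℂ) ^ i → PairOK W v v'

/-- Row TPC: Tate's theorem gives the pair classes for `H^1(X) ⊗ H^1(Y)`. -/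
def TpcStatement : Prop :=
  ∀ {k : Type u} [Field k] {W : CohomologyData.{u, 0, w} k ℂ} {𝒱 : VarietyClass k}
    (_ : IsWeilCohomology W 𝒱) {m : ℕ} {X : Fin m → Sch k} {n : Fin m → ℕ}
    (_ : ∀ a, 𝒱.mem (X a) (n a)) {F : ∀ a, X a ⟶ X a} {q : ℕ} (_ : TateOne W X F q)
    (a b : Fin m) (v : W.coh (X a)) (v' : W.coh (X b)) (β β' : ℂ) (t : ℕ),
    v ∈ W.gr (X a) 1 → v' ∈ W.gr (X b) 1 →
    v ∈ Module.End.maxGenEigenspace (W.pull (F a)).toLinearMap β →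
    v' ∈ Module.End.maxGenEigenspace (W.pull (F b)).toLinearMap β' →
    0 < t → (β * β') ^ t = (q : ℂ) ^ t → PairOK W v v'

/-- Row CG: over `ℂ` the algebraic classes on `X_0 × ⋯ × X_r` come from pairs. -/
def CgStatement : Prop :=
  ∀ {k : Type u} [Field k] {W : CohomologyData.{u, 0, w} k ℂ} {𝒱 : VarietyClass k}
    (_ : IsWeilCohomology W 𝒱) {X : ℕ → Sch k} {n : ℕ → ℕ} (_ : ∀ i, 𝒱.mem (X i) (n i))
    {ξ : ∀ i, W.coh (X i)} (_ : ∀ i, ξ i ∈ W.alg (X i) 1)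
    (_ : ∀ i, HardLefschetz W (X i) (n i) (ξ i)) (_ : ∀ i, AlgebraicLambda W (X i) (n i) (ξ i))
    (_ : ∀ i, HodgeType W (X i) (n i) (ξ i))
    {F : ∀ i, X i ⟶ X i} {q : ℕ} (_ : 1 < q)
    (_ : ∀ i x, W.tr (X i) (W.pull (F i) x) = (q : ℂ) ^ (n i) * W.tr (X i) x)
    (_ : ∀ i, W.pull (F i) (ξ i) = (q : ℂ) • ξ i)
    (_ : ∀ i j, ∀ x ∈ W.alg (X i) j, ∃ t : ℕ, 0 < t ∧
      (W.pull (F i))^[t] x = ((q : ℂ) ^ (j * t)) • x)
    (r : ℕ) (_ : FrobeniusSeq W F q r)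
    -- the eigenvalues on `T^i` have absolute value `q^(i/2)`
    (_ : ∀ p i, i ≤ n p → ∀ (v : W.coh (X p)) (β : ℂ), v ∈ TS W (X p) (n p) (ξ p) i → v ≠ 0 →
      v ∈ Module.End.maxGenEigenspace (W.pull (F p)).toLinearMap β → ‖β‖ ^ 2 = (q : ℝ) ^ i)
    -- relations come from pairs
    (_ : ∀ (S : Finset ℕ) (i : ℕ → ℕ) (v : ∀ p, W.coh (X p)) (β : ℕ → ℂ) (c t : ℕ),
      (∀ p ∈ S, p ≤ r ∧ i p ≤ n p ∧ v p ∈ TS W (X p) (n p) (ξ p) (i p) ∧ v p ≠ 0 ∧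
        v p ∈ Module.End.maxGenEigenspace (W.pull (F p)).toLinearMap (β p)) →
      ∑ p ∈ S, i p = 2 * c → 0 < t → (∏ p ∈ S, β p) ^ t = ((q : ℂ) ^ c) ^ t →
      ∃ σ : ℕ → ℕ, ∀ p ∈ S, σ p ∈ S ∧ σ (σ p) = p ∧ σ p ≠ p ∧ PairOK W (v p) (v (σ p))),
    ∀ j, ∀ x ∈ W.alg (prodSeq X r) j, x ∈ pairSpan W X r

/-! ### Rows: extension of the coefficients -/

/-- Row BCT: the transcendental part and its basis. -/
def BctStatement : Prop :=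
  ∀ {k : Type u} [Field k] {K : Type v} [Field K] [CharZero K] [Algebra K ℂ]
    {W : CohomologyData.{u, v, w} k K} {𝒱 : VarietyClass k} (_ : IsWeilCohomology W 𝒱)
    {X : Sch k} {n : ℕ} (_ : 𝒱.mem X n) (ξ : W.coh X) (i : ℕ) (F : X ⟶ X) (Φ : Polynomial ℚ),
    TransBasis W X n ξ i F Φ → Nonempty (TransBasis W.ext' X n (inc W ξ) i F Φ)

/-- Row BCO: Tate's theorem in degree one. -/
def BcoStatement : Prop :=
  ∀ {k : Type u} [Field k] {K : Type v} [Field K] [CharZero K] [Algebra K ℂ]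
    {W : CohomologyData.{u, v, w} k K} {𝒱 : VarietyClass k} (_ : IsWeilCohomology W 𝒱)
    {m : ℕ} {X : Fin m → Sch k} {n : Fin m → ℕ} (_ : ∀ a, 𝒱.mem (X a) (n a))
    (F : ∀ a, X a ⟶ X a) (q : ℕ), TateOne W X F q → TateOne W.ext' X F q

/-- Row BCF: Frobenius, and descent of the conclusion (DSC). -/
def BcfStatement : Prop :=
  ∀ {k : Type u} [Field k] {K : Type v} [Field K] [CharZero K] [Algebra K ℂ]
    {W : CohomologyData.{u, v, w} k K} {𝒱 : VarietyClass k} (_ : IsWeilCohomology W 𝒱),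
    (∀ {m : ℕ} {X : Fin m → Sch k} {n : Fin m → ℕ} (_ : ∀ a, 𝒱.mem (X a) (n a))
      {ξ : ∀ a, W.coh (X a)} {F : ∀ a, X a ⟶ X a} {q : ℕ}, FrobeniusProducts W X n ξ F q →
      FrobeniusProducts W.ext' X n (fun a => inc W (ξ a)) F q) ∧
    (∀ {X : ℕ → Sch k} {n : ℕ → ℕ} (_ : ∀ i, 𝒱.mem (X i) (n i)) (r : ℕ),
      (∀ j, ∀ x ∈ W.ext'.alg (prodSeq X r) j, x ∈ pairSpan W.ext' X r) →
      ∀ j, ∀ x ∈ W.alg (prodSeq X r) j, x ∈ pairSpan W X r)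

/-! ### The final rows -/

/-- Row GC: over `ℂ`, the family version. -/
def GcStatement : Prop :=
  ∀ {k : Type u} [Field k] {W : CohomologyData.{u, 0, w} k ℂ} {𝒱 : VarietyClass k}
    (_ : IsWeilCohomology W 𝒱) {m : ℕ} {X : Fin m → Sch k} {n : Fin m → ℕ}
    (_ : ∀ a, 𝒱.mem (X a) (n a)) {ξ : ∀ a, W.coh (X a)} (_ : ∀ a, ξ a ∈ W.alg (X a) 1)
    (_ : ∀ a, HardLefschetz W (X a) (n a) (ξ a)) (_ : ∀ a, AlgebraicLambda W (X a) (n a) (ξ a))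
    (_ : ∀ a, HodgeType W (X a) (n a) (ξ a)) {q : ℕ} (_ : 1 < q) {F : ∀ a, X a ⟶ X a}
    (_ : FrobeniusProducts W X n ξ F q) {Φ : Fin m → ℕ → Polynomial ℚ}
    (_ : SimpleSpectrum n q Φ)
    (_ : ∀ a i, i ≤ n a → TransBasis W (X a) (n a) (ξ a) i (F a) (Φ a i))
    (_ : TateOne W X F q) (s : ℕ → Fin m) (r : ℕ) (_ : Matched n q Φ s r),
    ∀ j, ∀ x ∈ W.alg (prodSeq (fun i => X (s i)) r) j, x ∈ pairSpan W (fun i => X (s i)) r

/-- Row GFIN: Theorem G. -/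
def ThmGStatement : Prop :=
  ∀ {k : Type u} [Field k] {K : Type v} [Field K] [CharZero K] (_ : K →+* ℂ)
    (W : CohomologyData.{u, v, w} k K) (𝒱 : VarietyClass k) (_ : IsWeilCohomology W 𝒱)
    {m : ℕ} {X : Fin m → Sch k} {n : Fin m → ℕ} (_ : ∀ a, 𝒱.mem (X a) (n a))
    {ξ : ∀ a, W.coh (X a)} (_ : ∀ a, W.IsAlg (X a) 1 (ξ a))
    (_ : ∀ a, HardLefschetz W (X a) (n a) (ξ a)) (_ : ∀ a, AlgebraicLambda W (X a) (n a) (ξ a))
    (_ : ∀ a, HodgeType W (X a) (n a) (ξ a)) {q : ℕ} (_ : 1 < q)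
    {F : ∀ a, Sch.Mor (X a) (X a)} (_ : FrobeniusProducts W X n ξ F q)
    {Φ : Fin m → ℕ → Polynomial ℚ} (_ : SimpleSpectrum n q Φ)
    (_ : ∀ a i, i ≤ n a → TransBasis W (X a) (n a) (ξ a) i (F a) (Φ a i))
    (_ : TateOne W X F q) (s : ℕ → Fin m) (r : ℕ) (_ : Matched n q Φ s r),
    ∀ j, ∀ x ∈ W.alg (prodSeq (fun i => X (s i)) r) j, x ∈ pairSpan W (fun i => X (s i)) r

end Pool.Agent.Lib.MP_361a6f_ag.PP
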