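import Pool.Agent.Lib.MP_361a6f_ag.PP.PC

/-!
# Row FIX: the real structures of the products fix the classes that come from pairs
-/

open CategoryTheory AlgebraicGeometry MonoidalCategory CartesianMonoidalCategory

universe u v w

namespace Pool.Agent.Lib.MP_361a6f_ag.PP

open Pool.Agent.Lib.MP_361a6f_ag.H3 Pool.Agent.Lib.MP_361a6f_ag.SQ
  Pool.Agent.Lib.MP_361a6f_ag.IP2

namespace FIX

variable {k : Type u} [Field k]

/-- the exterior product of the classes `x i`, `i ≤ r` -/
noncomputable def mono (W : CohomologyData.{u, 0, w} k ℂ) {X : ℕ → Sch k}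
    (x : ∀ i, W.coh (X i)) : (r : ℕ) → W.coh (prodSeq X r)
  | 0 => x 0
  | r + 1 => W.pull (fst (prodSeq X r) (X (r + 1))) (mono W x r)
      * W.pull (snd (prodSeq X r) (X (r + 1))) (x (r + 1))

theorem mono_one (W : CohomologyData.{u, 0, w} k ℂ) {X : ℕ → Sch k}
    (x : ∀ i, W.coh (X i)) (hx : ∀ i, x i = 1) (r : ℕ) : mono W x r = 1 := by
  induction r with
  | zero => exact hx 0
  | succ r ih =>
    rw [mono, ih, hx, map_one, map_one, mul_one]
    rfl

theorem mono_congr (W : CohomologyData.{u, 0, w} k ℂ) {X : ℕ → Sch k}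
    (x y : ∀ i, W.coh (X i)) (r : ℕ) (h : ∀ i ≤ r, x i = y i) : mono W x r = mono W y r := by
  induction r with
  | zero => exact h 0 le_rfl
  | succ r ih =>
    rw [mono, mono, ih (fun i hi => h i (by omega)), h (r + 1) le_rfl]

theorem prSeq_zero (X : ℕ → Sch k) : prSeq X 0 0 = 𝟙 _ := rfl

theorem prSeq_last (X : ℕ → Sch k) (r : ℕ) :
    prSeq X (r + 1) (Fin.last (r + 1)) = snd (prodSeq X r) (X (r + 1)) := by
  rw [prSeq]
  exact Fin.lastCases_last

theorem prSeq_castSucc (X : ℕ → Sch k) (r : ℕ) (i : Fin (r + 1)) :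
    prSeq X (r + 1) i.castSucc = fst (prodSeq X r) (X (r + 1)) ≫ prSeq X r i := by
  rw [prSeq]
  exact Fin.lastCases_castSucc i

theorem pull_castSucc (W : CohomologyData.{u, 0, w} k ℂ) (X : ℕ → Sch k) (r : ℕ)
    (i : Fin (r + 1)) (a : W.coh (X (i : ℕ))) :
    W.pull (prSeq X (r + 1) i.castSucc) a
      = W.pull (fst (prodSeq X r) (X (r + 1))) (W.pull (prSeq X r i) a) := by
  rw [← W.pull_comp]
  exact congrArg (fun φ => W.pull φ a) (prSeq_castSucc X r i)

/-- multiplication of an exterior product by a class of one factor -/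
theorem mono_mul {W : CohomologyData.{u, 0, w} k ℂ} {𝒱 : VarietyClass k}
    (hW : IsWeilCohomology W 𝒱) {X : ℕ → Sch k} {n : ℕ → ℕ} (hX : ∀ i, 𝒱.mem (X i) (n i))
    (p : ℕ) (d : ℕ → ℕ) (r : ℕ) (i : Fin (r + 1)) :
    ∃ ε : ℂ, (ε = 1 ∨ ε = -1) ∧ ∀ x : ∀ i, W.coh (X i), (∀ i', x i' ∈ W.gr (X i') (d i')) →
      x i = 1 → ∀ a ∈ W.gr (X (i : ℕ)) p,
        mono W x r * W.pull (prSeq X r i) a = ε • mono W (Function.update x (i : ℕ) a) r := by
  induction r with
  | zero =>
    refine ⟨1, Or.inl rfl, fun x hx h1 a ha => ?_⟩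
    have hi0 : i = 0 := Fin.fin_one_eq_zero i
    subst hi0
    rw [one_smul]
    have h1' : x 0 = 1 := h1
    have h2 : ∀ b : W.coh (X 0), x 0 * W.pull (𝟙 (X 0)) b = Function.update x 0 b 0 := by
      intro b
      rw [Function.update_self, h1', one_mul]
      exact W.pull_id b
    exact h2 a
  | succ r ih =>
    induction i using Fin.lastCases with
    | last =>
      refine ⟨1, Or.inl rfl, fun x hx h1 a ha => ?_⟩
      have h1' : x (r + 1) = 1 := h1
      rw [one_smul, prSeq_last, mono, mono]
      change _ = W.pull _ _ * W.pull _ (Function.update x (r + 1) a (r + 1))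
      rw [Function.update_self, h1', map_one, mul_one]
      congr 2
      refine mono_congr W _ _ r fun i' hi' => ?_
      symm
      exact Function.update_of_ne (by
        have : (r + 1 : ℕ) ≠ i' := by omega
        exact fun h => this h.symm) _ _
    | cast i =>
      obtain ⟨ε, hε, h⟩ := ih i
      refine ⟨(-1) ^ (d (r + 1) * p) * ε, ?_, fun x hx h1 a ha => ?_⟩
      · rcases neg_one_pow_eq_or ℂ (d (r + 1) * p) with h2 | h2 <;> rcases hε with h3 | h3 <;>
          rw [h2, h3] <;> simp
      · have hM := PCA.mem_prodSeq hX r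
        have hM' := 𝒱.prod hM (hX (r + 1))
        have h2 := h x hx h1 a ha
        have h4 : W.pull (snd (prodSeq X r) (X (r + 1))) (x (r + 1))
            * W.pull (fst (prodSeq X r) (X (r + 1))) (W.pull (prSeq X r i) a)
            = ((-1 : ℂ) ^ (d (r + 1) * p)) • (W.pull (fst (prodSeq X r) (X (r + 1)))
              (W.pull (prSeq X r i) a) * W.pull (snd (prodSeq X r) (X (r + 1))) (x (r + 1))) :=
          hW.graded.comm hM' (hW.graded.pull hM' (hX (r + 1)) _ (hx (r + 1)))
            (hW.graded.pull hM' hM _ (hW.graded.pull hM (hX (i : ℕ)) _ ha))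
        have h5 : Function.update x ((i.castSucc : Fin (r + 2)) : ℕ) a (r + 1) = x (r + 1) :=
          Function.update_of_ne (by
            have := i.2
            have h6 : ((i.castSucc : Fin (r + 2)) : ℕ) = (i : ℕ) := rfl
            rw [h6]
            omega) _ _
        have h6 : (W.pull (fst (prodSeq X r) (X (r + 1))) (mono W x r)
              * W.pull (snd (prodSeq X r) (X (r + 1))) (x (r + 1)))
              * W.pull (fst (prodSeq X r) (X (r + 1))) (W.pull (prSeq X r i) a)
            = ((-1 : ℂ) ^ (d (r + 1) * p) * ε) • (W.pull (fst (prodSeq X r) (X (r + 1)))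
              (mono W (Function.update x (i : ℕ) a) r)
              * W.pull (snd (prodSeq X r) (X (r + 1))) (x (r + 1))) := by
          rw [mul_assoc, h4, mul_smul_comm, ← mul_assoc, ← map_mul, h2, map_smul, smul_mul_assoc,
            smul_smul]
        refine (congrArg (fun t => mono W x (r + 1) * t) (pull_castSucc W X r i a)).trans
          (h6.trans ?_)
        exact congrArg (fun t => ((-1 : ℂ) ^ (d (r + 1) * p) * ε) •
          (W.pull (fst (prodSeq X r) (X (r + 1))) (mono W (Function.update x (i : ℕ) a) r)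
            * W.pull (snd (prodSeq X r) (X (r + 1))) t)) h5.symm

variable {W : CohomologyData.{u, 0, w} k ℂ} {X : ℕ → Sch k}

/-- sums of pairs `(x, j x)` of exterior products that involve the factors in `S` only -/
noncomputable def Rel (j : ∀ i, W.coh (X i) →ₛₗ[starRingEnd ℂ] W.coh (X i)) (r : ℕ)
    (S : Finset (Fin (r + 1))) : AddSubgroup (W.coh (prodSeq X r) × W.coh (prodSeq X r)) :=
  AddSubgroup.closure {q | ∃ (d : ℕ → ℕ) (x : ∀ i, W.coh (X i)),
    (∀ i, x i ∈ W.gr (X i) (d i)) ∧ (∀ i : Fin (r + 1), i ∉ S → x i = 1) ∧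
      q = (mono W x r, mono W (fun i => j i (x i)) r)}

theorem lemmaA_hom {𝒱 : VarietyClass k} (hW : IsWeilCohomology W 𝒱) {n : ℕ → ℕ}
    (hX : ∀ i, 𝒱.mem (X i) (n i)) (j : ∀ i, W.coh (X i) →ₛₗ[starRingEnd ℂ] W.coh (X i))
    (hj : ∀ i l x, x ∈ W.gr (X i) l → j i x ∈ W.gr (X i) l) (hj1 : ∀ i, j i 1 = 1)
    {r : ℕ} {S : Finset (Fin (r + 1))} {i : Fin (r + 1)} (hi : i ∉ S) {p : ℕ}
    {a : W.coh (X (i : ℕ))} (ha : a ∈ W.gr (X (i : ℕ)) p)
    {q : W.coh (prodSeq X r) × W.coh (prodSeq X r)} (hq : q ∈ Rel j r S) :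
    (q.1 * W.pull (prSeq X r i) a, q.2 * W.pull (prSeq X r i) (j i a)) ∈ Rel j r (insert i S) := by
  classical
  induction hq using AddSubgroup.closure_induction with
  | mem q hq =>
    obtain ⟨d, x, hx, h1, rfl⟩ := hq
    obtain ⟨ε, hε, h⟩ := mono_mul hW hX p d r i
    have e1 := h x hx (h1 i hi) a ha
    have e2 := h (fun i => j i (x i)) (fun i' => hj i' _ _ (hx i'))
      (by rw [h1 i hi, hj1]) (j i a) (hj i p a ha)
    have e3 : Function.update (fun i => j i (x i)) (i : ℕ) (j i a)
        = fun i' => j i' (Function.update x (i : ℕ) a i') := by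
      funext i'
      rcases eq_or_ne i' (i : ℕ) with rfl | hne
      · rw [Function.update_self, Function.update_self]
      · rw [Function.update_of_ne hne, Function.update_of_ne hne]
    rw [e3] at e2
    have key : (mono W (Function.update x (i : ℕ) a) r,
        mono W (fun i' => j i' (Function.update x (i : ℕ) a i')) r) ∈ Rel j r (insert i S) := by
      refine AddSubgroup.subset_closure ⟨Function.update d (i : ℕ) p,
        Function.update x (i : ℕ) a, fun i' => ?_, fun i' hi' => ?_, rfl⟩
      · rcases eq_or_ne i' (i : ℕ) with rfl | hne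
        · rw [Function.update_self, Function.update_self]
          exact ha
        · rw [Function.update_of_ne hne, Function.update_of_ne hne]
          exact hx i'
      · rw [Finset.mem_insert, not_or] at hi'
        have hne : (i' : ℕ) ≠ (i : ℕ) := fun h => hi'.1 (Fin.ext h)
        rw [Function.update_of_ne hne]
        exact h1 i' hi'.2
    change (mono W x r * W.pull (prSeq X r i) a,
      mono W (fun i => j i (x i)) r * W.pull (prSeq X r i) (j i a)) ∈ _
    rw [e1, e2]
    rcases hε with rfl | rfl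
    · rw [one_smul, one_smul]
      exact key
    · rw [neg_one_smul, neg_one_smul]
      exact neg_mem key
  | zero =>
    rw [Prod.fst_zero, Prod.snd_zero, zero_mul, zero_mul]
    exact zero_mem _
  | add q q' _ _ h h' =>
    rw [Prod.fst_add, Prod.snd_add, add_mul, add_mul]
    exact add_mem h h'
  | neg q _ h =>
    rw [Prod.fst_neg, Prod.snd_neg, neg_mul, neg_mul]
    exact neg_mem h

theorem lemmaA {𝒱 : VarietyClass k} (hW : IsWeilCohomology W 𝒱) {n : ℕ → ℕ}
    (hX : ∀ i, 𝒱.mem (X i) (n i)) (j : ∀ i, W.coh (X i) →ₛₗ[starRingEnd ℂ] W.coh (X i))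
    (hj : ∀ i l x, x ∈ W.gr (X i) l → j i x ∈ W.gr (X i) l) (hj1 : ∀ i, j i 1 = 1)
    {r : ℕ} {S : Finset (Fin (r + 1))} {i : Fin (r + 1)} (hi : i ∉ S)
    (a : W.coh (X (i : ℕ)))
    {q : W.coh (prodSeq X r) × W.coh (prodSeq X r)} (hq : q ∈ Rel j r S) :
    (q.1 * W.pull (prSeq X r i) a, q.2 * W.pull (prSeq X r i) (j i a)) ∈ Rel j r (insert i S) := by
  have htop : a ∈ ⨆ p, W.gr (X (i : ℕ)) p := by
    rw [(hW.graded.internal (hX (i : ℕ))).submodule_iSup_eq_top]
    exact Submodule.mem_top
  induction htop using Submodule.iSup_induction' with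
  | mem p a ha => exact lemmaA_hom hW hX j hj hj1 hi ha hq
  | zero =>
    rw [map_zero, map_zero, map_zero, mul_zero, mul_zero]
    exact zero_mem _
  | add a b _ _ h h' =>
    rw [map_add, map_add, map_add, mul_add, mul_add]
    exact add_mem h h'

end FIX

open FIX in
/-- Row FIX. -/
theorem fix : FixStatement.{u, w} := by
  intro k _ W 𝒱 hW X n hX j J hj hj1 hJ0 hJ halg hpair r S z hz
  classical
  -- the pair `(z, z)` is a sum of pairs `(x, j x)`
  have main : (z, z) ∈ Rel j r S := by
    induction hz with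
    | one =>
      refine AddSubgroup.subset_closure ⟨fun _ => 0, fun _ => 1, fun i => ?_, fun _ _ => rfl, ?_⟩
      · exact hW.graded.one (hX i)
      · rw [mono_one W _ (fun _ => rfl), mono_one W _ (fun i => hj1 i)]
    | single S z i l a _ hi ha ih =>
      have h := lemmaA hW hX j hj hj1 hi a ih
      rw [halg i l a ha] at h
      exact h
    | pair S z i i' l γ _ hi hi' hne hγ ih =>
      obtain ⟨N, a, b, h1, h2⟩ := hpair i i' l γ hγ
      have e : ∀ (f : W.coh (X (i : ℕ))) (g : W.coh (X (i' : ℕ))),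
          W.pull (prPair X r i i') (W.pull (fst (X (i : ℕ)) (X (i' : ℕ))) f
            * W.pull (snd (X (i : ℕ)) (X (i' : ℕ))) g)
          = W.pull (prSeq X r i) f * W.pull (prSeq X r i') g := by
        intro f g
        rw [map_mul, ← W.pull_comp, ← W.pull_comp, prPair, lift_fst, lift_snd]
      have h3 : (W.cup z (W.pb (prPair X r i i') γ), W.cup z (W.pb (prPair X r i i') γ))
          = ∑ ν, ((z * W.pull (prSeq X r i) (a ν)) * W.pull (prSeq X r i') (b ν),
              (z * W.pull (prSeq X r i) (j i (a ν))) * W.pull (prSeq X r i') (j i' (b ν))) := by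
        refine Prod.ext ?_ ?_
        · rw [Prod.fst_sum]
          change z * W.pull (prPair X r i i') γ = _
          rw [h1, map_sum, Finset.mul_sum]
          refine Finset.sum_congr rfl fun ν _ => ?_
          rw [e, ← mul_assoc]
        · rw [Prod.snd_sum]
          change z * W.pull (prPair X r i i') γ = _
          rw [h2, map_sum, Finset.mul_sum]
          refine Finset.sum_congr rfl fun ν _ => ?_
          rw [e, ← mul_assoc]
      rw [h3]
      refine sum_mem fun ν _ => ?_
      have h4 := lemmaA hW hX j hj hj1 hi (a ν) ih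
      have h5 : i' ∉ insert i S := by
        rw [Finset.mem_insert, not_or]
        exact ⟨hne.symm, hi'⟩
      have h6 := lemmaA hW hX j hj hj1 h5 (b ν) h4
      rw [Finset.insert_comm] at h6
      exact h6
  -- `J r` maps `x` to `j x`
  have hJm : ∀ (r : ℕ) (x : ∀ i, W.coh (X i)),
      J r (mono W x r) = mono W (fun i => j i (x i)) r := by
    intro r x
    induction r with
    | zero =>
      change J 0 (x 0) = j 0 (x 0)
      rw [hJ0]
      rfl
    | succ r ih =>
      rw [mono, mono, hJ, ih]
  have key : ∀ q ∈ Rel j r S, J r q.1 = q.2 := by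
    intro q hq
    induction hq using AddSubgroup.closure_induction with
    | mem q hq =>
      obtain ⟨d, x, hx, h1, rfl⟩ := hq
      exact hJm r x
    | zero => rw [Prod.fst_zero, Prod.snd_zero, map_zero]
    | add q q' _ _ h h' => rw [Prod.fst_add, Prod.snd_add, map_add, h, h']
    | neg q _ h => rw [Prod.fst_neg, Prod.snd_neg, map_neg, h]
  exact key (z, z) main

end Pool.Agent.Lib.MP_361a6f_ag.PP
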