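import Pool.Agent.Lib.MP_361a6f_ag.PP.Adj

/-!
# The invariant hermitian form of an algebra with positive trace form
-/

set_option autoImplicit false

namespace Pool.Agent.Lib.MP_361a6f_ag.PP

open Module

variable {V : Type*} [AddCommGroup V] [Module ℂ V] [FiniteDimensional ℂ V]

/-- `E` is a `ℚ`-algebra of endomorphisms of `V` with positive involution, the adjoint with respect
to the `ε`-symmetric form `ψ` -/
structure PosAlg (psi : V →ₗ[ℂ] V →ₗ[ℂ] ℂ) (h : ∀ y, (∀ x, psi x y = 0) → y = 0)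
    (eps : V →ₗ[ℂ] V) (E : AddSubgroup (V →ₗ[ℂ] V)) : Prop where
  symm : ∀ x y, psi y x = psi (eps x) y
  sq : ∀ x, eps (eps x) = x
  one_mem : LinearMap.id ∈ E
  eps_mem : eps ∈ E
  comp_mem : ∀ e ∈ E, ∀ f ∈ E, e ∘ₗ f ∈ E
  smul_mem : ∀ (r : ℚ), ∀ e ∈ E, (r : ℂ) • e ∈ E
  comm : ∀ e ∈ E, ∀ x, eps (e x) = e (eps x)
  adj_mem : ∀ e ∈ E, adj psi h e ∈ E
  rat : ∀ e ∈ E, ∃ r : ℚ, LinearMap.trace ℂ V e = r
  pos : ∀ e ∈ E, e ≠ 0 → ∃ r : ℚ, 0 < r ∧ LinearMap.trace ℂ V (e ∘ₗ adj psi h e) = r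

section fam

variable {psi : V →ₗ[ℂ] V →ₗ[ℂ] ℂ} {h : ∀ y, (∀ x, psi x y = 0) → y = 0}
  {eps : V →ₗ[ℂ] V} {E : AddSubgroup (V →ₗ[ℂ] V)} (P : PosAlg psi h eps E)

/-- the trace form -/
noncomputable def tf (psi : V →ₗ[ℂ] V →ₗ[ℂ] ℂ) (h : ∀ y, (∀ x, psi x y = 0) → y = 0)
    (e f : V →ₗ[ℂ] V) : ℂ := LinearMap.trace ℂ V (e ∘ₗ adj psi h f)

theorem tf_add_left (e e' f : V →ₗ[ℂ] V) : tf psi h (e + e') f = tf psi h e f + tf psi h e' f := by
  rw [tf, LinearMap.add_comp, map_add]; rfl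

theorem tf_smul_left (c : ℂ) (e f : V →ₗ[ℂ] V) : tf psi h (c • e) f = c * tf psi h e f := by
  rw [tf, LinearMap.smul_comp, map_smul]; rfl

theorem tf_sum_left {ι : Type*} (s : Finset ι) (e : ι → V →ₗ[ℂ] V) (f : V →ₗ[ℂ] V) :
    tf psi h (∑ i ∈ s, e i) f = ∑ i ∈ s, tf psi h (e i) f := by
  classical
  induction s using Finset.induction_on with
  | empty => rw [Finset.sum_empty, Finset.sum_empty, tf, LinearMap.zero_comp, map_zero]
  | insert a s ha ih => rw [Finset.sum_insert ha, tf_add_left, ih, Finset.sum_insert ha]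

theorem tf_sub_left (e e' f : V →ₗ[ℂ] V) : tf psi h (e - e') f = tf psi h e f - tf psi h e' f := by
  rw [tf, LinearMap.sub_comp, map_sub]; rfl

include P

theorem PosAlg.tf_symm {e f : V →ₗ[ℂ] V} (hf : f ∈ E) : tf psi h e f = tf psi h f e := by
  rw [tf, ← trace_adj psi h, adj_comp, adj_adj psi h P.symm (P.comm f hf)]
  rfl

theorem PosAlg.tf_rat {e f : V →ₗ[ℂ] V} (he : e ∈ E) (hf : f ∈ E) :
    ∃ r : ℚ, tf psi h e f = r := P.rat _ (P.comp_mem _ he _ (P.adj_mem _ hf))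

/-- an orthogonal family -/
structure Orth (psi : V →ₗ[ℂ] V →ₗ[ℂ] ℂ) (h : ∀ y, (∀ x, psi x y = 0) → y = 0)
    (E : AddSubgroup (V →ₗ[ℂ] V)) {N : ℕ} (e : Fin N → V →ₗ[ℂ] V) (q : Fin N → ℚ) : Prop where
  mem : ∀ i, e i ∈ E
  pos : ∀ i, 0 < q i
  orth : ∀ i j, tf psi h (e i) (e j) = if i = j then (q i : ℂ) else 0

omit P in
theorem Orth.indep {N : ℕ} {e : Fin N → V →ₗ[ℂ] V} {q : Fin N → ℚ} (O : Orth psi h E e q) :
    LinearIndependent ℂ e := by
  classical
  rw [Fintype.linearIndependent_iff]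
  intro g hg j
  have h1 : tf psi h (∑ i, g i • e i) (e j) = g j * q j := by
    rw [tf_sum_left, Finset.sum_eq_single j]
    · rw [tf_smul_left, O.orth, if_pos rfl]
    · intro i _ hij
      rw [tf_smul_left, O.orth, if_neg hij, mul_zero]
    · intro hj
      exact absurd (Finset.mem_univ j) hj
  rw [hg] at h1
  have h2 : tf psi h 0 (e j) = 0 := by
    rw [tf, LinearMap.zero_comp, map_zero]
  rw [h2] at h1
  have h3 : (q j : ℂ) ≠ 0 := by
    exact_mod_cast (O.pos j).ne'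
  exact (mul_eq_zero.1 h1.symm).resolve_right h3

omit P in
theorem Orth.le {N : ℕ} {e : Fin N → V →ₗ[ℂ] V} {q : Fin N → ℚ} (O : Orth psi h E e q) :
    N ≤ finrank ℂ (V →ₗ[ℂ] V) := by
  have := O.indep.fintype_card_le_finrank
  simpa using this

/-- an orthogonal family which spans `E` -/
def Complete (psi : V →ₗ[ℂ] V →ₗ[ℂ] ℂ) (h : ∀ y, (∀ x, psi x y = 0) → y = 0)
    (E : AddSubgroup (V →ₗ[ℂ] V)) {N : ℕ} (e : Fin N → V →ₗ[ℂ] V) (q : Fin N → ℚ) : Prop :=
  ∀ f ∈ E, f = ∑ i, (tf psi h f (e i) / q i) • e i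

theorem PosAlg.step {N : ℕ} {e : Fin N → V →ₗ[ℂ] V} {q : Fin N → ℚ} (O : Orth psi h E e q)
    (hc : ¬ Complete psi h E e q) :
    ∃ (e' : Fin (N + 1) → V →ₗ[ℂ] V) (q' : Fin (N + 1) → ℚ), Orth psi h E e' q' := by
  classical
  unfold Complete at hc
  push Not at hc
  obtain ⟨f, hf, hne⟩ := hc
  choose r hr using fun i => P.tf_rat hf (O.mem i)
  have hg0 : (∑ i, (tf psi h f (e i) / q i) • e i) ∈ E := by
    refine AddSubgroup.sum_mem _ fun i _ => ?_
    rw [hr i]
    have := P.smul_mem (r i / q i) (e i) (O.mem i)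
    push_cast at this
    exact this
  set g := f - ∑ i, (tf psi h f (e i) / q i) • e i with hg
  have hgE : g ∈ E := sub_mem hf hg0
  have hgne : g ≠ 0 := fun h0 => hne (sub_eq_zero.1 h0)
  have hgo : ∀ j, tf psi h g (e j) = 0 := by
    intro j
    rw [hg, tf_sub_left, tf_sum_left, Finset.sum_eq_single j]
    · rw [tf_smul_left, O.orth, if_pos rfl]
      have h3 : (q j : ℂ) ≠ 0 := by
        exact_mod_cast (O.pos j).ne'
      rw [div_mul_cancel₀ _ h3, sub_self]
    · intro i _ hij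
      rw [tf_smul_left, O.orth, if_neg hij, mul_zero]
    · intro hj
      exact absurd (Finset.mem_univ j) hj
  obtain ⟨s, hs, hs'⟩ := P.pos g hgE hgne
  refine ⟨Fin.snoc e g, Fin.snoc q s, ⟨?_, ?_, ?_⟩⟩
  · intro i
    refine Fin.lastCases ?_ (fun i => ?_) i
    · rw [Fin.snoc_last]; exact hgE
    · rw [Fin.snoc_castSucc]; exact O.mem i
  · intro i
    refine Fin.lastCases ?_ (fun i => ?_) i
    · rw [Fin.snoc_last]; exact hs
    · rw [Fin.snoc_castSucc]; exact O.pos i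
  · intro i j
    refine Fin.lastCases ?_ (fun i => ?_) i
    · refine Fin.lastCases ?_ (fun j => ?_) j
      · rw [Fin.snoc_last, if_pos rfl, Fin.snoc_last]
        exact hs'
      · rw [Fin.snoc_last, Fin.snoc_castSucc, hgo, if_neg]
        exact (Fin.castSucc_lt_last j).ne'
    · refine Fin.lastCases ?_ (fun j => ?_) j
      · rw [Fin.snoc_last, Fin.snoc_castSucc, P.tf_symm hgE, hgo, if_neg]
        exact (Fin.castSucc_lt_last i).ne
      · rw [Fin.snoc_castSucc, Fin.snoc_castSucc, Fin.snoc_castSucc, O.orth]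
        simp only [Fin.castSucc_inj]

/-- `E` has a finite orthogonal basis -/
theorem PosAlg.exists_complete : ∃ (N : ℕ) (e : Fin N → V →ₗ[ℂ] V) (q : Fin N → ℚ),
    Orth psi h E e q ∧ Complete psi h E e q := by
  classical
  by_contra hcon
  push Not at hcon
  have key : ∀ N : ℕ, ∃ (e : Fin N → V →ₗ[ℂ] V) (q : Fin N → ℚ), Orth psi h E e q := by
    intro N
    induction N with
    | zero => exact ⟨fun i => i.elim0, fun i => i.elim0, ⟨fun i => i.elim0, fun i => i.elim0,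
        fun i => i.elim0⟩⟩
    | succ N ih =>
      obtain ⟨e, q, O⟩ := ih
      exact P.step O (hcon N e q O)
  obtain ⟨e, q, O⟩ := key (finrank ℂ (V →ₗ[ℂ] V) + 1)
  have := O.le
  omega

/-- the standard hermitian form of a basis, linear in the first argument -/
noncomputable def g0 {n : ℕ} (b : Basis (Fin n) ℂ V) (x y : V) : ℂ :=
  ∑ k, b.repr x k * starRingEnd ℂ (b.repr y k)

/-- the invariant hermitian form, linear in the first argument -/
noncomputable def h0 (psi : V →ₗ[ℂ] V →ₗ[ℂ] ℂ) (h : ∀ y, (∀ x, psi x y = 0) → y = 0)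
    {n : ℕ} (b : Basis (Fin n) ℂ V) {N : ℕ} (e : Fin N → V →ₗ[ℂ] V) (q : Fin N → ℚ)
    (x y : V) : ℂ :=
  ∑ i, (q i : ℂ)⁻¹ * g0 b (adj psi h (e i) x) (adj psi h (e i) y)

section g0

omit P
omit [FiniteDimensional ℂ V]

variable {n : ℕ} (b : Basis (Fin n) ℂ V)

theorem g0_add_left (x x' y : V) : g0 b (x + x') y = g0 b x y + g0 b x' y := by
  unfold g0
  rw [← Finset.sum_add_distrib]
  refine Finset.sum_congr rfl fun k _ => ?_
  rw [map_add, Finsupp.add_apply, add_mul]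

theorem g0_smul_left (c : ℂ) (x y : V) : g0 b (c • x) y = c * g0 b x y := by
  unfold g0
  rw [Finset.mul_sum]
  refine Finset.sum_congr rfl fun k _ => ?_
  rw [map_smul, Finsupp.smul_apply, smul_eq_mul, mul_assoc]

theorem g0_conj (x y : V) : starRingEnd ℂ (g0 b x y) = g0 b y x := by
  unfold g0
  rw [map_sum]
  refine Finset.sum_congr rfl fun k _ => ?_
  rw [map_mul, Complex.conj_conj, mul_comm]

theorem g0_sum_left {ι : Type*} (s : Finset ι) (x : ι → V) (y : V) :
    g0 b (∑ i ∈ s, x i) y = ∑ i ∈ s, g0 b (x i) y := by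
  classical
  induction s using Finset.induction_on with
  | empty => simp [g0]
  | insert a s ha ih => rw [Finset.sum_insert ha, g0_add_left, ih, Finset.sum_insert ha]

theorem g0_self (x : V) : ∃ r : ℝ, 0 ≤ r ∧ g0 b x x = r ∧ (r = 0 → x = 0) := by
  refine ⟨∑ k, Complex.normSq (b.repr x k), Finset.sum_nonneg fun k _ => Complex.normSq_nonneg _,
    ?_, ?_⟩
  · unfold g0
    push_cast
    exact Finset.sum_congr rfl fun k _ => Complex.mul_conj _
  · intro h0
    rw [Finset.sum_eq_zero_iff_of_nonneg fun k _ => Complex.normSq_nonneg _] at h0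
    refine b.repr.map_eq_zero_iff.1 ?_
    ext k
    exact Complex.normSq_eq_zero.1 (h0 k (Finset.mem_univ k))

theorem g0_add_right (x y y' : V) : g0 b x (y + y') = g0 b x y + g0 b x y' := by
  rw [← g0_conj, g0_add_left, map_add, g0_conj, g0_conj]

theorem g0_smul_right (c : ℂ) (x y : V) : g0 b x (c • y) = starRingEnd ℂ c * g0 b x y := by
  rw [← g0_conj, g0_smul_left, map_mul, g0_conj]

theorem g0_sum_right {ι : Type*} (s : Finset ι) (x : V) (y : ι → V) :
    g0 b x (∑ i ∈ s, y i) = ∑ i ∈ s, g0 b x (y i) := by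
  rw [← g0_conj, g0_sum_left, map_sum]
  exact Finset.sum_congr rfl fun i _ => g0_conj b _ _

end g0

section h0

variable {n : ℕ} (b : Basis (Fin n) ℂ V) {N : ℕ} {e : Fin N → V →ₗ[ℂ] V} {q : Fin N → ℚ}

omit P in
theorem h0_add_left (x x' y : V) :
    h0 psi h b e q (x + x') y = h0 psi h b e q x y + h0 psi h b e q x' y := by
  unfold h0
  rw [← Finset.sum_add_distrib]
  refine Finset.sum_congr rfl fun k _ => ?_
  rw [map_add, g0_add_left, mul_add]

omit P in
theorem h0_smul_left (c : ℂ) (x y : V) :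
    h0 psi h b e q (c • x) y = c * h0 psi h b e q x y := by
  unfold h0
  rw [Finset.mul_sum]
  refine Finset.sum_congr rfl fun k _ => ?_
  rw [map_smul, g0_smul_left, mul_left_comm]

omit P in
theorem h0_conj (x y : V) : starRingEnd ℂ (h0 psi h b e q x y) = h0 psi h b e q y x := by
  unfold h0
  rw [map_sum]
  refine Finset.sum_congr rfl fun k _ => ?_
  rw [map_mul, g0_conj]
  congr 1
  rw [map_inv₀, map_ratCast]

omit P in
theorem Complete.span {q : Fin N → ℚ} (O : Orth psi h E e q) (C : Complete psi h E e q)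
    {f : V →ₗ[ℂ] V} (hf : f ∈ E) (x : V) :
    adj psi h f x = ∑ i, (tf psi h f (e i) / q i) • adj psi h (e i) x := by
  have h1 : adj psi h f = ∑ i, (tf psi h f (e i) / q i) • adj psi h (e i) := by
    conv_lhs => rw [C f hf]
    rw [← adjL_apply, map_sum]
    refine Finset.sum_congr rfl fun i _ => ?_
    rw [map_smul, adjL_apply]
  rw [h1, LinearMap.sum_apply]
  rfl

theorem PosAlg.h0_inv (O : Orth psi h E e q) (C : Complete psi h E e q) {f : V →ₗ[ℂ] V}
    (hf : f ∈ E) (x y : V) :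
    h0 psi h b e q (f x) y = h0 psi h b e q x (adj psi h f y) := by
  have hf' := P.adj_mem f hf
  have e1 : ∀ j, adj psi h (e j) (f x)
      = ∑ i, (tf psi h (adj psi h f ∘ₗ e j) (e i) / q i) • adj psi h (e i) x := by
    intro j
    rw [← C.span O (P.comp_mem _ hf' _ (O.mem j)), adj_comp,
      adj_adj psi h P.symm (P.comm f hf)]
    rfl
  have e2 : ∀ i, adj psi h (e i) (adj psi h f y)
      = ∑ j, (tf psi h (f ∘ₗ e i) (e j) / q j) • adj psi h (e j) y := by
    intro i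
    rw [← C.span O (P.comp_mem _ hf _ (O.mem i)), adj_comp]
    rfl
  have e3 : ∀ i j, tf psi h (adj psi h f ∘ₗ e j) (e i) = tf psi h (f ∘ₗ e i) (e j) := by
    intro i j
    rw [tf, ← trace_adj psi h, adj_comp, adj_comp, adj_adj psi h P.symm (P.comm _ (O.mem i)),
      adj_adj psi h P.symm (P.comm f hf), tf]
    have h1 := LinearMap.trace_mul_comm ℂ f (e i * adj psi h (e j))
    rw [← mul_assoc] at h1
    exact h1.symm
  unfold h0
  calc ∑ j, (q j : ℂ)⁻¹ * g0 b (adj psi h (e j) (f x)) (adj psi h (e j) y)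
      = ∑ j, ∑ i, (q j : ℂ)⁻¹ * ((tf psi h (adj psi h f ∘ₗ e j) (e i) / q i)
          * g0 b (adj psi h (e i) x) (adj psi h (e j) y)) := by
        refine Finset.sum_congr rfl fun j _ => ?_
        rw [e1, g0_sum_left, Finset.mul_sum]
        exact Finset.sum_congr rfl fun i _ => by rw [g0_smul_left]
    _ = ∑ i, ∑ j, (q j : ℂ)⁻¹ * ((tf psi h (adj psi h f ∘ₗ e j) (e i) / q i)
          * g0 b (adj psi h (e i) x) (adj psi h (e j) y)) := Finset.sum_comm
    _ = ∑ i, (q i : ℂ)⁻¹ * g0 b (adj psi h (e i) x) (adj psi h (e i) (adj psi h f y)) := by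
        refine Finset.sum_congr rfl fun i _ => ?_
        rw [e2, g0_sum_right, Finset.mul_sum]
        refine Finset.sum_congr rfl fun j _ => ?_
        obtain ⟨r, hr⟩ := P.tf_rat (P.comp_mem _ hf _ (O.mem i)) (O.mem j)
        rw [g0_smul_right, e3, hr, map_div₀, map_ratCast, map_ratCast]
        ring

theorem PosAlg.h0_self (O : Orth psi h E e q) (C : Complete psi h E e q) (x : V) :
    ∃ r : ℝ, 0 ≤ r ∧ h0 psi h b e q x x = r ∧ (r = 0 → x = 0) := by
  choose r hr0 hr hr1 using fun i => g0_self b (adj psi h (e i) x)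
  have hq : ∀ i, (0 : ℝ) < (q i : ℝ)⁻¹ := fun i => inv_pos.2 (by exact_mod_cast O.pos i)
  have hnn : ∀ i ∈ (Finset.univ : Finset (Fin N)), 0 ≤ (q i : ℝ)⁻¹ * r i :=
    fun i _ => mul_nonneg (hq i).le (hr0 i)
  refine ⟨∑ i, (q i : ℝ)⁻¹ * r i, Finset.sum_nonneg hnn, ?_, ?_⟩
  · unfold h0
    push_cast
    exact Finset.sum_congr rfl fun i _ => by rw [hr i]
  · intro h0
    rw [Finset.sum_eq_zero_iff_of_nonneg hnn] at h0
    have h1 : ∀ i, adj psi h (e i) x = 0 := by
      intro i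
      have h2 := h0 i (Finset.mem_univ i)
      exact hr1 i ((mul_eq_zero.1 h2).resolve_left (hq i).ne')
    have h3 := C.span O P.one_mem x
    have h4 : adj psi h (LinearMap.id : V →ₗ[ℂ] V) = LinearMap.id :=
      adj_unique psi h fun x y => rfl
    rw [h4] at h3
    rw [LinearMap.id_apply] at h3
    rw [h3]
    exact Finset.sum_eq_zero fun i _ => by rw [h1 i, smul_zero]

end h0

end fam

end Pool.Agent.Lib.MP_361a6f_ag.PP
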