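import Mathlib

/-!
# Exponentials of nilpotent elements of a `K`-algebra, `K` a field of characteristic zero
-/

open Finset
open scoped Nat

namespace Pool.Agent.Lib.MP_361a6f_ag.PP

variable (K : Type*) [Field K] [CharZero K] {A : Type*} [Ring A] [Algebra K A]

/-- The exponential of a nilpotent element. -/
noncomputable def kexp (a : A) : A :=
  ∑ i ∈ range (nilpotencyClass a), ((i ! : K)⁻¹) • a ^ i

/-- the structure of a rational vector space on a `K`-algebra -/
@[reducible] def ratModule (K : Type*) [Field K] [CharZero K] (A : Type*) [Ring A] [Algebra K A] :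
    Module ℚ A := Module.compHom A (algebraMap ℚ K)

theorem rat_smul_eq (q : ℚ) (a : A) : (ratModule K A).toSMul.smul q a = (q : K) • a := rfl

theorem kexp_eq (a : A) : kexp K a = @IsNilpotent.exp A _ (ratModule K A) a := by
  let _ := ratModule K A
  rw [kexp, IsNilpotent.exp]
  refine Finset.sum_congr rfl fun i _ => ?_
  change _ = (((i ! : ℚ)⁻¹ : ℚ) : K) • a ^ i
  congr 1
  push_cast
  rfl

theorem kexp_eq_sum {a : A} {N : ℕ} (h : a ^ N = 0) :
    kexp K a = ∑ i ∈ range N, ((i ! : K)⁻¹) • a ^ i := by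
  let _ := ratModule K A
  rw [kexp_eq, IsNilpotent.exp_eq_sum h]
  refine Finset.sum_congr rfl fun i _ => ?_
  change (((i ! : ℚ)⁻¹ : ℚ) : K) • a ^ i = _
  congr 1
  push_cast
  rfl

theorem kexp_add {a b : A} (h : Commute a b) (ha : IsNilpotent a) (hb : IsNilpotent b) :
    kexp K (a + b) = kexp K a * kexp K b := by
  let _ := ratModule K A
  rw [kexp_eq, kexp_eq, kexp_eq, IsNilpotent.exp_add_of_commute h ha hb]

theorem kexp_mul_neg {a : A} (ha : IsNilpotent a) : kexp K a * kexp K (-a) = 1 := by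
  let _ := ratModule K A
  rw [kexp_eq, kexp_eq, IsNilpotent.exp_mul_exp_neg_self ha]

theorem kexp_neg_mul {a : A} (ha : IsNilpotent a) : kexp K (-a) * kexp K a = 1 := by
  let _ := ratModule K A
  rw [kexp_eq, kexp_eq, IsNilpotent.exp_neg_mul_exp_self ha]

theorem kexp_zero : kexp K (0 : A) = 1 := by
  rw [kexp_eq_sum K (pow_one (0 : A))]
  simp

theorem map_kexp {B : Type*} [Ring B] [Algebra K B] (f : A →ₐ[K] B) {a : A} (ha : IsNilpotent a) :
    f (kexp K a) = kexp K (f a) := by
  obtain ⟨N, hN⟩ := ha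
  have hN' : (f a) ^ N = 0 := by rw [← map_pow, hN, map_zero]
  rw [kexp_eq_sum K hN, kexp_eq_sum K hN', map_sum]
  simp

/-- if `a x = x b` then `exp a x = x exp b` -/
theorem kexp_semiconj {a b x : A} (ha : IsNilpotent a) (hb : IsNilpotent b) (h : a * x = x * b) :
    kexp K a * x = x * kexp K b := by
  obtain ⟨n, hn⟩ := ha
  obtain ⟨m, hm⟩ := hb
  have hn' : a ^ (n + m) = 0 := by rw [pow_add, hn, zero_mul]
  have hm' : b ^ (n + m) = 0 := by rw [pow_add, hm, mul_zero]
  have key : ∀ i : ℕ, a ^ i * x = x * b ^ i := by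
    intro i
    induction i with
    | zero => simp
    | succ i ih => rw [pow_succ, mul_assoc, h, ← mul_assoc, ih, mul_assoc, ← pow_succ]
  rw [kexp_eq_sum K hn', kexp_eq_sum K hm', Finset.sum_mul, Finset.mul_sum]
  refine Finset.sum_congr rfl fun i _ => ?_
  rw [smul_mul_assoc, key, mul_smul_comm]

theorem commute_kexp {a b : A} (ha : IsNilpotent a) (hb : IsNilpotent b) (h : Commute a b) :
    Commute (kexp K a) (kexp K b) := by
  have h1 : Commute a (kexp K b) := (kexp_semiconj K hb hb h.symm.eq : _).symm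
  exact kexp_semiconj K ha ha h1.eq

/-- the same for linear maps between two modules -/
theorem kexp_intertwine {V V' : Type*} [AddCommGroup V] [Module K V] [AddCommGroup V']
    [Module K V'] {a : Module.End K V} {b : Module.End K V'} (ha : IsNilpotent a)
    (hb : IsNilpotent b) (g : V →ₗ[K] V') (h : ∀ v, b (g v) = g (a v)) (v : V) :
    kexp K b (g v) = g (kexp K a v) := by
  obtain ⟨n, hn⟩ := ha
  obtain ⟨m, hm⟩ := hb
  have hn' : a ^ (n + m) = 0 := by rw [pow_add, hn, zero_mul]
  have hm' : b ^ (n + m) = 0 := by rw [pow_add, hm, mul_zero]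
  have key : ∀ i : ℕ, (b ^ i) (g v) = g ((a ^ i) v) := by
    intro i
    induction i with
    | zero => simp
    | succ i ih =>
      rw [pow_succ', Module.End.mul_apply, ih, h, pow_succ', Module.End.mul_apply]
  rw [kexp_eq_sum K hn', kexp_eq_sum K hm', LinearMap.sum_apply, LinearMap.sum_apply, map_sum]
  refine Finset.sum_congr rfl fun i _ => ?_
  rw [LinearMap.smul_apply, LinearMap.smul_apply, key, map_smul]

/-- conjugation with an exponential when the third commutator vanishes -/
theorem kexp_conj {a b c d : A} (ha : IsNilpotent a) (h1 : a * b - b * a = c)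
    (h2 : a * c - c * a = d) (h3 : a * d = d * a) :
    kexp K a * b * kexp K (-a) = b + c + ((2 : K)⁻¹) • d := by
  -- the operators of left and right multiplication
  obtain ⟨l, hl0⟩ : ∃ l : A →ₗ[K] A, l = LinearMap.mulLeft K a := ⟨_, rfl⟩
  obtain ⟨r, hr0⟩ : ∃ r : A →ₗ[K] A, r = LinearMap.mulRight K (-a) := ⟨_, rfl⟩
  have pl : ∀ N : ℕ, a ^ N = 0 → l ^ N = 0 := by
    intro N hN
    rw [hl0, LinearMap.pow_mulLeft, hN, LinearMap.mulLeft_zero_eq_zero]
  have pr : ∀ N : ℕ, (-a) ^ N = 0 → r ^ N = 0 := by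
    intro N hN
    rw [hr0, LinearMap.pow_mulRight, hN, LinearMap.mulRight_zero_eq_zero]
  have hl : IsNilpotent l := by
    obtain ⟨N, hN⟩ := ha
    exact ⟨N, pl N hN⟩
  have hr : IsNilpotent r := by
    obtain ⟨N, hN⟩ := ha.neg
    exact ⟨N, pr N hN⟩
  have hlr : Commute l r := by
    refine LinearMap.ext fun x => ?_
    simp [hl0, hr0, mul_assoc]
  have e1 : ∀ x, kexp K l x = kexp K a * x := by
    intro x
    obtain ⟨N, hN⟩ := ha
    rw [kexp_eq_sum K hN, kexp_eq_sum K (pl N hN), LinearMap.sum_apply, Finset.sum_mul]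
    refine Finset.sum_congr rfl fun i _ => ?_
    rw [LinearMap.smul_apply, hl0, LinearMap.pow_mulLeft, LinearMap.mulLeft_apply, smul_mul_assoc]
  have e2 : ∀ x, kexp K r x = x * kexp K (-a) := by
    intro x
    obtain ⟨N, hN⟩ := ha.neg
    rw [kexp_eq_sum K hN, kexp_eq_sum K (pr N hN), LinearMap.sum_apply, Finset.mul_sum]
    refine Finset.sum_congr rfl fun i _ => ?_
    rw [LinearMap.smul_apply, hr0, LinearMap.pow_mulRight, LinearMap.mulRight_apply,
      mul_smul_comm]
  have hs := kexp_add K hlr hl hr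
  have h4 := congrArg (fun f : A →ₗ[K] A => f b) hs
  simp only [Module.End.mul_apply] at h4
  rw [e1, e2, ← mul_assoc] at h4
  rw [← h4]
  have g1 : (l + r) b = c := by
    rw [← h1, hl0, hr0]; simp [sub_eq_add_neg]
  have g2 : (l + r) c = d := by
    rw [← h2, hl0, hr0]; simp [sub_eq_add_neg]
  have g3 : (l + r) d = 0 := by
    rw [hl0, hr0]; simp [h3]
  obtain ⟨N, hN⟩ := hlr.isNilpotent_add hl hr
  have hN3 : (l + r) ^ (3 + N) = 0 := by rw [pow_add, hN, mul_zero]
  have g4 : ∀ i, ((l + r) ^ (3 + i)) b = 0 := by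
    intro i
    have e : (l + r) ^ (3 + i) = (l + r) ^ i * ((l + r) * ((l + r) * (l + r))) := by
      rw [add_comm 3 i, pow_add, pow_succ' _ 2, pow_two]
    rw [e, Module.End.mul_apply, Module.End.mul_apply, Module.End.mul_apply, g1, g2, g3, map_zero]
  rw [kexp_eq_sum K hN3, LinearMap.sum_apply, Finset.sum_range_add]
  have h5 : ∑ x ∈ range N, ((((3 + x) ! : K))⁻¹ • (l + r) ^ (3 + x)) b = 0 := by
    refine Finset.sum_eq_zero fun i _ => ?_
    rw [LinearMap.smul_apply, g4, smul_zero]
  rw [h5, add_zero]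
  simp only [Finset.sum_range_succ, Finset.sum_range_zero, zero_add, Nat.factorial_zero,
    Nat.cast_one, inv_one, pow_zero, one_smul, Nat.factorial_one, pow_one,
    Module.End.one_apply, LinearMap.smul_apply, g1, Nat.factorial_two, Nat.cast_ofNat, pow_two,
    Module.End.mul_apply, g2]

end Pool.Agent.Lib.MP_361a6f_ag.PP
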