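import Pool.Agent.Lib.MP_361a6f_ag.SQ.Defs
import Pool.Agent.Lib.MP_361a6f_ag.IP2.Defs

/-!
# Classes on products that come from pairs of factors: the definitions used in the statement
-/

open CategoryTheory AlgebraicGeometry MonoidalCategory CartesianMonoidalCategory

universe u v w

namespace Pool.Agent.Lib.MP_361a6f_ag.PP

open Pool.Agent.Lib.MP_361a6f_ag.H3 Pool.Agent.Lib.MP_361a6f_ag.SQ
  Pool.Agent.Lib.MP_361a6f_ag.IP2

noncomputable section

variable {k : Type u} [Field k] {K : Type v} [Field K]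

/-- The `i`-th projection `X_0 × ⋯ × X_r → X_i`. -/
def prSeq (X : ℕ → Sch k) :
    (r : ℕ) → (i : Fin (r + 1)) → Sch.Mor (prodSeq X r) (X (i : ℕ))
  | 0, i => Fin.cases (motive := fun i : Fin 1 => Sch.Mor (prodSeq X 0) (X (i : ℕ))) (𝟙 _)
      (fun j => j.elim0) i
  | r + 1, i => Fin.lastCases (motive := fun i : Fin (r + 1 + 1) =>
      Sch.Mor (prodSeq X (r + 1)) (X (i : ℕ))) (Sch.pr₂ (prodSeq X r) (X (r + 1)))
      (fun i => Sch.pr₁ (prodSeq X r) (X (r + 1)) ≫ prSeq X r i) i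

/-- The morphism `(pr_i, pr_j) : X_0 × ⋯ × X_r → X_i × X_j`. -/
def prPair (X : ℕ → Sch k) (r : ℕ) (i j : Fin (r + 1)) :
    Sch.Mor (prodSeq X r) ((X (i : ℕ)).prod (X (j : ℕ))) :=
  lift (prSeq X r i) (prSeq X r j)

/-- The classes on `X_0 × ⋯ × X_r` that are products of pull-backs of algebraic classes on single
factors `X_i` (under `pr_i`) and on products `X_i × X_j` of two factors, `i ≠ j` (under
`(pr_i, pr_j)`), such that every index occurs at most once; `S` is the set of the indices that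
occur. -/
inductive PairClass (W : CohomologyData.{u, v, w} k K) (X : ℕ → Sch k) (r : ℕ) :
    Finset (Fin (r + 1)) → W.coh (prodSeq X r) → Prop
  | one : PairClass W X r ∅ 1
  | single (S : Finset (Fin (r + 1))) (z : W.coh (prodSeq X r)) (i : Fin (r + 1)) (l : ℕ)
      (a : W.coh (X (i : ℕ))) : PairClass W X r S z → i ∉ S → W.IsAlg (X (i : ℕ)) l a →
      PairClass W X r (insert i S) (W.cup z (W.pb (prSeq X r i) a))
  | pair (S : Finset (Fin (r + 1))) (z : W.coh (prodSeq X r)) (i j : Fin (r + 1)) (l : ℕ)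
      (a : W.coh ((X (i : ℕ)).prod (X (j : ℕ)))) : PairClass W X r S z → i ∉ S → j ∉ S → i ≠ j →
      W.IsAlg ((X (i : ℕ)).prod (X (j : ℕ))) l a →
      PairClass W X r (insert i (insert j S)) (W.cup z (W.pb (prPair X r i j) a))

/-- The `K`-span of the classes `z` with `PairClass W X r S z` for some `S`. -/
def pairSpan (W : CohomologyData.{u, v, w} k K) (X : ℕ → Sch k) (r : ℕ) :
    Submodule K (W.coh (prodSeq X r)) :=
  Submodule.span K {z | ∃ S, PairClass W X r S z}

/-- `Q1` for `(X, ξ)` on the algebraic classes in the subspace `R`. -/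
def HodgeOn (W : CohomologyData.{u, v, w} k K) (X : Sch k) (n : ℕ) (ξ : W.coh X)
    (R : Submodule K (W.coh X)) : Prop :=
  ∀ j, 2 * j ≤ n → ∀ x, W.IsAlg X j x → x ∈ R → W.cup (ξ ^ (n - 2 * j + 1)) x = 0 → x ≠ 0 →
    RatPos ((-1) ^ j * W.Tr (W.cup (ξ ^ (n - 2 * j)) (W.cup x x)))

end

end Pool.Agent.Lib.MP_361a6f_ag.PP
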