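import Pool.Agent.Lib.MP_361a6f_ag.PP.Stat

/-!
# Frobenius on products: the definitions used in the statement
-/

open CategoryTheory AlgebraicGeometry MonoidalCategory CartesianMonoidalCategory

universe u v w

namespace Pool.Agent.Lib.MP_361a6f_ag.PP

open Pool.Agent.Lib.MP_361a6f_ag.H3 Pool.Agent.Lib.MP_361a6f_ag.SQ
  Pool.Agent.Lib.MP_361a6f_ag.IP2

variable {k : Type u} [Field k] {K : Type v} [Field K]

/-- The endomorphisms `F a` of the varieties `X a` (of dimension `n a`) act like the `q`-Frobenius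
endomorphisms of models over the field with `q` elements: `F a` has degree `q^(n a)`, it multiplies
`ξ a` by `q`, and every algebraic class of codimension `j` on a product
`X (s 0) × ⋯ × X (s r)` is multiplied by `q^(j t)` under some iterate `t ≥ 1` of
`F (s 0) × ⋯ × F (s r)`. -/
structure FrobeniusProducts (W : CohomologyData.{u, v, w} k K) {m : ℕ} (X : Fin m → Sch k)
    (n : Fin m → ℕ) (ξ : ∀ a, W.coh (X a)) (F : ∀ a, Sch.Mor (X a) (X a)) (q : ℕ) : Prop where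
  deg : ∀ a x, W.Tr (W.pb (F a) x) = (q : K) ^ (n a) * W.Tr x
  pol : ∀ a, W.pb (F a) (ξ a) = W.scal (q : K) (ξ a)
  alg : ∀ (s : ℕ → Fin m) (r j : ℕ) (z : W.coh (prodSeq (fun i => X (s i)) r)),
    W.IsAlg (prodSeq (fun i => X (s i)) r) j z →
    ∃ t : ℕ, 0 < t ∧ (W.pb (homSeq (fun i => F (s i)) r))^[t] z = W.scal ((q : K) ^ (j * t)) z

/-- Tate's theorem for `H^1(X a) ⊗ H^1(X b)`: every class `z` in this space such that
`((F a × F b)^{*t} - q^t)^N z = 0` for some `t ≥ 1`, `N`, is a `K`-linear combination of classes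
in `C^1(X a × X b)`. -/
def TateOne (W : CohomologyData.{u, v, w} k K) {m : ℕ} (X : Fin m → Sch k)
    (F : ∀ a, Sch.Mor (X a) (X a)) (q : ℕ) : Prop :=
  ∀ (a b : Fin m) (t N : ℕ) (z : W.coh ((X a).prod (X b))), 0 < t →
    z ∈ Submodule.span K {z | ∃ (x : W.coh (X a)) (y : W.coh (X b)), W.Deg (X a) 1 x ∧
      W.Deg (X b) 1 y ∧ z = W.ext x y} →
    (fun y => (W.pb (F a ⊗ₘ F b))^[t] y - W.scal ((q : K) ^ t) y)^[N] z = 0 →
    z ∈ Submodule.span K {y | W.IsAlg ((X a).prod (X b)) 1 y}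

/-- Multiplicative relations between the Frobenius eigenvalues on the transcendental primitive
cohomology of the factors of `X (s 0) × ⋯ × X (s r)` come from pairs: if `S ⊆ {0, …, r}` and
`α p` are complex roots of `Φ (s p) (i p)`, `p ∈ S`, with `∑ i p = 2 c` such that
`(∏ α p) / q^c` is a root of unity then there is an involution `σ` of `S` without fixed points such
that for every `p ∈ S` either `i p = i (σ p) = 1` and `α p α (σ p) / q` is a root of unity or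
`s (σ p) = s p`, `i (σ p) = i p` and `α (σ p)` is the complex conjugate of `α p`. -/
def Matched {m : ℕ} (n : Fin m → ℕ) (q : ℕ) (Φ : Fin m → ℕ → Polynomial ℚ) (s : ℕ → Fin m)
    (r : ℕ) : Prop :=
  ∀ (S : Finset ℕ) (i : ℕ → ℕ) (α : ℕ → ℂ) (c t : ℕ),
    (∀ p ∈ S, p ≤ r ∧ i p ≤ n (s p) ∧ Polynomial.aeval (α p) (Φ (s p) (i p)) = 0) →
    ∑ p ∈ S, i p = 2 * c → 0 < t → (∏ p ∈ S, α p) ^ t = ((q : ℂ) ^ c) ^ t →
    ∃ σ : ℕ → ℕ, ∀ p ∈ S, σ p ∈ S ∧ σ (σ p) = p ∧ σ p ≠ p ∧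
      ((i p = 1 ∧ i (σ p) = 1 ∧ ∃ t' : ℕ, 0 < t' ∧ (α p * α (σ p)) ^ t' = (q : ℂ) ^ t') ∨
        (s (σ p) = s p ∧ i (σ p) = i p ∧ α (σ p) = starRingEnd ℂ (α p)))

end Pool.Agent.Lib.MP_361a6f_ag.PP
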